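/-
MP_4c8320_lc, part F (abstract part): definitions.
A pair of forcing notions Q (small) and P (big) with projection `pr : P → Q` and amalgamation `am s p = s ∧ p`.
Names are families of sets of conditions.  helper40.
-/
import Mathlib

namespace Pool.Agent.H40.IS

open Cardinal Ordinal Set

universe u v w

section basic
variable {Q : Type v} [Preorder Q]

/-- regular open sets of conditions -/
def Reg (a : Set Q) : Prop :=
  IsLowerSet a ∧ ∀ t, (∀ t' ≤ t, ∃ t'' ≤ t', t'' ∈ a) → t ∈ a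

/-- names for elements of `Y`, below the condition `s` -/
structure Nm (Q : Type v) [Preorder Q] (s : Q) (Y : Type w) where
  val : Y → Set Q
  lower : ∀ y, IsLowerSet (val y)
  uniq : ∀ {t y y'}, t ∈ val y → t ∈ val y' → y = y'
  dense : ∀ t ≤ s, ∃ t' ≤ t, ∃ y, t' ∈ val y

/-- `κ`-distributivity: fewer than `κ` open dense sets have a dense intersection -/
def Dist (κ : Cardinal.{u}) (Q : Type v) [Preorder Q] : Prop :=
  ∀ μ < κ.ord, ∀ D : Ordinal.{u} → Set Q,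
    (∀ x < μ, IsLowerSet (D x) ∧ ∀ t, ∃ t' ≤ t, t' ∈ D x) →
    ∀ t, ∃ t' ≤ t, ∀ x < μ, t' ∈ D x

/-- `t` forces that `δ` is closed under the function named by `F` -/
def FCl {s : Q} (F : Ordinal.{u} → Nm Q s Ordinal.{u}) (δ : Ordinal.{u}) (t : Q) : Prop :=
  ∀ c < δ, ∀ t' ≤ t, ∃ t'' ≤ t', ∃ v < δ, t'' ∈ (F c).val v

/-- `p` forces that `C` is a closed unbounded subset of `κ` -/
structure ClubName (κ : Cardinal.{u}) (p : Q) (C : Ordinal.{u} → Set Q) : Prop where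
  reg : ∀ δ, Reg (C δ)
  unb : ∀ α < κ.ord, ∀ r ≤ p, ∃ r' ≤ r, ∃ β, α < β ∧ β < κ.ord ∧ r' ∈ C β
  closed : ∀ δ < κ.ord, Order.IsSuccLimit δ → ∀ r ≤ p,
    (∀ α < δ, ∀ r' ≤ r, ∃ r'' ≤ r', ∃ β, α < β ∧ β < δ ∧ r'' ∈ C β) → r ∈ C δ

end basic

/-- The abstract situation of the absoluteness theorem: `Q` is a complete subforcing of `P` with projection `pr`. -/
structure FP (κ : Cardinal.{u}) (Q : Type v) (P : Type v) [Preorder Q] [Preorder P] where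
  pr : P → Q
  am : Q → P → P
  pr_mono : ∀ {p q : P}, p ≤ q → pr p ≤ pr q
  am_le : ∀ {s : Q} {p : P}, s ≤ pr p → am s p ≤ p
  pr_am : ∀ {s : Q} {p : P}, s ≤ pr p → pr (am s p) ≤ s
  le_pr_am : ∀ {s : Q} {p : P}, s ≤ pr p → s ≤ pr (am s p)
  le_am : ∀ {s : Q} {p r : P}, s ≤ pr p → r ≤ p → pr r ≤ s → r ≤ am s p
  distQ : Dist κ Q
  distP : Dist κ P
  ctbQ : ∀ t : ℕ → Q, Antitone t → ∃ r, ∀ n, r ≤ t n
  ctb : ∀ q : ℕ → P, Antitone q → ∃ r, (∀ n, r ≤ q n) ∧ ∀ t, (∀ n, t ≤ pr (q n)) → t ≤ pr r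
  sp : ∀ (s : Q) (q : P) (C : Ordinal.{u} → Set P), s ≤ pr q → ClubName κ (am s q) C →
    ∃ F : Ordinal.{u} → Nm Q s Ordinal.{u},
      (∀ c, ∀ v, ∀ t ∈ (F c).val v, v < κ.ord) ∧
      ∀ δ < κ.ord, Order.IsSuccLimit δ → ∀ t ≤ s, FCl F δ t →
        ∃ t' ≤ t, ∃ q' ≤ q, t' ≤ pr q' ∧ am t' q' ∈ C δ

section abs
variable {κ : Cardinal.{u}} {Q P : Type v} [Preorder Q] [Preorder P]

/-- `s ∧ q` forces that `f` is a bijection from `X` to `Y` (subsets of `κ`) -/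
structure Bij (F : FP κ Q P) (s : Q) (q : P) (X Y : Ordinal.{u} → Set Q)
    (f : Ordinal.{u} → Ordinal.{u} → Set P) : Prop where
  le : s ≤ F.pr q
  lX : ∀ x, IsLowerSet (X x)
  lY : ∀ x, IsLowerSet (Y x)
  lower : ∀ x y, IsLowerSet (f x y)
  dom : ∀ r ≤ F.am s q, ∀ x y, r ∈ f x y → x < κ.ord ∧ y < κ.ord ∧ F.pr r ∈ X x ∧ F.pr r ∈ Y y
  fn : ∀ r ≤ F.am s q, ∀ x y y', r ∈ f x y → r ∈ f x y' → y = y'
  inj : ∀ r ≤ F.am s q, ∀ x x' y, r ∈ f x y → r ∈ f x' y → x = x'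
  tot : ∀ r ≤ F.am s q, ∀ x < κ.ord, F.pr r ∈ X x → ∃ r' ≤ r, ∃ y, r' ∈ f x y
  onto : ∀ r ≤ F.am s q, ∀ y < κ.ord, F.pr r ∈ Y y → ∃ r' ≤ r, ∃ x, r' ∈ f x y

/-- `G` is a `Q`-name of a bijection from `X` to `Y` all of whose values are possible values of `f`
(with witness conditions); on the open set `O`. -/
structure Match (F : FP κ Q P) (O : Set Q) (q : P) (X Y : Ordinal.{u} → Set Q)
    (f : Ordinal.{u} → Ordinal.{u} → Set P) (G : Ordinal.{u} → Ordinal.{u} → P → Set Q) : Prop where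
  lower : ∀ x y q', IsLowerSet (G x y q')
  sound : ∀ {t x y q'}, t ∈ G x y q' → t ∈ O ∧ x < κ.ord ∧ y < κ.ord ∧ t ∈ X x ∧ t ∈ Y y ∧
    q' ≤ q ∧ t ≤ F.pr q' ∧ F.am t q' ∈ f x y
  uniq : ∀ {t x y y' q' q''}, t ∈ G x y q' → t ∈ G x y' q'' → y = y' ∧ q' = q''
  inj : ∀ {t x x' y q' q''}, t ∈ G x y q' → t ∈ G x' y q'' → x = x'
  tot : ∀ t ∈ O, ∀ x < κ.ord, t ∈ X x → ∃ t' ≤ t, ∃ y q', t' ∈ G x y q'
  onto : ∀ t ∈ O, ∀ y < κ.ord, t ∈ Y y → ∃ t' ≤ t, ∃ x q', t' ∈ G x y q'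

end abs

section str
variable {Q : Type v} [Preorder Q]

/-- `s` forces that `A n` (`n : ℕ`) are refining equivalence relations on `κ` -/
structure StrName (κ : Cardinal.{u}) (s : Q) (A : ℕ → Ordinal.{u} → Ordinal.{u} → Set Q) : Prop where
  reg : ∀ n x y, Reg (A n x y)
  dom : ∀ n x y, ∀ t ≤ s, t ∈ A n x y → x < κ.ord ∧ y < κ.ord
  refl : ∀ n, ∀ x < κ.ord, ∀ t ≤ s, t ∈ A n x x
  symm : ∀ n x y, ∀ t ≤ s, t ∈ A n x y → t ∈ A n y x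
  trans : ∀ n x y z, ∀ t ≤ s, t ∈ A n x y → t ∈ A n y z → t ∈ A n x z
  refine' : ∀ n x y, ∀ t ≤ s, t ∈ A (n + 1) x y → t ∈ A n x y

/-- `s` forces that `H` is an isomorphism from `A` to `B` (structures with universe `κ`) -/
structure IsoName (κ : Cardinal.{u}) (s : Q) (A B : ℕ → Ordinal.{u} → Ordinal.{u} → Set Q)
    (H : Ordinal.{u} → Ordinal.{u} → Set Q) : Prop where
  lower : ∀ x y, IsLowerSet (H x y)
  dom : ∀ t ≤ s, ∀ x y, t ∈ H x y → x < κ.ord ∧ y < κ.ord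
  fn : ∀ t ≤ s, ∀ x y y', t ∈ H x y → t ∈ H x y' → y = y'
  inj : ∀ t ≤ s, ∀ x x' y, t ∈ H x y → t ∈ H x' y → x = x'
  tot : ∀ t ≤ s, ∀ x < κ.ord, ∃ t' ≤ t, ∃ y, t' ∈ H x y
  onto : ∀ t ≤ s, ∀ y < κ.ord, ∃ t' ≤ t, ∃ x, t' ∈ H x y
  pres : ∀ t ≤ s, ∀ x y x' y', t ∈ H x y → t ∈ H x' y' → ∀ n, (t ∈ A n x x' ↔ t ∈ B n y y')

end str

/-- pull back of a structure name along the projection -/
def pull {κ : Cardinal.{u}} {Q P : Type v} [Preorder Q] [Preorder P] (F : FP κ Q P)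
    (A : ℕ → Ordinal.{u} → Ordinal.{u} → Set Q) : ℕ → Ordinal.{u} → Ordinal.{u} → Set P :=
  fun n x y => {r | F.pr r ∈ A n x y}

end Pool.Agent.H40.IS
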