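/-
AB1 (Bas).  Basic lemmas on antichains, distributivity and amalgamation.  Imports Abs only.  About 160 lines.
PROOFS.
exists_antichain: Zorn, a maximal subset of O of pairwise incompatible elements.  If t ∈ O (O lower) were incompatible with
  all a ∈ A, then insert t A would be a bigger one.
Dist.below: apply Dist to D' x = {t | t ∈ D x ∨ ∀ t' ≤ t, ¬ t' ≤ s} (open; dense: if some t' ≤ t has t' ≤ s use hD at t').
  The result t' ≤ t ≤ s excludes the second alternative (t' itself is ≤ s).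
Dist.below2: for x < μ the set D1 x = {t | ∀ y < ν, t ∈ D x y} is open, dense below s by Dist.below; apply Dist.below again.
Dist.belowN: ordinals < ω are natural numbers: D1 x = {t | ∀ n : ℕ, x = n → t ∈ D n}; ω < κ.ord.
FP.am_mono: am t q ≤ q ≤ p by am_le and pr (am t q) ≤ t ≤ s by pr_am, so le_am gives the claim.
FP.of_le_am: r ≤ am s q gives r ≤ q and pr r ≤ s (pr_mono, pr_am).
FP.le_am_pr: r ≤ p, then r ≤ am (pr r) p (le_am with s = pr r ≤ pr p).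
reg_pull: lower by pr_mono.  If densely below r the projection is in a, then for t ≤ pr r take am t r ≤ r, get r'' ≤ am t r
  with pr r'' ∈ a and pr r'' ≤ pr (am t r) ≤ t; so pr r ∈ a by the regularity of a.
ClubName.mono: restrict to p' ≤ p.
-/
import Pool.Agent.H40.IS.Abs

namespace Pool.Agent.H40.IS
open Cardinal Ordinal Set
universe u v w

variable {κ : Cardinal.{u}} {Q P : Type v} [Preorder Q] [Preorder P]

theorem exists_antichain (O : Set Q) : ∃ A ⊆ O,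
    (∀ a ∈ A, ∀ a' ∈ A, ∀ t, t ≤ a → t ≤ a' → a = a') ∧
    (IsLowerSet O → ∀ t ∈ O, ∃ t' ≤ t, ∃ a ∈ A, t' ≤ a) := by
  obtain ⟨A, hA⟩ := zorn_subset
    {A : Set Q | A ⊆ O ∧ ∀ a ∈ A, ∀ a' ∈ A, ∀ t, t ≤ a → t ≤ a' → a = a'} (by
      intro c hc hch
      refine ⟨⋃₀ c, ⟨Set.sUnion_subset (fun B hB => (hc hB).1), ?_⟩,
        fun B hB => Set.subset_sUnion_of_mem hB⟩
      intro a ha a' ha' t hta hta'
      obtain ⟨B, hB, haB⟩ := Set.mem_sUnion.1 ha
      obtain ⟨B', hB', haB'⟩ := Set.mem_sUnion.1 ha'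
      rcases hch.total hB hB' with h | h
      · exact (hc hB').2 a (h haB) a' haB' t hta hta'
      · exact (hc hB).2 a haB a' (h haB') t hta hta')
  refine ⟨A, hA.prop.1, hA.prop.2, ?_⟩
  intro hO t ht
  by_contra hcon
  have hinc : ∀ t' ≤ t, ∀ a ∈ A, ¬ t' ≤ a := by
    intro t' ht' a ha h
    exact hcon ⟨t', ht', a, ha, h⟩
  have hin : insert t A ∈ {A : Set Q | A ⊆ O ∧
      ∀ a ∈ A, ∀ a' ∈ A, ∀ t, t ≤ a → t ≤ a' → a = a'} := by
    refine ⟨Set.insert_subset ht hA.prop.1, ?_⟩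
    intro a ha a' ha' u hu hu'
    rcases Set.mem_insert_iff.1 ha with rfl | ha1
    · rcases Set.mem_insert_iff.1 ha' with rfl | ha1'
      · rfl
      · exact absurd hu' (hinc u hu a' ha1')
    · rcases Set.mem_insert_iff.1 ha' with rfl | ha1'
      · exact absurd hu (hinc u hu' a ha1)
      · exact hA.prop.2 a ha1 a' ha1' u hu hu'
  have htA : t ∈ A := hA.le_of_ge hin (Set.subset_insert t A) (Set.mem_insert t A)
  exact hinc t le_rfl t htA le_rfl

theorem Dist.below (h : Dist κ Q) {μ : Ordinal.{u}} (hμ : μ < κ.ord) (s : Q) (D : Ordinal.{u} → Set Q)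
    (hD : ∀ x < μ, IsLowerSet (D x) ∧ ∀ t ≤ s, ∃ t' ≤ t, t' ∈ D x) :
    ∀ t ≤ s, ∃ t' ≤ t, ∀ x < μ, t' ∈ D x := by
  have h1 := h μ hμ (fun x => {t | t ∈ D x ∨ ∀ t' ≤ t, ¬ t' ≤ s}) (by
    intro x hx
    refine ⟨?_, ?_⟩
    · intro t u hut ht
      rcases ht with ht | ht
      · exact Or.inl ((hD x hx).1 hut ht)
      · exact Or.inr (fun t' ht' => ht t' (ht'.trans hut))
    · intro t
      by_cases hc : ∃ t' ≤ t, t' ≤ s
      · obtain ⟨t', ht', hs⟩ := hc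
        obtain ⟨t'', ht'', hD''⟩ := (hD x hx).2 t' hs
        exact ⟨t'', ht''.trans ht', Or.inl hD''⟩
      · exact ⟨t, le_rfl, Or.inr (fun t' ht' hs => hc ⟨t', ht', hs⟩)⟩)
  intro t hts
  obtain ⟨t', ht', hx⟩ := h1 t
  refine ⟨t', ht', fun x hxμ => ?_⟩
  rcases hx x hxμ with h2 | h2
  · exact h2
  · exact absurd (ht'.trans hts) (h2 t' le_rfl)

theorem Dist.below2 (h : Dist κ Q) {μ ν : Ordinal.{u}} (hμ : μ < κ.ord) (hν : ν < κ.ord) (s : Q)
    (D : Ordinal.{u} → Ordinal.{u} → Set Q)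
    (hD : ∀ x < μ, ∀ y < ν, IsLowerSet (D x y) ∧ ∀ t ≤ s, ∃ t' ≤ t, t' ∈ D x y) :
    ∀ t ≤ s, ∃ t' ≤ t, ∀ x < μ, ∀ y < ν, t' ∈ D x y := by
  refine h.below hμ s (fun x => {t | ∀ y < ν, t ∈ D x y}) ?_
  intro x hx
  refine ⟨?_, ?_⟩
  · intro t u hut ht y hy
    exact (hD x hx y hy).1 hut (ht y hy)
  · exact h.below hν s (D x) (fun y hy => hD x hx y hy)

theorem Dist.belowN (h : Dist κ Q) (hω : ℵ₀ < κ) (s : Q) (D : ℕ → Set Q)
    (hD : ∀ n, IsLowerSet (D n) ∧ ∀ t ≤ s, ∃ t' ≤ t, t' ∈ D n) :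
    ∀ t ≤ s, ∃ t' ≤ t, ∀ n, t' ∈ D n := by
  have hω' : Ordinal.omega0.{u} < κ.ord := by
    rw [← Cardinal.ord_aleph0]
    exact Cardinal.ord_lt_ord.2 hω
  have h1 := h.below hω' s (fun x => {t | ∀ n : ℕ, x = (n : Ordinal.{u}) → t ∈ D n}) (by
    intro x hx
    obtain ⟨n, rfl⟩ := Ordinal.lt_omega0.1 hx
    refine ⟨?_, ?_⟩
    · intro t u hut ht m hm
      exact (hD m).1 hut (ht m hm)
    · intro t hts
      obtain ⟨t', ht', hD'⟩ := (hD n).2 t hts
      refine ⟨t', ht', fun m hm => ?_⟩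
      have : n = m := by exact_mod_cast hm
      rw [← this]
      exact hD')
  intro t hts
  obtain ⟨t', ht', hx⟩ := h1 t hts
  exact ⟨t', ht', fun n => hx n (Ordinal.natCast_lt_omega0 n) n rfl⟩

theorem FP.am_mono (F : FP κ Q P) {s t : Q} {p q : P} (h : s ≤ F.pr p) (hts : t ≤ s) (hqp : q ≤ p)
    (h2 : t ≤ F.pr q) : F.am t q ≤ F.am s p := by
  have h3 : F.pr (F.am t q) ≤ t := F.pr_am h2
  exact F.le_am h ((F.am_le h2).trans hqp) (h3.trans hts)

theorem FP.of_le_am (F : FP κ Q P) {s : Q} {p r : P} (h : s ≤ F.pr p) (hr : r ≤ F.am s p) :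
    r ≤ p ∧ F.pr r ≤ s := by
  exact ⟨hr.trans (F.am_le h), (F.pr_mono hr).trans (F.pr_am h)⟩

theorem FP.le_am_pr (F : FP κ Q P) {p r : P} (hr : r ≤ p) : r ≤ F.am (F.pr r) p := by
  exact F.le_am (F.pr_mono hr) hr le_rfl

theorem lower_pull (F : FP κ Q P) {a : Set Q} (h : IsLowerSet a) : IsLowerSet {r : P | F.pr r ∈ a} := by
  intro r r' hr' hr
  exact h (F.pr_mono hr') hr

theorem reg_pull (F : FP κ Q P) {a : Set Q} (h : Reg a) : Reg {r : P | F.pr r ∈ a} := by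
  refine ⟨lower_pull F h.1, ?_⟩
  intro r hr
  refine h.2 (F.pr r) ?_
  intro t ht
  obtain ⟨r'', hr'', hmem⟩ := hr (F.am t r) (F.am_le ht)
  exact ⟨F.pr r'', (F.pr_mono hr'').trans (F.pr_am ht), hmem⟩

theorem ClubName.mono {p p' : Q} {C : Ordinal.{u} → Set Q} (h : ClubName κ p C) (hp : p' ≤ p) :
    ClubName κ p' C := by
  exact ⟨h.reg, fun α hα r hr => h.unb α hα r (hr.trans hp),
    fun δ hδ hl r hr hh => h.closed δ hδ hl r (hr.trans hp) hh⟩

end Pool.Agent.H40.IS
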