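/-
K1 (KSq).  Elementary API for sequences `Sq`.  Imports KDef only.  About 180 lines.
PROOFS.  `Sq.ext'`: above the common length both are `Rk.z` (junk).  `res_res`: values agree because i < min a b iff i < a and i < b.
glue: Y = mk l (fun i => (y (some ξ with i < (y ξ).len)).val i) (choice by hs); for two indices ξ ≤ η the values of y ξ and y η at
i < (y ξ).len agree by h2 (res_val).  not_In: immediate.  Lt_kappa is in KSm (needs regularity).
-/
import Pool.Agent.H40.IS.KDef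

namespace Pool.Agent.H40.IS
open Cardinal Ordinal Set
universe u
variable {V : Type (u + 1)} [Rk V]

theorem Sq.ext' {x y : Sq V} (h : x.len = y.len) (h2 : ∀ i < x.len, x.val i = y.val i) : x = y := by
  obtain ⟨lx, vx, jx⟩ := x
  obtain ⟨ly, vy, jy⟩ := y
  obtain rfl : lx = ly := h
  have hv : vx = vy := by
    funext i
    by_cases hi : i < lx
    · exact h2 i hi
    · exact (jx i (not_lt.1 hi)).trans (jy i (not_lt.1 hi)).symm
  subst hv
  rfl

@[simp] theorem mk_len (l : Ordinal.{u}) (f : Ordinal.{u} → V) : (mk l f).len = l := by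
  rfl

theorem mk_val {l : Ordinal.{u}} {f : Ordinal.{u} → V} {i : Ordinal.{u}} (h : i < l) :
    (mk l f).val i = f i := by
  exact if_pos h

@[simp] theorem res_len (x : Sq V) (a : Ordinal.{u}) : (x.res a).len = min x.len a := by
  rfl

theorem res_val {x : Sq V} {a i : Ordinal.{u}} (h : i < a) : (x.res a).val i = x.val i := by
  exact if_pos h

theorem res_res (x : Sq V) (a b : Ordinal.{u}) : (x.res a).res b = x.res (min a b) := by
  refine Sq.ext' ?_ fun i hi => ?_
  · simp only [res_len]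
    rw [min_assoc]
  · simp only [res_len] at hi
    have hb : i < b := hi.trans_le (min_le_right _ _)
    have ha : i < a := hi.trans_le ((min_le_left _ _).trans (min_le_right _ _))
    rw [res_val hb, res_val ha, res_val (lt_min ha hb)]

theorem res_res_of_le (x : Sq V) {a b : Ordinal.{u}} (h : b ≤ a) : (x.res a).res b = x.res b := by
  rw [res_res, min_eq_right h]

theorem res_of_le {x : Sq V} {a : Ordinal.{u}} (h : x.len ≤ a) : x.res a = x := by
  refine Sq.ext' ?_ fun i hi => ?_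
  · rw [res_len, min_eq_left h]
  · rw [res_len, min_eq_left h] at hi
    exact res_val (hi.trans_le h)

theorem res_eq_res {x y : Sq V} {a : Ordinal.{u}} (hx : a ≤ x.len) (hy : a ≤ y.len)
    (h : ∀ i < a, x.val i = y.val i) : x.res a = y.res a := by
  refine Sq.ext' ?_ fun i hi => ?_
  · rw [res_len, res_len, min_eq_right hx, min_eq_right hy]
  · rw [res_len, min_eq_right hx] at hi
    rw [res_val hi, res_val hi, h i hi]

theorem res_mk {l a : Ordinal.{u}} {f : Ordinal.{u} → V} (h : a ≤ l) : (mk l f).res a = mk a f := by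
  refine Sq.ext' ?_ fun i hi => ?_
  · rw [res_len, mk_len, mk_len, min_eq_right h]
  · rw [res_len, mk_len, min_eq_right h] at hi
    rw [res_val hi, mk_val (hi.trans_le h), mk_val hi]

/-- two sequences which agree below every `a < l` agree at the limit `l` -/
theorem eq_of_res_limit {x y : Sq V} {l : Ordinal.{u}} (hl : ∀ i < l, i + 1 < l) (hx : x.len = l)
    (hy : y.len = l) (h : ∀ a < l, x.res a = y.res a) : x = y := by
  refine Sq.ext' (hx.trans hy.symm) fun i hi => ?_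
  rw [hx] at hi
  have h1 : i < i + 1 := lt_add_one i
  rw [← res_val (x := x) h1, h _ (hl i hi), res_val h1]

theorem In_mono {γ γ' : Ordinal.{u}} (h : γ ≤ γ') {x : Sq V} (hx : In γ x) : In γ' x := by
  exact ⟨hx.1.trans_le h, fun i => (hx.2 i).trans_le h⟩

theorem In_res {γ : Ordinal.{u}} {x : Sq V} (hx : In γ x) (a : Ordinal.{u}) : In γ (x.res a) := by
  refine ⟨(min_le_left _ _).trans_lt hx.1, fun i => ?_⟩
  by_cases hi : i < a
  · rw [res_val hi]
    exact hx.2 i
  · have h1 : (x.res a).val i = Rk.z := if_neg hi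
    rw [h1, Rk.rk_z]
    exact lt_of_le_of_lt bot_le hx.1

theorem Lt_mono {γ γ' : Ordinal.{u}} (h : γ ≤ γ') {x : Sq V} (hx : Lt γ x) : Lt γ' x := by
  obtain ⟨d, hd, hx⟩ := hx
  exact ⟨d, hd.trans_le h, hx⟩

theorem Lt_res {γ : Ordinal.{u}} {x : Sq V} (hx : Lt γ x) (a : Ordinal.{u}) : Lt γ (x.res a) := by
  obtain ⟨d, hd, hx⟩ := hx
  exact ⟨d, hd, In_res hx a⟩

theorem Lt_of_In {γ δ : Ordinal.{u}} (h : γ < δ) {x : Sq V} (hx : In γ x) : Lt δ x := by
  exact ⟨γ, h, hx⟩

theorem In_of_Lt {δ : Ordinal.{u}} {x : Sq V} (hx : Lt δ x) : In δ x := by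
  obtain ⟨d, hd, hx⟩ := hx
  exact In_mono hd.le hx

/-- `Lt` is continuous at limits of a set of bounds -/
theorem Lt_limit {δ : Ordinal.{u}} {x : Sq V} (hx : Lt δ x) {T : Set Ordinal.{u}}
    (hT : ∀ γ < δ, ∃ d ∈ T, γ < d) : ∃ d ∈ T, Lt d x := by
  obtain ⟨γ, hγ, hx⟩ := hx
  obtain ⟨d, hd, hγd⟩ := hT γ hγ
  exact ⟨d, hd, γ, hγd, hx⟩

/-- gluing a coherent chain of sequences -/
theorem glue {μ l : Ordinal.{u}} (y : Ordinal.{u} → Sq V) (h1 : ∀ ξ < μ, (y ξ).len ≤ l)
    (h2 : ∀ ξ η, ξ ≤ η → η < μ → (y η).res (y ξ).len = y ξ)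
    (hs : ∀ i < l, ∃ ξ < μ, i < (y ξ).len) :
    ∃ Y : Sq V, Y.len = l ∧ ∀ ξ < μ, Y.res (y ξ).len = y ξ := by
  classical
  have hs' : ∀ i : Ordinal.{u}, ∃ ξ, i < l → ξ < μ ∧ i < (y ξ).len := by
    intro i
    by_cases hi : i < l
    · obtain ⟨ξ, h3, h4⟩ := hs i hi
      exact ⟨ξ, fun _ => ⟨h3, h4⟩⟩
    · exact ⟨0, fun h => absurd h hi⟩
  choose c hc using hs'
  refine ⟨mk l (fun i => (y (c i)).val i), mk_len _ _, fun ξ hξ => ?_⟩
  rw [res_mk (h1 ξ hξ)]
  refine Sq.ext' (mk_len _ _) fun i hi => ?_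
  rw [mk_len] at hi
  rw [mk_val hi]
  obtain ⟨h3, h4⟩ := hc i (hi.trans_le (h1 ξ hξ))
  rcases le_total ξ (c i) with h5 | h5
  · have h6 := h2 ξ (c i) h5 h3
    calc (y (c i)).val i = ((y (c i)).res (y ξ).len).val i := (res_val hi).symm
      _ = (y ξ).val i := by rw [h6]
  · have h6 := h2 (c i) ξ h5 hξ
    calc (y (c i)).val i = ((y ξ).res (y (c i)).len).val i := by rw [h6]
      _ = (y ξ).val i := res_val h4

/-- a new value -/
theorem not_In {γ : Ordinal.{u}} {x : Sq V} {i : Ordinal.{u}} (h : γ ≤ Rk.rk (x.val i)) : ¬ In γ x := by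
  intro hx
  exact absurd (hx.2 i) (not_lt.2 h)

theorem Pr_res {x : Nd.{u}} {a v w : Ordinal.{u}} (h : Pr (x.res a) v w) : Pr x v w := by
  obtain ⟨i, hi, h1⟩ := h
  rw [res_len] at hi
  rw [res_val (hi.trans_le (min_le_right _ _))] at h1
  exact ⟨i, hi.trans_le (min_le_left _ _), h1⟩

theorem Pr_lt {γ : Ordinal.{u}} {x : Nd.{u}} (hx : In γ x) {v w : Ordinal.{u}} (h : Pr x v w) :
    v < γ ∧ w < γ := by
  obtain ⟨i, hi, h1⟩ := h
  have h2 : max (x.val i).1 (x.val i).2 < γ := hx.2 i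
  have h3 : i < γ := hi.trans hx.1
  rcases h1 with ⟨rfl, rfl⟩ | ⟨rfl, rfl⟩
  · exact ⟨h3, (le_max_left _ _).trans_lt h2⟩
  · exact ⟨(le_max_right _ _).trans_lt h2, h3⟩

end Pool.Agent.H40.IS
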