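/-
K2 (KSm).  Smallness (`Sm κ T`: fewer than κ elements) for κ inaccessible, T a subset of a type in `Type (u+1)`.  Imports KSq only (for KDef).
About 250 lines.  Everything is cardinal arithmetic with the strong limit regular cardinal lift κ (write κ' = lift.{u+1} κ):
κ' is regular (IsRegular.lift) and x < κ' gives 2^x < κ' (x = lift y by lt_lift_iff).
Sm.bUnion: mk_biUnion_le_lift / card_biUnion_lt_iff_forall_of_isRegular.  Sm.pow: mk_powerset, 2^x < κ'.  Sm.prod: mk_setProd.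
Sm.fn: the set injects into the functions S → T (restrict), #(S → T) = #T ^ #S ≤ (2^#T)^#S = 2^(#T * #S) < κ'.
Sm.bdd: the image f '' T is small, so (regularity) its supremum is < κ.ord: e.g. T is in bijection with a type in Type u
(Small, mem of lift: lt_lift_iff) and Ordinal.iSup_lt_of_lt_cof.  sm_In: x ↦ x.val restricted to Iio γ together with x.len injects
{x | In γ x} into Iio γ × (Iio γ → {v | rk v < γ}) (outside len the values are Rk.z).
Sm.enum: order type: T ≃ Iio μ with μ = (card of T in Type u).ord; choose an equivalence and extend it by a constant.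
Lt_kappa: Sm.bdd for f = rk ∘ val on Iio len.
-/
import Pool.Agent.H40.IS.KSq

namespace Pool.Agent.H40.IS
open Cardinal Ordinal Set
universe u
variable {κ : Cardinal.{u}} {α β : Type (u + 1)}

private theorem ksm_reg (hκ : κ.IsInaccessible) : (Cardinal.lift.{u + 1} κ).IsRegular :=
  hκ.isRegular.lift

private theorem ksm_al (hκ : κ.IsInaccessible) : ℵ₀ ≤ Cardinal.lift.{u + 1} κ :=
  (ksm_reg hκ).aleph0_le

private theorem ksm_two (hκ : κ.IsInaccessible) {x : Cardinal.{u + 1}}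
    (hx : x < Cardinal.lift.{u + 1} κ) : (2 : Cardinal.{u + 1}) ^ x < Cardinal.lift.{u + 1} κ := by
  obtain ⟨y, hy, rfl⟩ := Cardinal.lt_lift_iff.1 hx
  have h := hκ.isStrongPrelimit hy
  rw [← Cardinal.lift_two.{u + 1, u}, ← Cardinal.lift_power]
  exact Cardinal.lift_lt.2 h

private theorem ksm_equiv {T : Set α} (hT : Sm κ T) :
    ∃ β : Type u, #β < κ ∧ Nonempty (T ≃ β) := by
  obtain ⟨y, hy, hyT⟩ := Cardinal.lt_lift_iff.1 hT
  refine ⟨y.out, by rwa [Cardinal.mk_out], ?_⟩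
  rw [← Cardinal.lift_mk_eq'.{u + 1, u}, Cardinal.mk_out, hyT]
  exact Cardinal.lift_id'.{u, u + 1} _

theorem kord_pos (hκ : κ.IsInaccessible) : (0 : Ordinal.{u}) < κ.ord :=
  hκ.isRegular.ord_pos

theorem kord_limit (hκ : κ.IsInaccessible) {a : Ordinal.{u}} (h : a < κ.ord) : a + 1 < κ.ord :=
  (Cardinal.isSuccLimit_ord hκ.aleph0_lt.le).add_one_lt h

theorem kord_omega (hκ : κ.IsInaccessible) : (ω : Ordinal.{u}) < κ.ord ∧ (ω₁ : Ordinal.{u}) < κ.ord := by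
  constructor
  · rw [Cardinal.lt_ord, Ordinal.card_omega0]
    exact hκ.aleph0_lt
  · rw [Cardinal.lt_ord, Ordinal.card_omega]
    refine lt_of_le_of_lt Cardinal.aleph_one_le_continuum ?_
    exact hκ.isStrongPrelimit hκ.aleph0_lt

theorem Sm.mono {S T : Set α} (h : Sm κ T) (hS : S ⊆ T) : Sm κ S :=
  lt_of_le_of_lt (Cardinal.mk_le_mk_of_subset hS) h

theorem Sm.image {T : Set α} (h : Sm κ T) (f : α → β) : Sm κ (f '' T) :=
  lt_of_le_of_lt Cardinal.mk_image_le h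

theorem Sm.union (hκ : κ.IsInaccessible) {S T : Set α} (hS : Sm κ S) (hT : Sm κ T) : Sm κ (S ∪ T) :=
  lt_of_le_of_lt (Cardinal.mk_union_le S T) (Cardinal.add_lt_of_lt (ksm_al hκ) hS hT)

theorem Sm.empty (hκ : κ.IsInaccessible) : Sm κ (∅ : Set α) := by
  unfold Sm
  rw [Cardinal.mk_eq_zero]
  exact (ksm_reg hκ).pos

theorem Sm.singleton (hκ : κ.IsInaccessible) (a : α) : Sm κ ({a} : Set α) := by
  unfold Sm
  rw [Cardinal.mk_singleton]
  exact Cardinal.one_lt_aleph0.trans_le (ksm_al hκ)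

theorem sm_Iio {μ : Ordinal.{u}} (h : μ < κ.ord) : Sm κ (Iio μ) := by
  unfold Sm
  rw [Cardinal.mk_Iio_ordinal]
  exact Cardinal.lift_lt.2 (Cardinal.lt_ord.1 h)

theorem Sm.bUnion (hκ : κ.IsInaccessible) {S : Set α} (hS : Sm κ S) {f : α → Set β}
    (hf : ∀ a ∈ S, Sm κ (f a)) : Sm κ (⋃ a ∈ S, f a) :=
  (Cardinal.card_biUnion_lt_iff_forall_of_isRegular (ksm_reg hκ) hS).2 hf

theorem Sm.pow (hκ : κ.IsInaccessible) {S : Set α} (hS : Sm κ S) : Sm κ {T : Set α | T ⊆ S} := by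
  have h : #(𝒫 S) < Cardinal.lift.{u + 1} κ := by
    rw [Cardinal.mk_powerset]
    exact ksm_two hκ hS
  exact h

theorem Sm.prod (hκ : κ.IsInaccessible) {S : Set α} {T : Set β} (hS : Sm κ S) (hT : Sm κ T) :
    Sm κ (S ×ˢ T) := by
  unfold Sm
  rw [Cardinal.mk_setProd]
  exact Cardinal.mul_lt_of_lt (ksm_al hκ) hS hT

theorem Sm.fn (hκ : κ.IsInaccessible) {S : Set α} {T : Set β} (hS : Sm κ S) (hT : Sm κ T) (b0 : β) :
    Sm κ {f : α → β | (∀ a ∈ S, f a ∈ T) ∧ ∀ a ∉ S, f a = b0} := by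
  have h1 : #({f : α → β | (∀ a ∈ S, f a ∈ T) ∧ ∀ a ∉ S, f a = b0} : Set (α → β)) ≤ #(S → T) := by
    refine Cardinal.mk_le_of_injective
      (f := fun f (a : S) => (⟨f.1 a.1, f.2.1 a.1 a.2⟩ : T)) ?_
    intro f g hfg
    apply Subtype.ext
    funext a
    by_cases ha : a ∈ S
    · exact congrArg Subtype.val (congrFun hfg ⟨a, ha⟩)
    · rw [f.2.2 a ha, g.2.2 a ha]
  refine lt_of_le_of_lt h1 ?_
  rw [← Cardinal.power_def]
  refine lt_of_le_of_lt (Cardinal.power_le_power_right (Cardinal.cantor #T).le) ?_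
  rw [← Cardinal.power_mul]
  exact ksm_two hκ (Cardinal.mul_lt_of_lt (ksm_al hκ) hT hS)

theorem Sm.bdd (hκ : κ.IsInaccessible) {T : Set α} (hT : Sm κ T) (f : α → Ordinal.{u})
    (h : ∀ t ∈ T, f t < κ.ord) : ∃ γ < κ.ord, ∀ t ∈ T, f t < γ := by
  obtain ⟨β, hβ, ⟨e⟩⟩ := ksm_equiv hT
  have h1 : ⨆ b : β, f (e.symm b) + 1 < κ.ord := by
    apply Ordinal.iSup_add_one_lt_of_lt_cof
    · rw [hκ.isRegular.cof_ord]
      exact hβ
    · intro b
      exact h _ (e.symm b).2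
  refine ⟨_, h1, fun t ht => ?_⟩
  have h2 : f (e.symm (e ⟨t, ht⟩)) + 1 ≤ ⨆ b : β, f (e.symm b) + 1 :=
    Ordinal.le_iSup (fun b : β => f (e.symm b) + 1) (e ⟨t, ht⟩)
  rw [e.symm_apply_apply] at h2
  exact lt_of_lt_of_le (lt_add_one (f t)) h2

theorem Sm.small {T : Set α} (hT : Sm κ T) : Small.{u} T := by
  obtain ⟨β, _, ⟨e⟩⟩ := ksm_equiv hT
  exact Small.mk' e

theorem Sm.enum (hκ : κ.IsInaccessible) {T : Set α} (hT : Sm κ T) (hn : T.Nonempty) :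
    ∃ μ < κ.ord, 0 < μ ∧ ∃ f : Ordinal.{u} → α, (∀ ξ < μ, f ξ ∈ T) ∧ ∀ t ∈ T, ∃ ξ < μ, f ξ = t := by
  classical
  obtain ⟨β, hβ, ⟨e⟩⟩ := ksm_equiv hT
  obtain ⟨t0, ht0⟩ := hn
  have h1 : (#β).ord < κ.ord := Cardinal.ord_lt_ord.2 hβ
  have h2 : Nonempty (Iio (#β).ord ≃ β) := by
    rw [← Cardinal.lift_mk_eq'.{u + 1, u}, Cardinal.mk_Iio_ordinal, Cardinal.card_ord]
    exact Cardinal.lift_id'.{u, u + 1} _
  obtain ⟨e2⟩ := h2
  refine ⟨(#β).ord, h1, ?_,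
    fun ξ => if h : ξ ∈ Iio (#β).ord then (e.symm (e2 ⟨ξ, h⟩)).1 else t0, ?_, ?_⟩
  · have := (e2.symm (e ⟨t0, ht0⟩)).2
    exact lt_of_le_of_lt zero_le this
  · intro ξ hξ
    have hξ' : ξ ∈ Iio (#β).ord := hξ
    have h3 : (if h : ξ ∈ Iio (#β).ord then (e.symm (e2 ⟨ξ, h⟩)).1 else t0) =
        (e.symm (e2 ⟨ξ, hξ'⟩)).1 := dif_pos hξ'
    change (if h : ξ ∈ Iio (#β).ord then (e.symm (e2 ⟨ξ, h⟩)).1 else t0) ∈ T
    rw [h3]
    exact (e.symm (e2 ⟨ξ, hξ'⟩)).2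
  · intro t ht
    have hm : ((e2.symm (e ⟨t, ht⟩)) : Ordinal.{u}) ∈ Iio (#β).ord := (e2.symm (e ⟨t, ht⟩)).2
    refine ⟨(e2.symm (e ⟨t, ht⟩)).1, hm, ?_⟩
    refine (dif_pos hm).trans ?_
    simp only [Subtype.coe_eta, Equiv.apply_symm_apply, Equiv.symm_apply_apply]

private theorem ksm_seq (hκ : κ.IsInaccessible) {V : Type (u + 1)} [Rk V] {γ : Ordinal.{u}}
    (h : γ < κ.ord) (hV : Sm κ {v : V | Rk.rk v < γ}) : Sm κ {x : Sq V | In γ x} := by
  have h1 := Sm.prod hκ (sm_Iio h) (Sm.fn hκ (sm_Iio h) hV (Rk.z : V))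
  have hinj : Function.Injective (fun x : Sq V => (x.len, x.val)) := by
    intro x y hxy
    simp only [Prod.mk.injEq] at hxy
    exact Sq.ext hxy.1 hxy.2
  have h2 : Sm κ ((fun x : Sq V => (x.len, x.val)) '' {x : Sq V | In γ x}) := by
    refine h1.mono ?_
    rintro _ ⟨x, hx, rfl⟩
    refine ⟨hx.1, fun i _ => hx.2 i, fun i hi => ?_⟩
    exact x.junk i (hx.1.le.trans (not_lt.1 hi))
  have h3 := Cardinal.mk_image_eq hinj (s := {x : Sq V | In γ x})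
  unfold Sm at h2 ⊢
  rwa [h3] at h2

theorem sm_So (hκ : κ.IsInaccessible) {γ : Ordinal.{u}} (h : γ < κ.ord) : Sm κ {x : So.{u} | In γ x} :=
  ksm_seq hκ h (sm_Iio h)

theorem sm_Nd (hκ : κ.IsInaccessible) {γ : Ordinal.{u}} (h : γ < κ.ord) : Sm κ {x : Nd.{u} | In γ x} := by
  refine ksm_seq hκ h ?_
  refine (Sm.prod hκ (sm_Iio h) (sm_Iio h)).mono ?_
  intro v hv
  have hv' : max v.1 v.2 < γ := hv
  exact ⟨lt_of_le_of_lt (le_max_left _ _) hv', lt_of_le_of_lt (le_max_right _ _) hv'⟩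

/-- a sequence of length `< κ` with values `< κ` is bounded below `κ` -/
theorem Lt_kappa (hκ : κ.IsInaccessible) {V : Type (u + 1)} [Rk V] {x : Sq V} (h : x.len < κ.ord)
    (h2 : ∀ i, Rk.rk (x.val i) < κ.ord) : Lt κ.ord x := by
  obtain ⟨γ, hγ, hγ2⟩ := (sm_Iio h).bdd hκ (fun i => Rk.rk (x.val i)) (fun i _ => h2 i)
  refine ⟨max γ (x.len + 1), max_lt hγ (kord_limit hκ h), ?_, fun i => ?_⟩
  · exact lt_of_lt_of_le (lt_add_one x.len) (le_max_right _ _)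
  · by_cases hi : i < x.len
    · exact lt_of_lt_of_le (hγ2 i hi) (le_max_left _ _)
    · rw [x.junk i (not_lt.1 hi), Rk.rk_z]
      exact lt_of_lt_of_le (lt_of_le_of_lt zero_le (lt_add_one x.len)) (le_max_right _ _)

/-- a common bound for fewer than `κ` bounded sequences -/
theorem bdd_sup (hκ : κ.IsInaccessible) {V : Type (u + 1)} [Rk V] {T : Set (Sq V)} (hT : Sm κ T)
    (h : ∀ x ∈ T, Lt κ.ord x) : ∃ γ < κ.ord, ∀ x ∈ T, In γ x := by
  classical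
  have hg : ∀ x : Sq V, ∃ g : Ordinal.{u}, x ∈ T → g < κ.ord ∧ In g x := by
    intro x
    by_cases hx : x ∈ T
    · obtain ⟨g, hg1, hg2⟩ := h x hx
      exact ⟨g, fun _ => ⟨hg1, hg2⟩⟩
    · exact ⟨0, fun h => absurd h hx⟩
  choose g hg using hg
  obtain ⟨γ, hγ, hγ2⟩ := hT.bdd hκ g (fun x hx => (hg x hx).1)
  refine ⟨γ, hγ, fun x hx => ?_⟩
  exact In_mono (hγ2 x hx).le (hg x hx).2

end Pool.Agent.H40.IS
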