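/-
K2' (KLk).  Sets with at most κ elements (`Lk κ T`), κ inaccessible.  Imports KSm only.  About 200 lines.
PROOFS.  κ' = lift.{u+1} κ is infinite, so κ' * κ' = κ'.  Lk.bUnion: mk_biUnion_le_lift, mul_le.  lk_ord: mk_Iio_ordinal.
lk_union_chain: T = ⋃ over ρ < κ.ord.
Lk.smallsub: let S have at most κ elements; enumerate S as f '' Iio κ.ord; a subset of S with fewer than κ elements is contained in
  f '' Iio ρ for some ρ < κ.ord (Sm.bdd); for each ρ there are fewer than κ subsets of f '' Iio ρ (Sm.pow); union over ρ (lk_chain).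
Lk.fnsmall: same with functions supported on a small subset of S with values in T: enumerate S and T; such a function has support inside
  f '' Iio ρ and values on the support inside g '' Iio ρ, and for each ρ there are fewer than κ of those (Sm.fn).
lk_So / lk_Nd: union over γ < κ.ord of {x | In γ x}.  Lk.small: T injects into a small type.
-/
import Pool.Agent.H40.IS.KSm

namespace Pool.Agent.H40.IS
open Cardinal Ordinal Set
universe u
variable {κ : Cardinal.{u}} {α β : Type (u + 1)}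

private theorem kinf (hκ : κ.IsInaccessible) : ℵ₀ ≤ Cardinal.lift.{u + 1} κ := by
  rw [Cardinal.aleph0_le_lift]
  exact hκ.isRegular.aleph0_le

private theorem kmul (hκ : κ.IsInaccessible) :
    Cardinal.lift.{u + 1} κ * Cardinal.lift.{u + 1} κ = Cardinal.lift.{u + 1} κ :=
  Cardinal.mul_eq_self (kinf hκ)

private theorem mk_ordI : #(Iio κ.ord) = Cardinal.lift.{u + 1} κ := by
  rw [Cardinal.mk_Iio_ordinal, card_ord]

theorem Sm.lk {S : Set α} (h : Sm κ S) : Lk κ S := by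
  exact le_of_lt h

theorem Lk.mono {S T : Set α} (h : Lk κ T) (hS : S ⊆ T) : Lk κ S := by
  exact (Cardinal.mk_le_mk_of_subset hS).trans h

theorem Lk.image {T : Set α} (h : Lk κ T) (f : α → β) : Lk κ (f '' T) := by
  exact Cardinal.mk_image_le.trans h

theorem Lk.union (hκ : κ.IsInaccessible) {S T : Set α} (hS : Lk κ S) (hT : Lk κ T) : Lk κ (S ∪ T) := by
  refine (Cardinal.mk_union_le S T).trans ?_
  refine (add_le_add hS hT).trans ?_
  rw [Cardinal.add_eq_self (kinf hκ)]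

theorem Lk.bUnion (hκ : κ.IsInaccessible) {S : Set α} (hS : Lk κ S) {f : α → Set β}
    (hf : ∀ a ∈ S, Lk κ (f a)) : Lk κ (⋃ a ∈ S, f a) := by
  refine (Cardinal.mk_biUnion_le f S).trans ?_
  have h1 : (⨆ x : S, #(f x.1)) ≤ Cardinal.lift.{u + 1} κ := ciSup_le' (fun x => hf x.1 x.2)
  refine (mul_le_mul' hS h1).trans ?_
  rw [kmul hκ]

theorem lk_ord : Lk κ (Iio κ.ord) := by
  unfold Lk
  rw [mk_ordI]

theorem lk_chain (hκ : κ.IsInaccessible) {T : Set α} {R : Ordinal.{u} → Set α}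
    (hR : ∀ ρ < κ.ord, Lk κ (R ρ)) (hT : ∀ t ∈ T, ∃ ρ < κ.ord, t ∈ R ρ) : Lk κ T := by
  refine (Lk.bUnion hκ (lk_ord (κ := κ)) (f := R) (fun a ha => hR a ha)).mono ?_
  intro t ht
  obtain ⟨ρ, h1, h2⟩ := hT t ht
  exact mem_iUnion₂.2 ⟨ρ, h1, h2⟩

theorem Lk.prod (hκ : κ.IsInaccessible) {S : Set α} {T : Set β} (hS : Lk κ S) (hT : Lk κ T) :
    Lk κ (S ×ˢ T) := by
  unfold Lk
  rw [Cardinal.mk_setProd]
  refine (mul_le_mul' hS hT).trans ?_
  rw [kmul hκ]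

private theorem enum0 {T : Set α} (hT : Lk κ T) (hn : T.Nonempty) :
    ∃ f : Ordinal.{u} → α, (∀ ξ, f ξ ∈ T) ∧ ∀ t ∈ T, ∃ ξ < κ.ord, f ξ = t := by
  classical
  obtain ⟨t0, ht0⟩ := hn
  have h1 : #T ≤ #(Iio κ.ord) := by
    rw [mk_ordI]
    exact hT
  obtain ⟨e⟩ := (Cardinal.le_def _ _).1 h1
  refine ⟨fun ξ => if h : ∃ t : T, (e t : Ordinal.{u}) = ξ then (h.choose : α) else t0, ?_, ?_⟩
  · intro ξ
    by_cases h : ∃ t : T, (e t : Ordinal.{u}) = ξ
    · simp only [h, dif_pos]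
      exact h.choose.2
    · simp only [h, dif_neg, not_false_eq_true]
      exact ht0
  · intro t ht
    refine ⟨(e ⟨t, ht⟩ : Ordinal.{u}), (e ⟨t, ht⟩).2, ?_⟩
    have h : ∃ t' : T, (e t' : Ordinal.{u}) = (e ⟨t, ht⟩ : Ordinal.{u}) := ⟨_, rfl⟩
    simp only [h, dif_pos]
    have h2 := h.choose_spec
    have h3 := e.injective (Subtype.ext h2)
    exact congrArg Subtype.val h3

theorem Lk.smallsub (hκ : κ.IsInaccessible) {S : Set α} (hS : Lk κ S) :
    Lk κ {T : Set α | T ⊆ S ∧ Sm κ T} := by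
  classical
  rcases S.eq_empty_or_nonempty with h0 | hn
  · refine ((Sm.singleton hκ (∅ : Set α)).lk).mono ?_
    rintro T ⟨h1, -⟩
    rw [h0] at h1
    exact subset_empty_iff.1 h1
  · obtain ⟨f, -, hf2⟩ := enum0 hS hn
    refine lk_chain hκ (R := fun ρ => {T : Set α | T ⊆ f '' Iio ρ}) ?_ ?_
    · intro ρ hρ
      exact (Sm.pow hκ ((sm_Iio hρ).image f)).lk
    · rintro T ⟨h1, h2⟩
      have h3 : ∀ t : α, ∃ ξ : Ordinal.{u}, t ∈ T → ξ < κ.ord ∧ f ξ = t := by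
        intro t
        by_cases ht : t ∈ T
        · obtain ⟨ξ, h4, h5⟩ := hf2 t (h1 ht)
          exact ⟨ξ, fun _ => ⟨h4, h5⟩⟩
        · exact ⟨0, fun h => absurd h ht⟩
      choose g hg using h3
      obtain ⟨γ, h4, h5⟩ := Sm.bdd hκ h2 g (fun t ht => (hg t ht).1)
      refine ⟨γ, h4, ?_⟩
      intro t ht
      exact ⟨g t, h5 t ht, (hg t ht).2⟩

theorem Lk.fnsmall (hκ : κ.IsInaccessible) {S : Set α} {T : Set β} (hS : Lk κ S) (hT : Lk κ T) (b0 : β) :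
    Lk κ {f : α → β | ∃ S' ⊆ S, Sm κ S' ∧ (∀ a ∈ S', f a ∈ T) ∧ ∀ a ∉ S', f a = b0} := by
  classical
  by_cases h0 : S.Nonempty ∧ T.Nonempty
  · obtain ⟨hn1, hn2⟩ := h0
    obtain ⟨f, -, hf2⟩ := enum0 hS hn1
    obtain ⟨g, -, hg2⟩ := enum0 hT hn2
    refine lk_chain hκ (R := fun ρ => ⋃ S' ∈ {S' : Set α | S' ⊆ f '' Iio ρ},
      {F : α → β | (∀ a ∈ S', F a ∈ g '' Iio ρ) ∧ ∀ a ∉ S', F a = b0}) ?_ ?_
    · intro ρ hρ
      refine Lk.bUnion hκ (Sm.pow hκ ((sm_Iio hρ).image f)).lk ?_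
      intro S' hS'
      exact (Sm.fn hκ (((sm_Iio hρ).image f).mono hS') ((sm_Iio hρ).image g) b0).lk
    · rintro F ⟨S', h1, h2, h3, h4⟩
      have h5 : ∀ t : α, ∃ ξ : Ordinal.{u}, t ∈ S' → ξ < κ.ord ∧ f ξ = t := by
        intro t
        by_cases ht : t ∈ S'
        · obtain ⟨ξ, h6, h7⟩ := hf2 t (h1 ht)
          exact ⟨ξ, fun _ => ⟨h6, h7⟩⟩
        · exact ⟨0, fun h => absurd h ht⟩
      choose i1 hi1 using h5
      have h6 : ∀ t : α, ∃ ξ : Ordinal.{u}, t ∈ S' → ξ < κ.ord ∧ g ξ = F t := by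
        intro t
        by_cases ht : t ∈ S'
        · obtain ⟨ξ, h6, h7⟩ := hg2 (F t) (h3 t ht)
          exact ⟨ξ, fun _ => ⟨h6, h7⟩⟩
        · exact ⟨0, fun h => absurd h ht⟩
      choose i2 hi2 using h6
      obtain ⟨γ1, h7, h8⟩ := Sm.bdd hκ h2 i1 (fun t ht => (hi1 t ht).1)
      obtain ⟨γ2, h9, h10⟩ := Sm.bdd hκ h2 i2 (fun t ht => (hi2 t ht).1)
      refine ⟨max γ1 γ2, max_lt h7 h9, ?_⟩
      refine mem_iUnion₂.2 ⟨S', ?_, ?_, h4⟩
      · intro t ht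
        exact ⟨i1 t, (h8 t ht).trans_le (le_max_left _ _), (hi1 t ht).2⟩
      · intro t ht
        exact ⟨i2 t, (h10 t ht).trans_le (le_max_right _ _), (hi2 t ht).2⟩
  · refine ((Sm.singleton hκ (fun _ : α => b0)).lk).mono ?_
    rintro F ⟨S', h1, -, h3, h4⟩
    have h5 : ∀ a, a ∉ S' := by
      intro a ha
      exact h0 ⟨⟨a, h1 ha⟩, ⟨F a, h3 a ha⟩⟩
    have h6 : F = fun _ => b0 := funext (fun a => h4 a (h5 a))
    exact h6

theorem lk_So (hκ : κ.IsInaccessible) : Lk κ {x : So.{u} | Lt κ.ord x} := by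
  refine lk_chain hκ (R := fun γ => {x : So.{u} | In γ x}) (fun γ h => (sm_So hκ h).lk) ?_
  rintro x ⟨γ, h1, h2⟩
  exact ⟨γ, h1, h2⟩

theorem lk_Nd (hκ : κ.IsInaccessible) : Lk κ {x : Nd.{u} | Lt κ.ord x} := by
  refine lk_chain hκ (R := fun γ => {x : Nd.{u} | In γ x}) (fun γ h => (sm_Nd hκ h).lk) ?_
  rintro x ⟨γ, h1, h2⟩
  exact ⟨γ, h1, h2⟩

theorem Lk.small {T : Set α} (hT : Lk κ T) : Small.{u} T := by
  have h1 : #T ≤ #(Iio κ.ord) := by
    rw [mk_ordI]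
    exact hT
  obtain ⟨e⟩ := (Cardinal.le_def _ _).1 h1
  exact small_of_injective e.injective

theorem Lk.enum (hκ : κ.IsInaccessible) {T : Set α} (hT : Lk κ T) (hn : T.Nonempty) :
    ∃ f : Ordinal.{u} → α, (∀ ξ < κ.ord, f ξ ∈ T) ∧ ∀ t ∈ T, ∃ ξ < κ.ord, f ξ = t := by
  obtain ⟨f, h1, h2⟩ := enum0 hT hn
  exact ⟨f, fun ξ _ => h1 ξ, h2⟩

/-- injections into prescribed disjoint blocks of indices -/
theorem exists_idx (hκ : κ.IsInaccessible) : ∃ fst : Ordinal.{u} → Ordinal.{u}, ∀ c < κ.ord,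
    ∀ (α : Type (u + 1)) (M : Set α), Lk κ M →
      ∃ idx : α → Ordinal.{u}, InjOn idx M ∧ ∀ m ∈ M, idx m < κ.ord ∧ c < idx m ∧ fst (idx m) = c := by
  -- κ * κ = κ: a bijection f : Iio κ.ord ≃ Iio κ.ord × Iio κ.ord, fst v = (f v).1.  For c < κ.ord the set
  -- {v < κ.ord | fst v = c} has κ elements, and removing the v ≤ c (fewer than κ) leaves κ elements; M injects into it.
  classical
  have h1 : #(Iio κ.ord) = #(Iio κ.ord × Iio κ.ord) := by
    rw [Cardinal.mk_prod, Cardinal.lift_id, mk_ordI, kmul hκ]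
  obtain ⟨f⟩ := Cardinal.eq.1 h1
  refine ⟨fun v => if h : v < κ.ord then ((f ⟨v, h⟩).1 : Ordinal.{u}) else 0, ?_⟩
  intro c hc α M hM
  have hc' : c ∈ Iio κ.ord := mem_Iio.2 hc
  set fst : Ordinal.{u} → Ordinal.{u} := fun v => if h : v < κ.ord then ((f ⟨v, h⟩).1 : Ordinal.{u}) else 0
    with hfst
  have hB : ¬ Sm κ {v : Ordinal.{u} | v < κ.ord ∧ c < v ∧ fst v = c} := by
    intro hB
    have h2 : Sm κ (Iio (c + 1)) := sm_Iio (kord_limit hκ hc)
    have h3 := Sm.union hκ hB h2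
    have h4 : Sm κ (range (fun w : Iio κ.ord => ((f.symm (⟨c, hc'⟩, w) : Iio κ.ord) : Ordinal.{u}))) := by
      refine h3.mono ?_
      rintro v ⟨w, rfl⟩
      by_cases h5 : c < ((f.symm (⟨c, hc'⟩, w) : Iio κ.ord) : Ordinal.{u})
      · left
        refine ⟨(f.symm (⟨c, hc'⟩, w)).2, h5, ?_⟩
        have h6 : ((f.symm (⟨c, hc'⟩, w) : Iio κ.ord) : Ordinal.{u}) < κ.ord := (f.symm (⟨c, hc'⟩, w)).2
        have h7 : fst ((f.symm (⟨c, hc'⟩, w) : Iio κ.ord) : Ordinal.{u}) =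
            ((f ⟨((f.symm (⟨c, hc'⟩, w) : Iio κ.ord) : Ordinal.{u}), h6⟩).1 : Ordinal.{u}) := dif_pos h6
        rw [h7]
        have h8 : f ⟨((f.symm (⟨c, hc'⟩, w) : Iio κ.ord) : Ordinal.{u}), h6⟩ = (⟨c, hc'⟩, w) :=
          f.apply_symm_apply _
        rw [h8]
      · right
        exact Order.lt_add_one_iff.2 (not_lt.1 h5)
    have h5 : #(range (fun w : Iio κ.ord => ((f.symm (⟨c, hc'⟩, w) : Iio κ.ord) : Ordinal.{u}))) =
        #(Iio κ.ord) := by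
      refine Cardinal.mk_range_eq _ ?_
      intro w w' h
      have h6 := f.symm.injective (Subtype.ext h)
      simpa using h6
    unfold Sm at h4
    rw [h5, mk_ordI] at h4
    exact lt_irrefl _ h4
  have h2 : #M ≤ #{v : Ordinal.{u} | v < κ.ord ∧ c < v ∧ fst v = c} := hM.trans (not_lt.1 hB)
  obtain ⟨e⟩ := (Cardinal.le_def _ _).1 h2
  refine ⟨fun a => if h : a ∈ M then ((e ⟨a, h⟩ : _) : Ordinal.{u}) else 0, ?_, ?_⟩
  · intro a ha b hb h
    simp only [ha, hb, dif_pos] at h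
    have h3 := e.injective (Subtype.ext h)
    exact congrArg Subtype.val h3
  · intro m hm
    simp only [hm, dif_pos]
    exact (e ⟨m, hm⟩).2

end Pool.Agent.H40.IS
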