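/-
K21a (Bk).  Book-keeping functions.  Imports KLk only.  About 120 lines.
PROOF of exists_dec: an injective bk_enc : Ordinal × Ordinal → Ordinal with g ≤ bk_enc (g, k), then dec = a left inverse by choice
(dec j = (0,0) if j is not a code).  For example bk_enc (g,k) = ω^m * 2 + ω^k for k ≤ g = m (if k = g: ω^m * 3) and ω^k * 3 + ω^g for g < k;
decode with Ordinal.log ω and mod/div.  Any other way is fine (e.g. every ordinal g has only a small set of predecessors: choose
codes by recursion; or the order type of the Gödel ordering).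
exists_en: a small set T of triples can be enumerated by ordinals: Small.{u} T gives a surjection from a type in Type u, which injects into
Ordinal.{u} (well order it); extend by jk.
-/
import Pool.Agent.H40.IS.KLk

namespace Pool.Agent.H40.IS
open Cardinal Ordinal Set
universe u

theorem bk_code_inj {m m' c c' x x' : Ordinal.{u}} (hc : c ≠ 0) (hc' : c' ≠ 0) (hcω : c < ω)
    (hcω' : c' < ω) (hx : x < ω ^ m) (hx' : x' < ω ^ m')
    (h : ω ^ m * c + x = ω ^ m' * c' + x') : m = m' ∧ c = c' ∧ x = x' := by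
  have hm : m = m' := by
    have h1 := Ordinal.log_opow_mul_add (b := (ω : Ordinal.{u})) (one_lt_omega0) hc hx
    have h2 := Ordinal.log_opow_mul_add (b := (ω : Ordinal.{u})) (one_lt_omega0) hc' hx'
    rw [Ordinal.log_eq_zero hcω, add_zero] at h1
    rw [Ordinal.log_eq_zero hcω', add_zero] at h2
    rw [← h1, ← h2, h]
  subst hm
  have h0 : (ω : Ordinal.{u}) ^ m ≠ 0 := (Ordinal.opow_pos m omega0_pos).ne'
  have hcc : c = c' := by
    have h1 := Ordinal.mul_add_div c h0 x
    have h2 := Ordinal.mul_add_div c' h0 x'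
    rw [Ordinal.div_eq_zero_of_lt hx, add_zero] at h1
    rw [Ordinal.div_eq_zero_of_lt hx', add_zero] at h2
    rw [← h1, ← h2, h]
  subst hcc
  exact ⟨rfl, rfl, (add_right_inj _).1 h⟩

theorem bk_succ_inj {a b : Ordinal.{u}} (h : a + 1 = b + 1) : a = b := by
  rcases lt_trichotomy a b with h1 | h1 | h1
  · have h2 : a + 1 ≤ b := Order.add_one_le_of_lt h1
    have h3 : b < b + 1 := Order.lt_add_one_iff.2 le_rfl
    exact absurd (h ▸ h2) (not_le.2 h3)
  · exact h1
  · have h2 : b + 1 ≤ a := Order.add_one_le_of_lt h1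
    have h3 : a < a + 1 := Order.lt_add_one_iff.2 le_rfl
    exact absurd (h ▸ h2) (not_le.2 h3)

open Classical in
/-- the code of a pair -/
noncomputable def bk_enc (p : Ordinal.{u} × Ordinal.{u}) : Ordinal.{u} :=
  if p.1 ≤ p.2 then ω ^ (p.2 + 1) * 1 + p.1 else ω ^ (p.1 + 1) * 2 + p.2

theorem bk_lt_opow_succ {x m : Ordinal.{u}} (h : x ≤ m) : x < ω ^ (m + 1) :=
  lt_of_lt_of_le (lt_of_le_of_lt h (Order.lt_add_one_iff.2 le_rfl))
    (Ordinal.right_le_opow (m + 1) one_lt_omega0)

theorem bk_enc_inj {p q : Ordinal.{u} × Ordinal.{u}} (h : bk_enc p = bk_enc q) : p = q := by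
  have h1 : (1 : Ordinal.{u}) ≠ 0 := one_ne_zero
  have h2 : (2 : Ordinal.{u}) ≠ 0 := two_ne_zero
  have h3 : (1 : Ordinal.{u}) < ω := one_lt_omega0
  have h4 : (2 : Ordinal.{u}) < ω := by
    have := natCast_lt_omega0 2
    exact_mod_cast this
  have h5 : (1 : Ordinal.{u}) ≠ 2 := by
    have : ((1 : ℕ) : Ordinal.{u}) ≠ ((2 : ℕ) : Ordinal.{u}) := by
      intro h
      have := Nat.cast_injective h
      omega
    exact_mod_cast this
  obtain ⟨a, b⟩ := p
  obtain ⟨c, d⟩ := q
  unfold bk_enc at h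
  simp only at h
  split_ifs at h with hp hq hq
  · obtain ⟨e1, _, e3⟩ := bk_code_inj h1 h1 h3 h3 (bk_lt_opow_succ hp) (bk_lt_opow_succ hq) h
    rw [bk_succ_inj e1, e3]
  · exact absurd (bk_code_inj h1 h2 h3 h4 (bk_lt_opow_succ hp) (bk_lt_opow_succ (not_le.1 hq).le) h).2.1 h5
  · exact absurd (bk_code_inj h2 h1 h4 h3 (bk_lt_opow_succ (not_le.1 hp).le) (bk_lt_opow_succ hq) h).2.1 h5.symm
  · obtain ⟨e1, _, e3⟩ := bk_code_inj h2 h2 h4 h4 (bk_lt_opow_succ (not_le.1 hp).le)
      (bk_lt_opow_succ (not_le.1 hq).le) h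
    rw [bk_succ_inj e1, e3]

theorem bk_le_enc (p : Ordinal.{u} × Ordinal.{u}) : p.1 ≤ bk_enc p := by
  unfold bk_enc
  split_ifs with h
  · exact le_add_self
  · refine le_trans (bk_lt_opow_succ le_rfl).le (le_trans ?_ le_self_add)
    exact Ordinal.le_mul_left _ (by norm_num)

theorem exists_dec : ∃ dec : Ordinal.{u} → Ordinal.{u} × Ordinal.{u},
    (∀ j, (dec j).1 ≤ j) ∧ ∀ g k, ∃ j, dec j = (g, k) := by
  classical
  refine ⟨fun j => if h : ∃ p, bk_enc p = j then h.choose else (0, 0), fun j => ?_, fun g k => ?_⟩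
  · dsimp only
    split_ifs with h
    · have h1 := h.choose_spec
      exact (bk_le_enc h.choose).trans_eq h1
    · exact zero_le
  · refine ⟨bk_enc (g, k), ?_⟩
    dsimp only
    have h : ∃ p, bk_enc p = bk_enc (g, k) := ⟨_, rfl⟩
    rw [dif_pos h]
    exact bk_enc_inj h.choose_spec

theorem exists_en {α : Type (u + 1)} (T : Set α) (hT : Small.{u} T) (jk : α) :
    ∃ e : Ordinal.{u} → α, (∀ t ∈ T, ∃ k, e k = t) ∧ ∀ k, e k ∈ T ∨ e k = jk := by
  classical
  let S : Type u := Shrink.{u} T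
  let f : S → Ordinal.{u} := fun s => Ordinal.typein (WellOrderingRel : S → S → Prop) s
  have hf : Function.Injective f := fun a b h => Ordinal.typein_injective _ h
  refine ⟨fun k => if h : ∃ s : S, f s = k then ((equivShrink T).symm h.choose : T).1 else jk,
    fun t ht => ?_, fun k => ?_⟩
  · let s : S := equivShrink T ⟨t, ht⟩
    refine ⟨f s, ?_⟩
    have h : ∃ s' : S, f s' = f s := ⟨s, rfl⟩
    dsimp only
    rw [dif_pos h]
    have h1 : h.choose = s := hf h.choose_spec
    rw [h1]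
    show ((equivShrink T).symm (equivShrink T ⟨t, ht⟩)).1 = t
    rw [Equiv.symm_apply_apply]
  · dsimp only
    split_ifs with h
    · exact Or.inl ((equivShrink T).symm h.choose).2
    · exact Or.inr rfl

end Pool.Agent.H40.IS
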