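/-
AB2 (ClubC).  The closure points of a name of a bijection form a name of a club.  Needs Bas.  About 160 lines.
PROOF.  reg: Cf f δ is lower; if densely below r there are r'' ∈ Cf f δ, let r' ≤ r, r' ∈ f x y; take r'' ≤ r' in Cf f δ; r'' ∈ f x y
(lower), so x < δ ↔ y < δ.
unb: α < κ.ord, r ≤ am s q.  STEP: for every β < κ.ord and r1 ≤ am s q there are r2 ≤ r1 and β' < κ.ord, β < β', such that for all x < β
either no r3 ≤ r2 has pr r3 ∈ X x, or there is y < β' with r2 ∈ f x y; and for all y < β either no r3 ≤ r2 has pr r3 ∈ Y y or there is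
x < β' with r2 ∈ f x y.  (distP, Dist.below with s := am s q and the open sets {r | (∀ r3 ≤ r, pr r3 ∉ X x) ∨ ∃ y, r ∈ f x y}, dense by tot;
same for Y by onto; then β' = the supremum of β and the chosen values, successors; it is < κ.ord because κ is regular:
fewer than κ ordinals < κ.ord, by Ordinal.iSup_lt_ord_lift or similar.)
Iterate: r_0 = r, β_0 = α + 1, r_(n+1), β_(n+1); r_ω from F.ctb (r_n antitone), β = sup β_n < κ.ord (ℵ₀ < κ = cof), a limit, α < β.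
r_ω ∈ Cf f β: r' ≤ r_ω, r' ∈ f x y (then x, y < κ.ord and pr r' ∈ X x, pr r' ∈ Y y by dom).  x < β: x < β_n, so (as pr r' ∈ X x, r' ≤ r_(n+1)) r_(n+1) ∈ f x y'
with y' < β_(n+1), and y = y' by fn.  The same with inj for y < β.
closed: δ a limit, densely r'' ∈ Cf f β with β in (α, δ).  Let r' ≤ r, r' ∈ f x y, x < δ: apply with α = x to r': r'' ≤ r', β, r'' ∈ Cf f β,
r'' ∈ f x y, x < β so y < β < δ.  The same for y.
-/
import Pool.Agent.H40.IS.Bas

namespace Pool.Agent.H40.IS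
open Cardinal Ordinal Set
universe u v w

variable {κ : Cardinal.{u}} {Q P : Type v} [Preorder Q] [Preorder P]

/-- the conditions forcing that `δ` is a closure point of `f` (in both directions) -/
def Cf (f : Ordinal.{u} → Ordinal.{u} → Set P) (δ : Ordinal.{u}) : Set P :=
  {r | ∀ r' ≤ r, ∀ x y, r' ∈ f x y → (x < δ ↔ y < δ)}

private theorem supB (hκ : κ.IsRegular) {β : Ordinal.{u}} (hβ : β < κ.ord)
    (g : Ordinal.{u} → Ordinal.{u}) (hg : ∀ x < β, g x < κ.ord) :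
    ∃ β', β < β' ∧ β' < κ.ord ∧ ∀ x < β, g x < β' := by
  have h1 : (⨆ i : Set.Iio β, (g i + 1)) < κ.ord := by
    apply Ordinal.lift_iSup_add_one_lt_of_lt_cof
    · rwa [← lift_cof, hκ.cof_ord, Cardinal.mk_Iio_ordinal, Cardinal.lift_lift, Cardinal.lift_lt,
        ← Cardinal.lt_ord]
    · exact fun i => hg i.1 i.2
  have h2 : β + 1 < κ.ord := (Cardinal.isSuccLimit_ord hκ.1).succ_lt hβ
  refine ⟨max (β + 1) (⨆ i : Set.Iio β, (g i + 1)), ?_, max_lt h2 h1, ?_⟩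
  · exact lt_of_lt_of_le (Order.lt_succ β) (le_max_left _ _)
  · intro x hx
    have h3 : g x + 1 ≤ ⨆ i : Set.Iio β, (g i + 1) :=
      Ordinal.le_iSup (fun i : Set.Iio β => g i + 1) ⟨x, hx⟩
    exact lt_of_lt_of_le (Order.lt_succ (g x)) (h3.trans (le_max_right _ _))

private theorem stepC (hκ : κ.IsRegular) (F : FP κ Q P) {s : Q} {q : P} {X Y : Ordinal.{u} → Set Q}
    {f : Ordinal.{u} → Ordinal.{u} → Set P} (h : Bij F s q X Y f) {β : Ordinal.{u}} (hβ : β < κ.ord)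
    {r1 : P} (hr : r1 ≤ F.am s q) :
    ∃ r2 ≤ r1, ∃ β', β < β' ∧ β' < κ.ord ∧
      (∀ x < β, (∀ r3 ≤ r2, F.pr r3 ∉ X x) ∨ ∃ y < β', r2 ∈ f x y) ∧
      (∀ y < β, (∀ r3 ≤ r2, F.pr r3 ∉ Y y) ∨ ∃ x < β', r2 ∈ f x y) := by
  classical
  have hD : ∀ x < β, IsLowerSet {r : P | ((∀ r3 ≤ r, F.pr r3 ∉ X x) ∨ ∃ y, r ∈ f x y) ∧
      ((∀ r3 ≤ r, F.pr r3 ∉ Y x) ∨ ∃ y, r ∈ f y x)} ∧
      ∀ t ≤ F.am s q, ∃ t' ≤ t, t' ∈ {r : P | ((∀ r3 ≤ r, F.pr r3 ∉ X x) ∨ ∃ y, r ∈ f x y) ∧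
      ((∀ r3 ≤ r, F.pr r3 ∉ Y x) ∨ ∃ y, r ∈ f y x)} := by
    intro x hx
    have hxk : x < κ.ord := hx.trans hβ
    refine ⟨?_, ?_⟩
    · rintro a b hba ⟨h1, h2⟩
      refine ⟨?_, ?_⟩
      · rcases h1 with h1 | ⟨y, hy⟩
        · exact Or.inl fun r3 h3 => h1 r3 (h3.trans hba)
        · exact Or.inr ⟨y, h.lower x y hba hy⟩
      · rcases h2 with h1 | ⟨y, hy⟩
        · exact Or.inl fun r3 h3 => h1 r3 (h3.trans hba)
        · exact Or.inr ⟨y, h.lower y x hba hy⟩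
    · intro t ht
      obtain ⟨t1, ht1, h1⟩ : ∃ t1 ≤ t, (∀ r3 ≤ t1, F.pr r3 ∉ X x) ∨ ∃ y, t1 ∈ f x y := by
        by_cases hc : ∀ r3 ≤ t, F.pr r3 ∉ X x
        · exact ⟨t, le_rfl, Or.inl hc⟩
        · push Not at hc
          obtain ⟨r3, h3, h4⟩ := hc
          obtain ⟨r', hr', y, hy⟩ := h.tot r3 (h3.trans ht) x hxk h4
          exact ⟨r', hr'.trans h3, Or.inr ⟨y, hy⟩⟩
      obtain ⟨t2, ht2, h2⟩ : ∃ t2 ≤ t1, (∀ r3 ≤ t2, F.pr r3 ∉ Y x) ∨ ∃ y, t2 ∈ f y x := by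
        by_cases hc : ∀ r3 ≤ t1, F.pr r3 ∉ Y x
        · exact ⟨t1, le_rfl, Or.inl hc⟩
        · push Not at hc
          obtain ⟨r3, h3, h4⟩ := hc
          obtain ⟨r', hr', y, hy⟩ := h.onto r3 ((h3.trans ht1).trans ht) x hxk h4
          exact ⟨r', hr'.trans h3, Or.inr ⟨y, hy⟩⟩
      refine ⟨t2, ht2.trans ht1, ?_, h2⟩
      rcases h1 with h1 | ⟨y, hy⟩
      · exact Or.inl fun r3 h3 => h1 r3 (h3.trans ht2)
      · exact Or.inr ⟨y, h.lower x y ht2 hy⟩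
  obtain ⟨r2, hr2, h2⟩ := Dist.below F.distP hβ (F.am s q) _ hD r1 hr
  have hr2s : r2 ≤ F.am s q := hr2.trans hr
  -- choose values
  let gx : Ordinal.{u} → Ordinal.{u} := fun x => if hx : ∃ y, r2 ∈ f x y then hx.choose else 0
  let gy : Ordinal.{u} → Ordinal.{u} := fun y => if hy : ∃ x, r2 ∈ f x y then hy.choose else 0
  have h0 : (0 : Ordinal.{u}) < κ.ord := lt_of_le_of_lt zero_le hβ
  have hgx : ∀ x, gx x < κ.ord := by
    intro x
    by_cases hx : ∃ y, r2 ∈ f x y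
    · simp only [gx, dif_pos hx]
      exact (h.dom r2 hr2s x _ hx.choose_spec).2.1
    · simp only [gx, dif_neg hx]
      exact h0
  have hgy : ∀ y, gy y < κ.ord := by
    intro y
    by_cases hy : ∃ x, r2 ∈ f x y
    · simp only [gy, dif_pos hy]
      exact (h.dom r2 hr2s _ y hy.choose_spec).1
    · simp only [gy, dif_neg hy]
      exact h0
  obtain ⟨β', hb1, hb2, hb3⟩ := supB hκ hβ (fun x => max (gx x) (gy x))
    (fun x _ => max_lt (hgx x) (hgy x))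
  refine ⟨r2, hr2, β', hb1, hb2, ?_, ?_⟩
  · intro x hx
    rcases (h2 x hx).1 with h3 | h3
    · exact Or.inl h3
    · right
      refine ⟨gx x, lt_of_le_of_lt (le_max_left _ _) (hb3 x hx), ?_⟩
      simp only [gx, dif_pos h3]
      exact h3.choose_spec
  · intro y hy
    rcases (h2 y hy).2 with h3 | h3
    · exact Or.inl h3
    · right
      refine ⟨gy y, lt_of_le_of_lt (le_max_right _ _) (hb3 y hy), ?_⟩
      simp only [gy, dif_pos h3]
      exact h3.choose_spec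

theorem clubC (hκ : κ.IsRegular) (hω : ℵ₀ < κ) (F : FP κ Q P) {s : Q} {q : P} {X Y : Ordinal.{u} → Set Q}
    {f : Ordinal.{u} → Ordinal.{u} → Set P} (h : Bij F s q X Y f) : ClubName κ (F.am s q) (Cf f) := by
  classical
  refine ⟨?_, ?_, ?_⟩
  · intro δ
    refine ⟨?_, ?_⟩
    · intro a b hba ha r' hr' x y hxy
      exact ha r' (hr'.trans hba) x y hxy
    · intro t ht r' hr' x y hxy
      obtain ⟨r'', hr'', h2⟩ := ht r' hr'
      exact h2 r'' le_rfl x y (h.lower x y hr'' hxy)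
  · intro α hα r hr
    -- the iteration
    let T := {z : P × Ordinal.{u} // z.1 ≤ F.am s q ∧ z.2 < κ.ord}
    have hst : ∀ z : T, ∃ z' : T, z'.1.1 ≤ z.1.1 ∧ z.1.2 < z'.1.2 ∧
        (∀ x < z.1.2, (∀ r3 ≤ z'.1.1, F.pr r3 ∉ X x) ∨ ∃ y < z'.1.2, z'.1.1 ∈ f x y) ∧
        (∀ y < z.1.2, (∀ r3 ≤ z'.1.1, F.pr r3 ∉ Y y) ∨ ∃ x < z'.1.2, z'.1.1 ∈ f x y) := by
      rintro ⟨⟨r1, β⟩, h1, h2⟩
      obtain ⟨r2, hr2, β', hb1, hb2, hb3, hb4⟩ := stepC hκ F h h2 h1
      exact ⟨⟨⟨r2, β'⟩, hr2.trans h1, hb2⟩, hr2, hb1, hb3, hb4⟩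
    choose nx hn1 hn2 hn3 hn4 using hst
    have hα1 : α + 1 < κ.ord := (Cardinal.isSuccLimit_ord hκ.1).succ_lt hα
    let z : ℕ → T := fun n => Nat.rec ⟨⟨r, α + 1⟩, hr, hα1⟩ (fun _ w => nx w) n
    have hz0 : z 0 = ⟨⟨r, α + 1⟩, hr, hα1⟩ := rfl
    have hzs : ∀ n, z (n + 1) = nx (z n) := fun n => rfl
    have hanti : Antitone fun n => (z n).1.1 := antitone_nat_of_succ_le fun n => by
      rw [hzs]; exact hn1 (z n)
    have hmono : StrictMono fun n => (z n).1.2 := strictMono_nat_of_lt_succ fun n => by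
      rw [hzs]; exact hn2 (z n)
    obtain ⟨rω, hrω, -⟩ := F.ctb (fun n => (z n).1.1) hanti
    have hβ : (⨆ n : ℕ, (z n).1.2) < κ.ord := by
      apply Ordinal.lift_iSup_lt_of_lt_cof
      · rw [← lift_cof, hκ.cof_ord]
        simpa using hω
      · exact fun n => (z n).2.2
    have hle : ∀ n, (z n).1.2 ≤ ⨆ n : ℕ, (z n).1.2 := fun n => Ordinal.le_iSup (fun n => (z n).1.2) n
    have hex : ∀ x < ⨆ n : ℕ, (z n).1.2, ∃ n, x < (z n).1.2 := by
      intro x hx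
      by_contra hc
      push Not at hc
      exact absurd (Ordinal.iSup_le hc) (not_le.mpr hx)
    refine ⟨rω, (hrω 0).trans (by rw [hz0]), ⨆ n : ℕ, (z n).1.2, ?_, hβ, ?_⟩
    · have := hle 0
      rw [hz0] at this
      exact lt_of_lt_of_le (Order.lt_succ α) this
    · intro r' hr' x y hxy
      have hr's : r' ≤ F.am s q := hr'.trans ((hrω 0).trans (z 0).2.1)
      obtain ⟨hxk, hyk, hX, hY⟩ := h.dom r' hr's x y hxy
      constructor
      · intro hx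
        obtain ⟨n, hn⟩ := hex x hx
        have hr'n : r' ≤ (z (n + 1)).1.1 := hr'.trans (hrω (n + 1))
        have h3 := hn3 (z n) x hn
        rw [← hzs] at h3
        rcases h3 with h3 | ⟨y', hy', h4⟩
        · exact absurd hX (h3 r' hr'n)
        · have h5 := h.fn r' hr's x y y' hxy (h.lower x y' hr'n h4)
          rw [h5]
          exact lt_of_lt_of_le hy' (hle (n + 1))
      · intro hy
        obtain ⟨n, hn⟩ := hex y hy
        have hr'n : r' ≤ (z (n + 1)).1.1 := hr'.trans (hrω (n + 1))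
        have h3 := hn4 (z n) y hn
        rw [← hzs] at h3
        rcases h3 with h3 | ⟨x', hx', h4⟩
        · exact absurd hY (h3 r' hr'n)
        · have h5 := h.inj r' hr's x x' y hxy (h.lower x' y hr'n h4)
          rw [h5]
          exact lt_of_lt_of_le hx' (hle (n + 1))
  · intro δ hδ hlim r hr hC r' hr' x y hxy
    constructor
    · intro hx
      obtain ⟨r'', hr'', β, hb1, hb2, h3⟩ := hC x hx r' hr'
      exact ((h3 r'' le_rfl x y (h.lower x y hr'' hxy)).1 hb1).trans hb2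
    · intro hy
      obtain ⟨r'', hr'', β, hb1, hb2, h3⟩ := hC y hy r' hr'
      exact ((h3 r'' le_rfl x y (h.lower x y hr'' hxy)).2 hb1).trans hb2

end Pool.Agent.H40.IS
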