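/-
AB3 (Sys).  The data obtained from (SP) applied twice.  Needs Bas, ClubC.  About 150 lines.
`Og c` = conditions t ≤ s such that some q' ≤ q (compatible: t ≤ pr q') has: t ∧ q' forces c to be a closure point of f.
PROOFS.  og_lower: t' ≤ t: t' ≤ pr q', am t' q' ≤ am t q' (am_mono), Cf f c is lower.
exists_sys: An c, from exists_antichain (Og c); for a ∈ An c choose qc c a (from a ∈ Og c); F0 from F.sp s q (Cf f) (clubC); F1 c a for a ∈ An c from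
F.sp a (qc c a) (Cf f), where ClubName κ (am a (qc c a)) (Cf f) by ClubName.mono and am_mono (am a (qc c a) ≤ am s q); for a ∉ An c any name
(for example the constant name 0: val v = {t | v = 0}).
Cl.mono, Cl.reg: immediate from the form of FCl (FCl is regular: if densely below t it holds then it holds at t).
Cl.sup: δ a limit and for all α < δ, densely below t there is t'' with some δ' in (α, δ), Cl δ' t''.  Then Cl δ t: for c < δ, t' ≤ t take t'' ≤ t' and δ' > c with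
Cl δ' t'' : FCl F0 δ' t'' gives a value < δ' < δ.  The same for F1 (with t' ≤ a).
-/
import Pool.Agent.H40.IS.ClubC

namespace Pool.Agent.H40.IS
open Cardinal Ordinal Set
universe u v w

variable {κ : Cardinal.{u}} {Q P : Type v} [Preorder Q] [Preorder P]

/-- conditions below `s` for which `c` is a possible closure point -/
def Og (F : FP κ Q P) (s : Q) (q : P) (f : Ordinal.{u} → Ordinal.{u} → Set P) (c : Ordinal.{u}) : Set Q :=
  {t | t ≤ s ∧ ∃ q' ≤ q, t ≤ F.pr q' ∧ F.am t q' ∈ Cf f c}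

theorem og_lower (F : FP κ Q P) (s : Q) (q : P) {f : Ordinal.{u} → Ordinal.{u} → Set P} (c : Ordinal.{u}) :
    IsLowerSet (Og F s q f c) := by
  rintro t t' htt ⟨hts, q', hq', h1, h2⟩
  refine ⟨htt.trans hts, q', hq', htt.trans h1, ?_⟩
  intro r hr
  exact h2 r (hr.trans (F.am_mono h1 htt le_rfl (htt.trans h1)))

structure Sys (F : FP κ Q P) (s : Q) (q : P) (f : Ordinal.{u} → Ordinal.{u} → Set P) where
  An : Ordinal.{u} → Set Q
  qc : Ordinal.{u} → Q → P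
  F0 : Ordinal.{u} → Nm Q s Ordinal.{u}
  F1 : Ordinal.{u} → (a : Q) → Ordinal.{u} → Nm Q a Ordinal.{u}
  An_sub : ∀ c, ∀ a ∈ An c, a ≤ s
  An_anti : ∀ c, ∀ a ∈ An c, ∀ a' ∈ An c, ∀ t, t ≤ a → t ≤ a' → a = a'
  An_max : ∀ c, ∀ t ∈ Og F s q f c, ∃ t' ≤ t, ∃ a ∈ An c, t' ≤ a
  qc_le : ∀ c, ∀ a ∈ An c, qc c a ≤ q ∧ a ≤ F.pr (qc c a) ∧ F.am a (qc c a) ∈ Cf f c
  F0_lt : ∀ c v, ∀ t ∈ (F0 c).val v, v < κ.ord
  F1_lt : ∀ c a e v, ∀ t ∈ (F1 c a e).val v, v < κ.ord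
  F0_sp : ∀ δ < κ.ord, Order.IsSuccLimit δ → ∀ t ≤ s, FCl F0 δ t → ∃ t' ≤ t, t' ∈ Og F s q f δ
  F1_sp : ∀ c, ∀ a ∈ An c, ∀ δ < κ.ord, Order.IsSuccLimit δ → ∀ t ≤ a, FCl (F1 c a) δ t →
    ∃ t' ≤ t, ∃ q' ≤ qc c a, t' ≤ F.pr q' ∧ F.am t' q' ∈ Cf f δ

theorem exists_sys (hκ : κ.IsRegular) (hω : ℵ₀ < κ) (F : FP κ Q P) {s : Q} {q : P} {X Y : Ordinal.{u} → Set Q}
    {f : Ordinal.{u} → Ordinal.{u} → Set P} (h : Bij F s q X Y f) : Nonempty (Sys F s q f) := by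
  classical
  have hAn : ∀ c, ∃ A ⊆ Og F s q f c,
      (∀ a ∈ A, ∀ a' ∈ A, ∀ t, t ≤ a → t ≤ a' → a = a') ∧
      (IsLowerSet (Og F s q f c) → ∀ t ∈ Og F s q f c, ∃ t' ≤ t, ∃ a ∈ A, t' ≤ a) :=
    fun c => exists_antichain (Og F s q f c)
  choose An hsub hanti hmax using hAn
  have hqc : ∀ c a, ∃ q' : P, a ∈ An c → q' ≤ q ∧ a ≤ F.pr q' ∧ F.am a q' ∈ Cf f c := by
    intro c a
    by_cases ha : a ∈ An c
    · obtain ⟨-, q', h1, h2, h3⟩ := hsub c ha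
      exact ⟨q', fun _ => ⟨h1, h2, h3⟩⟩
    · exact ⟨q, fun h => absurd h ha⟩
  choose qc hqc' using hqc
  have hclub := clubC hκ hω F h
  obtain ⟨F0, hF0, hF0'⟩ := F.sp s q (Cf f) h.le hclub
  have hF1 : ∀ (c : Ordinal.{u}) (a : Q), ∃ F1 : Ordinal.{u} → Nm Q a Ordinal.{u},
      (∀ e v, ∀ t ∈ (F1 e).val v, v < κ.ord) ∧
      (a ∈ An c → ∀ δ < κ.ord, Order.IsSuccLimit δ → ∀ t ≤ a, FCl F1 δ t →
        ∃ t' ≤ t, ∃ q' ≤ qc c a, t' ≤ F.pr q' ∧ F.am t' q' ∈ Cf f δ) := by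
    intro c a
    by_cases ha : a ∈ An c
    · obtain ⟨h1, h2, h3⟩ := hqc' c a ha
      obtain ⟨F1, h4, h5⟩ := F.sp a (qc c a) (Cf f) h2
        (hclub.mono (F.am_mono h.le (hsub c ha).1 h1 h2))
      exact ⟨F1, h4, fun _ => h5⟩
    · refine ⟨fun _ => ⟨fun v => {_t | v = 0}, ?_, ?_, ?_⟩, ?_, fun h => absurd h ha⟩
      · intro y t t' _ ht
        exact ht
      · intro t y y' hy hy'
        have h1 : y = 0 := hy
        have h2 : y' = 0 := hy'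
        rw [h1, h2]
      · intro t _
        exact ⟨t, le_rfl, 0, rfl⟩
      · intro e v t ht
        have h1 : v = 0 := ht
        rw [h1]
        exact Cardinal.lt_ord.2 (by rw [Ordinal.card_zero]; exact (Cardinal.aleph0_pos).trans hω)
  choose F1 hF1a hF1b using hF1
  refine ⟨⟨An, qc, F0, F1, fun c a ha => (hsub c ha).1, hanti,
    fun c => hmax c (og_lower F s q c), hqc', hF0, hF1a, ?_, hF1b⟩⟩
  intro δ hδ hlim t ht hcl
  obtain ⟨t', ht', q', h1, h2, h3⟩ := hF0' δ hδ hlim t ht hcl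
  exact ⟨t', ht', ht'.trans ht, q', h1, h2, h3⟩

/-- `t` forces that `δ` is closed under all the functions of the system -/
def Sys.Cl {F : FP κ Q P} {s : Q} {q : P} {f : Ordinal.{u} → Ordinal.{u} → Set P} (S : Sys F s q f)
    (δ : Ordinal.{u}) (t : Q) : Prop :=
  Order.IsSuccLimit δ ∧ FCl S.F0 δ t ∧ ∀ c < δ, ∀ a ∈ S.An c, ∀ t' ≤ t, t' ≤ a → FCl (S.F1 c a) δ t'

variable {F : FP κ Q P} {s : Q} {q : P} {f : Ordinal.{u} → Ordinal.{u} → Set P} (S : Sys F s q f)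

theorem Sys.Cl.mono {S : Sys F s q f} {δ : Ordinal.{u}} {t t' : Q} (h : S.Cl δ t) (ht : t' ≤ t) : S.Cl δ t' := by
  obtain ⟨h1, h2, h3⟩ := h
  refine ⟨h1, fun c hc t'' ht'' => h2 c hc t'' (ht''.trans ht), ?_⟩
  intro c hc a ha t'' ht'' hta
  exact h3 c hc a ha t'' (ht''.trans ht) hta

theorem Sys.Cl_reg {δ : Ordinal.{u}} {t : Q} (h : ∀ t' ≤ t, ∃ t'' ≤ t', S.Cl δ t'') : S.Cl δ t := by
  refine ⟨?_, ?_, ?_⟩
  · obtain ⟨t', -, h1⟩ := h t le_rfl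
    exact h1.1
  · intro c hc t' ht'
    obtain ⟨t'', ht'', h1⟩ := h t' ht'
    obtain ⟨t3, ht3, v, hv, h4⟩ := h1.2.1 c hc t'' le_rfl
    exact ⟨t3, ht3.trans ht'', v, hv, h4⟩
  · intro c hc a ha t' ht' hta e he t'' ht''
    obtain ⟨t3, ht3, h1⟩ := h t'' (ht''.trans ht')
    obtain ⟨t4, ht4, v, hv, h4⟩ :=
      h1.2.2 c hc a ha t3 le_rfl (ht3.trans (ht''.trans hta)) e he t3 le_rfl
    exact ⟨t4, ht4.trans ht3, v, hv, h4⟩

theorem Sys.Cl_sup {δ : Ordinal.{u}} {t : Q} (hδ : Order.IsSuccLimit δ)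
    (h : ∀ α < δ, ∀ t' ≤ t, ∃ t'' ≤ t', ∃ δ', α < δ' ∧ δ' < δ ∧ S.Cl δ' t'') : S.Cl δ t := by
  refine ⟨hδ, ?_, ?_⟩
  · intro c hc t' ht'
    obtain ⟨t'', ht'', δ', hcδ, hδδ, h1⟩ := h c hc t' ht'
    obtain ⟨t3, ht3, v, hv, h4⟩ := h1.2.1 c hcδ t'' le_rfl
    exact ⟨t3, ht3.trans ht'', v, hv.trans hδδ, h4⟩
  · intro c hc a ha t' ht' hta e he t'' ht''
    obtain ⟨t3, ht3, δ', hcδ, hδδ, h1⟩ := h (max c e) (max_lt hc he) t'' (ht''.trans ht')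
    obtain ⟨t4, ht4, v, hv, h4⟩ :=
      h1.2.2 c ((le_max_left c e).trans_lt hcδ) a ha t3 le_rfl (ht3.trans (ht''.trans hta)) e
        ((le_max_right c e).trans_lt hcδ) t3 le_rfl
    exact ⟨t4, ht4.trans ht3, v, hv.trans hδδ, h4⟩

end Pool.Agent.H40.IS
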