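/-
AB5 (Blk).  Block matchings between two closed points.  Needs Sys.  About 170 lines.
PROOF of hom.  δ ≠ 0: Cl δ t gives FCl F0 δ t, F0_sp: t1 ≤ t in Og δ; An_max: t2 ≤ t1, a ∈ An δ, t2 ≤ a.  From Cl δ' t (δ < δ'): FCl (F1 δ a) δ' t2.
F1_sp: t3 ≤ t2, q' ≤ qc δ a, t3 ≤ pr q', am t3 q' ∈ Cf f δ'; also am t3 q' ≤ am a (qc δ a) (am_mono) which is in Cf f δ (lower), q' ≤ qc δ a ≤ q.
δ = 0: Cf f 0 = everything (x < 0 and y < 0 are false); Cl δ' t gives FCl F0 δ' t, F0_sp: t' ≤ t in Og δ'.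
PROOF of exists_blk.  hom gives t1, q1; r0 = am t1 q1 ≤ am s q.  Dist.below for P (F.distP, below am s q) for the open sets (x < δ')
{r | (∀ r3 ≤ r, pr r3 ∉ X x) ∨ ∃ y, r ∈ f x y} (dense by tot; tot needs x < κ.ord) and (y < δ') {r | (∀ r3 ≤ r, pr r3 ∉ Y y) ∨ ∃ x, r ∈ f x y}: get r ≤ r0 in all.
t' := pr r (≤ t1 ≤ t by of_le_am).  g x := some (y, r) if r ∈ f x y for some y (unique by fn), none otherwise.
For x in [δ, δ') with r ∈ f x y: y in [δ, δ') because r ∈ Cf f δ and r ∈ Cf f δ' (lower: am t1 q1 ∈ both).  t' ∈ X x, Y y by dom; r ≤ q; t' ≤ pr r = t';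
am (pr r) r ∈ f x y because am (pr r) r ≤ r (am_le).  If g x = none: for all r3 ≤ r, pr r3 ∉ X x; then no t3 ≤ t' is in X x: otherwise am t3 r ≤ r has
pr (am t3 r) ≤ t3, so it is in X x (lX), contradiction.  onto: the same for Y.  inj: by inj.
-/
import Pool.Agent.H40.IS.Sys

namespace Pool.Agent.H40.IS
open Cardinal Ordinal Set
universe u v w

variable {κ : Cardinal.{u}} {Q P : Type v} [Preorder Q] [Preorder P]

/-- `t` decides a perfect matching `g` between the parts of `X` and `Y` in the block `[δ, δ')` -/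
structure Blk (F : FP κ Q P) (s : Q) (q : P) (X Y : Ordinal.{u} → Set Q)
    (f : Ordinal.{u} → Ordinal.{u} → Set P) (δ δ' : Ordinal.{u}) (t : Q)
    (g : Ordinal.{u} → Option (Ordinal.{u} × P)) : Prop where
  none' : ∀ x, δ ≤ x → x < δ' → g x = none → ∀ t' ≤ t, t' ∉ X x
  some' : ∀ x, δ ≤ x → x < δ' → ∀ y q', g x = some (y, q') →
    δ ≤ y ∧ y < δ' ∧ t ∈ X x ∧ t ∈ Y y ∧ q' ≤ q ∧ t ≤ F.pr q' ∧ F.am t q' ∈ f x y
  inj : ∀ x x', δ ≤ x → x < δ' → δ ≤ x' → x' < δ' → ∀ y q' q'', g x = some (y, q') → g x' = some (y, q'') → x = x'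
  onto : ∀ y, δ ≤ y → y < δ' → (∀ t' ≤ t, t' ∉ Y y) ∨ ∃ x q', δ ≤ x ∧ x < δ' ∧ g x = some (y, q')

variable {F : FP κ Q P} {s : Q} {q : P} {f : Ordinal.{u} → Ordinal.{u} → Set P}

theorem blk_Cf_lower (f : Ordinal.{u} → Ordinal.{u} → Set P) (δ : Ordinal.{u}) : IsLowerSet (Cf f δ) := by
  intro a b hba ha r' hr' x y hxy
  exact ha r' (hr'.trans hba) x y hxy

theorem Sys.hom (S : Sys F s q f) {δ δ' : Ordinal.{u}} (hδ : δ < δ') (hδ' : δ' < κ.ord) {t : Q} (ht : t ≤ s)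
    (h0 : δ = 0 ∨ S.Cl δ t) (h1 : S.Cl δ' t) :
    ∃ t' ≤ t, ∃ q' ≤ q, t' ≤ F.pr q' ∧ F.am t' q' ∈ Cf f δ ∧ F.am t' q' ∈ Cf f δ' := by
  rcases h0 with h0 | h0
  · obtain ⟨t', ht', -, q', hq', h2, h3⟩ := S.F0_sp δ' hδ' h1.1 t ht h1.2.1
    refine ⟨t', ht', q', hq', h2, ?_, h3⟩
    intro r' _ x y _
    rw [h0]
    exact ⟨fun h => absurd h (not_lt.2 zero_le), fun h => absurd h (not_lt.2 zero_le)⟩
  · obtain ⟨t₁, ht₁, hO⟩ := S.F0_sp δ (hδ.trans hδ') h0.1 t ht h0.2.1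
    obtain ⟨t₂, ht₂, a, ha, hta⟩ := S.An_max δ t₁ hO
    have hF := h1.2.2 δ hδ a ha t₂ (ht₂.trans ht₁) hta
    obtain ⟨t₃, ht₃, q', hq', h2, h3⟩ := S.F1_sp δ a ha δ' hδ' h1.1 t₂ hta hF
    obtain ⟨hc1, hc2, hc3⟩ := S.qc_le δ a ha
    refine ⟨t₃, ht₃.trans (ht₂.trans ht₁), q', hq'.trans hc1, h2, ?_, h3⟩
    exact blk_Cf_lower f δ (F.am_mono hc2 (ht₃.trans hta) hq' h2) hc3

theorem Sys.exists_blk (S : Sys F s q f) {X Y : Ordinal.{u} → Set Q} (h : Bij F s q X Y f)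
    {δ δ' : Ordinal.{u}} (hδ : δ < δ') (hδ' : δ' < κ.ord) {t : Q} (ht : t ≤ s)
    (h0 : δ = 0 ∨ S.Cl δ t) (h1 : S.Cl δ' t) :
    ∃ t' ≤ t, ∃ g, Blk F s q X Y f δ δ' t' g := by
  classical
  obtain ⟨t₁, ht₁, q₁, hq₁, h2, hC, hC'⟩ := S.hom hδ hδ' ht h0 h1
  have hr0 : F.am t₁ q₁ ≤ F.am s q := F.am_mono h.le (ht₁.trans ht) hq₁ h2
  -- decide the values of `f` on `δ'`
  obtain ⟨r₁, hr₁, hX⟩ := Dist.below F.distP hδ' (F.am s q)
    (fun x => {r | (∀ r3 ≤ r, F.pr r3 ∉ X x) ∨ ∃ y, r ∈ f x y})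
    (by
      intro x hx
      constructor
      · intro a b hba ha
        rcases ha with ha | ⟨y, hy⟩
        · exact Or.inl fun r3 hr3 => ha r3 (hr3.trans hba)
        · exact Or.inr ⟨y, h.lower x y hba hy⟩
      · intro r hr
        by_cases hh : ∃ r3 ≤ r, F.pr r3 ∈ X x
        · obtain ⟨r3, hr3, hrX⟩ := hh
          obtain ⟨r', hr', y, hy⟩ := h.tot r3 (hr3.trans hr) x (hx.trans hδ') hrX
          exact ⟨r', hr'.trans hr3, Or.inr ⟨y, hy⟩⟩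
        · exact ⟨r, le_rfl, Or.inl fun r3 hr3 hrX => hh ⟨r3, hr3, hrX⟩⟩) _ hr0
  obtain ⟨r, hr, hY⟩ := Dist.below F.distP hδ' (F.am s q)
    (fun y => {r | (∀ r3 ≤ r, F.pr r3 ∉ Y y) ∨ ∃ x, r ∈ f x y})
    (by
      intro y hy
      constructor
      · intro a b hba ha
        rcases ha with ha | ⟨x, hx⟩
        · exact Or.inl fun r3 hr3 => ha r3 (hr3.trans hba)
        · exact Or.inr ⟨x, h.lower x y hba hx⟩
      · intro r hr
        by_cases hh : ∃ r3 ≤ r, F.pr r3 ∈ Y y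
        · obtain ⟨r3, hr3, hrY⟩ := hh
          obtain ⟨r', hr', x, hx⟩ := h.onto r3 (hr3.trans hr) y (hy.trans hδ') hrY
          exact ⟨r', hr'.trans hr3, Or.inr ⟨x, hx⟩⟩
        · exact ⟨r, le_rfl, Or.inl fun r3 hr3 hrY => hh ⟨r3, hr3, hrY⟩⟩) _ (hr₁.trans hr0)
  have hrr0 : r ≤ F.am t₁ q₁ := hr.trans hr₁
  have hrs : r ≤ F.am s q := hrr0.trans hr0
  obtain ⟨hrq, hrt⟩ := F.of_le_am h2 hrr0
  have hCr : r ∈ Cf f δ := blk_Cf_lower f δ hrr0 hC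
  have hCr' : r ∈ Cf f δ' := blk_Cf_lower f δ' hrr0 hC'
  have hXr : ∀ x < δ', (¬ ∃ y, r ∈ f x y) → ∀ t' ≤ F.pr r, t' ∉ X x := by
    intro x hx hn t' ht' htX
    have h3 : r ∈ {r | (∀ r3 ≤ r, F.pr r3 ∉ X x) ∨ ∃ y, r ∈ f x y} := by
      rcases hX x hx with ha | ⟨y, hy⟩
      · exact Or.inl fun r3 hr3 => ha r3 (hr3.trans hr)
      · exact Or.inr ⟨y, h.lower x y hr hy⟩
    rcases h3 with h3 | h3
    · exact h3 _ (F.am_le ht') (h.lX x (F.pr_am ht') htX)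
    · exact hn h3
  have hYr : ∀ y < δ', (¬ ∃ x, r ∈ f x y) → ∀ t' ≤ F.pr r, t' ∉ Y y := by
    intro y hy hn t' ht' htY
    rcases hY y hy with h3 | h3
    · exact h3 _ (F.am_le ht') (h.lY y (F.pr_am ht') htY)
    · exact hn h3
  -- the matching
  obtain ⟨g, hg⟩ : ∃ g : Ordinal.{u} → Option (Ordinal.{u} × P), ∀ x,
      ((¬ ∃ y, r ∈ f x y) ∧ g x = none) ∨ ∃ y, r ∈ f x y ∧ g x = some (y, r) := by
    refine ⟨fun x => if hx : ∃ y, r ∈ f x y then some (hx.choose, r) else none, fun x => ?_⟩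
    by_cases hx : ∃ y, r ∈ f x y
    · exact Or.inr ⟨hx.choose, hx.choose_spec, dif_pos hx⟩
    · exact Or.inl ⟨hx, dif_neg hx⟩
  have hgs : ∀ x y q', g x = some (y, q') → r ∈ f x y ∧ q' = r := by
    intro x y q' hx
    rcases hg x with ⟨-, h3⟩ | ⟨y', hy', h3⟩
    · rw [h3] at hx
      exact absurd hx (by simp)
    · rw [h3] at hx
      simp only [Option.some.injEq, Prod.mk.injEq] at hx
      exact ⟨hx.1 ▸ hy', hx.2.symm⟩
  refine ⟨F.pr r, hrt.trans ht₁, g, ?_, ?_, ?_, ?_⟩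
  · intro x _ hx2 hgx
    refine hXr x hx2 ?_
    rcases hg x with ⟨h3, -⟩ | ⟨y', hy', h3⟩
    · exact h3
    · rw [h3] at hgx
      exact absurd hgx (by simp)
  · intro x hx1 hx2 y q' hgx
    obtain ⟨hf, rfl⟩ := hgs x y q' hgx
    obtain ⟨-, -, hd1, hd2⟩ := h.dom q' hrs x y hf
    have e1 := hCr q' le_rfl x y hf
    have e2 := hCr' q' le_rfl x y hf
    exact ⟨not_lt.1 fun hy => absurd (e1.2 hy) (not_lt.2 hx1), e2.1 hx2, hd1, hd2,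
      hrq.trans hq₁, le_rfl, h.lower x y (F.am_le le_rfl) hf⟩
  · intro x x' _ _ _ _ y q' q'' hgx hgx'
    exact h.inj r hrs x x' y (hgs x y q' hgx).1 (hgs x' y q'' hgx').1
  · intro y hy1 hy2
    by_cases hh : ∃ x, r ∈ f x y
    · obtain ⟨x, hx⟩ := hh
      have e1 := hCr r le_rfl x y hx
      have e2 := hCr' r le_rfl x y hx
      refine Or.inr ⟨x, r, not_lt.1 fun h3 => absurd (e1.1 h3) (not_lt.2 hy1), e2.2 hy2, ?_⟩
      rcases hg x with ⟨h3, -⟩ | ⟨y', hy', h3⟩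
      · exact absurd ⟨y, hx⟩ h3
      · rw [h3, h.fn r hrs x y' y hy' hx]
    · exact Or.inl (hYr y hy2 hh)

end Pool.Agent.H40.IS
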