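/-
CH' (ChG).  Transfinite descending chains, with stage dependent predicates.  Imports Abs only.  About 120 lines.
Same proof as Chn.chain (whose Fl does not depend on the stage; it is the special case): well-founded recursion with choice:
q 0 = p0; q (ξ+1) = a choice from succ for q ξ if applicable (else p0); at a limit z a choice from lim for the function q below z
(extended by p0 from z on), if applicable; then strong induction on ξ ≤ μ that the chain is as required up to ξ.
-/
import Pool.Agent.H40.IS.Abs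

namespace Pool.Agent.H40.IS
open Cardinal Ordinal Set
universe u v

theorem chainG {P : Type v} [Preorder P] (Fl : Ordinal.{u} → P → Prop) (R : Ordinal.{u} → P → P → Prop)
    (L : Ordinal.{u} → (Ordinal.{u} → P) → P → Prop) (μ : Ordinal.{u}) (p0 : P) (h0 : Fl 0 p0)
    (hL : ∀ z q q' r, (∀ ξ < z, q ξ = q' ξ) → L z q r → L z q' r)
    (succ : ∀ ξ < μ, ∀ p, Fl ξ p → ∃ q ≤ p, Fl (ξ + 1) q ∧ R ξ p q)
    (lim : ∀ z ≤ μ, Order.IsSuccLimit z → ∀ q : Ordinal.{u} → P, (∀ ξ < z, Fl ξ (q ξ)) →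
      (∀ ξ η, ξ ≤ η → η < z → q η ≤ q ξ) → (∀ ξ < z, R ξ (q ξ) (q (ξ + 1))) →
      (∀ ζ < z, Order.IsSuccLimit ζ → L ζ q (q ζ)) →
      ∃ r, Fl z r ∧ (∀ ξ < z, r ≤ q ξ) ∧ L z q r) :
    ∃ q : Ordinal.{u} → P, q 0 = p0 ∧ (∀ ξ ≤ μ, Fl ξ (q ξ)) ∧ (∀ ξ η, ξ ≤ η → η ≤ μ → q η ≤ q ξ) ∧
      (∀ ξ < μ, R ξ (q ξ) (q (ξ + 1))) ∧ ∀ z ≤ μ, Order.IsSuccLimit z → L z q (q z) := by
  classical
  -- the choices
  let sc : Ordinal.{u} → P → P := fun ξ p =>
    if h : ∃ q ≤ p, Fl (ξ + 1) q ∧ R ξ p q then h.choose else p0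
  let ext : (z : Ordinal.{u}) → (∀ ξ < z, P) → Ordinal.{u} → P := fun z f ξ =>
    if h : ξ < z then f ξ h else p0
  let lc : (z : Ordinal.{u}) → (∀ ξ < z, P) → P := fun z f =>
    if h : ∃ r, Fl z r ∧ (∀ ξ < z, r ≤ ext z f ξ) ∧ L z (ext z f) r then h.choose else p0
  obtain ⟨q, hq⟩ : ∃ q : Ordinal.{u} → P, q = fun o =>
    Ordinal.limitRecOn (motive := fun _ => P) o p0 (fun ξ p => sc ξ p) (fun z _ f => lc z f) :=
    ⟨_, rfl⟩
  have hq0 : q 0 = p0 := by
    rw [hq]
    exact Ordinal.limitRecOn_zero _ _ _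
  have hqs : ∀ ξ, q (ξ + 1) = sc ξ (q ξ) := by
    intro ξ
    rw [hq]
    exact Ordinal.limitRecOn_add_one _ _ _ _
  have hql : ∀ z, Order.IsSuccLimit z → q z = lc z (fun ξ _ => q ξ) := by
    intro z hz
    rw [hq]
    exact Ordinal.limitRecOn_limit _ _ _ _ hz
  have hscs : ∀ ξ p, (∃ q ≤ p, Fl (ξ + 1) q ∧ R ξ p q) →
      sc ξ p ≤ p ∧ Fl (ξ + 1) (sc ξ p) ∧ R ξ p (sc ξ p) := by
    intro ξ p h
    have e : sc ξ p = h.choose := dif_pos h
    rw [e]
    exact h.choose_spec
  have hlcs : ∀ z (f : ∀ ξ < z, P),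
      (∃ r, Fl z r ∧ (∀ ξ < z, r ≤ ext z f ξ) ∧ L z (ext z f) r) →
      Fl z (lc z f) ∧ (∀ ξ < z, lc z f ≤ ext z f ξ) ∧ L z (ext z f) (lc z f) := by
    intro z f h
    have e : lc z f = h.choose := dif_pos h
    rw [e]
    exact h.choose_spec
  have hext : ∀ z ξ, ξ < z → ext z (fun ξ _ => q ξ) ξ = q ξ := by
    intro z ξ h
    exact dif_pos h
  -- strong induction
  have key : ∀ ξ ≤ μ, Fl ξ (q ξ) ∧ (∀ η ≤ ξ, q ξ ≤ q η) ∧
      (∀ η, ξ = η + 1 → R η (q η) (q ξ)) ∧ (Order.IsSuccLimit ξ → L ξ q (q ξ)) := by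
    intro ξ
    induction ξ using WellFoundedLT.induction with
    | ind ξ ih =>
      intro hξ
      rcases Ordinal.zero_or_succ_or_isSuccLimit ξ with h | ⟨η, h⟩ | h
      · rw [h]
        refine ⟨by rw [hq0]; exact h0, ?_, ?_, ?_⟩
        · intro η hη
          have : η = 0 := le_antisymm hη zero_le
          rw [this]
        · intro η hη
          exact absurd hη.symm (by simp)
        · intro hl
          exact absurd rfl hl.ne_bot
      · have h' : ξ = η + 1 := h.symm
        have hηξ : η < ξ := by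
          rw [h', ← Order.succ_eq_add_one]
          exact Order.lt_succ η
        have hA := ih η hηξ (hηξ.le.trans hξ)
        have hs := hscs η (q η) (succ η (hηξ.trans_le hξ) (q η) hA.1)
        rw [← hqs, ← h'] at hs
        refine ⟨hs.2.1, ?_, ?_, ?_⟩
        · intro ζ hζ
          rcases hζ.lt_or_eq with h1 | h1
          · have h2 : ζ ≤ η := by
              rw [h', ← Order.succ_eq_add_one] at h1
              exact Order.lt_succ_iff.1 h1
            exact hs.1.trans (hA.2.1 ζ h2)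
          · rw [h1]
        · intro ζ hζ
          have h1 : η = ζ := by
            rw [h', ← Order.succ_eq_add_one, ← Order.succ_eq_add_one] at hζ
            exact Order.succ_injective hζ
          rw [← h1]
          exact hs.2.2
        · intro hl
          rw [h', ← Order.succ_eq_add_one] at hl
          exact absurd hl (Order.not_isSuccLimit_succ η)
      · have hr := lim ξ hξ h q (fun η hη => (ih η hη (hη.le.trans hξ)).1)
          (fun a b hab hb => (ih b hb (hb.le.trans hξ)).2.1 a hab)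
          (fun η hη => by
            have h1 : η + 1 < ξ := by
              rw [← Order.succ_eq_add_one]
              exact h.succ_lt hη
            exact (ih (η + 1) h1 (h1.le.trans hξ)).2.2.1 η rfl)
          (fun ζ hζ hl => (ih ζ hζ (hζ.le.trans hξ)).2.2.2 hl)
        have hs := hlcs ξ (fun η _ => q η) (by
          obtain ⟨r, hr1, hr2, hr3⟩ := hr
          refine ⟨r, hr1, fun η hη => ?_, ?_⟩
          · rw [hext ξ η hη]
            exact hr2 η hη
          · exact hL ξ q _ r (fun η hη => (hext ξ η hη).symm) hr3)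
        rw [← hql ξ h] at hs
        refine ⟨hs.1, ?_, ?_, ?_⟩
        · intro η hη
          rcases hη.lt_or_eq with h1 | h1
          · have h2 := hs.2.1 η h1
            rwa [hext ξ η h1] at h2
          · rw [h1]
        · intro η hη
          rw [hη, ← Order.succ_eq_add_one] at h
          exact absurd h (Order.not_isSuccLimit_succ η)
        · intro _
          exact hL ξ _ q _ (fun η hη => hext ξ η hη) hs.2.2
  refine ⟨q, hq0, fun ξ hξ => (key ξ hξ).1, fun ξ η h1 h2 => (key η h2).2.1 ξ h1, ?_,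
    fun z hz hl => (key z hz).2.2.2 hl⟩
  intro ξ hξ
  have h1 : ξ + 1 ≤ μ := by
    rw [← Order.succ_eq_add_one]
    exact Order.succ_le_of_lt hξ
  exact (key (ξ + 1) h1).2.2.1 ξ rfl

end Pool.Agent.H40.IS
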