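/-
CH (Chn).  Transfinite descending chains in a preorder.  Imports Abs only (only for Mathlib).  About 120 lines.
R ξ p q = relation required of the successor step, L z q r = relation required of the limit step (q is the chain below the limit z).
PROOF.  Define q by well-founded recursion with choice: q 0 = p0; q (ξ+1) = a choice from succ for q ξ (if applicable, otherwise p0);
at a limit z a choice from lim for the function q below z (extended by p0 from z on; by hL the relation L z only sees values below z;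
similarly lim's hypotheses only see values below z).  Prove by strong induction on ξ ≤ μ that the chain is as required up to ξ.
(One may use Ordinal.limitRecOn or WellFounded.fix; or Zorn / sInf of lengths of partial chains.)
-/
import Pool.Agent.H40.IS.Abs

namespace Pool.Agent.H40.IS
open Cardinal Ordinal Set
universe u v

private theorem chain_dc {P : Type v} (Step : Ordinal.{u} → (Ordinal.{u} → P) → P → Prop)
    (p0 : P) (μ : Ordinal.{u})
    (hS : ∀ z f f' r, (∀ ξ < z, f ξ = f' ξ) → Step z f r → Step z f' r)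
    (hex : ∀ z ≤ μ, ∀ f : Ordinal.{u} → P, (∀ ξ < z, Step ξ f (f ξ)) → ∃ r, Step z f r) :
    ∃ q : Ordinal.{u} → P, ∀ z ≤ μ, Step z q (q z) := by
  classical
  let G : (z : Ordinal.{u}) → ((y : Ordinal.{u}) → y < z → P) → P := fun z f =>
    if h : ∃ r, Step z (fun y => if hy : y < z then f y hy else p0) r then h.choose else p0
  let q : Ordinal.{u} → P := WellFounded.fix (wellFounded_lt (α := Ordinal.{u})) G
  have hq : ∀ z, q z = G z (fun y _ => q y) := fun z => WellFounded.fix_eq _ _ _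
  refine ⟨q, ?_⟩
  intro z
  induction z using WellFoundedLT.induction with
  | ind z ih =>
    intro hz
    have h1 : ∀ ξ < z, Step ξ q (q ξ) := fun ξ hξ => ih ξ hξ (hξ.le.trans hz)
    obtain ⟨r, hr⟩ := hex z hz q h1
    have h2 : ∀ ξ < z, q ξ = (fun y => if _hy : y < z then q y else p0) ξ := by
      intro ξ hξ
      simp [hξ]
    have h3 : ∃ r, Step z (fun y => if _hy : y < z then q y else p0) r := ⟨r, hS z _ _ r h2 hr⟩
    have h4 : q z = h3.choose := by
      rw [hq z]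
      exact dif_pos h3
    rw [h4]
    exact hS z _ _ _ (fun ξ hξ => (h2 ξ hξ).symm) h3.choose_spec

theorem chain {P : Type v} [Preorder P] (Fl : P → Prop) (R : Ordinal.{u} → P → P → Prop)
    (L : Ordinal.{u} → (Ordinal.{u} → P) → P → Prop) (μ : Ordinal.{u}) (p0 : P) (h0 : Fl p0)
    (hL : ∀ z q q' r, (∀ ξ < z, q ξ = q' ξ) → L z q r → L z q' r)
    (succ : ∀ ξ < μ, ∀ p, Fl p → ∃ q ≤ p, Fl q ∧ R ξ p q)
    (lim : ∀ z ≤ μ, Order.IsSuccLimit z → ∀ q : Ordinal.{u} → P, (∀ ξ < z, Fl (q ξ)) →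
      (∀ ξ η, ξ ≤ η → η < z → q η ≤ q ξ) → (∀ ξ < z, R ξ (q ξ) (q (ξ + 1))) →
      (∀ ζ < z, Order.IsSuccLimit ζ → L ζ q (q ζ)) →
      ∃ r, Fl r ∧ (∀ ξ < z, r ≤ q ξ) ∧ L z q r) :
    ∃ q : Ordinal.{u} → P, q 0 = p0 ∧ (∀ ξ ≤ μ, Fl (q ξ)) ∧ (∀ ξ η, ξ ≤ η → η ≤ μ → q η ≤ q ξ) ∧
      (∀ ξ < μ, R ξ (q ξ) (q (ξ + 1))) ∧ ∀ z ≤ μ, Order.IsSuccLimit z → L z q (q z) := by
  let Step : Ordinal.{u} → (Ordinal.{u} → P) → P → Prop := fun z f r =>
    Fl r ∧ (∀ ξ < z, r ≤ f ξ) ∧ (∀ ξ, z = ξ + 1 → R ξ (f ξ) r) ∧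
      (Order.IsSuccLimit z → L z f r) ∧ (z = 0 → r = p0)
  have hS : ∀ z f f' r, (∀ ξ < z, f ξ = f' ξ) → Step z f r → Step z f' r := by
    rintro z f f' r hff ⟨h1, h2, h3, h4, h5⟩
    refine ⟨h1, fun ξ hξ => ?_, fun ξ hξ => ?_, fun hz => hL z f f' r hff (h4 hz), h5⟩
    · rw [← hff ξ hξ]
      exact h2 ξ hξ
    · have : ξ < z := by rw [hξ]; exact lt_add_one ξ
      rw [← hff ξ this]
      exact h3 ξ hξ
  -- consequences of the steps
  have hanti : ∀ (z : Ordinal.{u}) (f : Ordinal.{u} → P), (∀ ξ < z, Step ξ f (f ξ)) →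
      ∀ ξ η, ξ ≤ η → η < z → f η ≤ f ξ := by
    intro z f hf ξ η hξη hη
    rcases hξη.eq_or_lt with h | h
    · rw [h]
    · exact (hf η hη).2.1 ξ h
  have hex : ∀ z ≤ μ, ∀ f : Ordinal.{u} → P, (∀ ξ < z, Step ξ f (f ξ)) → ∃ r, Step z f r := by
    intro z hz f hf
    rcases Ordinal.zero_or_succ_or_isSuccLimit z with h | ⟨ξ, h⟩ | h
    · refine ⟨p0, h0, ?_, ?_, ?_, fun _ => rfl⟩
      · intro ξ hξ
        rw [h] at hξ
        exact absurd hξ not_lt_zero
      · intro ξ hξ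
        rw [h] at hξ
        exact absurd hξ.symm (Ordinal.add_one_ne_zero ξ)
      · intro hl
        rw [h] at hl
        exact absurd hl (by simp)
    · have hlt : ξ < z := by rw [← h]; exact Order.lt_succ ξ
      obtain ⟨q, hq1, hq2, hq3⟩ := succ ξ (hlt.trans_le hz) (f ξ) (hf ξ hlt).1
      refine ⟨q, hq2, ?_, ?_, ?_, ?_⟩
      · intro η hη
        have : η ≤ ξ := by rw [← h] at hη; exact Order.lt_succ_iff.1 hη
        exact hq1.trans (hanti z f hf η ξ this hlt)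
      · intro η hη
        have : η = ξ := by
          rw [← h] at hη
          exact (Order.succ_injective (by simpa using hη)).symm
        rw [this]
        exact hq3
      · intro hl
        rw [← h] at hl
        exact absurd hl (by simp)
      · intro hz0
        rw [hz0] at hlt
        exact absurd hlt not_lt_zero
    · obtain ⟨r, hr1, hr2, hr3⟩ := lim z hz h f (fun ξ hξ => (hf ξ hξ).1) (hanti z f hf)
        (fun ξ hξ => (hf (ξ + 1) (h.add_one_lt hξ)).2.2.1 ξ rfl)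
        (fun ζ hζ hl => (hf ζ hζ).2.2.2.1 hl)
      refine ⟨r, hr1, hr2, ?_, fun _ => hr3, ?_⟩
      · intro ξ hξ
        rw [hξ] at h
        exact absurd h (by simp)
      · intro hz0
        rw [hz0] at h
        exact absurd h (by simp)
  obtain ⟨q, hq⟩ := chain_dc Step p0 μ hS hex
  refine ⟨q, (hq 0 (zero_le)).2.2.2.2 rfl, fun ξ hξ => (hq ξ hξ).1, ?_, ?_, ?_⟩
  · intro ξ η hξη hη
    rcases hξη.eq_or_lt with h | h
    · rw [h]
    · exact (hq η hη).2.1 ξ h
  · intro ξ hξ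
    exact (hq (ξ + 1) (Order.add_one_le_of_lt hξ)).2.2.1 ξ rfl
  · intro z hz hl
    exact (hq z hz).2.2.2.1 hl

/-- without limit relation -/
theorem chain' {P : Type v} [Preorder P] (Fl : P → Prop) (R : Ordinal.{u} → P → P → Prop)
    (μ : Ordinal.{u}) (p0 : P) (h0 : Fl p0)
    (succ : ∀ ξ < μ, ∀ p, Fl p → ∃ q ≤ p, Fl q ∧ R ξ p q)
    (lim : ∀ z ≤ μ, Order.IsSuccLimit z → ∀ q : Ordinal.{u} → P, (∀ ξ < z, Fl (q ξ)) →
      (∀ ξ η, ξ ≤ η → η < z → q η ≤ q ξ) → ∃ r, Fl r ∧ ∀ ξ < z, r ≤ q ξ) :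
    ∃ q : Ordinal.{u} → P, q 0 = p0 ∧ (∀ ξ ≤ μ, Fl (q ξ)) ∧ (∀ ξ η, ξ ≤ η → η ≤ μ → q η ≤ q ξ) ∧
      (∀ ξ < μ, R ξ (q ξ) (q (ξ + 1))) := by
  obtain ⟨q, h1, h2, h3, h4, _⟩ := chain Fl R (fun _ _ _ => True) μ p0 h0
    (fun _ _ _ _ _ _ => trivial) succ
    (fun z hz hl q hq1 hq2 _ _ => by
      obtain ⟨r, hr1, hr2⟩ := lim z hz hl q hq1 hq2
      exact ⟨r, hr1, hr2, trivial⟩)
  exact ⟨q, h1, h2, h3, h4⟩

end Pool.Agent.H40.IS
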