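/-
SP-c (Cln).  Names for closure points of large cofinality.  Abstract.  Imports KSm and Bas only.  About 220 lines.
PROOF of closure_names.  Fix c < κ.ord and μ = (succ c.card).ord (if c is finite take μ = ω₁... any regular cardinal ordinal μ with
c.card < μ.card and ω₁ ≤ μ works), μ regular, μ < κ.ord.  For t : Q define by recursion on η a sequence dd t η of ordinals:
dd t 0 = c + 1, dd t (η+1) = sup of {dd t η + 1} ∪ {v + 1 : x < dd t η, t ∈ (N x).val v}, dd t z = sup_{η<z} for limit z (e.g. define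
dd t η = sup over η' < η of that expression, or sInf of an upper bound).  E η = {t | ∀ η' < η, ∀ x < dd t η', ∃ v, t ∈ (N x).val v}
∩ {t | t ≤ s}.  If t ∈ E η and t' ≤ t then dd t' η' = dd t η' for η' ≤ η (uniq) and t' ∈ E η.  E η is dense below s for η ≤ μ, by
induction: successor: t ∈ E η, dd t η < κ.ord (regularity, hN), decide all N x, x < dd t η, with Dist.below; limit: Dist.below with
D η' = E η'.  For t ∈ E μ put d = sup_{η<μ} dd t η = dd t μ < κ.ord; d is a limit of a strictly increasing continuous μ-sequence so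
cof d = μ.card > c.card; c < d; and t decides all N x with x < d to be < d, so FCl N d t.
N2 c: val v = {t | t ∈ E μ ∧ v = dd t μ}; lower and uniq by the coherence, dense by density of E μ.
For c ≥ κ.ord: val v = {t | v = 0}.
name_max: val v = {t | ∃ a b, t ∈ N.val a ∧ t ∈ N2.val b ∧ v = max (max a b) g}.
decide: for δ < κ.ord apply Dist.below to D c = {t | ∃ v, t ∈ (N c).val v}.
-/
import Pool.Agent.H40.IS.KSm
import Pool.Agent.H40.IS.Bas

namespace Pool.Agent.H40.IS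
open Cardinal Ordinal Set
universe u v
variable {κ : Cardinal.{u}}

theorem name_max {Q : Type v} [Preorder Q] {s : Q} (N N2 : Nm Q s Ordinal.{u}) (g : Ordinal.{u}) :
    ∃ N3 : Nm Q s Ordinal.{u}, ∀ v t, t ∈ N3.val v ↔ ∃ a b, t ∈ N.val a ∧ t ∈ N2.val b ∧
      v = max (max a b) g := by
  refine ⟨⟨fun v => {t | ∃ a b, t ∈ N.val a ∧ t ∈ N2.val b ∧ v = max (max a b) g}, ?_, ?_, ?_⟩,
    fun v t => Iff.rfl⟩
  · rintro y t t' h ⟨a, b, ha, hb, hy⟩
    exact ⟨a, b, N.lower a h ha, N2.lower b h hb, hy⟩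
  · rintro t y y' ⟨a, b, ha, hb, rfl⟩ ⟨a', b', ha', hb', rfl⟩
    rw [N.uniq ha ha', N2.uniq hb hb']
  · intro t ht
    obtain ⟨t1, h1, a, ha⟩ := N.dense t ht
    obtain ⟨t2, h2, b, hb⟩ := N2.dense t1 (h1.trans ht)
    exact ⟨t2, h2.trans h1, _, a, b, N.lower a h2 ha, hb, rfl⟩

theorem decide_all {Q : Type v} [Preorder Q] (hQ : Dist κ Q) {s : Q}
    (N : Ordinal.{u} → Nm Q s Ordinal.{u}) {δ : Ordinal.{u}} (hδ : δ < κ.ord) {t : Q} (ht : t ≤ s) :
    ∃ t' ≤ t, ∃ v : Ordinal.{u} → Ordinal.{u}, ∀ c < δ, t' ∈ (N c).val (v c) := by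
  obtain ⟨t', ht', h⟩ := hQ.below hδ s (fun c => {t | ∃ v, t ∈ (N c).val v}) (by
    intro c _
    refine ⟨?_, fun t ht => ?_⟩
    · rintro t t' h ⟨v, hv⟩
      exact ⟨v, (N c).lower v h hv⟩
    · exact (N c).dense t ht) t ht
  choose! v hv using h
  exact ⟨t', ht', v, hv⟩

private noncomputable def dd {Q : Type v} [Preorder Q] {s : Q}
    (N : Ordinal.{u} → Nm Q s Ordinal.{u}) (c : Ordinal.{u}) (t : Q) (η : Ordinal.{u}) :
    Ordinal.{u} :=
  sInf {δ | c < δ ∧ ∀ η' (_h : η' < η), dd N c t η' < δ ∧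
    ∀ x < dd N c t η', ∀ v, t ∈ (N x).val v → v < δ}
termination_by η
decreasing_by all_goals exact _h

private def SS {Q : Type v} [Preorder Q] {s : Q}
    (N : Ordinal.{u} → Nm Q s Ordinal.{u}) (c : Ordinal.{u}) (t : Q) (η : Ordinal.{u}) :
    Set Ordinal.{u} :=
  {δ | c < δ ∧ ∀ η' < η, dd N c t η' < δ ∧ ∀ x < dd N c t η', ∀ v, t ∈ (N x).val v → v < δ}

private theorem dd_eq {Q : Type v} [Preorder Q] {s : Q}
    (N : Ordinal.{u} → Nm Q s Ordinal.{u}) (c : Ordinal.{u}) (t : Q) (η : Ordinal.{u}) :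
    dd N c t η = sInf (SS N c t η) := by
  rw [dd]
  rfl

private theorem exists_SS (hκ : κ.IsInaccessible) {Q : Type v} [Preorder Q] {s : Q}
    {N : Ordinal.{u} → Nm Q s Ordinal.{u}} (hN : ∀ c < κ.ord, ∀ v, ∀ t ∈ (N c).val v, v < κ.ord)
    {c : Ordinal.{u}} (hc : c < κ.ord) (t : Q) (η : Ordinal.{u}) :
    η < κ.ord → ∃ δ ∈ SS N c t η, δ < κ.ord := by
  classical
  induction η using WellFoundedLT.induction with
  | _ η ih =>
    intro hη
    let val : Ordinal.{u} → Ordinal.{u} := fun x =>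
      if h : ∃ v, t ∈ (N x).val v then h.choose else 0
    have hval : ∀ x v, t ∈ (N x).val v → val x = v := by
      intro x v hv
      have h : ∃ v, t ∈ (N x).val v := ⟨v, hv⟩
      simp only [val]
      rw [dif_pos h]
      exact (N x).uniq h.choose_spec hv
    obtain ⟨γ1, hγ1, h1⟩ := (sm_Iio hη).bdd hκ (fun η' => dd N c t η') (by
      intro η' hη'
      obtain ⟨δ, hδ, hδκ⟩ := ih η' hη' (lt_trans hη' hη)
      rw [dd_eq]
      exact (csInf_le' hδ).trans_lt hδκ)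
    obtain ⟨γ2, hγ2, h2⟩ := (sm_Iio hγ1).bdd hκ val (by
      intro x hx
      by_cases h : ∃ v, t ∈ (N x).val v
      · obtain ⟨v, hv⟩ := h
        rw [hval x v hv]
        exact hN x (lt_trans hx hγ1) v t hv
      · simp only [val]
        rw [dif_neg h]
        exact kord_pos hκ)
    refine ⟨max (c + 1) (max γ1 γ2), ⟨?_, ?_⟩, max_lt (kord_limit hκ hc) (max_lt hγ1 hγ2)⟩
    · exact lt_of_lt_of_le (lt_add_one c) (le_max_left _ _)
    · intro η' hη'
      have h3 := h1 η' hη'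
      refine ⟨h3.trans_le ((le_max_left _ _).trans (le_max_right _ _)), fun x hx v hv => ?_⟩
      have h4 := h2 x (hx.trans h3)
      rw [hval x v hv] at h4
      exact h4.trans_le ((le_max_right _ _).trans (le_max_right _ _))

private theorem dd_lt (hκ : κ.IsInaccessible) {Q : Type v} [Preorder Q] {s : Q}
    {N : Ordinal.{u} → Nm Q s Ordinal.{u}} (hN : ∀ c < κ.ord, ∀ v, ∀ t ∈ (N c).val v, v < κ.ord)
    {c : Ordinal.{u}} (hc : c < κ.ord) (t : Q) {η : Ordinal.{u}} (hη : η < κ.ord) :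
    dd N c t η < κ.ord := by
  obtain ⟨δ, hδ, hδκ⟩ := exists_SS hκ hN hc t η hη
  rw [dd_eq]
  exact (csInf_le' hδ).trans_lt hδκ

private theorem dd_mem (hκ : κ.IsInaccessible) {Q : Type v} [Preorder Q] {s : Q}
    {N : Ordinal.{u} → Nm Q s Ordinal.{u}} (hN : ∀ c < κ.ord, ∀ v, ∀ t ∈ (N c).val v, v < κ.ord)
    {c : Ordinal.{u}} (hc : c < κ.ord) (t : Q) {η : Ordinal.{u}} (hη : η < κ.ord) :
    dd N c t η ∈ SS N c t η := by
  obtain ⟨δ, hδ, -⟩ := exists_SS hκ hN hc t η hη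
  rw [dd_eq]
  exact csInf_mem ⟨δ, hδ⟩

private def EE {Q : Type v} [Preorder Q] {s : Q}
    (N : Ordinal.{u} → Nm Q s Ordinal.{u}) (c η : Ordinal.{u}) : Set Q :=
  {t | ∀ ζ < η, ∀ x < dd N c t ζ, ∃ v, t ∈ (N x).val v}

private theorem dd_coh {Q : Type v} [Preorder Q] {s : Q}
    {N : Ordinal.{u} → Nm Q s Ordinal.{u}} {c η : Ordinal.{u}} {t t' : Q} (h : t' ≤ t)
    (ht : t ∈ EE N c η) (ζ : Ordinal.{u}) : ζ ≤ η → dd N c t' ζ = dd N c t ζ := by
  induction ζ using WellFoundedLT.induction with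
  | _ ζ ih =>
    intro hζ
    rw [dd_eq, dd_eq]
    congr 1
    ext δ
    constructor
    · rintro ⟨h1, h2⟩
      refine ⟨h1, fun η' hη' => ?_⟩
      have h3 := h2 η' hη'
      rw [ih η' hη' (hη'.le.trans hζ)] at h3
      exact ⟨h3.1, fun x hx v hv => h3.2 x hx v ((N x).lower v h hv)⟩
    · rintro ⟨h1, h2⟩
      refine ⟨h1, fun η' hη' => ?_⟩
      have h3 := h2 η' hη'
      rw [ih η' hη' (hη'.le.trans hζ)]
      refine ⟨h3.1, fun x hx v hv => ?_⟩
      obtain ⟨w, hw⟩ := ht η' (hη'.trans_le hζ) x hx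
      rw [(N x).uniq hv ((N x).lower w h hw)]
      exact h3.2 x hx w hw

private theorem EE_lower {Q : Type v} [Preorder Q] {s : Q}
    (N : Ordinal.{u} → Nm Q s Ordinal.{u}) (c η : Ordinal.{u}) : IsLowerSet (EE N c η) := by
  intro t t' h ht ζ hζ x hx
  rw [dd_coh h ht ζ hζ.le] at hx
  obtain ⟨v, hv⟩ := ht ζ hζ x hx
  exact ⟨v, (N x).lower v h hv⟩

private theorem EE_dense (hκ : κ.IsInaccessible) {Q : Type v} [Preorder Q] (hQ : Dist κ Q) {s : Q}
    {N : Ordinal.{u} → Nm Q s Ordinal.{u}} (hN : ∀ c < κ.ord, ∀ v, ∀ t ∈ (N c).val v, v < κ.ord)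
    {c : Ordinal.{u}} (hc : c < κ.ord) (η : Ordinal.{u}) :
    η < κ.ord → ∀ t ≤ s, ∃ t' ≤ t, t' ∈ EE N c η := by
  induction η using WellFoundedLT.induction with
  | _ η ih =>
    intro hη t ht
    obtain ⟨t', ht', h⟩ := hQ.below hη s (fun ζ => EE N c (ζ + 1)) (by
      intro ζ hζ
      refine ⟨EE_lower N c _, fun t ht => ?_⟩
      obtain ⟨t1, ht1, h1⟩ := ih ζ hζ (hζ.trans hη) t ht
      obtain ⟨t2, ht2, v, hv⟩ := decide_all hQ N (dd_lt hκ hN hc t1 (hζ.trans hη)) (ht1.trans ht)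
      refine ⟨t2, ht2.trans ht1, fun ζ' hζ' x hx => ?_⟩
      have hle : ζ' ≤ ζ := Order.lt_add_one_iff.1 hζ'
      rw [dd_coh ht2 h1 ζ' hle] at hx
      rcases hle.lt_or_eq with h3 | h3
      · obtain ⟨w, hw⟩ := h1 ζ' h3 x hx
        exact ⟨w, (N x).lower w ht2 hw⟩
      · subst h3
        exact ⟨_, hv x hx⟩) t ht
    exact ⟨t', ht', fun ζ hζ x hx => h ζ hζ ζ (lt_add_one ζ) x hx⟩

theorem closure_names (hκ : κ.IsInaccessible) {Q : Type v} [Preorder Q] (hQ : Dist κ Q) (s : Q)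
    (N : Ordinal.{u} → Nm Q s Ordinal.{u}) (hN : ∀ c < κ.ord, ∀ v, ∀ t ∈ (N c).val v, v < κ.ord) :
    ∃ N2 : Ordinal.{u} → Nm Q s Ordinal.{u},
      ∀ c < κ.ord, ∀ v, ∀ t ∈ (N2 c).val v, v < κ.ord ∧ c < v ∧ c.card < v.cof ∧ FCl N v t := by
  classical
  have key : ∀ c : Ordinal.{u}, ∃ M : Nm Q s Ordinal.{u}, c < κ.ord →
      ∀ v, ∀ t ∈ M.val v, v < κ.ord ∧ c < v ∧ c.card < v.cof ∧ FCl N v t := by
    intro c
    by_cases hc : c < κ.ord
    · let ν : Cardinal.{u} := Order.succ (max c.card ℵ₀)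
      have hν : ν.IsRegular := isRegular_succ (le_max_right _ _)
      have hνκ : ν < κ := hκ.isSuccLimit.succ_lt (max_lt (lt_ord.1 hc) hκ.1)
      have hμ : ν.ord < κ.ord := ord_lt_ord.2 hνκ
      have hlim : Order.IsSuccLimit ν.ord := isSuccLimit_ord hν.aleph0_le
      have hcν : c.card < ν := Order.lt_succ_of_le (le_max_left _ _)
      have hpos : (0 : Ordinal.{u}) < ν.ord := hlim.bot_lt
      refine ⟨⟨fun v => {t | t ∈ EE N c ν.ord ∧ v = dd N c t ν.ord}, ?_, ?_, ?_⟩, fun _ => ?_⟩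
      · rintro v t t' h ⟨ht, hv⟩
        exact ⟨EE_lower N c _ h ht, by rw [dd_coh h ht _ le_rfl, hv]⟩
      · rintro t y y' ⟨_, hy⟩ ⟨_, hy'⟩
        rw [hy, hy']
      · intro t ht
        obtain ⟨t', ht', h⟩ := EE_dense hκ hQ hN hc ν.ord hμ t ht
        exact ⟨t', ht', _, h, rfl⟩
      · rintro v t ⟨ht, rfl⟩
        have hmem := dd_mem hκ hN hc t hμ
        have hstep : ∀ η < ν.ord, dd N c t η < dd N c t (η + 1) := fun η hη =>
          ((dd_mem hκ hN hc t (lt_trans (hlim.succ_lt hη) hμ)).2 η (lt_add_one η)).1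
        have hsup : dd N c t ν.ord = ⨆ i : Iio ν.ord, dd N c t i := by
          apply le_antisymm
          · rw [dd_eq]
            apply csInf_le'
            refine ⟨?_, ?_⟩
            · exact (dd_mem hκ hN hc t (lt_trans hpos hμ)).1.trans_le
                (Ordinal.le_iSup (fun i : Iio ν.ord => dd N c t i) ⟨0, hpos⟩)
            · intro η' hη'
              have h1 : η' + 1 < ν.ord := hlim.succ_lt hη'
              have h2 := Ordinal.le_iSup (fun i : Iio ν.ord => dd N c t i) ⟨η' + 1, h1⟩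
              refine ⟨(hstep η' hη').trans_le h2, fun x hx v hv => ?_⟩
              exact (((dd_mem hκ hN hc t (lt_trans h1 hμ)).2 η' (lt_add_one η')).2 x hx v
                hv).trans_le h2
          · exact Ordinal.iSup_le fun i => ((hmem.2 i i.2).1).le
        have hmono : StrictMono (fun i : Iio ν.ord => dd N c t i) := by
          intro i j hij
          exact ((dd_mem hκ hN hc t (lt_trans j.2 hμ)).2 i hij).1
        refine ⟨dd_lt hκ hN hc t hμ, hmem.1, ?_, ?_⟩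
        · rw [hsup, cof_iSup_Iio hmono hlim.isSuccPrelimit, hν.cof_ord]
          exact hcν
        · intro x hx t' ht'
          have h1 : ∃ η < ν.ord, x < dd N c t η := by
            rw [hsup, Ordinal.lt_iSup_iff] at hx
            obtain ⟨i, hi⟩ := hx
            exact ⟨i, i.2, hi⟩
          obtain ⟨η, hη, hxη⟩ := h1
          obtain ⟨w, hw⟩ := ht η hη x hxη
          exact ⟨t', le_rfl, w, (hmem.2 η hη).2 x hxη w hw, (N x).lower w ht' hw⟩
    · refine ⟨⟨fun v => {_t | v = 0}, ?_, ?_, ?_⟩, fun h => absurd h hc⟩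
      · intro v t t' _ h
        exact h
      · intro t y y' h h'
        exact h.trans h'.symm
      · intro t _
        exact ⟨t, le_rfl, 0, rfl⟩
  choose M hM using key
  exact ⟨M, hM⟩

end Pool.Agent.H40.IS
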