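/-
SP-b (Clo).  Closing off: an enumeration e of conditions and names N c for the index of a solution of the task c.  Abstract.
Imports KLk and Bas only.  About 200 lines.
PROOF.  Let fst be as in exists_idx.  For c < κ.ord and a function e put O = {t ≤ s | ∃ p, W c e t p} (lower by hlow).  By
exists_antichain there is A ⊆ O, pairwise incompatible, such that every t ∈ O has t' ≤ t below an element of A; Lk κ A by cc; let idx
be from exists_idx for c and A, and sol m (m ∈ A) with W c e m (sol m).  All these are choices depending on c and e; since W c only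
depends on e below c (hloc, both directions) we apply them to e cut at c (e' i = e i for i < c, else q0).
Define e by well-founded recursion: e v, with c = fst v: if c < v, c < κ.ord and there is m ∈ A(c, e cut at c) with idx m = v then
e v = sol m, else e v = q0.  e 0 = q0 since fst 0 < 0 is false.
N c for c < κ.ord: val v = {t | ∃ m ∈ A, idx m = v ∧ t ≤ m} ∪ {t | v = 0 ∧ t is incompatible with all m ∈ A}.  lower: clear.
uniq: A is an antichain, idx m > c ≥ 0 so the two parts do not mix.  dense below s: if t is compatible with some m ∈ A go below.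
solution property: t ≤ m, idx m = v: W c (e cut) m (sol m), so W c e t (e v) by hloc, hlow.  Second part: if t' ≤ t and W c e t' p':
then t' and s: N c is only required to work below s: intersect the second part with {t | t ≤ s}: so t' ≤ s, t' ∈ O, so some t'' ≤ t'
is below an element of A: contradiction.  (So take the second part {t | v = 0 ∧ t ≤ s ∧ incompatible with A}.)
For c ≥ κ.ord: val v = {t | v = 0}.  Values < κ.ord: idx m < κ.ord.
-/
import Pool.Agent.H40.IS.KLk
import Pool.Agent.H40.IS.Bas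

namespace Pool.Agent.H40.IS
open Cardinal Ordinal Set
universe u
variable {κ : Cardinal.{u}}

/-- the function cut at `c` -/
private noncomputable def cutF {P : Type (u + 1)} (q0 : P) (e : Ordinal.{u} → P)
    (c : Ordinal.{u}) : Ordinal.{u} → P := by
  classical
  exact fun i => if i < c then e i else q0

private theorem cutF_lt {P : Type (u + 1)} (q0 : P) (e : Ordinal.{u} → P) {c i : Ordinal.{u}}
    (h : i < c) : cutF q0 e c i = e i := by
  unfold cutF
  exact if_pos h

private theorem cutF_cutF {P : Type (u + 1)} (q0 : P) (e : Ordinal.{u} → P) {c v : Ordinal.{u}}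
    (h : c < v) : cutF q0 (cutF q0 e v) c = cutF q0 e c := by
  funext i
  by_cases hi : i < c
  · rw [cutF_lt _ _ hi, cutF_lt _ _ hi, cutF_lt _ _ (hi.trans h)]
  · unfold cutF
    rw [if_neg hi, if_neg hi]

theorem cloff (hκ : κ.IsInaccessible) {Q P : Type (u + 1)} [Preorder Q]
    (cc : ∀ M : Set Q, (∀ a ∈ M, ∀ b ∈ M, ∀ t, t ≤ a → t ≤ b → a = b) → Lk κ M)
    (s : Q) (q0 : P) (W : Ordinal.{u} → (Ordinal.{u} → P) → Q → P → Prop)
    (hlow : ∀ c e t t' p, t' ≤ t → W c e t p → W c e t' p)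
    (hloc : ∀ c e e', (∀ i < c, e i = e' i) → ∀ t p, W c e t p → W c e' t p) :
    ∃ e : Ordinal.{u} → P, e 0 = q0 ∧ ∃ N : Ordinal.{u} → Nm Q s Ordinal.{u},
      (∀ c v, ∀ t ∈ (N c).val v, v < κ.ord) ∧
      ∀ c < κ.ord, ∀ v, ∀ t ∈ (N c).val v, W c e t (e v) ∨ ∀ t' ≤ t, ∀ p', ¬ W c e t' p' := by
  classical
  obtain ⟨fst, hfst⟩ := exists_idx.{u} hκ
  -- the maximal antichains
  have hA0 : ∀ (c : Ordinal.{u}) (e : Ordinal.{u} → P), ∃ A : Set Q,
      (∀ a ∈ A, a ≤ s ∧ ∃ p, W c e a p) ∧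
      (∀ a ∈ A, ∀ a' ∈ A, ∀ t, t ≤ a → t ≤ a' → a = a') ∧
      ∀ t, t ≤ s → (∃ p, W c e t p) → ∃ t' ≤ t, ∃ a ∈ A, t' ≤ a := by
    intro c e
    obtain ⟨A, hAO, hA1, hA2⟩ := exists_antichain {t : Q | t ≤ s ∧ ∃ p, W c e t p}
    refine ⟨A, fun a ha => hAO ha, hA1, fun t ht hp => hA2 ?_ t ⟨ht, hp⟩⟩
    rintro a b hba ⟨ha, q, hq⟩
    exact ⟨hba.trans ha, q, hlow c e a b q hba hq⟩
  choose A hAO hA1 hA2 using hA0
  have hI0 : ∀ (c : Ordinal.{u}) (e : Ordinal.{u} → P), ∃ idx : Q → Ordinal.{u}, c < κ.ord →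
      InjOn idx (A c e) ∧ ∀ m ∈ A c e, idx m < κ.ord ∧ c < idx m ∧ fst (idx m) = c := by
    intro c e
    by_cases h : c < κ.ord
    · obtain ⟨idx, hidx⟩ := hfst c h Q (A c e) (cc (A c e) (hA1 c e))
      exact ⟨idx, fun _ => hidx⟩
    · exact ⟨fun _ => 0, fun h' => absurd h' h⟩
  choose idx hidx using hI0
  have hS0 : ∀ (c : Ordinal.{u}) (e : Ordinal.{u} → P) (m : Q), ∃ p : P,
      m ∈ A c e → W c e m p := by
    intro c e m
    by_cases h : m ∈ A c e
    · obtain ⟨p, hp⟩ := (hAO c e m h).2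
      exact ⟨p, fun _ => hp⟩
    · exact ⟨q0, fun h' => absurd h' h⟩
  choose sol hsol using hS0
  -- one step of the recursion
  let step : Ordinal.{u} → (Ordinal.{u} → P) → P := fun v g =>
    if h : fst v < v ∧ fst v < κ.ord ∧
      ∃ m, m ∈ A (fst v) (cutF q0 g (fst v)) ∧ idx (fst v) (cutF q0 g (fst v)) m = v then
      sol (fst v) (cutF q0 g (fst v)) h.2.2.choose else q0
  let e : Ordinal.{u} → P := (wellFounded_lt (α := Ordinal.{u})).fix
    (fun v ih => step v (fun i => if h : i < v then ih i h else q0))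
  have he : ∀ v, e v = step v (cutF q0 e v) := by
    intro v
    have h1 := (wellFounded_lt (α := Ordinal.{u})).fix_eq
      (fun v ih => step v (fun i => if h : i < v then ih i h else q0)) v
    refine h1.trans ?_
    congr 1
  have hstep : ∀ c < κ.ord, ∀ m ∈ A c (cutF q0 e c),
      W c (cutF q0 e c) m (e (idx c (cutF q0 e c) m)) := by
    intro c hc m hm
    have hi := (hidx c (cutF q0 e c) hc).2 m hm
    obtain ⟨v, hv⟩ : ∃ v, v = idx c (cutF q0 e c) m := ⟨_, rfl⟩
    rw [← hv] at hi ⊢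
    obtain ⟨-, hi2, hi3⟩ := hi
    have hlt : fst v < v := by rw [hi3]; exact hi2
    have hcut : cutF q0 (cutF q0 e v) (fst v) = cutF q0 e c := by
      rw [cutF_cutF q0 e hlt, hi3]
    have hcond : fst v < v ∧ fst v < κ.ord ∧
        ∃ m, m ∈ A (fst v) (cutF q0 (cutF q0 e v) (fst v)) ∧
          idx (fst v) (cutF q0 (cutF q0 e v) (fst v)) m = v := by
      refine ⟨hlt, by rw [hi3]; exact hc, m, ?_, ?_⟩
      · rw [hcut, hi3]
        exact hm
      · rw [hcut, hi3]
        exact hv.symm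
    have h1 : e v = sol (fst v) (cutF q0 (cutF q0 e v) (fst v)) hcond.2.2.choose := by
      rw [he v]
      exact dif_pos hcond
    have h2 := hcond.2.2.choose_spec
    obtain ⟨m', hm'⟩ : ∃ m', m' = hcond.2.2.choose := ⟨_, rfl⟩
    rw [← hm', hcut, hi3] at h1 h2
    have h3 : m' = m := (hidx c (cutF q0 e c) hc).1 h2.1 hm (h2.2.trans hv)
    rw [h1, h3]
    exact hsol c (cutF q0 e c) m hm
  have hN0 : ∀ c : Ordinal.{u}, ∃ N : Nm Q s Ordinal.{u},
      (∀ v, ∀ t ∈ N.val v, v < κ.ord) ∧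
      (c < κ.ord → ∀ v, ∀ t ∈ N.val v,
        (∃ m ∈ A c (cutF q0 e c), idx c (cutF q0 e c) m = v ∧ t ≤ m) ∨
        (t ≤ s ∧ ∀ m ∈ A c (cutF q0 e c), ∀ r ≤ t, ¬ r ≤ m)) := by
    intro c
    by_cases hc : c < κ.ord
    · refine ⟨⟨fun v => {t | (∃ m ∈ A c (cutF q0 e c), idx c (cutF q0 e c) m = v ∧ t ≤ m) ∨
        (v = 0 ∧ t ≤ s ∧ ∀ m ∈ A c (cutF q0 e c), ∀ r ≤ t, ¬ r ≤ m)}, ?_, ?_, ?_⟩, ?_, ?_⟩
      · rintro v a b hba (⟨m, hm, hv, ham⟩ | ⟨hv, has, hinc⟩)
        · exact Or.inl ⟨m, hm, hv, hba.trans ham⟩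
        · exact Or.inr ⟨hv, hba.trans has, fun m hm r hr => hinc m hm r (hr.trans hba)⟩
      · rintro t y y' (⟨m, hm, hv, htm⟩ | ⟨hv, hts, hinc⟩) (⟨m', hm', hv', htm'⟩ | ⟨hv', hts', hinc'⟩)
        · rw [← hv, ← hv', hA1 c _ m hm m' hm' t htm htm']
        · exact absurd htm (hinc' m hm t le_rfl)
        · exact absurd htm' (hinc m' hm' t le_rfl)
        · rw [hv, hv']
      · intro t ht
        by_cases h : ∃ m ∈ A c (cutF q0 e c), ∃ r ≤ t, r ≤ m
        · obtain ⟨m, hm, r, hr, hrm⟩ := h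
          exact ⟨r, hr, idx c (cutF q0 e c) m, Or.inl ⟨m, hm, rfl, hrm⟩⟩
        · refine ⟨t, le_rfl, 0, Or.inr ⟨rfl, ht, fun m hm r hr hrm => h ⟨m, hm, r, hr, hrm⟩⟩⟩
      · rintro v t (⟨m, hm, hv, -⟩ | ⟨hv, -, -⟩)
        · rw [← hv]
          exact ((hidx c _ hc).2 m hm).1
        · rw [hv]
          exact kord_pos hκ
      · rintro - v t (h | ⟨-, h2, h3⟩)
        · exact Or.inl h
        · exact Or.inr ⟨h2, h3⟩
    · refine ⟨⟨fun v => {t | v = 0}, ?_, ?_, ?_⟩, ?_, fun h => absurd h hc⟩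
      · intro v a b _ h
        exact h
      · intro t y y' h h'
        exact (show y = 0 from h).trans (show y' = 0 from h').symm
      · intro t _
        exact ⟨t, le_rfl, 0, rfl⟩
      · intro v t h
        rw [show v = 0 from h]
        exact kord_pos hκ
  choose N hN1 hN2 using hN0
  refine ⟨e, ?_, N, hN1, ?_⟩
  · rw [he 0]
    refine dif_neg ?_
    rintro ⟨h, -, -⟩
    exact absurd h (not_lt_bot)
  · intro c hc v t ht
    rcases hN2 c hc v t ht with ⟨m, hm, hv, htm⟩ | ⟨hts, hinc⟩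
    · left
      have h1 := hstep c hc m hm
      rw [hv] at h1
      have h2 := hloc c (cutF q0 e c) e (fun i hi => cutF_lt q0 e hi) m (e v) h1
      exact hlow c e m t (e v) htm h2
    · right
      intro t' ht' p' hW
      have h1 := hloc c e (cutF q0 e c) (fun i hi => (cutF_lt q0 e hi).symm) t' p' hW
      obtain ⟨t'', ht'', a, ha, hta⟩ := hA2 c (cutF q0 e c) t' (ht'.trans hts) ⟨p', h1⟩
      exact hinc a ha t'' (ht''.trans ht') hta

end Pool.Agent.H40.IS
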