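/-
SP-a (Cod).  Codes for tasks.  Imports KLk only.  About 120 lines.
A task is either a sequence of ordinals (limit task) or a triple (i, β, X), X a set of sequences (successor task).
TB γ τ: the task is bounded by γ (monotone in γ).
PROOF.  For γ < κ.ord the set {τ | TB γ τ} is small (sm_So; Sm.prod, Sm.pow).  exists_codes: the set of pairs (γ, τ) with γ < κ.ord,
TB γ τ has at most κ elements; enumerate so that the code of (γ, τ) is > γ: use exists_idx: for each γ < κ.ord the set {τ | TB γ τ} is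
Lk, so there is idx γ : task → Ordinal injective on it with values < κ.ord, > γ and with fst (idx γ τ) = γ.  Put cd c = the τ with
TB (fst c) τ and idx (fst c) τ = c, if it exists (else a default task inl default).  G γ = a bound < κ.ord of the set
{idx γ τ | TB γ τ} (Sm.bdd on the small set {τ | TB γ τ}), for γ < κ.ord.
-/
import Pool.Agent.H40.IS.KLk

namespace Pool.Agent.H40.IS
open Cardinal Ordinal Set
universe u
variable {κ : Cardinal.{u}}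

/-- tasks -/
abbrev Tk : Type (u + 1) := So.{u} ⊕ (Ordinal.{u} × Ordinal.{u} × Set So.{u})

/-- the task is bounded by `γ` -/
def TB (γ : Ordinal.{u}) : Tk.{u} → Prop
  | Sum.inl z => In γ z
  | Sum.inr x => x.1 < γ ∧ x.2.1 < γ ∧ ∀ y ∈ x.2.2, In γ y

theorem TB_mono {γ γ' : Ordinal.{u}} (h : γ ≤ γ') {τ : Tk.{u}} (hτ : TB γ τ) : TB γ' τ := by
  rcases τ with z | x
  · exact ⟨lt_of_lt_of_le hτ.1 h, fun i => lt_of_lt_of_le (hτ.2 i) h⟩
  · exact ⟨lt_of_lt_of_le hτ.1 h, lt_of_lt_of_le hτ.2.1 h, fun y hy =>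
      ⟨lt_of_lt_of_le (hτ.2.2 y hy).1 h, fun i => lt_of_lt_of_le ((hτ.2.2 y hy).2 i) h⟩⟩

theorem sm_TB (hκ : κ.IsInaccessible) {γ : Ordinal.{u}} (h : γ < κ.ord) : Sm κ {τ : Tk.{u} | TB γ τ} := by
  have h1 : Sm κ ((Sum.inl : So.{u} → Tk.{u}) '' {z : So.{u} | In γ z}) := (sm_So hκ h).image _
  have h2 : Sm κ ((Sum.inr : (Ordinal.{u} × Ordinal.{u} × Set So.{u}) → Tk.{u}) ''
      (Iio γ ×ˢ (Iio γ ×ˢ {X : Set So.{u} | X ⊆ {y : So.{u} | In γ y}}))) :=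
    (Sm.prod hκ (sm_Iio h) (Sm.prod hκ (sm_Iio h) (Sm.pow hκ (sm_So hκ h)))).image _
  refine (Sm.union hκ h1 h2).mono ?_
  rintro (z | x) hτ
  · exact Or.inl ⟨z, hτ, rfl⟩
  · exact Or.inr ⟨x, ⟨hτ.1, hτ.2.1, fun y hy => hτ.2.2 y hy⟩, rfl⟩

/-- a coding `cd` of tasks by ordinals `< κ`; tasks bounded by `γ` have a code between `γ` and `G γ` -/
theorem exists_codes (hκ : κ.IsInaccessible) : ∃ (cd : Ordinal.{u} → Tk.{u}) (G : Ordinal.{u} → Ordinal.{u}),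
    (∀ γ < κ.ord, G γ < κ.ord) ∧ ∀ γ < κ.ord, ∀ τ, TB γ τ → ∃ c, γ < c ∧ c < G γ ∧ cd c = τ := by
  classical
  obtain ⟨fst, hfst⟩ := exists_idx.{u} hκ
  have h1 : ∀ γ : Ordinal.{u}, ∃ idx : Tk.{u} → Ordinal.{u}, γ < κ.ord →
      InjOn idx {τ : Tk.{u} | TB γ τ} ∧
        ∀ m ∈ {τ : Tk.{u} | TB γ τ}, idx m < κ.ord ∧ γ < idx m ∧ fst (idx m) = γ := by
    intro γ
    by_cases h : γ < κ.ord
    · obtain ⟨idx, hidx⟩ := hfst γ h Tk.{u} {τ : Tk.{u} | TB γ τ} (sm_TB hκ h).lk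
      exact ⟨idx, fun _ => hidx⟩
    · exact ⟨fun _ => 0, fun h' => absurd h' h⟩
  choose idx hidx using h1
  have h2 : ∀ γ : Ordinal.{u}, ∃ g : Ordinal.{u}, γ < κ.ord →
      g < κ.ord ∧ ∀ t ∈ {τ : Tk.{u} | TB γ τ}, idx γ t < g := by
    intro γ
    by_cases h : γ < κ.ord
    · obtain ⟨g, hg, hg2⟩ := Sm.bdd hκ (sm_TB hκ h) (idx γ) fun t ht => ((hidx γ h).2 t ht).1
      exact ⟨g, fun _ => ⟨hg, hg2⟩⟩
    · exact ⟨0, fun h' => absurd h' h⟩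
  choose G hG using h2
  refine ⟨fun c => if h : ∃ τ, TB (fst c) τ ∧ idx (fst c) τ = c then h.choose
    else Sum.inl default, G, fun γ h => (hG γ h).1, ?_⟩
  intro γ h τ hτ
  refine ⟨idx γ τ, ((hidx γ h).2 τ hτ).2.1, (hG γ h).2 τ hτ, ?_⟩
  have h3 : fst (idx γ τ) = γ := ((hidx γ h).2 τ hτ).2.2
  have h4 : ∃ τ', TB (fst (idx γ τ)) τ' ∧ idx (fst (idx γ τ)) τ' = idx γ τ :=
    ⟨τ, by rw [h3]; exact hτ, by rw [h3]⟩
  show (if h : ∃ τ', TB (fst (idx γ τ)) τ' ∧ idx (fst (idx γ τ)) τ' = idx γ τ then h.choose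
    else Sum.inl default) = τ
  rw [dif_pos h4]
  have h5 := h4.choose_spec
  obtain ⟨τ', hτ'⟩ : ∃ τ', τ' = h4.choose := ⟨_, rfl⟩
  rw [← hτ'] at h5 ⊢
  rw [h3] at h5
  exact (hidx γ h).1 h5.1 hτ h5.2

end Pool.Agent.H40.IS
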