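/-
AB4 (Cp).  Closed points are unbounded.  Needs Sys.  About 130 lines.
PROOF.  STEP: for t1 ≤ s and β < κ.ord there are t2 ≤ t1 and β' with β < β' < κ.ord such that
 (i) for all a < β: some v < β' has t2 ∈ (S.F0 a).val v;
 (ii) for all c < β, e < β and all a ∈ S.An c with t2 ≤ a: some v < β' has t2 ∈ (S.F1 c a e).val v;
 (iii) for all c < β: either t2 ≤ a for some a ∈ S.An c or no t3 ≤ t2 is ≤ some a ∈ S.An c.
Open dense sets below s: for (iii) {t | (∃ a ∈ An c, t ≤ a) ∨ ∀ t3 ≤ t, ∀ a ∈ An c, ¬ t3 ≤ a};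
for (i) {t | ∃ v, t ∈ (F0 a).val v}; for (ii) {t | (∀ t3 ≤ t, ∀ a ∈ An c, ¬ t3 ≤ a) ∨ ∃ a ∈ An c, t ≤ a ∧ ∃ v, t ∈ (F1 c a e).val v} (dense: first (iii), then the
density of the name F1 c a e below a).  Dist.below (twice) and Dist.below2 for Q (F.distQ); the a in (ii) is unique (An_anti).
β' = sup of the values + 1 and of β + 1; it is < κ.ord because κ is regular (pairs: iterate the sup over c and over e).
Iterate from t_0 = t, β_0 = α + 1: t_n antitone, β_n strictly increasing; t' = lower bound (F.ctbQ), δ = sup β_n (limit, α < δ < κ.ord since ℵ₀ < κ).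
Cl δ t': FCl F0 δ t': c < β_n: t' ≤ t_(n+1) is in val v, v < β_(n+1) < δ (val is lower).  F1: c < δ, a ∈ An c, t1 ≤ t', t1 ≤ a, e < δ: c, e < β_n; by (iii) for t_(n+1):
the second alternative is impossible because of t1, so t_(n+1) ≤ a' ∈ An c, and a' = a by An_anti (t1 below both); (ii) gives the value.
-/
import Pool.Agent.H40.IS.Sys

namespace Pool.Agent.H40.IS
open Cardinal Ordinal Set
universe u v w

variable {κ : Cardinal.{u}} {Q P : Type v} [Preorder Q] [Preorder P]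
variable {F : FP κ Q P} {s : Q} {q : P} {f : Ordinal.{u} → Ordinal.{u} → Set P}

private theorem cp_supB (hκ : κ.IsRegular) {β : Ordinal.{u}} (hβ : β < κ.ord)
    (g : Ordinal.{u} → Ordinal.{u}) (hg : ∀ x < β, g x < κ.ord) :
    ∃ β', β < β' ∧ β' < κ.ord ∧ ∀ x < β, g x < β' := by
  have h1 : (⨆ i : Set.Iio β, (g i + 1)) < κ.ord := by
    apply Ordinal.lift_iSup_add_one_lt_of_lt_cof
    · rwa [← lift_cof, hκ.cof_ord, Cardinal.mk_Iio_ordinal, Cardinal.lift_lift, Cardinal.lift_lt,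
        ← Cardinal.lt_ord]
    · exact fun i => hg i.1 i.2
  have h2 : β + 1 < κ.ord := (Cardinal.isSuccLimit_ord hκ.1).succ_lt hβ
  refine ⟨max (β + 1) (⨆ i : Set.Iio β, (g i + 1)), ?_, max_lt h2 h1, ?_⟩
  · exact lt_of_lt_of_le (Order.lt_succ β) (le_max_left _ _)
  · intro x hx
    have h3 : g x + 1 ≤ ⨆ i : Set.Iio β, (g i + 1) :=
      Ordinal.le_iSup (fun i : Set.Iio β => g i + 1) ⟨x, hx⟩
    exact lt_of_lt_of_le (Order.lt_succ (g x)) (h3.trans (le_max_right _ _))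

private theorem cp_step (S : Sys F s q f) (hκ : κ.IsRegular) {β : Ordinal.{u}} (hβ : β < κ.ord)
    {t1 : Q} (ht : t1 ≤ s) :
    ∃ t2 ≤ t1, ∃ β', β < β' ∧ β' < κ.ord ∧
      (∀ c < β, ∃ v < β', t2 ∈ (S.F0 c).val v) ∧
      (∀ c < β, ∀ e < β, ∀ a ∈ S.An c, t2 ≤ a → ∃ v < β', t2 ∈ (S.F1 c a e).val v) ∧
      (∀ c < β, (∃ a ∈ S.An c, t2 ≤ a) ∨ ∀ t3 ≤ t2, ∀ a ∈ S.An c, ¬ t3 ≤ a) := by
  classical
  let D : Ordinal.{u} → Ordinal.{u} → Set Q := fun c e =>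
    {t | (∃ v, t ∈ (S.F0 c).val v) ∧
      ((∀ t3 ≤ t, ∀ a ∈ S.An c, ¬ t3 ≤ a) ∨
        ∃ a ∈ S.An c, t ≤ a ∧ ∃ v, t ∈ (S.F1 c a e).val v)}
  have hD : ∀ x < β, ∀ y < β, IsLowerSet (D x y) ∧ ∀ t ≤ s, ∃ t' ≤ t, t' ∈ D x y := by
    intro c _ e _
    refine ⟨?_, ?_⟩
    · rintro t u hut ⟨⟨v, hv⟩, h2⟩
      refine ⟨⟨v, (S.F0 c).lower v hut hv⟩, ?_⟩
      rcases h2 with h2 | ⟨a, ha, hta, w, hw⟩
      · exact Or.inl fun t3 h3 => h2 t3 (h3.trans hut)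
      · exact Or.inr ⟨a, ha, hut.trans hta, w, (S.F1 c a e).lower w hut hw⟩
    · intro t hts
      by_cases hc : ∃ t3 ≤ t, ∃ a ∈ S.An c, t3 ≤ a
      · obtain ⟨t3, h3, a, ha, hta⟩ := hc
        obtain ⟨t4, h4, w, hw⟩ := (S.F1 c a e).dense t3 hta
        obtain ⟨t5, h5, v, hv⟩ := (S.F0 c).dense t4 (h4.trans (h3.trans hts))
        exact ⟨t5, h5.trans (h4.trans h3), ⟨v, hv⟩,
          Or.inr ⟨a, ha, h5.trans (h4.trans hta), w, (S.F1 c a e).lower w h5 hw⟩⟩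
      · obtain ⟨t5, h5, v, hv⟩ := (S.F0 c).dense t hts
        exact ⟨t5, h5, ⟨v, hv⟩,
          Or.inl fun t3 h3 a ha h6 => hc ⟨t3, h3.trans h5, a, ha, h6⟩⟩
  obtain ⟨t2, ht2, h2⟩ := Dist.below2 F.distQ hβ hβ s D hD t1 ht
  have h0 : (0 : Ordinal.{u}) < κ.ord := lt_of_le_of_lt zero_le hβ
  let g0 : Ordinal.{u} → Ordinal.{u} := fun c =>
    if h : ∃ v, t2 ∈ (S.F0 c).val v then h.choose else 0
  have hg0 : ∀ c, g0 c < κ.ord := by
    intro c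
    by_cases hc : ∃ v, t2 ∈ (S.F0 c).val v
    · simp only [g0, dif_pos hc]
      exact S.F0_lt c _ t2 hc.choose_spec
    · simp only [g0, dif_neg hc]
      exact h0
  let g1 : Ordinal.{u} → Ordinal.{u} → Ordinal.{u} := fun c e =>
    if h : ∃ v, ∃ a ∈ S.An c, t2 ≤ a ∧ t2 ∈ (S.F1 c a e).val v then h.choose else 0
  have hg1 : ∀ c e, g1 c e < κ.ord := by
    intro c e
    by_cases hc : ∃ v, ∃ a ∈ S.An c, t2 ≤ a ∧ t2 ∈ (S.F1 c a e).val v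
    · simp only [g1, dif_pos hc]
      obtain ⟨a, -, -, h4⟩ := hc.choose_spec
      exact S.F1_lt c a e _ t2 h4
    · simp only [g1, dif_neg hc]
      exact h0
  have hb : ∀ c, ∃ b, b < κ.ord ∧ ∀ e < β, g1 c e < b := by
    intro c
    obtain ⟨b, -, hb2, hb3⟩ := cp_supB hκ hβ (g1 c) (fun e _ => hg1 c e)
    exact ⟨b, hb2, hb3⟩
  choose b hb1 hb2 using hb
  obtain ⟨β', hb3, hb4, hb5⟩ := cp_supB hκ hβ (fun c => max (g0 c) (b c))
    (fun c _ => max_lt (hg0 c) (hb1 c))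
  refine ⟨t2, ht2, β', hb3, hb4, ?_, ?_, ?_⟩
  · intro c hc
    have h3 := (h2 c hc c hc).1
    refine ⟨g0 c, lt_of_le_of_lt (le_max_left _ _) (hb5 c hc), ?_⟩
    simp only [g0, dif_pos h3]
    exact h3.choose_spec
  · intro c hc e he a ha hta
    rcases (h2 c hc e he).2 with h3 | ⟨a', ha', hta', v, hv⟩
    · exact absurd hta (h3 t2 le_rfl a ha)
    · have h3 : ∃ v, ∃ a ∈ S.An c, t2 ≤ a ∧ t2 ∈ (S.F1 c a e).val v := ⟨v, a', ha', hta', hv⟩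
      refine ⟨g1 c e, (hb2 c e he).trans (lt_of_le_of_lt (le_max_right _ _) (hb5 c hc)), ?_⟩
      simp only [g1, dif_pos h3]
      obtain ⟨a'', ha'', hta'', h4⟩ := h3.choose_spec
      rw [S.An_anti c a ha a'' ha'' t2 hta hta'']
      exact h4
  · intro c hc
    rcases (h2 c hc c hc).2 with h3 | ⟨a', ha', hta', v, hv⟩
    · exact Or.inr h3
    · exact Or.inl ⟨a', ha', hta'⟩

theorem Sys.Cl_unb (S : Sys F s q f) (hκ : κ.IsRegular) (hω : ℵ₀ < κ) {α : Ordinal.{u}} (hα : α < κ.ord)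
    {t : Q} (ht : t ≤ s) : ∃ t' ≤ t, ∃ δ, α < δ ∧ δ < κ.ord ∧ S.Cl δ t' := by
  classical
  let T := {z : Q × Ordinal.{u} // z.1 ≤ s ∧ z.2 < κ.ord}
  have hst : ∀ z : T, ∃ z' : T, z'.1.1 ≤ z.1.1 ∧ z.1.2 < z'.1.2 ∧
      (∀ c < z.1.2, ∃ v < z'.1.2, z'.1.1 ∈ (S.F0 c).val v) ∧
      (∀ c < z.1.2, ∀ e < z.1.2, ∀ a ∈ S.An c, z'.1.1 ≤ a →
        ∃ v < z'.1.2, z'.1.1 ∈ (S.F1 c a e).val v) ∧
      (∀ c < z.1.2, (∃ a ∈ S.An c, z'.1.1 ≤ a) ∨ ∀ t3 ≤ z'.1.1, ∀ a ∈ S.An c, ¬ t3 ≤ a) := by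
    rintro ⟨⟨r1, β⟩, h1, h2⟩
    obtain ⟨r2, hr2, β', hb1, hb2, hb3, hb4, hb5⟩ := cp_step S hκ h2 h1
    exact ⟨⟨⟨r2, β'⟩, hr2.trans h1, hb2⟩, hr2, hb1, hb3, hb4, hb5⟩
  choose nx hn1 hn2 hn3 hn4 hn5 using hst
  have hα1 : α + 1 < κ.ord := (Cardinal.isSuccLimit_ord hκ.1).succ_lt hα
  let z : ℕ → T := fun n => Nat.rec ⟨⟨t, α + 1⟩, ht, hα1⟩ (fun _ w => nx w) n
  have hz0 : z 0 = ⟨⟨t, α + 1⟩, ht, hα1⟩ := rfl
  have hzs : ∀ n, z (n + 1) = nx (z n) := fun n => rfl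
  have hanti : Antitone fun n => (z n).1.1 := antitone_nat_of_succ_le fun n => by
    rw [hzs]; exact hn1 (z n)
  have hmono : StrictMono fun n => (z n).1.2 := strictMono_nat_of_lt_succ fun n => by
    rw [hzs]; exact hn2 (z n)
  obtain ⟨tω, htω⟩ := F.ctbQ (fun n => (z n).1.1) hanti
  have hβ : (⨆ n : ℕ, (z n).1.2) < κ.ord := by
    apply Ordinal.lift_iSup_lt_of_lt_cof
    · rw [← lift_cof, hκ.cof_ord]
      simpa using hω
    · exact fun n => (z n).2.2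
  have hle : ∀ n, (z n).1.2 ≤ ⨆ n : ℕ, (z n).1.2 := fun n => Ordinal.le_iSup (fun n => (z n).1.2) n
  have hex : ∀ x < ⨆ n : ℕ, (z n).1.2, ∃ n, x < (z n).1.2 := by
    intro x hx
    by_contra hc
    push Not at hc
    exact absurd (Ordinal.iSup_le hc) (not_le.mpr hx)
  have hαβ : α < ⨆ n : ℕ, (z n).1.2 := by
    have := hle 0
    rw [hz0] at this
    exact lt_of_lt_of_le (Order.lt_succ α) this
  refine ⟨tω, (htω 0).trans (by rw [hz0]), ⨆ n : ℕ, (z n).1.2, hαβ, hβ, ?_, ?_, ?_⟩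
  · rw [Ordinal.isSuccLimit_iff]
    refine ⟨fun h0 => ?_, ?_⟩
    · rw [h0] at hαβ
      exact absurd hαβ (not_lt.mpr zero_le)
    · rw [Order.isSuccPrelimit_iff_succ_lt]
      intro x hx
      obtain ⟨n, hn⟩ := hex x hx
      exact lt_of_le_of_lt (Order.succ_le_of_lt hn)
        (lt_of_lt_of_le (hmono (Nat.lt_succ_self n)) (hle (n + 1)))
  · intro c hc t' ht'
    obtain ⟨n, hn⟩ := hex c hc
    obtain ⟨v, hv, h3⟩ := hn3 (z n) c hn
    rw [← hzs] at hv h3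
    exact ⟨t', le_rfl, v, lt_of_lt_of_le hv (hle (n + 1)),
      (S.F0 c).lower v (ht'.trans (htω (n + 1))) h3⟩
  · intro c hc a ha t' ht' hta e he t'' ht''
    obtain ⟨n, hn⟩ := hex (max c e) (max_lt hc he)
    have hcn : c < (z n).1.2 := (le_max_left c e).trans_lt hn
    have hen : e < (z n).1.2 := (le_max_right c e).trans_lt hn
    have h5 := hn5 (z n) c hcn
    rw [← hzs] at h5
    rcases h5 with ⟨a', ha', hta'⟩ | h5
    · have h6 : a = a' := S.An_anti c a ha a' ha' t'' (ht''.trans hta)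
        ((ht''.trans ht').trans ((htω (n + 1)).trans hta'))
      subst h6
      obtain ⟨v, hv, h3⟩ := hn4 (z n) c hcn e hen a ha (by rw [← hzs]; exact hta')
      rw [← hzs] at hv h3
      exact ⟨t'', le_rfl, v, lt_of_lt_of_le hv (hle (n + 1)),
        (S.F1 c a e).lower v ((ht''.trans ht').trans (htω (n + 1))) h3⟩
    · exact absurd hta (h5 t' (ht'.trans (htω (n + 1))) a ha)

end Pool.Agent.H40.IS
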