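/-
K5 (KPV).  The sets of conditions PP, PV, PJ: basic facts.  Imports KOrd only.  About 200 lines.
PROOFS.
mem_PP: unfold PP_def; if p.supp ⊆ Iio i then the hypothesis j < i is automatic.
PP_congr: strong induction on i: for j < i, D j = D' j and PP κ D j = PP κ D' j.
FrT_mono: q ≤ p, a condition r ≤ q is ≤ p.  FrT_res: Pr_res.  DatOK_congr: only `sl` mentions b (up to d.h).
res_mem: Base (res): supp smaller, the data at i ∈ supp ∩ Iio j is the same (res_d_lt); for i < j (p.res j).res i = p.res i.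
am_mem: Base: ht, b from s; data at i < g: i ∈ s.supp, from s; at i ≥ g: i ∈ p.supp, DatOK_congr, since s.b agrees with p.b up to
  p.ht ≥ (p.d i).h, and p.ht ≤ s.ht.  Small support: Sm.union.  At i < g: (am g s p).res i = s.res i (am_rres_le).  At i ≥ g:
  (am g s p).res i ≤ p.res i (rres_mono of am_le_right), so ≤ (D i).c and FrT_mono.
bounded_supp: p.supp is Small.{u} (Sm.small), so bounded in Ordinal.{u}: Ordinal.bddAbove_of_small.
-/
import Pool.Agent.H40.IS.KOrd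
import Pool.Agent.H40.IS.KSm

namespace Pool.Agent.H40.IS
open Cardinal Ordinal Set
universe u
variable {κ : Cardinal.{u}} {D : Ordinal.{u} → Tri.{u}}

theorem mem_PP {i : Ordinal.{u}} {p : Raw.{u}} : p ∈ PP κ D i ↔ p ∈ PV κ D ∧ p.supp ⊆ Iio i := by
  rw [PP_def]
  constructor
  · rintro ⟨h1, h2, h3⟩
    exact ⟨⟨h1, fun j hj => h3 j hj (h2 hj)⟩, h2⟩
  · rintro ⟨⟨h1, h3⟩, h2⟩
    exact ⟨h1, h2, fun j hj _ => h3 j hj⟩

theorem PP_eq_PJ (i : Ordinal.{u}) : PP κ D i = PJ κ D (Iio i) := by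
  ext p
  exact mem_PP

theorem PP_congr {D' : Ordinal.{u} → Tri.{u}} {i : Ordinal.{u}} (h : ∀ j < i, D j = D' j) :
    PP κ D i = PP κ D' i := by
  induction i using WellFoundedLT.induction with
  | ind i ih =>
    have key : ∀ j < i, PP κ D j = PP κ D' j := fun j hj => ih j hj (fun k hk => h k (hk.trans hj))
    rw [PP_def, PP_def]
    ext p
    constructor
    · rintro ⟨h1, h2, h3⟩
      refine ⟨h1, h2, fun j hj hji => ?_⟩
      have h4 := h3 j hj hji
      rw [h j hji, key j hji] at h4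
      exact h4
    · rintro ⟨h1, h2, h3⟩
      refine ⟨h1, h2, fun j hj hji => ?_⟩
      have h4 := h3 j hj hji
      rw [← h j hji, ← key j hji] at h4
      exact h4

theorem FrT_mono {S : Set Raw.{u}} {A B : ℕ → Ordinal.{u} → Ordinal.{u} → Set Raw.{u}} {x : Nd.{u}}
    {p q : Raw.{u}} (hq : q ≤ p) (h : FrT S A B x p) : FrT S A B x q :=
  ⟨h.1, fun n v w v' w' h1 h2 r hr hrq => h.2 n v w v' w' h1 h2 r hr (hrq.trans hq)⟩

theorem FrT_res {S : Set Raw.{u}} {A B : ℕ → Ordinal.{u} → Ordinal.{u} → Set Raw.{u}} {x : Nd.{u}}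
    {p : Raw.{u}} (h : FrT S A B x p) (a : Ordinal.{u}) : FrT S A B (x.res a) p :=
  ⟨fun v w v' w' h1 h2 => h.1 v w v' w' (Pr_res h1) (Pr_res h2),
   fun n v w v' w' h1 h2 => h.2 n v w v' w' (Pr_res h1) (Pr_res h2)⟩

theorem DatOK_congr {b b' : Ordinal.{u} → So.{u}} {d : Dat.{u}} (h : DatOK κ b d)
    (hb : ∀ ε, IsS ε → ε ≤ d.h → b' ε = b ε) : DatOK κ b' d :=
  { h with
    sl := fun ε h1 h2 => by
      rw [hb ε h1 h2]
      exact h.sl ε h1 h2 }

theorem datOK_default (hκ : κ.IsInaccessible) (b : Ordinal.{u} → So.{u}) : DatOK κ b default where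
  inj := fun _ _ _ _ h => absurd h (notMem_empty _)
  len := fun _ _ h => absurd h (notMem_empty _)
  cl := fun _ _ _ h => absurd h (notMem_empty _)
  bdd := ⟨0, kord_pos hκ, fun _ _ h => absurd h (notMem_empty _), fun _ h => absurd h (notMem_empty _)⟩
  suc := fun _ h => absurd h (notMem_empty _)
  dis := fun _ _ h => absurd h (notMem_empty _)
  sl := fun ε h1 h2 => by
    have h3 : ε = 0 := le_antisymm h2 zero_le
    subst h3
    exfalso
    unfold IsS at h1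
    rw [Ordinal.cof_zero] at h1
    exact (Cardinal.aleph_pos 1).ne h1

theorem res_mem (hκ : κ.IsInaccessible) {p : Raw.{u}} (hp : p ∈ PV κ D) (j : Ordinal.{u}) :
    p.res j ∈ PV κ D := by
  refine ⟨⟨hp.1.ht, hp.1.b, hp.1.nb, fun i hi => ?_, hp.1.sm.mono inter_subset_left,
    fun i hi => ?_, fun i hi => ?_⟩, fun i hi => ?_⟩
  · rcases lt_or_ge i j with h | h
    · rw [res_d_lt h]
      exact hp.1.nd i (fun h2 => hi (mem_res_supp.2 ⟨h2, h⟩))
    · exact res_d_ge h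
  · obtain ⟨h1, h2⟩ := mem_res_supp.1 hi
    rw [res_d_lt h2]
    exact hp.1.ok i h1
  · obtain ⟨h1, h2⟩ := mem_res_supp.1 hi
    rw [res_d_lt h2]
    exact hp.1.h i h1
  · obtain ⟨h1, h2⟩ := mem_res_supp.1 hi
    rw [res_d_lt h2, rres_rres_le p h2.le]
    exact hp.2 i h1

theorem res_mem_PP (hκ : κ.IsInaccessible) {p : Raw.{u}} (hp : p ∈ PV κ D) (j : Ordinal.{u}) :
    p.res j ∈ PP κ D j :=
  mem_PP.2 ⟨res_mem hκ hp j, inter_subset_right⟩

theorem res_mem_PJ (hκ : κ.IsInaccessible) {J : Set Ordinal.{u}} {p : Raw.{u}} (hp : p ∈ PJ κ D J)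
    (j : Ordinal.{u}) : p.res j ∈ PJ κ D (J ∩ Iio j) :=
  ⟨res_mem hκ hp.1 j, inter_subset_inter_left _ hp.2⟩

theorem am_mem (hκ : κ.IsInaccessible) {g : Ordinal.{u}} {s p : Raw.{u}} (hs : s ∈ PP κ D g)
    (hp : p ∈ PV κ D) (h : s ≤ p.res g) : am g s p ∈ PV κ D := by
  obtain ⟨hs1, hs2⟩ := mem_PP.1 hs
  have hpos : ∀ i ∈ (am g s p).supp, (i < g ∧ i ∈ s.supp) ∨ (g ≤ i ∧ i ∈ p.supp) := by
    intro i hi
    rcases mem_am_supp.1 hi with h1 | h1
    · exact Or.inl ⟨hs2 h1, h1⟩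
    · exact Or.inr ⟨h1.2, h1.1⟩
  refine ⟨⟨hs1.1.ht, hs1.1.b, hs1.1.nb, fun i hi => ?_,
    Sm.union hκ hs1.1.sm (hp.1.sm.mono inter_subset_left), fun i hi => ?_, fun i hi => ?_⟩,
    fun i hi => ?_⟩
  · rcases lt_or_ge i g with h1 | h1
    · rw [am_d_lt h1]
      exact hs1.1.nd i (fun h2 => hi (mem_am_supp.2 (Or.inl h2)))
    · rw [am_d_ge h1]
      exact hp.1.nd i (fun h2 => hi (mem_am_supp.2 (Or.inr ⟨h2, h1⟩)))
  · rcases hpos i hi with ⟨h1, h2⟩ | ⟨h1, h2⟩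
    · rw [am_d_lt h1]
      exact hs1.1.ok i h2
    · rw [am_d_ge h1]
      exact DatOK_congr (hp.1.ok i h2)
        (fun ε h3 h4 => h.2.1 ε h3 (h4.trans (hp.1.h i h2)))
  · rcases hpos i hi with ⟨h1, h2⟩ | ⟨h1, h2⟩
    · rw [am_d_lt h1]
      exact hs1.1.h i h2
    · rw [am_d_ge h1]
      exact (hp.1.h i h2).trans h.1
  · rcases hpos i hi with ⟨h1, h2⟩ | ⟨h1, h2⟩
    · rw [am_d_lt h1, am_rres_le hs2 h1.le]
      exact hs1.2 i h2
    · rw [am_d_ge h1]
      have h3 : (am g s p).res i ≤ p.res i := rres_mono (am_le_right h) i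
      obtain ⟨h4, h5⟩ := hp.2 i h2
      exact ⟨h3.trans h4, fun x y hxy => FrT_mono h3 (h5 x y hxy)⟩

theorem bounded_supp {p : Raw.{u}} (hp : p ∈ PV κ D) : ∃ g : Ordinal.{u}, p.supp ⊆ Iio g := by
  have h1 : Small.{u} p.supp := Sm.small hp.1.sm
  obtain ⟨M, hM⟩ := Ordinal.bddAbove_of_small (s := p.supp)
  exact ⟨M + 1, fun x hx => Order.lt_add_one_iff.2 (hM hx)⟩

/-- a bare condition: only a height and `b` -/
noncomputable def bare (H : Ordinal.{u}) (b : Ordinal.{u} → So.{u}) : Raw.{u} :=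
  open Classical in ⟨H, fun ε => if IsS ε ∧ ε ≤ H then b ε else default, ∅, fun _ => default⟩

theorem bare_mem (hκ : κ.IsInaccessible) {H : Ordinal.{u}} {b : Ordinal.{u} → So.{u}} (hH : H < κ.ord)
    (hb : ∀ ε, IsS ε → ε ≤ H → (b ε).len = ε ∧ Lt κ.ord (b ε)) (g : Ordinal.{u}) :
    bare H b ∈ PP κ D g := by
  refine mem_PP.2 ⟨⟨⟨hH, fun ε h1 h2 => ?_, fun ε h1 => ?_, fun _ _ => rfl, Sm.empty hκ,
    fun j hj => absurd hj (notMem_empty _), fun j hj => absurd hj (notMem_empty _)⟩,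
    fun j hj => absurd hj (notMem_empty _)⟩, empty_subset _⟩
  · have h3 : (bare H b).b ε = b ε := by
      unfold bare
      exact if_pos ⟨h1, h2⟩
    rw [h3]
    exact hb ε h1 h2
  · unfold bare at h1 ⊢
    exact if_neg h1

theorem PJ_mono {J J' : Set Ordinal.{u}} (h : J ⊆ J') : PJ κ D J ⊆ PJ κ D J' :=
  fun _ hp => ⟨hp.1, hp.2.trans h⟩

/-- all functions `b` on `S` have a bounded sequence at every point: the constant sequence -/
theorem const_ok (hκ : κ.IsInaccessible) {ε ν : Ordinal.{u}} (h : ε < κ.ord) (hν : ν < κ.ord) :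
    (mk ε (fun _ => ν) : So.{u}).len = ε ∧ Lt κ.ord (mk ε (fun _ => ν) : So.{u}) := by
  refine ⟨rfl, Lt_kappa hκ h (fun i => ?_)⟩
  rcases lt_or_ge i ε with h1 | h1
  · rw [mk_val h1]
    exact hν
  · rw [(mk ε (fun _ => ν) : So.{u}).junk i h1]
    have h2 : Rk.rk (Rk.z : Ordinal.{u}) = 0 := Rk.rk_z
    rw [h2]
    exact kord_pos hκ

end Pool.Agent.H40.IS
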