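/-
K13a (KCnt).  Counting conditions.  Imports KLk and KPV only.  About 200 lines.
PROOFS.
lk_base: the map p ↦ (p.ht, p.b, p.supp, p.d) is injective; it maps into a product of sets with at most κ elements:
 ht ∈ Iio κ.ord (lk_ord); b is a function with values in {x | Lt κ.ord x} on the small set {ε | IsS ε ∧ ε ≤ ht} ⊆ Iio κ.ord and default outside
 (Lk.fnsmall with lk_So); supp is a small subset of J (Lk.smallsub); d is a function with values in
 E = {d : Dat | d.pi small subset of {Lt}×{Lt}, d.F small subset of {Lt}, d.h < κ.ord} on supp and default outside (Lk.fnsmall);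
 Lk κ E: the map d ↦ (pi, F, h) and Lk.smallsub, Lk.prod.  pi is small because it is bounded by some γ < κ.ord (sm_Nd, sm_So, Sm.prod).
small_base: same with J small (Small.{u}): p ↦ (ht, b restricted to Iio κ.ord, supp as a subset of J, d restricted to J) injects into
 Iio κ.ord × (Iio κ.ord → {x | Lt κ.ord x}) × Set J × (J → Set ({Lt} × {Lt}) × Set {Lt} × Iio κ.ord), a small type
 (small_Pi, small_set, small_prod; Lk.small).
-/
import Pool.Agent.H40.IS.KLk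
import Pool.Agent.H40.IS.KPV

namespace Pool.Agent.H40.IS
open Cardinal Ordinal Set
universe u
variable {κ : Cardinal.{u}}

private def kcE (κ : Cardinal.{u}) : Set Dat.{u} :=
  {d | (d.pi ⊆ {x : Nd.{u} | Lt κ.ord x} ×ˢ {x : So.{u} | Lt κ.ord x} ∧ Sm κ d.pi) ∧
    (d.F ⊆ {x : So.{u} | Lt κ.ord x} ∧ Sm κ d.F) ∧ d.h < κ.ord}

private theorem kc_of_image {α β : Type (u + 1)} {f : α → β} (hf : Function.Injective f)
    {S : Set α} (h : Lk κ (f '' S)) : Lk κ S := by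
  unfold Lk at h ⊢
  rwa [Cardinal.mk_image_eq hf] at h

private theorem kc_lkE (hκ : κ.IsInaccessible) : Lk κ (kcE κ) := by
  have hinj : Function.Injective (fun d : Dat.{u} => (d.pi, d.F, d.h)) := by
    intro d e h
    simp only [Prod.mk.injEq] at h
    exact Dat.ext h.1 h.2.1 h.2.2
  refine kc_of_image hinj ?_
  have h1 := Lk.prod hκ (Lk.smallsub hκ (Lk.prod hκ (lk_Nd hκ) (lk_So hκ)))
    (Lk.prod hκ (Lk.smallsub hκ (lk_So hκ)) (lk_ord (κ := κ)))
  refine h1.mono ?_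
  rintro _ ⟨d, hd, rfl⟩
  exact ⟨hd.1, hd.2.1, hd.2.2⟩

private theorem kc_mem (hκ : κ.IsInaccessible) {p : Raw.{u}} (hp : Base κ p) {j : Ordinal.{u}}
    (hj : j ∈ p.supp) : p.d j ∈ kcE κ := by
  obtain ⟨γ, hγ, h1, h2⟩ := (hp.ok j hj).bdd
  refine ⟨⟨?_, ?_⟩, ⟨?_, ?_⟩, lt_of_le_of_lt (hp.h j hj) hp.ht⟩
  · rintro ⟨x, y⟩ hxy
    exact ⟨⟨γ, hγ, (h1 x y hxy).1⟩, ⟨γ, hγ, (h1 x y hxy).2⟩⟩
  · refine (Sm.prod hκ (sm_Nd hκ hγ) (sm_So hκ hγ)).mono ?_
    rintro ⟨x, y⟩ hxy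
    exact ⟨(h1 x y hxy).1, (h1 x y hxy).2⟩
  · intro f hf
    exact ⟨γ, hγ, h2 f hf⟩
  · exact (sm_So hκ hγ).mono (fun f hf => h2 f hf)

private theorem kc_b (hκ : κ.IsInaccessible) {p : Raw.{u}} (hp : Base κ p) :
    ∃ S' ⊆ Iio κ.ord, Sm κ S' ∧ (∀ a ∈ S', p.b a ∈ {x : So.{u} | Lt κ.ord x}) ∧
      ∀ a ∉ S', p.b a = default := by
  refine ⟨{ε | IsS ε ∧ ε ≤ p.ht}, fun ε hε => lt_of_le_of_lt hε.2 hp.ht, ?_, ?_, ?_⟩
  · refine (sm_Iio (kord_limit hκ hp.ht)).mono ?_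
    intro ε hε
    exact Order.lt_add_one_iff.2 hε.2
  · intro ε hε
    exact (hp.b ε hε.1 hε.2).2
  · intro ε hε
    exact hp.nb ε hε

private theorem kc_inj : Function.Injective (fun p : Raw.{u} => (p.ht, p.b, p.supp, p.d)) := by
  intro p q h
  simp only [Prod.mk.injEq] at h
  exact Raw.ext h.1 h.2.1 h.2.2.1 h.2.2.2

theorem lk_base (hκ : κ.IsInaccessible) {J : Set Ordinal.{u}} (hJ : Lk κ J) :
    Lk κ {p : Raw.{u} | Base κ p ∧ p.supp ⊆ J} := by
  refine kc_of_image kc_inj ?_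
  have h1 := Lk.prod hκ (lk_ord (κ := κ)) (Lk.prod hκ
    (Lk.fnsmall hκ (lk_ord (κ := κ)) (lk_So hκ) (default : So.{u}))
    (Lk.prod hκ (Lk.smallsub hκ hJ) (Lk.fnsmall hκ hJ (kc_lkE hκ) (default : Dat.{u}))))
  refine h1.mono ?_
  rintro _ ⟨p, hp, rfl⟩
  exact ⟨hp.1.ht, kc_b hκ hp.1, ⟨hp.2, hp.1.sm⟩,
    ⟨p.supp, hp.2, hp.1.sm, fun j hj => kc_mem hκ hp.1 hj, fun j hj => hp.1.nd j hj⟩⟩

private theorem kc_small_fn {α β : Type (u + 1)} {S : Set α} {T : Set β} (hS : Small.{u} S)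
    (hT : Small.{u} T) (b0 : β) :
    Small.{u} {f : α → β | (∀ a ∈ S, f a ∈ T) ∧ ∀ a ∉ S, f a = b0} := by
  refine small_of_injective (β := S → T) (f := fun f a => ⟨f.1 a.1, f.2.1 a.1 a.2⟩) ?_
  intro f g hfg
  apply Subtype.ext
  funext a
  by_cases ha : a ∈ S
  · exact congrArg Subtype.val (congrFun hfg ⟨a, ha⟩)
  · rw [f.2.2 a ha, g.2.2 a ha]

private theorem kc_small_prod {α β : Type (u + 1)} {S : Set α} {T : Set β} (hS : Small.{u} S)
    (hT : Small.{u} T) : Small.{u} ↥(S ×ˢ T) := by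
  refine small_of_injective (β := S × T) (f := fun x => (⟨x.1.1, x.2.1⟩, ⟨x.1.2, x.2.2⟩)) ?_
  intro x y hxy
  simp only [Prod.mk.injEq, Subtype.mk.injEq] at hxy
  exact Subtype.ext (Prod.ext hxy.1 hxy.2)

private theorem kc_small_pow {α : Type (u + 1)} {S : Set α} (hS : Small.{u} S) :
    Small.{u} {T : Set α | T ⊆ S} := by
  refine small_of_injective (β := Set S) (f := fun T => {a : S | a.1 ∈ T.1}) ?_
  intro T T' h
  apply Subtype.ext
  ext a
  constructor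
  · intro ha
    have h1 : (⟨a, T.2 ha⟩ : S) ∈ {a : S | a.1 ∈ T.1} := ha
    have h2 : (⟨a, T.2 ha⟩ : S) ∈ {a : S | a.1 ∈ T'.1} := by
      have h3 : {a : S | a.1 ∈ T.1} = {a : S | a.1 ∈ T'.1} := h
      rwa [h3] at h1
    exact h2
  · intro ha
    have h1 : (⟨a, T'.2 ha⟩ : S) ∈ {a : S | a.1 ∈ T'.1} := ha
    have h2 : (⟨a, T'.2 ha⟩ : S) ∈ {a : S | a.1 ∈ T.1} := by
      have h3 : {a : S | a.1 ∈ T.1} = {a : S | a.1 ∈ T'.1} := h
      rwa [← h3] at h1
    exact h2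

private theorem kc_small_image {α β : Type (u + 1)} {f : α → β} (hf : Function.Injective f)
    {S : Set α} {T : Set β} (hT : Small.{u} T) (h : ∀ a ∈ S, f a ∈ T) : Small.{u} S := by
  refine small_of_injective (β := T) (f := fun a => ⟨f a.1, h a.1 a.2⟩) ?_
  intro a b hab
  exact Subtype.ext (hf (congrArg Subtype.val hab))

private theorem kc_default (hκ : κ.IsInaccessible) : Lt κ.ord (default : So.{u}) := by
  refine Lt_kappa hκ (kord_pos hκ) (fun i => ?_)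
  have h : Rk.rk ((default : So.{u}).val i) = 0 := Rk.rk_z
  rw [h]
  exact kord_pos hκ

private theorem kc_E_default (hκ : κ.IsInaccessible) : (default : Dat.{u}) ∈ kcE κ :=
  ⟨⟨empty_subset _, Sm.empty hκ⟩, ⟨empty_subset _, Sm.empty hκ⟩, kord_pos hκ⟩

theorem small_base (hκ : κ.IsInaccessible) {J : Set Ordinal.{u}} (hJ : Small.{u} J) :
    Small.{u} {p : Raw.{u} | Base κ p ∧ p.supp ⊆ J} := by
  have hI : Small.{u} (Iio κ.ord) := (lk_ord (κ := κ)).small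
  have h1 := kc_small_prod hI (kc_small_prod
    (kc_small_fn hI (lk_So hκ).small (default : So.{u}))
    (kc_small_prod (kc_small_pow hJ) (kc_small_fn hJ (kc_lkE hκ).small (default : Dat.{u}))))
  refine kc_small_image kc_inj h1 ?_
  rintro p ⟨hp, hpJ⟩
  obtain ⟨S', hS', -, hb1, hb2⟩ := kc_b hκ hp
  refine ⟨hp.ht, ⟨fun a _ => ?_, fun a ha => hb2 a (fun h => ha (hS' h))⟩, hpJ,
    ⟨fun j _ => ?_, fun j hj => hp.nd j (fun h => hj (hpJ h))⟩⟩
  · by_cases ha : a ∈ S'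
    · exact hb1 a ha
    · have h2 := hb2 a ha
      change p.b a ∈ {x : So.{u} | Lt κ.ord x}
      rw [h2]
      exact kc_default hκ
  · by_cases hj : j ∈ p.supp
    · exact kc_mem hκ hp hj
    · have h2 := hp.nd j hj
      change p.d j ∈ kcE κ
      rw [h2]
      exact kc_E_default hκ

theorem small_PJ (hκ : κ.IsInaccessible) (D : Ordinal.{u} → Tri.{u}) (g : Ordinal.{u}) :
    Small.{u} ↥(PJ κ D (Iio g)) := by
  have h1 : Small.{u} {p : Raw.{u} | Base κ p ∧ p.supp ⊆ Iio g} := small_base hκ inferInstance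
  exact small_subset (t := PJ κ D (Iio g)) (s := {p : Raw.{u} | Base κ p ∧ p.supp ⊆ Iio g})
    (fun p hp => ⟨hp.1.1, hp.2⟩)

end Pool.Agent.H40.IS
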