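/-
K15a (KPr).  Projection and amalgamation on the subtypes.  Imports KPV only.  About 80 lines.  Direct from KOrd, KPV.
(p ∈ PJ κ D univ gives p.res g ∈ PP κ D g = PJ κ D (Iio g) by res_mem_PP, PP_eq_PJ; s ∈ PJ κ D (Iio g) has s.supp ⊆ Iio g.)
-/
import Pool.Agent.H40.IS.KPV

namespace Pool.Agent.H40.IS
open Cardinal Ordinal Set
universe u
variable {κ : Cardinal.{u}}

/-- all conditions, as a type -/
abbrev PT (κ : Cardinal.{u}) (D : Ordinal.{u} → Tri.{u}) : Type (u + 1) := ↥(PJ κ D univ)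

/-- conditions of the `g`-th stage, as a type -/
abbrev QT (κ : Cardinal.{u}) (D : Ordinal.{u} → Tri.{u}) (g : Ordinal.{u}) : Type (u + 1) :=
  ↥(PJ κ D (Iio g))

theorem prj_ok (hκ : κ.IsInaccessible) (D : Ordinal.{u} → Tri.{u}) (g : Ordinal.{u}) (p : PT κ D) :
    p.1.res g ∈ PJ κ D (Iio g) := by
  rw [← PP_eq_PJ]
  exact res_mem_PP hκ p.2.1 g

theorem amj_ok (hκ : κ.IsInaccessible) (D : Ordinal.{u} → Tri.{u}) (g : Ordinal.{u}) (s : QT κ D g)
    (p : PT κ D) (h : s.1 ≤ p.1.res g) : am g s.1 p.1 ∈ PJ κ D univ :=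
  ⟨am_mem hκ (by rw [PP_eq_PJ]; exact s.2) p.2.1 h, subset_univ _⟩

/-- projection -/
noncomputable def prj (hκ : κ.IsInaccessible) (D : Ordinal.{u} → Tri.{u}) (g : Ordinal.{u})
    (p : PT κ D) : QT κ D g := ⟨p.1.res g, prj_ok hκ D g p⟩

open Classical in
/-- amalgamation -/
noncomputable def amj (hκ : κ.IsInaccessible) (D : Ordinal.{u} → Tri.{u}) (g : Ordinal.{u})
    (s : QT κ D g) (p : PT κ D) : PT κ D :=
  if h : s.1 ≤ p.1.res g then ⟨am g s.1 p.1, amj_ok hκ D g s p h⟩ else p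

/-- inclusion -/
def inc (κ : Cardinal.{u}) (D : Ordinal.{u} → Tri.{u}) (g : Ordinal.{u}) (s : QT κ D g) : PT κ D :=
  ⟨s.1, s.2.1, subset_univ _⟩

variable {D : Ordinal.{u} → Tri.{u}} {g : Ordinal.{u}}

theorem prj_mono (hκ : κ.IsInaccessible) {p q : PT κ D} (h : p ≤ q) :
    prj hκ D g p ≤ prj hκ D g q := rres_mono h g

theorem amj_val (hκ : κ.IsInaccessible) {s : QT κ D g} {p : PT κ D} (h : s ≤ prj hκ D g p) :
    (amj hκ D g s p).1 = am g s.1 p.1 := by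
  unfold amj
  have h' : s.1 ≤ p.1.res g := h
  rw [dif_pos h']

theorem amj_le (hκ : κ.IsInaccessible) {s : QT κ D g} {p : PT κ D} (h : s ≤ prj hκ D g p) :
    amj hκ D g s p ≤ p := by
  change (amj hκ D g s p).1 ≤ p.1
  rw [amj_val hκ h]
  exact am_le_right h

theorem prj_amj (hκ : κ.IsInaccessible) {s : QT κ D g} {p : PT κ D} (h : s ≤ prj hκ D g p) :
    prj hκ D g (amj hκ D g s p) = s := by
  apply Subtype.ext
  change (amj hκ D g s p).1.res g = s.1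
  rw [amj_val hκ h]
  exact am_rres s.2.2 s.2.1.1

theorem le_amj (hκ : κ.IsInaccessible) {s : QT κ D g} {p r : PT κ D} (h : s ≤ prj hκ D g p)
    (hr : r ≤ p) (h2 : prj hκ D g r ≤ s) : r ≤ amj hκ D g s p := by
  change r.1 ≤ (amj hκ D g s p).1
  rw [amj_val hκ h]
  exact le_am hr h2 s.2.2

theorem le_inc_prj (hκ : κ.IsInaccessible) (p : PT κ D) : p ≤ inc κ D g (prj hκ D g p) :=
  le_rres p.1 g

theorem prj_inc (hκ : κ.IsInaccessible) (s : QT κ D g) : prj hκ D g (inc κ D g s) = s :=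
  Subtype.ext (rres_self s.2.1.1 s.2.2)

end Pool.Agent.H40.IS
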