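/-
K21 (DD).  The book-keeping: definition of the iteration D.  Imports KCnt, KPr, Bk only.  About 200 lines.
VS κ S T: T is a valid triple over the forcing notion S: names (subsets of S, empty outside κ) of two structures, below T.c, such that no
q ≤ T.c has a name of an isomorphism.
PROOFS.
small_VS: T is determined by T.c ∈ S and the sets T.A n x y, T.B n x y ⊆ S for n : ℕ, x, y < κ.ord: inject into
 S × (ℕ → Iio κ.ord → Iio κ.ord → Set S)^2, a small type (small_Pi, small_set; Iio κ.ord is small).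
exists_D: for every small set S let EN S : Ordinal → Tri be an enumeration as in exists_en (T = {T | VS κ S T}, jk κ); for other S
 anything.  Define D by well-founded recursion: D j = lft g (EN (PJ κ D' (Iio g)) k) where (g,k) = dec j and D' i = D i for i < j,
 default otherwise.  Since g ≤ j, PJ κ D' (Iio g) = PJ κ D (Iio g) (PP_congr, PP_eq_PJ).  en g k = EN (PJ κ D (Iio g)) k; the set
 PJ κ D (Iio g) is small by small_PJ.  (Inhabited Tri is needed for default: ⟨⟨default, fun _ _ _ => ∅, fun _ _ _ => ∅⟩⟩.)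
-/
import Pool.Agent.H40.IS.KCnt
import Pool.Agent.H40.IS.KPr
import Pool.Agent.H40.IS.Bk

namespace Pool.Agent.H40.IS
open Cardinal Ordinal Set
universe u
variable {κ : Cardinal.{u}}

noncomputable instance : Inhabited Tri.{u} := ⟨⟨default, fun _ _ _ => ∅, fun _ _ _ => ∅⟩⟩

/-- valid triples over `S` -/
def VS (κ : Cardinal.{u}) (S : Set Raw.{u}) (T : Tri.{u}) : Prop :=
  ∃ hc : T.c ∈ S,
    StrName κ (⟨T.c, hc⟩ : ↥S) (fun n x y => {t : ↥S | t.1 ∈ T.A n x y}) ∧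
    StrName κ (⟨T.c, hc⟩ : ↥S) (fun n x y => {t : ↥S | t.1 ∈ T.B n x y}) ∧
    (∀ n x y, T.A n x y ⊆ S ∧ T.B n x y ⊆ S) ∧
    (∀ n x y, ¬ (x < κ.ord ∧ y < κ.ord) → T.A n x y = ∅ ∧ T.B n x y = ∅) ∧
    ∀ q : ↥S, q ≤ ⟨T.c, hc⟩ → ∀ H, ¬ IsoName κ q (fun n x y => {t : ↥S | t.1 ∈ T.A n x y})
      (fun n x y => {t : ↥S | t.1 ∈ T.B n x y}) H

/-- an invalid triple: nothing is below its condition -/
noncomputable def jk (κ : Cardinal.{u}) : Tri.{u} :=
  ⟨⟨κ.ord, fun _ => default, ∅, fun _ => default⟩, fun _ _ _ => ∅, fun _ _ _ => ∅⟩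

/-- lift of a triple to later stages -/
noncomputable def lft (g : Ordinal.{u}) (T : Tri.{u}) : Tri.{u} :=
  ⟨T.c, fun n x y => {q | q.res g ∈ T.A n x y}, fun n x y => {q | q.res g ∈ T.B n x y}⟩

theorem small_VS {S : Set Raw.{u}} (hS : Small.{u} S) : Small.{u} {T : Tri.{u} | VS κ S T} := by
  haveI : Small.{u} ↥S := hS
  let X : Type (u + 1) := ↥S ×
    ((ℕ → ↥(Iio κ.ord) → ↥(Iio κ.ord) → Set ↥S) × (ℕ → ↥(Iio κ.ord) → ↥(Iio κ.ord) → Set ↥S))
  haveI hX : Small.{u} X := inferInstance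
  let f : ↥{T : Tri.{u} | VS κ S T} → X := fun T =>
    (⟨T.1.c, T.2.choose⟩, (fun n x y => {t : ↥S | t.1 ∈ T.1.A n x.1 y.1},
      fun n x y => {t : ↥S | t.1 ∈ T.1.B n x.1 y.1}))
  refine small_of_injective (f := f) ?_
  rintro ⟨T, hT⟩ ⟨T', hT'⟩ h
  have e1 : T.c = T'.c := congrArg (fun z : X => z.1.1) h
  have e2 : ∀ (n : ℕ) (x y : ↥(Iio κ.ord)), {t : ↥S | t.1 ∈ T.A n x.1 y.1} =
      {t : ↥S | t.1 ∈ T'.A n x.1 y.1} := fun n x y => congrArg (fun z : X => z.2.1 n x y) h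
  have e3 : ∀ (n : ℕ) (x y : ↥(Iio κ.ord)), {t : ↥S | t.1 ∈ T.B n x.1 y.1} =
      {t : ↥S | t.1 ∈ T'.B n x.1 y.1} := fun n x y => congrArg (fun z : X => z.2.2 n x y) h
  obtain ⟨hc, -, -, h4, h5, -⟩ := hT
  obtain ⟨hc', -, -, h4', h5', -⟩ := hT'
  have eA : T.A = T'.A := by
    funext n x y
    by_cases hxy : x < κ.ord ∧ y < κ.ord
    · ext t
      constructor
      · intro ht
        have h6 : (⟨t, (h4 n x y).1 ht⟩ : ↥S) ∈ {t : ↥S | t.1 ∈ T.A n x y} := ht
        rw [e2 n ⟨x, hxy.1⟩ ⟨y, hxy.2⟩] at h6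
        exact h6
      · intro ht
        have h6 : (⟨t, (h4' n x y).1 ht⟩ : ↥S) ∈ {t : ↥S | t.1 ∈ T'.A n x y} := ht
        rw [← e2 n ⟨x, hxy.1⟩ ⟨y, hxy.2⟩] at h6
        exact h6
    · rw [(h5 n x y hxy).1, (h5' n x y hxy).1]
  have eB : T.B = T'.B := by
    funext n x y
    by_cases hxy : x < κ.ord ∧ y < κ.ord
    · ext t
      constructor
      · intro ht
        have h6 : (⟨t, (h4 n x y).2 ht⟩ : ↥S) ∈ {t : ↥S | t.1 ∈ T.B n x y} := ht
        rw [e3 n ⟨x, hxy.1⟩ ⟨y, hxy.2⟩] at h6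
        exact h6
      · intro ht
        have h6 : (⟨t, (h4' n x y).2 ht⟩ : ↥S) ∈ {t : ↥S | t.1 ∈ T'.B n x y} := ht
        rw [← e3 n ⟨x, hxy.1⟩ ⟨y, hxy.2⟩] at h6
        exact h6
    · rw [(h5 n x y hxy).2, (h5' n x y hxy).2]
  apply Subtype.ext
  change T = T'
  cases T
  cases T'
  simp only at e1 eA eB
  subst e1 eA eB
  rfl

open Classical in
/-- enumeration of the valid triples over a small set -/
private noncomputable def dd_EN (κ : Cardinal.{u}) (S : Set Raw.{u}) : Ordinal.{u} → Tri.{u} :=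
  if h : Small.{u} ↥S then
    (exists_en {T : Tri.{u} | VS κ S T} (small_VS h) (jk κ)).choose
  else fun _ => default

private theorem dd_EN_spec {S : Set Raw.{u}} (h : Small.{u} ↥S) :
    (∀ T, VS κ S T → ∃ k, dd_EN κ S k = T) ∧ ∀ k, VS κ S (dd_EN κ S k) ∨ dd_EN κ S k = jk κ := by
  have h1 := (exists_en {T : Tri.{u} | VS κ S T} (small_VS h) (jk κ)).choose_spec
  unfold dd_EN
  rw [dif_pos h]
  exact h1

theorem exists_D (hκ : κ.IsInaccessible) (dec : Ordinal.{u} → Ordinal.{u} × Ordinal.{u})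
    (hdec : ∀ j, (dec j).1 ≤ j) :
    ∃ (D : Ordinal.{u} → Tri.{u}) (en : Ordinal.{u} → Ordinal.{u} → Tri.{u}),
      (∀ j, D j = lft (dec j).1 (en (dec j).1 (dec j).2)) ∧
      ∀ g, (∀ T, VS κ (PJ κ D (Iio g)) T → ∃ k, en g k = T) ∧
        ∀ k, VS κ (PJ κ D (Iio g)) (en g k) ∨ en g k = jk κ := by
  classical
  let F : (j : Ordinal.{u}) → ((i : Ordinal.{u}) → i < j → Tri.{u}) → Tri.{u} := fun j ih =>
    lft (dec j).1 (dd_EN κ (PJ κ (fun i => if h : i < j then ih i h else default)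
      (Iio (dec j).1)) (dec j).2)
  let D : Ordinal.{u} → Tri.{u} := IsWellFounded.fix (fun a b : Ordinal.{u} => a < b) F
  have hD : ∀ j, D j = F j (fun i _ => D i) := fun j =>
    IsWellFounded.fix_eq (fun a b : Ordinal.{u} => a < b) F j
  refine ⟨D, fun g k => dd_EN κ (PJ κ D (Iio g)) k, fun j => ?_, fun g => ?_⟩
  · rw [hD j]
    change lft (dec j).1 (dd_EN κ (PJ κ (fun i => if h : i < j then D i else default)
      (Iio (dec j).1)) (dec j).2) = _
    have h1 : PJ κ (fun i => if h : i < j then D i else default) (Iio (dec j).1) =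
        PJ κ D (Iio (dec j).1) := by
      rw [← PP_eq_PJ, ← PP_eq_PJ]
      refine PP_congr fun i hi => ?_
      exact dif_pos (lt_of_lt_of_le hi (hdec j))
    rw [h1]
  · exact dd_EN_spec (small_PJ hκ D g)

end Pool.Agent.H40.IS
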