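/-
AB6 (PM).  Perfect matchings: the name of the bijection.  Needs Cp, Blk.  About 220 lines.
PROOF.  S from exists_sys.  For δ, δ' let An2 δ δ' be a maximal antichain (exists_antichain) of the lower set {t | t ≤ s ∧ ∃ g, Blk F s q X Y f δ δ' t g}
(Blk is inherited by t' ≤ t: Blk.mono, prove it: X, Y lower, am t' q' ≤ am t q', f lower), with chosen g_a for a ∈ An2 δ δ'.
Consec δ δ' x t := (δ = 0 ∨ S.Cl δ t) ∧ S.Cl δ' t ∧ δ' < κ.ord ∧ δ ≤ x ∧ x < δ' ∧ ∀ δ'', δ < δ'' → δ'' < δ' → ∀ t' ≤ t, ¬ S.Cl δ'' t'.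
G x y q' := {t | t ≤ s ∧ ∃ δ δ', Consec δ δ' x t ∧ ∃ a ∈ An2 δ δ', t ≤ a ∧ g_a x = some (y, q')}.
lower: Consec is inherited.  sound: from some' for a, then to t ≤ a (lX, lY, am_mono, lower).
Uniqueness of (δ, δ') for given x and t: if δ1 < δ2 both ≤ x then δ1 < δ2 < δ1' and Cl δ2 t contradicts Consec δ1 δ1'; then δ1' < δ2' the same.
Uniqueness of a: antichain.  So uniq; inj: y lies in the block of x and of x' ([δ, δ') by some'), so both blocks are the same (Consec with y), same a, inj of Blk.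
tot: t ≤ s, x < κ.ord, t ∈ X x.  Cl_unb: t1 ≤ t, δ1 > x with Cl δ1 t1.  Dist.below (Q) for δ'' < δ1 + 1 and the open dense sets
{t | S.Cl δ'' t ∨ ∀ t' ≤ t, ¬ S.Cl δ'' t'}: t2 ≤ t1 decides all δ'' ≤ δ1.  δ' := least δ'' > x with Cl δ'' t2.  δ := sSup {δ'' ≤ x | Cl δ'' t2} (0 if empty): if nonempty it is
either attained or a limit of such points, then Cl δ t2 by Cl_sup (or note that the sup of a set of limit ordinals is in the set or is a limit of it).  So Consec δ δ' x t2 (points strictly between are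
> x, not closed at t2, hence by the decision no t' ≤ t2 forces them closed).  exists_blk: t3 ≤ t2 with a Blk; t4 ≤ t3, a ∈ An2, t4 ≤ a.  g_a x ≠ none
because t4 ∈ X x (lX), none'.  So t4 ∈ G x y q'.  onto: the same with y instead of x and onto of Blk (gives x in the same block: Consec holds for x too).
-/
import Pool.Agent.H40.IS.Cp
import Pool.Agent.H40.IS.Blk

namespace Pool.Agent.H40.IS
open Cardinal Ordinal Set
universe u v w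

variable {κ : Cardinal.{u}} {Q P : Type v} [Preorder Q] [Preorder P]

theorem Blk.mono {F : FP κ Q P} {s : Q} {q : P} {X Y : Ordinal.{u} → Set Q}
    {f : Ordinal.{u} → Ordinal.{u} → Set P} (h : Bij F s q X Y f) {δ δ' : Ordinal.{u}} {t t' : Q}
    {g : Ordinal.{u} → Option (Ordinal.{u} × P)} (hb : Blk F s q X Y f δ δ' t g) (ht : t' ≤ t) :
    Blk F s q X Y f δ δ' t' g := by
  refine ⟨?_, ?_, hb.inj, ?_⟩
  · intro x hx1 hx2 hg t'' ht''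
    exact hb.none' x hx1 hx2 hg t'' (ht''.trans ht)
  · intro x hx1 hx2 y q' hg
    obtain ⟨h1, h2, h3, h4, h5, h6, h7⟩ := hb.some' x hx1 hx2 y q' hg
    refine ⟨h1, h2, h.lX x ht h3, h.lY y ht h4, h5, ht.trans h6, ?_⟩
    exact h.lower x y (F.am_mono h6 ht le_rfl (ht.trans h6)) h7
  · intro y hy1 hy2
    rcases hb.onto y hy1 hy2 with h1 | h1
    · exact Or.inl fun t'' ht'' => h1 t'' (ht''.trans ht)
    · exact Or.inr h1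

/-- `t` forces that `δ` and `δ'` are consecutive closed points around `x` -/
private def Cs {F : FP κ Q P} {s : Q} {q : P} {f : Ordinal.{u} → Ordinal.{u} → Set P}
    (S : Sys F s q f) (δ δ' x : Ordinal.{u}) (t : Q) : Prop :=
  (δ = 0 ∨ S.Cl δ t) ∧ S.Cl δ' t ∧ δ' < κ.ord ∧ δ ≤ x ∧ x < δ' ∧
    ∀ δ'', δ < δ'' → δ'' < δ' → ∀ t' ≤ t, ¬ S.Cl δ'' t'

private theorem cs_mono {F : FP κ Q P} {s : Q} {q : P} {f : Ordinal.{u} → Ordinal.{u} → Set P}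
    {S : Sys F s q f} {δ δ' x : Ordinal.{u}} {t t' : Q} (h : Cs S δ δ' x t) (ht : t' ≤ t) :
    Cs S δ δ' x t' := by
  obtain ⟨h1, h2, h3, h4, h5, h6⟩ := h
  refine ⟨?_, h2.mono ht, h3, h4, h5, fun δ'' ha hb t'' ht'' => h6 δ'' ha hb t'' (ht''.trans ht)⟩
  rcases h1 with h1 | h1
  · exact Or.inl h1
  · exact Or.inr (h1.mono ht)

private theorem cs_move {F : FP κ Q P} {s : Q} {q : P} {f : Ordinal.{u} → Ordinal.{u} → Set P}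
    {S : Sys F s q f} {δ δ' x y : Ordinal.{u}} {t : Q} (h : Cs S δ δ' x t) (h1 : δ ≤ y)
    (h2 : y < δ') : Cs S δ δ' y t :=
  ⟨h.1, h.2.1, h.2.2.1, h1, h2, h.2.2.2.2.2⟩

private theorem cs_aux {F : FP κ Q P} {s : Q} {q : P} {f : Ordinal.{u} → Ordinal.{u} → Set P}
    {S : Sys F s q f} {δ₁ δ₁' δ₂ δ₂' x : Ordinal.{u}} {t : Q} (h1 : Cs S δ₁ δ₁' x t)
    (h2 : Cs S δ₂ δ₂' x t) : ¬ δ₁ < δ₂ := by
  intro hlt
  obtain ⟨-, -, -, -, h15, h16⟩ := h1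
  obtain ⟨h21, -, -, h24, -, -⟩ := h2
  rcases h21 with h21 | h21
  · rw [h21] at hlt
    exact absurd hlt (not_lt.2 zero_le)
  · exact h16 δ₂ hlt (lt_of_le_of_lt h24 h15) t le_rfl h21

private theorem cs_uniq {F : FP κ Q P} {s : Q} {q : P} {f : Ordinal.{u} → Ordinal.{u} → Set P}
    {S : Sys F s q f} {δ₁ δ₁' δ₂ δ₂' x : Ordinal.{u}} {t : Q} (h1 : Cs S δ₁ δ₁' x t)
    (h2 : Cs S δ₂ δ₂' x t) : δ₁ = δ₂ ∧ δ₁' = δ₂' := by
  have e : δ₁ = δ₂ := le_antisymm (not_lt.1 (cs_aux h2 h1)) (not_lt.1 (cs_aux h1 h2))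
  subst e
  refine ⟨rfl, ?_⟩
  obtain ⟨-, h12, -, h14, h15, h16⟩ := h1
  obtain ⟨-, h22, -, h24, h25, h26⟩ := h2
  rcases lt_trichotomy δ₁' δ₂' with h | h | h
  · exact absurd h12 (h26 δ₁' (lt_of_le_of_lt h14 h15) h t le_rfl)
  · exact h
  · exact absurd h22 (h16 δ₂' (lt_of_le_of_lt h24 h25) h t le_rfl)

private theorem cs_exists {F : FP κ Q P} {s : Q} {q : P} {f : Ordinal.{u} → Ordinal.{u} → Set P}
    (S : Sys F s q f) (hκ : κ.IsRegular) (hω : ℵ₀ < κ) {x : Ordinal.{u}} (hx : x < κ.ord)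
    {t : Q} (ht : t ≤ s) : ∃ t' ≤ t, ∃ δ δ', Cs S δ δ' x t' := by
  obtain ⟨t₁, ht₁, δ₁, hδ₁, hδ₁κ, hCl⟩ := S.Cl_unb hκ hω hx ht
  have hμ : δ₁ + 1 < κ.ord := (Cardinal.isSuccLimit_ord hκ.1).succ_lt hδ₁κ
  obtain ⟨t₂, ht₂, hdec⟩ := Dist.below F.distQ hμ t₁
    (fun δ'' => {t | S.Cl δ'' t ∨ ∀ t' ≤ t, ¬ S.Cl δ'' t'})
    (by
      intro δ'' _
      constructor
      · intro a b hba ha
        rcases ha with ha | ha
        · exact Or.inl (ha.mono hba)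
        · exact Or.inr fun t' ht' => ha t' (ht'.trans hba)
      · intro r _
        by_cases hh : ∃ r' ≤ r, S.Cl δ'' r'
        · obtain ⟨r', hr', hc⟩ := hh
          exact ⟨r', hr', Or.inl hc⟩
        · exact ⟨r, le_rfl, Or.inr fun r' hr' hc => hh ⟨r', hr', hc⟩⟩) t₁ le_rfl
  -- the next closed point
  have hne : {δ'' : Ordinal.{u} | x < δ'' ∧ S.Cl δ'' t₂}.Nonempty := ⟨δ₁, hδ₁, hCl.mono ht₂⟩
  have hmem : sInf {δ'' : Ordinal.{u} | x < δ'' ∧ S.Cl δ'' t₂} ∈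
      {δ'' : Ordinal.{u} | x < δ'' ∧ S.Cl δ'' t₂} := csInf_mem hne
  have hle : ∀ δ'', x < δ'' → S.Cl δ'' t₂ → sInf {δ'' : Ordinal.{u} | x < δ'' ∧ S.Cl δ'' t₂} ≤ δ'' :=
    fun δ'' h1 h2 => csInf_le' ⟨h1, h2⟩
  obtain ⟨δ', hδ'⟩ : ∃ δ', δ' = sInf {δ'' : Ordinal.{u} | x < δ'' ∧ S.Cl δ'' t₂} := ⟨_, rfl⟩
  rw [← hδ'] at hmem hle
  have hδ'1 : δ' ≤ δ₁ := hle δ₁ hδ₁ (hCl.mono ht₂)
  -- the previous closed point
  have hprev : ∃ δ, (δ = 0 ∨ S.Cl δ t₂) ∧ δ ≤ x ∧ ∀ δ'' ≤ x, S.Cl δ'' t₂ → δ'' ≤ δ := by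
    by_cases hT : ∃ δ'' ≤ x, S.Cl δ'' t₂
    · obtain ⟨δ₀, hδ₀, hCl₀⟩ := hT
      have hbdd : BddAbove {δ'' : Ordinal.{u} | δ'' ≤ x ∧ S.Cl δ'' t₂} := ⟨x, fun a ha => ha.1⟩
      obtain ⟨δ, hδ⟩ : ∃ δ, δ = sSup {δ'' : Ordinal.{u} | δ'' ≤ x ∧ S.Cl δ'' t₂} := ⟨_, rfl⟩
      have hup : ∀ δ'' ≤ x, S.Cl δ'' t₂ → δ'' ≤ δ := by
        intro δ'' h1 h2
        rw [hδ]
        exact le_csSup hbdd ⟨h1, h2⟩
      have hδx : δ ≤ x := by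
        rw [hδ]
        exact csSup_le ⟨δ₀, hδ₀, hCl₀⟩ fun a ha => ha.1
      refine ⟨δ, ?_, hδx, hup⟩
      right
      by_contra hn
      have hex : ∀ α < δ, ∃ δ'', α < δ'' ∧ δ'' < δ ∧ S.Cl δ'' t₂ := by
        intro α hα
        rw [hδ] at hα
        have hne' : {δ'' : Ordinal.{u} | δ'' ≤ x ∧ S.Cl δ'' t₂}.Nonempty := ⟨δ₀, hδ₀, hCl₀⟩
        obtain ⟨δ'', ⟨h1, h2⟩, h3⟩ := exists_lt_of_lt_csSup hne' hα
        refine ⟨δ'', h3, lt_of_le_of_ne (hup δ'' h1 h2) ?_, h2⟩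
        intro he
        exact hn (he ▸ h2)
      have hpos : (0 : Ordinal.{u}) < δ :=
        lt_of_lt_of_le (pos_iff_ne_zero.2 hCl₀.1.ne_bot) (hup δ₀ hδ₀ hCl₀)
      have hlim : Order.IsSuccLimit δ := by
        refine ⟨?_, ?_⟩
        · rw [isMin_iff_eq_bot]
          exact hpos.ne'
        · intro b hb
          obtain ⟨δ'', h1, h2, -⟩ := hex b hb.1
          exact hb.2 h1 h2
      apply hn
      refine S.Cl_sup hlim ?_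
      intro α hα t' ht'
      obtain ⟨δ'', h1, h2, h3⟩ := hex α hα
      exact ⟨t', le_rfl, δ'', h1, h2, h3.mono ht'⟩
    · refine ⟨0, Or.inl rfl, zero_le, ?_⟩
      intro δ'' h1 h2
      exact absurd ⟨δ'', h1, h2⟩ hT
  obtain ⟨δ, hδ0, hδx, hδm⟩ := hprev
  refine ⟨t₂, ht₂.trans ht₁, δ, δ', hδ0, hmem.2, lt_of_le_of_lt hδ'1 hδ₁κ, hδx, hmem.1, ?_⟩
  intro δ'' h1 h2 t' ht' hc
  have h3 : δ'' < δ₁ + 1 := lt_of_lt_of_le h2 (hδ'1.trans (Order.le_succ δ₁))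
  rcases hdec δ'' h3 with h4 | h4
  · rcases le_or_gt δ'' x with h5 | h5
    · exact absurd (hδm δ'' h5 h4) (not_le.2 h1)
    · exact absurd (hle δ'' h5 h4) (not_le.2 h2)
  · exact h4 t' ht' hc

theorem pm (hκ : κ.IsRegular) (hω : ℵ₀ < κ) (F : FP κ Q P) {s : Q} {q : P} {X Y : Ordinal.{u} → Set Q}
    {f : Ordinal.{u} → Ordinal.{u} → Set P} (h : Bij F s q X Y f) :
    ∃ G, Match F (Iic s) q X Y f G := by
  obtain ⟨S⟩ := exists_sys hκ hω F h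
  have hch : ∀ δ δ' : Ordinal.{u}, ∃ (A : Set Q) (gg : Q → Ordinal.{u} → Option (Ordinal.{u} × P)),
      (∀ a ∈ A, Blk F s q X Y f δ δ' a (gg a)) ∧
      (∀ a ∈ A, ∀ a' ∈ A, ∀ t, t ≤ a → t ≤ a' → a = a') ∧
      ∀ t ≤ s, ∀ g, Blk F s q X Y f δ δ' t g → ∃ t' ≤ t, ∃ a ∈ A, t' ≤ a := by
    intro δ δ'
    obtain ⟨A, hA1, hA2, hA3⟩ := exists_antichain
      {t : Q | t ≤ s ∧ ∃ g, Blk F s q X Y f δ δ' t g}
    have hgg : ∀ a, ∃ g : Ordinal.{u} → Option (Ordinal.{u} × P), a ∈ A →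
        Blk F s q X Y f δ δ' a g := by
      intro a
      by_cases ha : a ∈ A
      · obtain ⟨g, hg⟩ := (hA1 ha).2
        exact ⟨g, fun _ => hg⟩
      · exact ⟨fun _ => none, fun h => absurd h ha⟩
    choose gg hgg using hgg
    refine ⟨A, gg, fun a ha => hgg a ha, hA2, ?_⟩
    intro t ht g hg
    refine hA3 ?_ t ⟨ht, g, hg⟩
    rintro a b hba ⟨ha, g', hg'⟩
    exact ⟨hba.trans ha, g', hg'.mono h hba⟩
  choose A gg hA1 hA2 hA3 using hch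
  refine ⟨fun x y q' => {t | t ≤ s ∧ ∃ δ δ', Cs S δ δ' x t ∧ ∃ a ∈ A δ δ', t ≤ a ∧
    gg δ δ' a x = some (y, q')}, ?_, ?_, ?_, ?_, ?_, ?_⟩
  · -- lower
    rintro x y q' a b hba ⟨h1, δ, δ', h2, c, hc, h3, h4⟩
    exact ⟨hba.trans h1, δ, δ', cs_mono h2 hba, c, hc, hba.trans h3, h4⟩
  · -- sound
    rintro t x y q' ⟨h1, δ, δ', h2, c, hc, h3, h4⟩
    have hb : Blk F s q X Y f δ δ' t (gg δ δ' c) := (hA1 δ δ' c hc).mono h h3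
    obtain ⟨e1, e2, e3, e4, e5, e6, e7⟩ := hb.some' x h2.2.2.2.1 h2.2.2.2.2.1 y q' h4
    exact ⟨h1, h2.2.2.2.2.1.trans h2.2.2.1, e2.trans h2.2.2.1, e3, e4, e5, e6, e7⟩
  · -- uniq
    rintro t x y y' q' q'' ⟨-, δ, δ', h2, c, hc, h3, h4⟩ ⟨-, ε, ε', k2, d, hd, k3, k4⟩
    obtain ⟨e1, e2⟩ := cs_uniq h2 k2
    subst e1
    subst e2
    have e3 := hA2 δ δ' c hc d hd t h3 k3
    subst e3
    rw [h4] at k4
    simp only [Option.some.injEq, Prod.mk.injEq] at k4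
    exact k4
  · -- inj
    rintro t x x' y q' q'' ⟨-, δ, δ', h2, c, hc, h3, h4⟩ ⟨-, ε, ε', k2, d, hd, k3, k4⟩
    obtain ⟨e1, e2, -⟩ := (hA1 δ δ' c hc).some' x h2.2.2.2.1 h2.2.2.2.2.1 y q' h4
    obtain ⟨e3, e4, -⟩ := (hA1 ε ε' d hd).some' x' k2.2.2.2.1 k2.2.2.2.2.1 y q'' k4
    obtain ⟨e5, e6⟩ := cs_uniq (cs_move h2 e1 e2) (cs_move k2 e3 e4)
    subst e5
    subst e6
    have e7 := hA2 δ δ' c hc d hd t h3 k3
    subst e7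
    exact (hA1 δ δ' c hc).inj x x' h2.2.2.2.1 h2.2.2.2.2.1 k2.2.2.2.1 k2.2.2.2.2.1 y q' q'' h4 k4
  · -- tot
    intro t ht x hx htX
    obtain ⟨t₁, ht₁, δ, δ', hCs⟩ := cs_exists S hκ hω hx ht
    have hts : t₁ ≤ s := ht₁.trans ht
    obtain ⟨t₂, ht₂, g, hg⟩ := S.exists_blk h (lt_of_le_of_lt hCs.2.2.2.1 hCs.2.2.2.2.1)
      hCs.2.2.1 hts hCs.1 hCs.2.1
    obtain ⟨t₃, ht₃, a, ha, hta⟩ := hA3 δ δ' t₂ (ht₂.trans hts) g hg
    have h3s : t₃ ≤ s := ht₃.trans (ht₂.trans hts)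
    have h3C : Cs S δ δ' x t₃ := cs_mono hCs (ht₃.trans ht₂)
    have h3X : t₃ ∈ X x := h.lX x (ht₃.trans (ht₂.trans ht₁)) htX
    cases hgx : gg δ δ' a x with
    | none => exact absurd h3X ((hA1 δ δ' a ha).none' x hCs.2.2.2.1 hCs.2.2.2.2.1 hgx t₃ hta)
    | some yq =>
      obtain ⟨y, q'⟩ := yq
      exact ⟨t₃, ht₃.trans (ht₂.trans ht₁), y, q', h3s, δ, δ', h3C, a, ha, hta, hgx⟩
  · -- onto
    intro t ht y hy htY
    obtain ⟨t₁, ht₁, δ, δ', hCs⟩ := cs_exists S hκ hω hy ht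
    have hts : t₁ ≤ s := ht₁.trans ht
    obtain ⟨t₂, ht₂, g, hg⟩ := S.exists_blk h (lt_of_le_of_lt hCs.2.2.2.1 hCs.2.2.2.2.1)
      hCs.2.2.1 hts hCs.1 hCs.2.1
    obtain ⟨t₃, ht₃, a, ha, hta⟩ := hA3 δ δ' t₂ (ht₂.trans hts) g hg
    have h3s : t₃ ≤ s := ht₃.trans (ht₂.trans hts)
    have h3C : Cs S δ δ' y t₃ := cs_mono hCs (ht₃.trans ht₂)
    have h3Y : t₃ ∈ Y y := h.lY y (ht₃.trans (ht₂.trans ht₁)) htY
    rcases (hA1 δ δ' a ha).onto y hCs.2.2.2.1 hCs.2.2.2.2.1 with h1 | ⟨x, q', hx1, hx2, hgx⟩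
    · exact absurd h3Y (h1 t₃ hta)
    · exact ⟨t₃, ht₃.trans (ht₂.trans ht₁), x, q', h3s, δ, δ', cs_move h3C hx1 hx2, a, ha, hta, hgx⟩

end Pool.Agent.H40.IS
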