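/-
AB7 (Mix).  Mixing of matchings over an open set of base conditions.  Needs PM (statement only).  About 70 lines.
PROOF.  A = maximal antichain of O (exists_antichain, O lower).  For a ∈ A choose G_a with Match F (Iic a) q X Y f G_a (pm).
G x y q' := {t | ∃ a ∈ A, t ≤ a ∧ t ∈ G_a x y q'}.  All clauses: the a for given t is unique (antichain); tot/onto: t ∈ O has t' ≤ t, t' ≤ a ∈ A; t' ∈ X x (X lower: lX
of h a).  sound: t ≤ a ∈ O gives t ∈ O.  If O is empty take G = fun _ _ _ => ∅ (the construction does this automatically).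
-/
import Pool.Agent.H40.IS.PM

namespace Pool.Agent.H40.IS
open Cardinal Ordinal Set
universe u v w

variable {κ : Cardinal.{u}} {Q P : Type v} [Preorder Q] [Preorder P]

theorem pm_mix (hκ : κ.IsRegular) (hω : ℵ₀ < κ) (F : FP κ Q P) {O : Set Q} (hO : IsLowerSet O) {q : P}
    {X Y : Ordinal.{u} → Set Q} {f : Ordinal.{u} → Ordinal.{u} → Set P}
    (h : ∀ s ∈ O, Bij F s q X Y f) : ∃ G, Match F O q X Y f G := by
  classical
  obtain ⟨A, hA, hanti, hmax0⟩ := exists_antichain O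
  have hmax := hmax0 hO
  have hex : ∀ a ∈ A, ∃ G, Match F (Iic a) q X Y f G := fun a ha => pm hκ hω F (h a (hA ha))
  choose! G hG using hex
  refine ⟨fun x y q' => {t | ∃ a ∈ A, t ≤ a ∧ t ∈ G a x y q'}, ?_, ?_, ?_, ?_, ?_, ?_⟩
  · rintro x y q' t t' htt ⟨a, ha, hta, ht⟩
    exact ⟨a, ha, htt.trans hta, (hG a ha).lower x y q' htt ht⟩
  · rintro t x y q' ⟨a, ha, hta, ht⟩
    obtain ⟨-, h2⟩ := (hG a ha).sound ht
    exact ⟨hO hta (hA ha), h2⟩
  · rintro t x y y' q' q'' ⟨a, ha, hta, ht⟩ ⟨a', ha', hta', ht'⟩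
    obtain rfl := hanti a ha a' ha' t hta hta'
    exact (hG a ha).uniq ht ht'
  · rintro t x x' y q' q'' ⟨a, ha, hta, ht⟩ ⟨a', ha', hta', ht'⟩
    obtain rfl := hanti a ha a' ha' t hta hta'
    exact (hG a ha).inj ht ht'
  · intro t ht x hx htX
    obtain ⟨t', ht', a, ha, hta⟩ := hmax t ht
    obtain ⟨t'', ht'', y, q', h1⟩ := (hG a ha).tot t' hta x hx ((h a (hA ha)).lX x ht' htX)
    exact ⟨t'', ht''.trans ht', y, q', a, ha, ht''.trans hta, h1⟩
  · intro t ht y hy htY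
    obtain ⟨t', ht', a, ha, hta⟩ := hmax t ht
    obtain ⟨t'', ht'', x, q', h1⟩ := (hG a ha).onto t' hta y hy ((h a (hA ha)).lY y ht' htY)
    exact ⟨t'', ht''.trans ht', x, q', a, ha, ht''.trans hta, h1⟩

end Pool.Agent.H40.IS
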