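/-
AB9 (Rec).  The level maps.  Needs Lev and Mix (statements only).  About 220 lines.
PROOF.  po_lower: t' ≤ t: am t' q' ≤ am t q' (am_mono).  exists_Gs: pm_mix with O = Po F s q B H n u v q' and bij_level.
Lv 0 a v q' = {t ≤ s, a < κ.ord, v = 0, q' = q}; Lv (n+1) a v' q'' = {t | ∃ u v q' m, t ∈ Mn A n a u, t ∈ Lv n u v q', t ∈ Mn A (n+1) a m, t ∈ Gs n u v q' m v' q''}.
inv_zero: pos: Po 0: sh B 0 w 0 holds since w < κ.ord (hH.dom); Mn B 0 0 0: clear.  onto: t ∈ Mn B 0 v v forces v = 0 (otherwise 0 < v and t ∈ sh B 0 v 0).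
inv_succ (L = Lv n with Inv n):
 dec: t ∈ Lv (n+1) a v' q'': u ~ a at level n (Mn), so t ∈ Lv n a v q' by cong; q'' ≤ q' and t ∈ Xs B n v v' (sound), so t ∈ sh B n v v'.
 pos: sound gives v' < κ.ord, t ∈ Xs B n v v' (so Mn B (n+1) v' v'), q'' ≤ q' ≤ q, t ≤ pr q'', am t q'' ∈ fl m v'.  Po (n+1) a v' q'': r ≤ am t q'', r ∈ H a w: take r'' ≤ r, w1, r'' ∈ H m w1, pr r'' ∈ sh B (n+1) w1 v'
   (fl at am t q''); a ~ m at level n+1 (Mn), pres_sh: w ~ w1 at level n+1; so pr r'' ∈ sh B (n+1) w v', densely below r: use regularity of sh B (n+1) w v' pulled back (reg_pull), i.e. for every r1 ≤ r such r'' exists.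
 uniq: u, m unique (Mn.uniq), v, q' unique (uniq n), then uniq of Gs.  tot: decide Mn A n a, Mn A (n+1) a, L n u, then tot of Gs at m ∈ Xs A n u (Mn.self, a ~ u, a ~ m) with t ∈ Po (pos n).
 cong: t ∈ sh A (n+1) a a' implies sh A n a a'; Mn.congr for both; the same u, m.  inj: (u, v, q', m), (u', v1, q1', m1): by dec-argument t ∈ Lv n a v q', Lv n a' v1 q1', and v ~ v' ~ v1 at level n with v, v1 least
   (Mn B n v v, Mn B n v1 v1): v = v1; inj n: a ~ a' at level n so u = u' and (uniq n) q' = q1'; inj of Gs: m = m1; so a ~ m ~ a' at level n+1.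
 onto: v' < κ.ord, t ∈ Mn B (n+1) v' v': Mn.ex for B n v': t1 ≤ t, v, Mn B n v' v, so Mn B n v v; onto n: t2, a0, q', t2 ∈ Lv n a0 v q'; u = least rep of a0 at level n (t3); t3 ∈ Lv n u v q' (cong), so t3 ∈ Po n u v q'; t3 ∈ Xs B n v v'
   (sh B n v v' by symm); onto of Gs: t4, m, q'', t4 ∈ Gs n u v q' m v' q''; m ∈ Xs A n u (sound): Mn A (n+1) m m, and Mn A n m u (congr).  So t4 ∈ Lv (n+1) m v' q''.
-/
import Pool.Agent.H40.IS.Lev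
import Pool.Agent.H40.IS.Mix

namespace Pool.Agent.H40.IS
open Cardinal Ordinal Set
universe u v w

variable {κ : Cardinal.{u}} {Q P : Type v} [Preorder Q] [Preorder P]

/-- invariants of the level maps: `t ∈ L a v q'` means: the image of the `n`-class of `a` is the `n`-class of `v` (least element),
with witness condition `q'` -/
structure Inv (F : FP κ Q P) (s : Q) (q : P) (A B : ℕ → Ordinal.{u} → Ordinal.{u} → Set Q)
    (H : Ordinal.{u} → Ordinal.{u} → Set P) (n : ℕ) (L : Ordinal.{u} → Ordinal.{u} → P → Set Q) : Prop where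
  lower : ∀ a v q', IsLowerSet (L a v q')
  pos : ∀ {t a v q'}, t ∈ L a v q' → t ∈ Po F s q B H n a v q' ∧ t ∈ Mn κ B n v v
  uniq : ∀ {t a v v' q' q''}, t ∈ L a v q' → t ∈ L a v' q'' → v = v' ∧ q' = q''
  tot : ∀ t ≤ s, ∀ a < κ.ord, ∃ t' ≤ t, ∃ v q', t' ∈ L a v q'
  cong : ∀ {t a a' v q'}, t ∈ sh κ A n a a' → t ∈ L a v q' → t ∈ L a' v q'
  inj : ∀ {t a a' v q' q''}, t ∈ L a v q' → t ∈ L a' v q'' → t ∈ sh κ A n a a'
  onto : ∀ t ≤ s, ∀ v < κ.ord, t ∈ Mn κ B n v v → ∃ t' ≤ t, ∃ a q', t' ∈ L a v q'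

theorem po_lower (F : FP κ Q P) {s : Q} {q : P} {B : ℕ → Ordinal.{u} → Ordinal.{u} → Set Q}
    {H : Ordinal.{u} → Ordinal.{u} → Set P} (n : ℕ) (u v : Ordinal.{u}) (q' : P) :
    IsLowerSet (Po F s q B H n u v q') := by
  rintro a b hba ⟨h1, h2, h3, h4, h5, h6⟩
  exact ⟨hba.trans h1, h2, h3, h4, hba.trans h5, fun r hr w hw =>
    h6 r (hr.trans (F.am_mono h5 hba le_rfl (hba.trans h5))) w hw⟩

theorem exists_Gs (hκ : κ.IsRegular) (hω : ℵ₀ < κ) (F : FP κ Q P) {s : Q} {q : P}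
    {A B : ℕ → Ordinal.{u} → Ordinal.{u} → Set Q}
    {H : Ordinal.{u} → Ordinal.{u} → Set P} (hs : s ≤ F.pr q) (hA : StrName κ s A) (hB : StrName κ s B)
    (hH : IsoName κ (F.am s q) (pull F A) (pull F B) H) :
    ∃ Gs : ℕ → Ordinal.{u} → Ordinal.{u} → P → (Ordinal.{u} → Ordinal.{u} → P → Set Q),
      ∀ n u v q', Match F (Po F s q B H n u v q') q' (Xs κ A n u) (Xs κ B n v) (fl F A B H n u v) (Gs n u v q') := by
  have h : ∀ (n : ℕ) (u v : Ordinal.{u}) (q' : P), ∃ G : Ordinal.{u} → Ordinal.{u} → P → Set Q,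
      Match F (Po F s q B H n u v q') q' (Xs κ A n u) (Xs κ B n v) (fl F A B H n u v) G :=
    fun n u v q' => pm_mix hκ hω F (po_lower F n u v q')
      (fun t ht => bij_level hω.le F hs hA hB hH n ht)
  choose Gs hGs using h
  exact ⟨Gs, hGs⟩

/-- the level maps -/
def Lv (s : Q) (q : P) (A : ℕ → Ordinal.{u} → Ordinal.{u} → Set Q) (κ : Cardinal.{u})
    (Gs : ℕ → Ordinal.{u} → Ordinal.{u} → P → (Ordinal.{u} → Ordinal.{u} → P → Set Q)) :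
    ℕ → Ordinal.{u} → Ordinal.{u} → P → Set Q
  | 0 => fun a v q' => {t | t ≤ s ∧ a < κ.ord ∧ v = 0 ∧ q' = q}
  | n + 1 => fun a v' q'' => {t | ∃ u v q' m, t ∈ Mn κ A n a u ∧ t ∈ Lv s q A κ Gs n u v q' ∧
      t ∈ Mn κ A (n + 1) a m ∧ t ∈ Gs n u v q' m v' q''}

section
variable (hκ : κ.IsRegular) (hω : ℵ₀ < κ) (F : FP κ Q P) {s : Q} {q : P}
    {A B : ℕ → Ordinal.{u} → Ordinal.{u} → Set Q}
    {H : Ordinal.{u} → Ordinal.{u} → Set P} (hs : s ≤ F.pr q) (hA : StrName κ s A) (hB : StrName κ s B)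
    (hH : IsoName κ (F.am s q) (pull F A) (pull F B) H)
    {Gs : ℕ → Ordinal.{u} → Ordinal.{u} → P → (Ordinal.{u} → Ordinal.{u} → P → Set Q)}
    (hG : ∀ n u v q', Match F (Po F s q B H n u v q') q' (Xs κ A n u) (Xs κ B n v) (fl F A B H n u v) (Gs n u v q'))
include hκ hω hs hA hB hH hG

theorem inv_zero : Inv F s q A B H 0 (Lv s q A κ Gs 0) := by
  have h0 : (0 : Ordinal.{u}) < κ.ord := by
    have := (Cardinal.isSuccLimit_ord hω.le).bot_lt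
    simpa using this
  refine ⟨?_, ?_, ?_, ?_, ?_, ?_, ?_⟩
  · rintro a v q' t t' htt ⟨h1, h2⟩
    exact ⟨htt.trans h1, h2⟩
  · rintro t a v q' ⟨h1, h2, rfl, rfl⟩
    refine ⟨⟨h1, h2, h0, le_rfl, h1.trans hs, fun r hr w hw => ?_⟩, ⟨⟨h0, h0⟩, fun w hw => ?_⟩⟩
    · exact ⟨(hH.dom r (hr.trans (F.am_mono hs h1 le_rfl (h1.trans hs))) a w hw).2, h0⟩
    · exact absurd hw not_lt_zero
  · rintro t a v v' q' q'' ⟨_, _, rfl, rfl⟩ ⟨_, _, rfl, rfl⟩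
    exact ⟨rfl, rfl⟩
  · intro t ht a ha
    exact ⟨t, le_rfl, 0, q, ht, ha, rfl, rfl⟩
  · rintro t a a' v q' ⟨_, h2⟩ ⟨h3, _, h5⟩
    exact ⟨h3, h2, h5⟩
  · rintro t a a' v q' q'' ⟨_, h2, _⟩ ⟨_, h4, _⟩
    exact ⟨h2, h4⟩
  · rintro t ht v hv ⟨h1, h2⟩
    have hv0 : v = 0 := by
      by_contra hne
      exact h2 0 (pos_iff_ne_zero.2 hne) t le_rfl ⟨hv, h0⟩
    exact ⟨t, le_rfl, 0, q, ht, h0, hv0, rfl⟩

theorem lv_dec {n : ℕ} (hn : Inv F s q A B H n (Lv s q A κ Gs n)) {t : Q} {a v' : Ordinal.{u}} {q'' : P}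
    (ht : t ∈ Lv s q A κ Gs (n + 1) a v' q'') :
    ∃ v q', t ∈ Lv s q A κ Gs n a v q' ∧ q'' ≤ q' ∧ t ∈ sh κ B n v v' := by
  obtain ⟨u, v, q', m, h1, h2, h3, h4⟩ := ht
  have hts : t ≤ s := (hn.pos h2).1.1
  obtain ⟨_, _, _, _, h5, h6, _, _⟩ := (hG n u v q').sound h4
  exact ⟨v, q', hn.cong (hA.sh_symm hts h1.1) h2, h6, h5.2⟩

theorem inv_succ {n : ℕ} (hn : Inv F s q A B H n (Lv s q A κ Gs n)) :
    Inv F s q A B H (n + 1) (Lv s q A κ Gs (n + 1)) := by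
  refine ⟨?_, ?_, ?_, ?_, ?_, ?_, ?_⟩
  · rintro a v' q'' t t' htt ⟨u, v, q', m, h1, h2, h3, h4⟩
    exact ⟨u, v, q', m, hA.Mn_lower n a u htt h1, hn.lower u v q' htt h2,
      hA.Mn_lower (n + 1) a m htt h3, (hG n u v q').lower m v' q'' htt h4⟩
  · rintro t a v' q'' ⟨u, v, q', m, h1, h2, h3, h4⟩
    obtain ⟨hp, _⟩ := hn.pos h2
    have hts : t ≤ s := hp.1
    have hq' : q' ≤ q := hp.2.2.2.1
    obtain ⟨_, hm, hv', hXA, hXB, h6, h7, h8⟩ := (hG n u v q').sound h4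
    refine ⟨⟨hts, (hA.sh_dom hts h1.1).1, hv', h6.trans hq', h7, fun r hr w hw => ?_⟩, hXB.1⟩
    refine (reg_pull F (hB.sh_reg (n + 1) w v')).2 r fun r1 hr1 => ?_
    obtain ⟨r2, hr2, w1, hw1, hw2⟩ := h8.2.2 r1 (hr1.trans hr)
    have hr2t : r2 ≤ F.am t q'' := hr2.trans (hr1.trans hr)
    have hr2s : r2 ≤ F.am s q := hr2t.trans (F.am_mono hs hts (h6.trans hq') h7)
    have hpt : F.pr r2 ≤ t := (F.of_le_am h7 hr2t).2
    have hps : F.pr r2 ≤ s := hpt.trans hts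
    have hwa : r2 ∈ H a w := hH.lower a w (hr2.trans hr1) hw
    have e1 : F.pr r2 ∈ sh κ A (n + 1) a m := (hA.sh_reg (n + 1) a m).1 hpt h3.1
    have e2 := (pres_sh F hH hr2s hwa hw1 (n + 1)).1 e1
    exact ⟨r2, hr2, hB.sh_trans hps e2 hw2⟩
  · rintro t a v' v1' q'' q1'' ⟨u, v, q', m, h1, h2, h3, h4⟩ ⟨u1, v1, q1', m1, g1, g2, g3, g4⟩
    obtain rfl := hA.Mn_uniq h1 g1
    obtain ⟨rfl, rfl⟩ := hn.uniq h2 g2
    obtain rfl := hA.Mn_uniq h3 g3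
    exact (hG n u v q').uniq h4 g4
  · intro t ht a ha
    obtain ⟨t1, ht1, u, h1⟩ := hA.Mn_ex F.distQ hω.le n ha ht
    obtain ⟨t2, ht2, m, h2⟩ := hA.Mn_ex F.distQ hω.le (n + 1) ha (ht1.trans ht)
    have ht2s : t2 ≤ s := ht2.trans (ht1.trans ht)
    have hu := (hA.sh_dom (ht1.trans ht) h1.1).2
    have hm := (hA.sh_dom ht2s h2.1).2
    obtain ⟨t3, ht3, v, q', h3⟩ := hn.tot t2 ht2s u hu
    have ht3s : t3 ≤ s := ht3.trans ht2s
    have h1' := hA.Mn_lower n a u (ht3.trans ht2) h1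
    have h2' := hA.Mn_lower (n + 1) a m ht3 h2
    have hX : t3 ∈ Xs κ A n u m := ⟨hA.Mn_self ht3s h2',
      hA.sh_trans ht3s (hA.sh_symm ht3s h1'.1) (hA.sh_refine ht3s h2'.1)⟩
    obtain ⟨t4, ht4, v', q'', h4⟩ := (hG n u v q').tot t3 (hn.pos h3).1 m hm hX
    exact ⟨t4, ht4.trans (ht3.trans (ht2.trans ht1)), v', q'', u, v, q', m,
      hA.Mn_lower n a u ht4 h1', hn.lower u v q' ht4 h3, hA.Mn_lower (n + 1) a m ht4 h2', h4⟩
  · rintro t a a' v' q'' ha ⟨u, v, q', m, h1, h2, h3, h4⟩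
    have hts : t ≤ s := (hn.pos h2).1.1
    exact ⟨u, v, q', m, hA.Mn_congr hts (hA.sh_refine hts ha) h1, h2, hA.Mn_congr hts ha h3, h4⟩
  · rintro t a a' v' q'' q1'' ⟨u, v, q', m, h1, h2, h3, h4⟩ ⟨u1, v1, q1', m1, g1, g2, g3, g4⟩
    have hts : t ≤ s := (hn.pos h2).1.1
    obtain ⟨_, _, _, _, h5, _⟩ := (hG n u v q').sound h4
    obtain ⟨_, _, _, _, g5, _⟩ := (hG n u1 v1 q1').sound g4
    have e1 : t ∈ sh κ B n v v1 := hB.sh_trans hts h5.2 (hB.sh_symm hts g5.2)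
    obtain rfl : v = v1 := hB.Mn_uniq (hB.Mn_congr hts e1 (hn.pos h2).2) (hn.pos g2).2
    have e2 : t ∈ sh κ A n u u1 := hn.inj h2 g2
    obtain rfl : u = u1 := hA.Mn_uniq (hA.Mn_congr hts e2 (hA.Mn_self hts h1)) (hA.Mn_self hts g1)
    obtain ⟨_, rfl⟩ := hn.uniq h2 g2
    obtain rfl := (hG n u v q').inj h4 g4
    exact hA.sh_trans hts h3.1 (hA.sh_symm hts g3.1)
  · intro t ht v' hv' hM
    obtain ⟨t1, ht1, v, h1⟩ := hB.Mn_ex F.distQ hω.le n hv' ht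
    have ht1s : t1 ≤ s := ht1.trans ht
    obtain ⟨t2, ht2, a0, q', h2⟩ := hn.onto t1 ht1s v (hB.sh_dom ht1s h1.1).2 (hB.Mn_self ht1s h1)
    have ht2s : t2 ≤ s := ht2.trans ht1s
    obtain ⟨t3, ht3, u, h3⟩ := hA.Mn_ex F.distQ hω.le n (hn.pos h2).1.2.1 ht2s
    have ht3s : t3 ≤ s := ht3.trans ht2s
    have h2' : t3 ∈ Lv s q A κ Gs n u v q' := hn.cong h3.1 (hn.lower a0 v q' ht3 h2)
    have hX : t3 ∈ Xs κ B n v v' := ⟨hB.Mn_lower (n + 1) v' v' (ht3.trans (ht2.trans ht1)) hM,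
      hB.sh_symm ht3s ((hB.sh_reg n v' v).1 (ht3.trans ht2) h1.1)⟩
    obtain ⟨t4, ht4, m, q'', h4⟩ := (hG n u v q').onto t3 (hn.pos h2').1 v' hv' hX
    have ht4s : t4 ≤ s := ht4.trans ht3s
    obtain ⟨_, hm, _, hXA, _⟩ := (hG n u v q').sound h4
    exact ⟨t4, ht4.trans (ht3.trans (ht2.trans ht1)), m, q'', u, v, q', m,
      hA.Mn_congr ht4s hXA.2 (hA.Mn_lower n u u ht4 (hA.Mn_self ht3s h3)),
      hn.lower u v q' ht4 h2', hXA.1, h4⟩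

theorem inv_all (n : ℕ) : Inv F s q A B H n (Lv s q A κ Gs n) := by
  induction n with
  | zero => exact inv_zero hκ hω F hs hA hB hH hG
  | succ n ih => exact inv_succ hκ hω F hs hA hB hH hG ih

end

end Pool.Agent.H40.IS
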