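/-
AB10 (Fin).  THE ABSOLUTENESS THEOREM (abstract form).  Needs Rec (statements only), Mix.  About 240 lines.
PROOF.  Gs from exists_Gs, L n := Lv ... n with Inv n (inv_all) and lv_dec.  For V : ℕ → Ordinal, W : ℕ → P let
 O V W := {t | t ≤ s ∧ ∃ a, ∀ n, t ∈ L n a (V n) (W n)} (lower), XX V W x := {t | ∀ n, t ∈ L n x (V n) (W n)}, YY V y := {t | ∀ n, t ∈ sh B n y (V n)},
 ff V W x y := {r | r ∈ H x y ∧ pr r ∈ XX V W x ∧ pr r ∈ YY V y}.
(1) t ∈ O V W: W is antitone: from lv_dec for L (n+1) a (V (n+1)) (W (n+1)) and uniq n: W (n+1) ≤ W n (antitone_nat_of_succ_le); W 0 = q (definition of Lv 0).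
(2) if W is antitone let Wω := the condition of F.ctb W.  Bij F t Wω (XX V W) (YY V) (ff V W) for t ∈ O V W:
 le: t ≤ pr (W n) for all n (pos, Po), so t ≤ pr Wω.  r ≤ am t Wω implies r ≤ am t (W n) for all n and r ≤ am s q (am_mono).
 dom: H.dom.  fn, inj: hH.  tot: pr r ∈ XX x: hH.tot: r' ≤ r, r' ∈ H x y; pr r' ∈ sh B n y (V n) by Po n x (V n) (W n) (pos at pr r': r' ≤ am (pr r') (W n) by le_am_pr); so r' ∈ ff.
 onto: pr r ∈ YY y: hH.onto: r1 ≤ r, r1 ∈ H x y; a an anchor of t; hH.tot: r2 ≤ r1, r2 ∈ H a w; pr r2 ∈ sh B n w (V n) (Po), sh B n y (V n), so w ~ y at level n, pres_sh: a ~ x at level n for all n; cong: pr r2 ∈ L n x (V n) (W n).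
(3) for each V, W choose G V W with Match F (O V W) Wω (XX V W) (YY V) (ff V W) (G V W) (pm_mix) if W is antitone; G V W = ∅ otherwise (then O V W = ∅).
H' x y := {t | ∃ V W q', t ∈ G V W x y q'}.
IsoName: lower, dom clear (sound).  fn: t ∈ XX V W x and t ∈ XX V' W' x give V = V', W = W' (uniq for all n), then uniq.
inj: t ∈ YY V y and YY V' y, V n and V' n are least representatives (pos: Mn B n (V n) (V n)) and equivalent: V = V' (Mn.congr, Mn.uniq);  t ∈ L n x (V n) (W n), t ∈ L n x' (V n) (W' n): x ~ x' at level n (inj n), cong and uniq: W = W';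
 then inj of G.
tot: t ≤ s, x < κ.ord: Dist.belowN for the open dense sets {t | ∃ v q', t ∈ L n x v q'}: t' with V, W (choose); t' ∈ O V W ∩ XX V W x; tot of G.
onto: y < κ.ord, t ≤ s: Dist.belowN: t1 decides for all n the least representative V n of y at level n (Mn.ex), then again: t2 decides for all n some a_n, W n with t2 ∈ L n (a_n) (V n) (W n) (onto n; Mn B n (V n) (V n) by Mn.self).
 W antitone: lv_dec for a_(n+1): L n a_(n+1) v' q', W (n+1) ≤ q', v' ~ V (n+1) at level n, V (n+1) ~ y ~ V n at level n (refine), both least: v' = V n; then a_(n+1) ~ a_n (inj n), cong, uniq: q' = W n.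
 W 0 = q.  t2 ≤ pr (W n), so t2 ≤ pr Wω.  r := am t2 Wω.  hH.onto: r1 ≤ r, r1 ∈ H x y.  For each n: hH.tot at a_n below r1: r2 ∈ H a_n w, w ~ V n ~ y so a_n ~ x at level n: densely below r1, pr _ ∈ sh A n (a_n) x; by regularity (reg_pull)
 pr r1 ∈ sh A n (a_n) x; cong: pr r1 ∈ L n x (V n) (W n) for all n.  So pr r1 ∈ O V W ∩ YY V y; onto of G at pr r1.
pres: t ∈ G V W x y q1, G V' W' x' y' q2.  For n: t ∈ A n x x' = sh A (n+1) x x': cong, uniq: V (n+1) = V' (n+1), so y ~ V (n+1) ~ y'.  Conversely y ~ y' at level n+1: V (n+1), V' (n+1) least and equivalent, so equal, inj (n+1): x ~ x'.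
-/
import Pool.Agent.H40.IS.Rec

namespace Pool.Agent.H40.IS
open Cardinal Ordinal Set
universe u v w

variable {κ : Cardinal.{u}} {Q P : Type v} [Preorder Q] [Preorder P]

private theorem fin_least {s : Q} {B : ℕ → Ordinal.{u} → Ordinal.{u} → Set Q} (hd : StrName κ s B)
    {n : ℕ} {v v' : Ordinal.{u}} {t : Q} (ht : t ≤ s)
    (h1 : t ∈ Mn κ B n v v) (h2 : t ∈ Mn κ B n v' v') (h3 : t ∈ sh κ B n v v') : v = v' :=
  hd.Mn_uniq (hd.Mn_congr ht h3 h1) h2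

/-- **Absoluteness of isomorphism of refining equivalence relations.** -/
theorem iso_down (hκ : κ.IsRegular) (hω : ℵ₀ < κ) (F : FP κ Q P) {s : Q} {q : P}
    {A B : ℕ → Ordinal.{u} → Ordinal.{u} → Set Q}
    {H : Ordinal.{u} → Ordinal.{u} → Set P} (hs : s ≤ F.pr q) (hA : StrName κ s A) (hB : StrName κ s B)
    (hH : IsoName κ (F.am s q) (pull F A) (pull F B) H) :
    ∃ H', IsoName κ s A B H' := by
  classical
  obtain ⟨Gs, hG⟩ := exists_Gs hκ hω F hs hA hB hH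
  have hI : ∀ n, Inv F s q A B H n (Lv s q A κ Gs n) := fun n => inv_all hκ hω F hs hA hB hH hG n
  have hdec : ∀ n {t : Q} {a v' : Ordinal.{u}} {q'' : P}, t ∈ Lv s q A κ Gs (n + 1) a v' q'' →
      ∃ v q', t ∈ Lv s q A κ Gs n a v q' ∧ q'' ≤ q' ∧ t ∈ sh κ B n v v' :=
    fun n {t a v' q''} ht => lv_dec hκ hω F hs hA hB hH hG (hI n) ht
  obtain ⟨L, hL⟩ : ∃ L : ℕ → Ordinal.{u} → Ordinal.{u} → P → Set Q, L = Lv s q A κ Gs := ⟨_, rfl⟩
  have h0 : ∀ {t a v q'}, t ∈ L 0 a v q' → q' = q := by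
    intro t a v q' ht
    rw [hL] at ht
    exact ht.2.2.2
  rw [← hL] at hI hdec
  clear hG hL
  -- basic facts on the level maps
  have hPo : ∀ {n t a v q'}, t ∈ L n a v q' → t ≤ s ∧ a < κ.ord ∧ v < κ.ord ∧ q' ≤ q ∧
      t ≤ F.pr q' ∧ ∀ r ≤ F.am t q', ∀ w, r ∈ H a w → F.pr r ∈ sh κ B n w v :=
    fun {n t a v q'} ht => ((hI n).pos ht).1
  have hMn : ∀ {n t a v q'}, t ∈ L n a v q' → t ∈ Mn κ B n v v :=
    fun {n t a v q'} ht => ((hI n).pos ht).2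
  have hlow : ∀ n x y, IsLowerSet (sh κ B n x y) := fun n x y => (hB.sh_reg n x y).1
  -- the sets
  obtain ⟨XX, hXX⟩ : ∃ XX : (ℕ → Ordinal.{u}) → (ℕ → P) → Ordinal.{u} → Set Q,
      ∀ V W x t, t ∈ XX V W x ↔ ∀ n, t ∈ L n x (V n) (W n) :=
    ⟨fun V W x => {t | ∀ n, t ∈ L n x (V n) (W n)}, fun _ _ _ _ => Iff.rfl⟩
  obtain ⟨YY, hYY⟩ : ∃ YY : (ℕ → Ordinal.{u}) → Ordinal.{u} → Set Q,
      ∀ V y t, t ∈ YY V y ↔ ∀ n, t ∈ sh κ B n y (V n) :=
    ⟨fun V y => {t | ∀ n, t ∈ sh κ B n y (V n)}, fun _ _ _ => Iff.rfl⟩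
  obtain ⟨O, hO⟩ : ∃ O : (ℕ → Ordinal.{u}) → (ℕ → P) → Set Q,
      ∀ V W t, t ∈ O V W ↔ t ≤ s ∧ ∃ a, ∀ n, t ∈ L n a (V n) (W n) :=
    ⟨fun V W => {t | t ≤ s ∧ ∃ a, ∀ n, t ∈ L n a (V n) (W n)}, fun _ _ _ => Iff.rfl⟩
  obtain ⟨ff, hff⟩ : ∃ ff : (ℕ → Ordinal.{u}) → (ℕ → P) → Ordinal.{u} → Ordinal.{u} → Set P,
      ∀ V W x y r, r ∈ ff V W x y ↔ r ∈ H x y ∧ F.pr r ∈ XX V W x ∧ F.pr r ∈ YY V y :=
    ⟨fun V W x y => {r | r ∈ H x y ∧ F.pr r ∈ XX V W x ∧ F.pr r ∈ YY V y},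
      fun _ _ _ _ _ => Iff.rfl⟩
  have hXlow : ∀ V W x, IsLowerSet (XX V W x) := by
    intro V W x t t' htt ht
    rw [hXX] at ht ⊢
    exact fun n => (hI n).lower _ _ _ htt (ht n)
  have hYlow : ∀ V y, IsLowerSet (YY V y) := by
    intro V y t t' htt ht
    rw [hYY] at ht ⊢
    exact fun n => hlow _ _ _ htt (ht n)
  have hOlow : ∀ V W, IsLowerSet (O V W) := by
    intro V W t t' htt ht
    rw [hO] at ht ⊢
    obtain ⟨hts, a, ha⟩ := ht
    exact ⟨htt.trans hts, a, fun n => (hI n).lower _ _ _ htt (ha n)⟩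
  -- countable lower bounds
  have hWo : ∀ W : ℕ → P, ∃ r, Antitone W →
      ((∀ n, r ≤ W n) ∧ ∀ t, (∀ n, t ≤ F.pr (W n)) → t ≤ F.pr r) := by
    intro W
    by_cases hW : Antitone W
    · obtain ⟨r, hr⟩ := F.ctb W hW
      exact ⟨r, fun _ => hr⟩
    · exact ⟨q, fun h => absurd h hW⟩
  choose Wo hWo using hWo
  -- (1)
  have hanti : ∀ {V : ℕ → Ordinal.{u}} {W : ℕ → P} {t : Q} {a : Ordinal.{u}},
      (∀ n, t ∈ L n a (V n) (W n)) → Antitone W ∧ W 0 = q := by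
    intro V W t a ha
    refine ⟨antitone_nat_of_succ_le fun n => ?_, h0 (ha 0)⟩
    obtain ⟨v, q', h1, h2, -⟩ := hdec n (ha (n + 1))
    obtain ⟨-, e⟩ := (hI n).uniq (ha n) h1
    rw [e]
    exact h2
  -- the tools for a decreasing sequence of witnesses
  have hbase : ∀ {W : ℕ → P} {t : Q}, Antitone W → W 0 = q → t ≤ s →
      (∀ n, t ≤ F.pr (W n)) → t ≤ F.pr (Wo W) ∧ F.am t (Wo W) ≤ F.am s q ∧
        (∀ r ≤ F.am t (Wo W), F.pr r ≤ t ∧ ∀ n, r ≤ W n) := by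
    intro W t hW hW0 hts htW
    obtain ⟨h1, h2⟩ := hWo W hW
    have h3 : t ≤ F.pr (Wo W) := h2 t htW
    have h4 : Wo W ≤ q := by
      rw [← hW0]
      exact h1 0
    refine ⟨h3, F.am_mono hs hts h4 h3, fun r hr => ?_⟩
    obtain ⟨h5, h6⟩ := F.of_le_am h3 hr
    exact ⟨h6, fun n => h5.trans (h1 n)⟩
  -- (2)
  have hBij : ∀ V W, ∀ t ∈ O V W, Bij F t (Wo W) (XX V W) (YY V) (ff V W) := by
    intro V W t ht
    rw [hO] at ht
    obtain ⟨hts, a, ha⟩ := ht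
    obtain ⟨hW, hW0⟩ := hanti ha
    have htW : ∀ n, t ≤ F.pr (W n) := fun n => (hPo (ha n)).2.2.2.2.1
    obtain ⟨b1, b2, b3⟩ := hbase hW hW0 hts htW
    refine ⟨b1, hXlow V W, hYlow V, ?_, ?_, ?_, ?_, ?_, ?_⟩
    · intro x y r r' hrr hr
      rw [hff] at hr ⊢
      exact ⟨hH.lower x y hrr hr.1, hXlow V W x (F.pr_mono hrr) hr.2.1,
        hYlow V y (F.pr_mono hrr) hr.2.2⟩
    · intro r hr x y hxy
      rw [hff] at hxy
      obtain ⟨d1, d2⟩ := hH.dom r (hr.trans b2) x y hxy.1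
      exact ⟨d1, d2, hxy.2.1, hxy.2.2⟩
    · intro r hr x y y' h1 h2
      rw [hff] at h1 h2
      exact hH.fn r (hr.trans b2) x y y' h1.1 h2.1
    · intro r hr x x' y h1 h2
      rw [hff] at h1 h2
      exact hH.inj r (hr.trans b2) x x' y h1.1 h2.1
    · intro r hr x hx hrx
      obtain ⟨r', hr', y, hy⟩ := hH.tot r (hr.trans b2) x hx
      refine ⟨r', hr', y, ?_⟩
      have hX' : F.pr r' ∈ XX V W x := hXlow V W x (F.pr_mono hr') hrx
      rw [hff]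
      refine ⟨hy, hX', ?_⟩
      rw [hYY]
      rw [hXX] at hX'
      intro n
      exact (hPo (hX' n)).2.2.2.2.2 r' (F.le_am_pr ((b3 r' (hr'.trans hr)).2 n)) y hy
    · intro r hr y hy hry
      obtain ⟨r1, hr1, x, hx⟩ := hH.onto r (hr.trans b2) y hy
      have haκ : a < κ.ord := (hPo (ha 0)).2.1
      obtain ⟨r2, hr2, w, hw⟩ := hH.tot r1 ((hr1.trans hr).trans b2) a haκ
      have hr2t : r2 ≤ F.am t (Wo W) := hr2.trans (hr1.trans hr)
      have hxy2 : r2 ∈ H x y := hH.lower x y hr2 hx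
      obtain ⟨c1, c2⟩ := b3 r2 hr2t
      have hps : F.pr r2 ≤ s := c1.trans hts
      have haL : ∀ n, F.pr r2 ∈ L n a (V n) (W n) := fun n => (hI n).lower _ _ _ c1 (ha n)
      have hYr : F.pr r2 ∈ YY V y := hYlow V y (F.pr_mono (hr2.trans hr1)) hry
      have hY2 := hYr
      rw [hYY] at hY2
      refine ⟨r2, hr2.trans hr1, x, ?_⟩
      rw [hff]
      refine ⟨hxy2, ?_, hYr⟩
      rw [hXX]
      intro n
      have e1 : F.pr r2 ∈ sh κ B n w (V n) :=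
        (hPo (haL n)).2.2.2.2.2 r2 (F.le_am_pr (c2 n)) w hw
      have e2 : F.pr r2 ∈ sh κ B n w y := hB.sh_trans hps e1 (hB.sh_symm hps (hY2 n))
      have e3 : F.pr r2 ∈ sh κ A n a x :=
        (pres_sh F hH (hr2t.trans b2) hw hxy2 n).mpr e2
      exact (hI n).cong e3 (haL n)
  -- (3)
  have hG' : ∀ V W, ∃ G, Match F (O V W) (Wo W) (XX V W) (YY V) (ff V W) G :=
    fun V W => pm_mix hκ hω F (hOlow V W) (hBij V W)
  choose G hGm using hG'
  refine ⟨fun x y => {t | ∃ V W q', t ∈ G V W x y q'}, ?_, ?_, ?_, ?_, ?_, ?_, ?_⟩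
  · rintro x y t t' htt ⟨V, W, q', ht⟩
    exact ⟨V, W, q', (hGm V W).lower x y q' htt ht⟩
  · rintro t - x y ⟨V, W, q', ht⟩
    obtain ⟨-, d1, d2, -⟩ := (hGm V W).sound ht
    exact ⟨d1, d2⟩
  · rintro t - x y y' ⟨V, W, q', ht⟩ ⟨V', W', q'', ht'⟩
    obtain ⟨-, -, -, dX, -⟩ := (hGm V W).sound ht
    obtain ⟨-, -, -, dX', -⟩ := (hGm V' W').sound ht'
    rw [hXX] at dX dX'
    have hV : V = V' := funext fun n => ((hI n).uniq (dX n) (dX' n)).1
    have hW : W = W' := funext fun n => ((hI n).uniq (dX n) (dX' n)).2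
    subst hV
    subst hW
    exact ((hGm V W).uniq ht ht').1
  · rintro t hts x x' y ⟨V, W, q', ht⟩ ⟨V', W', q'', ht'⟩
    obtain ⟨-, -, -, dX, dY, -⟩ := (hGm V W).sound ht
    obtain ⟨-, -, -, dX', dY', -⟩ := (hGm V' W').sound ht'
    rw [hXX] at dX dX'
    rw [hYY] at dY dY'
    have hV : V = V' := funext fun n =>
      fin_least hB hts (hMn (dX n)) (hMn (dX' n)) (hB.sh_trans hts (hB.sh_symm hts (dY n)) (dY' n))
    subst hV
    have hW : W = W' := funext fun n => by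
      have e1 : t ∈ sh κ A n x x' := (hI n).inj (dX n) (dX' n)
      exact ((hI n).uniq ((hI n).cong e1 (dX n)) (dX' n)).2
    subst hW
    exact (hGm V W).inj ht ht'
  · intro t hts x hx
    obtain ⟨t', ht', hD⟩ := F.distQ.belowN hω s (fun n => {t | ∃ v q', t ∈ L n x v q'})
      (fun n => ⟨fun a b hab ⟨v, q', h⟩ => ⟨v, q', (hI n).lower _ _ _ hab h⟩,
        fun t ht => (hI n).tot t ht x hx⟩) t hts
    choose V W hVW using hD
    have hts' : t' ≤ s := ht'.trans hts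
    obtain ⟨t'', ht'', y, q', hy⟩ := (hGm V W).tot t' ((hO V W t').mpr ⟨hts', x, hVW⟩) x hx
      ((hXX V W x t').mpr hVW)
    exact ⟨t'', ht''.trans ht', y, V, W, q', hy⟩
  · intro t hts y hy
    obtain ⟨t1, ht1, hD1⟩ := F.distQ.belowN hω s (fun n => {t | ∃ v, t ∈ Mn κ B n y v})
      (fun n => ⟨fun a b hab ⟨v, h⟩ => ⟨v, hB.Mn_lower n y v hab h⟩,
        fun t ht => hB.Mn_ex F.distQ hω.le n hy ht⟩) t hts
    choose V hV using hD1
    have ht1s : t1 ≤ s := ht1.trans hts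
    have hVs : ∀ n, t1 ∈ Mn κ B n (V n) (V n) := fun n => hB.Mn_self ht1s (hV n)
    have hVy : ∀ n, t1 ∈ sh κ B n y (V n) := fun n => (hV n).1
    have hVκ : ∀ n, V n < κ.ord := fun n => (hB.sh_dom ht1s (hVy n)).2
    obtain ⟨t2, ht2, hD2⟩ := F.distQ.belowN hω t1 (fun n => {t | ∃ a q', t ∈ L n a (V n) q'})
      (fun n => ⟨fun a b hab ⟨v, q', h⟩ => ⟨v, q', (hI n).lower _ _ _ hab h⟩,
        fun t ht => (hI n).onto t (ht.trans ht1s) (V n) (hVκ n) (hB.Mn_lower n _ _ ht (hVs n))⟩)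
      t1 le_rfl
    choose an W hW using hD2
    have ht2s : t2 ≤ s := ht2.trans ht1s
    have hWanti : Antitone W := by
      refine antitone_nat_of_succ_le fun n => ?_
      obtain ⟨v', q', g1, g2, g3⟩ := hdec n (hW (n + 1))
      have k1 : t2 ∈ sh κ B n y (V (n + 1)) := hB.sh_refine ht2s (hlow _ _ _ ht2 (hVy (n + 1)))
      have k2 : t2 ∈ sh κ B n v' (V n) :=
        hB.sh_trans ht2s g3 (hB.sh_trans ht2s (hB.sh_symm ht2s k1) (hlow _ _ _ ht2 (hVy n)))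
      have k3 : v' = V n := fin_least hB ht2s (hMn g1) (hMn (hW n)) k2
      subst k3
      have k4 : t2 ∈ sh κ A n (an (n + 1)) (an n) := (hI n).inj g1 (hW n)
      have k5 : q' = W n := ((hI n).uniq ((hI n).cong k4 g1) (hW n)).2
      rw [← k5]
      exact g2
    have hW0 : W 0 = q := h0 (hW 0)
    obtain ⟨b1, b2, b3⟩ := hbase hWanti hW0 ht2s
      (fun n => (hPo (hW n)).2.2.2.2.1)
    obtain ⟨r1, hr1, x, hx⟩ := hH.onto (F.am t2 (Wo W)) b2 y hy
    have hL1 : ∀ n, F.pr r1 ∈ L n x (V n) (W n) := by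
      intro n
      have hreg : Reg {r : P | F.pr r ∈ sh κ A n (an n) x} := reg_pull F (hA.sh_reg n (an n) x)
      have e0 : r1 ∈ {r : P | F.pr r ∈ sh κ A n (an n) x} := by
        refine hreg.2 r1 fun r' hr' => ?_
        have hanκ : an n < κ.ord := (hPo (hW n)).2.1
        obtain ⟨r2, hr2, w, hw⟩ := hH.tot r' ((hr'.trans hr1).trans b2) (an n) hanκ
        have hr2t : r2 ≤ F.am t2 (Wo W) := hr2.trans (hr'.trans hr1)
        obtain ⟨c1, c2⟩ := b3 r2 hr2t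
        have hps : F.pr r2 ≤ s := c1.trans ht2s
        have hLn : F.pr r2 ∈ L n (an n) (V n) (W n) := (hI n).lower _ _ _ c1 (hW n)
        have e1 : F.pr r2 ∈ sh κ B n w (V n) :=
          (hPo hLn).2.2.2.2.2 r2 (F.le_am_pr (c2 n)) w hw
        have e2 : F.pr r2 ∈ sh κ B n y (V n) := hlow _ _ _ (c1.trans ht2) (hVy n)
        have e3 : F.pr r2 ∈ sh κ B n w y := hB.sh_trans hps e1 (hB.sh_symm hps e2)
        refine ⟨r2, hr2, ?_⟩
        exact (pres_sh F hH (hr2t.trans b2) hw (hH.lower x y (hr2.trans hr') hx) n).mpr e3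
      have c1 := (b3 r1 hr1).1
      exact (hI n).cong e0 ((hI n).lower _ _ _ c1 (hW n))
    have c1 := (b3 r1 hr1).1
    have hO1 : F.pr r1 ∈ O V W := (hO V W _).mpr ⟨c1.trans ht2s, x, hL1⟩
    have hY1 : F.pr r1 ∈ YY V y := (hYY V y _).mpr fun n => hlow _ _ _ (c1.trans ht2) (hVy n)
    obtain ⟨t', ht', x', q', hx'⟩ := (hGm V W).onto (F.pr r1) hO1 y hy hY1
    exact ⟨t', ht'.trans (c1.trans (ht2.trans ht1)), x', V, W, q', hx'⟩
  · rintro t hts x y x' y' ⟨V, W, q', ht⟩ ⟨V', W', q'', ht'⟩ n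
    obtain ⟨-, -, -, dX, dY, -⟩ := (hGm V W).sound ht
    obtain ⟨-, -, -, dX', dY', -⟩ := (hGm V' W').sound ht'
    rw [hXX] at dX dX'
    rw [hYY] at dY dY'
    constructor
    · intro h
      have h' : t ∈ sh κ A (n + 1) x x' := h
      have e1 : V (n + 1) = V' (n + 1) :=
        ((hI (n + 1)).uniq ((hI (n + 1)).cong h' (dX (n + 1))) (dX' (n + 1))).1
      have e2 : t ∈ sh κ B (n + 1) y y' := by
        refine hB.sh_trans hts (dY (n + 1)) ?_
        rw [e1]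
        exact hB.sh_symm hts (dY' (n + 1))
      exact e2
    · intro h
      have h' : t ∈ sh κ B (n + 1) y y' := h
      have e0 : t ∈ sh κ B (n + 1) (V (n + 1)) (V' (n + 1)) :=
        hB.sh_trans hts (hB.sh_symm hts (dY (n + 1))) (hB.sh_trans hts h' (dY' (n + 1)))
      have e1 : V (n + 1) = V' (n + 1) :=
        fin_least hB hts (hMn (dX (n + 1))) (hMn (dX' (n + 1))) e0
      have e2 : t ∈ L (n + 1) x' (V (n + 1)) (W' (n + 1)) := by
        rw [e1]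
        exact dX' (n + 1)
      have e3 : t ∈ sh κ A (n + 1) x x' := (hI (n + 1)).inj (dX (n + 1)) e2
      exact e3

end Pool.Agent.H40.IS
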