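/-
K6 (KUb).  Lower bounds of descending chains: the union AU.  Imports KPV only.  About 250 lines.
AU g t μ q Fs hs: below g it is t; height and b are those of t; at a coordinate j ≥ g in the union of the supports the data is the union
of the data of the q ξ (ξ < μ), plus the new elements Fs j of F, and the new h is hs j.
PROOF of AU_mem.  Base: ht, b, nb from t; nd: t.supp ⊆ Iio g and t.d j = default for j < g, j ∉ t.supp; sm: t.supp and a union of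
fewer than κ small sets (Sm.bUnion over Iio μ, sm_Iio); h: hs2 (and t's for j < g).
DatOK at j ≥ g: for two elements of the union take the larger index (q antitone: data increasing, supports increasing).
 len: y.len ≤ h_ξ ≤ hs j.  bdd: choose bounds γ_ξ < κ.ord for ξ < μ with j ∈ supp, take a common bound (Sm.bdd with Iio μ) and the
 bound of Fs j.  dis: (x,y) ∈ pi_ξ and y ∈ F_η: take max; y ∈ Fs j: hF.  sl: ε ≤ hs j: if ε ≤ h_ξ for some ξ < μ with j ∈ supp: the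
 seal of q ξ, with (q ξ).b ε = t.b ε since ε ≤ h_ξ ≤ (q ξ).ht and t ≤ (q ξ).res g; otherwise hsl.
Conditions at j ≥ g: for ξ < μ with j ∈ (q ξ).supp, (AU).res j ≤ (q ξ).res j ≤ (D j).c, FrT_mono; for j < g: (AU).res j = t.res j.
AU ≤ q ξ: for j < g use t ≤ (q ξ).res g.  (AU).res g = t as in am_rres.
-/
import Pool.Agent.H40.IS.KPV

namespace Pool.Agent.H40.IS
open Cardinal Ordinal Set
universe u
variable {κ : Cardinal.{u}} {D : Ordinal.{u} → Tri.{u}}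

open Classical in
/-- union of a chain above `g`, with `t` below `g` -/
noncomputable def AU (g : Ordinal.{u}) (t : Raw.{u}) (μ : Ordinal.{u}) (q : Ordinal.{u} → Raw.{u})
    (Fs : Ordinal.{u} → Set So.{u}) (hs : Ordinal.{u} → Ordinal.{u}) : Raw.{u} :=
  ⟨t.ht, t.b, t.supp ∪ {j | g ≤ j ∧ ∃ ξ < μ, j ∈ (q ξ).supp},
   fun j => if j < g then t.d j else if ∃ ξ < μ, j ∈ (q ξ).supp then
     ⟨{z | ∃ ξ < μ, j ∈ (q ξ).supp ∧ z ∈ ((q ξ).d j).pi},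
      {f | ∃ ξ < μ, j ∈ (q ξ).supp ∧ f ∈ ((q ξ).d j).F} ∪ Fs j, hs j⟩ else default⟩

private theorem AU_mem_supp {g μ j : Ordinal.{u}} {t : Raw.{u}} {q : Ordinal.{u} → Raw.{u}}
    {Fs : Ordinal.{u} → Set So.{u}} {hs : Ordinal.{u} → Ordinal.{u}} :
    j ∈ (AU g t μ q Fs hs).supp ↔ j ∈ t.supp ∨ (g ≤ j ∧ ∃ ξ < μ, j ∈ (q ξ).supp) := Iff.rfl

private theorem AU_d_lt {g μ j : Ordinal.{u}} {t : Raw.{u}} {q : Ordinal.{u} → Raw.{u}}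
    {Fs : Ordinal.{u} → Set So.{u}} {hs : Ordinal.{u} → Ordinal.{u}} (h : j < g) :
    (AU g t μ q Fs hs).d j = t.d j := by
  unfold AU
  exact if_pos h

private theorem AU_d_ge {g μ j : Ordinal.{u}} {t : Raw.{u}} {q : Ordinal.{u} → Raw.{u}}
    {Fs : Ordinal.{u} → Set So.{u}} {hs : Ordinal.{u} → Ordinal.{u}} (h : g ≤ j)
    (hex : ∃ ξ < μ, j ∈ (q ξ).supp) :
    (AU g t μ q Fs hs).d j = ⟨{z | ∃ ξ < μ, j ∈ (q ξ).supp ∧ z ∈ ((q ξ).d j).pi},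
      {f | ∃ ξ < μ, j ∈ (q ξ).supp ∧ f ∈ ((q ξ).d j).F} ∪ Fs j, hs j⟩ := by
  unfold AU
  simp only
  rw [if_neg (not_lt.2 h), if_pos hex]

private theorem AU_d_ge' {g μ j : Ordinal.{u}} {t : Raw.{u}} {q : Ordinal.{u} → Raw.{u}}
    {Fs : Ordinal.{u} → Set So.{u}} {hs : Ordinal.{u} → Ordinal.{u}} (h : g ≤ j)
    (hex : ¬ ∃ ξ < μ, j ∈ (q ξ).supp) :
    (AU g t μ q Fs hs).d j = default := by
  unfold AU
  simp only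
  rw [if_neg (not_lt.2 h), if_neg hex]

private theorem AU_le' {g μ : Ordinal.{u}} {t : Raw.{u}} {q : Ordinal.{u} → Raw.{u}}
    {Fs : Ordinal.{u} → Set So.{u}} {hs : Ordinal.{u} → Ordinal.{u}}
    (htq : ∀ ξ < μ, t ≤ (q ξ).res g)
    (hs1 : ∀ j, g ≤ j → ∀ ξ < μ, j ∈ (q ξ).supp → ((q ξ).d j).h ≤ hs j) :
    ∀ ξ < μ, AU g t μ q Fs hs ≤ q ξ := by
  intro ξ hξ
  obtain ⟨h1, h2, h3, h4⟩ := le_def.1 (htq ξ hξ)
  refine le_def.2 ⟨h1, h2, ?_, ?_⟩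
  · intro j hj
    rw [AU_mem_supp]
    rcases lt_or_ge j g with hjg | hjg
    · exact Or.inl (h3 (mem_res_supp.2 ⟨hj, hjg⟩))
    · exact Or.inr ⟨hjg, ξ, hξ, hj⟩
  · intro j hj
    rcases lt_or_ge j g with hjg | hjg
    · have h5 := h4 j (mem_res_supp.2 ⟨hj, hjg⟩)
      rw [res_d_lt hjg] at h5
      rw [AU_d_lt hjg]
      exact h5
    · rw [AU_d_ge hjg ⟨ξ, hξ, hj⟩]
      refine ⟨fun z hz => ⟨ξ, hξ, hj, hz⟩, fun f hf => Or.inl ⟨ξ, hξ, hj, hf⟩, hs1 j hjg ξ hξ hj⟩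

private theorem AU_res_lt {g μ j : Ordinal.{u}} {t : Raw.{u}} {q : Ordinal.{u} → Raw.{u}}
    {Fs : Ordinal.{u} → Set So.{u}} {hs : Ordinal.{u} → Ordinal.{u}} (h : j < g) :
    (AU g t μ q Fs hs).res j = t.res j := by
  refine Raw.ext rfl rfl ?_ ?_
  · ext i
    rw [mem_res_supp, mem_res_supp, AU_mem_supp]
    constructor
    · rintro ⟨h1 | h1, h2⟩
      · exact ⟨h1, h2⟩
      · exact absurd (h2.trans h) (not_lt.2 h1.1)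
    · rintro ⟨h1, h2⟩
      exact ⟨Or.inl h1, h2⟩
  · funext i
    rcases lt_or_ge i j with h1 | h1
    · rw [res_d_lt h1, res_d_lt h1, AU_d_lt (h1.trans h)]
    · rw [res_d_ge h1, res_d_ge h1]

private theorem AU_ok (hκ : κ.IsInaccessible) {g μ : Ordinal.{u}} {t : Raw.{u}}
    {q : Ordinal.{u} → Raw.{u}}
    {Fs : Ordinal.{u} → Set So.{u}} {hs : Ordinal.{u} → Ordinal.{u}}
    (hμ : μ < κ.ord) (hq : ∀ ξ < μ, q ξ ∈ PV κ D)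
    (hanti : ∀ ξ η, ξ ≤ η → η < μ → q η ≤ q ξ) (htq : ∀ ξ < μ, t ≤ (q ξ).res g)
    (hs1 : ∀ j, g ≤ j → ∀ ξ < μ, j ∈ (q ξ).supp → ((q ξ).d j).h ≤ hs j)
    (hF : ∀ j, g ≤ j → (∃ ξ < μ, j ∈ (q ξ).supp) → ∃ γ < κ.ord, ∀ f ∈ Fs j,
      In γ f ∧ (∃ a, f.len = a + 1) ∧ ∀ ξ < μ, j ∈ (q ξ).supp → ∀ x, (x, f) ∉ ((q ξ).d j).pi)
    (hsl : ∀ j, g ≤ j → (∃ ξ < μ, j ∈ (q ξ).supp) → ∀ ε, IsS ε → ε ≤ hs j →
      (∀ ξ < μ, j ∈ (q ξ).supp → ((q ξ).d j).h < ε) →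
      ∃ a < ε, (t.b ε).res a ∈ Fs j ∨ ∃ ξ < μ, j ∈ (q ξ).supp ∧ (t.b ε).res a ∈ ((q ξ).d j).F)
    {j : Ordinal.{u}} (hj : g ≤ j) (hex : ∃ ξ < μ, j ∈ (q ξ).supp) :
    DatOK κ t.b ⟨{z | ∃ ξ < μ, j ∈ (q ξ).supp ∧ z ∈ ((q ξ).d j).pi},
      {f | ∃ ξ < μ, j ∈ (q ξ).supp ∧ f ∈ ((q ξ).d j).F} ∪ Fs j, hs j⟩ := by
  classical
  have hok : ∀ ξ < μ, j ∈ (q ξ).supp → DatOK κ (q ξ).b ((q ξ).d j) := fun ξ hξ h =>
    (hq ξ hξ).1.ok j h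
  have hup : ∀ ξ η, ξ ≤ η → η < μ → j ∈ (q ξ).supp → j ∈ (q η).supp ∧
      ((q ξ).d j).pi ⊆ ((q η).d j).pi ∧ ((q ξ).d j).F ⊆ ((q η).d j).F := by
    intro ξ η h1 h2 h3
    have h4 := le_def.1 (hanti ξ η h1 h2)
    exact ⟨h4.2.2.1 h3, (h4.2.2.2 j h3).1, (h4.2.2.2 j h3).2.1⟩
  obtain ⟨γ0, hγ0, hF0⟩ := hF j hj hex
  constructor
  · rintro x y x' y' ⟨ξ, hξ, h1, h2⟩ ⟨η, hη, h3, h4⟩
    have hζ : max ξ η < μ := max_lt hξ hη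
    obtain ⟨a1, a2, -⟩ := hup ξ _ (le_max_left ξ η) hζ h1
    obtain ⟨-, b2, -⟩ := hup η _ (le_max_right ξ η) hζ h3
    exact (hok _ hζ a1).inj x y x' y' (a2 h2) (b2 h4)
  · rintro x y ⟨ξ, hξ, h1, h2⟩
    have h3 := (hok ξ hξ h1).len x y h2
    exact ⟨h3.1, h3.2.trans (hs1 j hj ξ hξ h1)⟩
  · rintro x y a ⟨ξ, hξ, h1, h2⟩
    exact ⟨ξ, hξ, h1, (hok ξ hξ h1).cl x y a h2⟩
  · have hb : ∀ ξ : Ordinal.{u}, ∃ γ < κ.ord, (ξ < μ → j ∈ (q ξ).supp →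
        (∀ x y, (x, y) ∈ ((q ξ).d j).pi → In γ x ∧ In γ y) ∧ ∀ f ∈ ((q ξ).d j).F, In γ f) := by
      intro ξ
      by_cases h : ξ < μ ∧ j ∈ (q ξ).supp
      · obtain ⟨γ, hγ, h2⟩ := (hok ξ h.1 h.2).bdd
        exact ⟨γ, hγ, fun _ _ => h2⟩
      · exact ⟨0, kord_pos hκ, fun h1 h2 => absurd ⟨h1, h2⟩ h⟩
    choose γf hγf hγf2 using hb
    obtain ⟨γ1, hγ1, h1⟩ := (sm_Iio hμ).bdd hκ γf (fun ξ _ => hγf ξ)
    refine ⟨max γ0 γ1, max_lt hγ0 hγ1, ?_, ?_⟩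
    · rintro x y ⟨ξ, hξ, h2, h3⟩
      have h4 := (hγf2 ξ hξ h2).1 x y h3
      have h5 : γf ξ ≤ max γ0 γ1 := (h1 ξ hξ).le.trans (le_max_right _ _)
      exact ⟨In_mono h5 h4.1, In_mono h5 h4.2⟩
    · rintro f (⟨ξ, hξ, h2, h3⟩ | hf)
      · exact In_mono ((h1 ξ hξ).le.trans (le_max_right _ _)) ((hγf2 ξ hξ h2).2 f h3)
      · exact In_mono (le_max_left _ _) (hF0 f hf).1
  · rintro f (⟨ξ, hξ, h2, h3⟩ | hf)
    · exact (hok ξ hξ h2).suc f h3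
    · exact (hF0 f hf).2.1
  · rintro x y ⟨ξ, hξ, h1, h2⟩ (⟨η, hη, h3, h4⟩ | hf)
    · have hζ : max ξ η < μ := max_lt hξ hη
      obtain ⟨a1, a2, -⟩ := hup ξ _ (le_max_left ξ η) hζ h1
      obtain ⟨-, -, b2⟩ := hup η _ (le_max_right ξ η) hζ h3
      exact (hok _ hζ a1).dis x y (a2 h2) (b2 h4)
    · exact (hF0 y hf).2.2 ξ hξ h1 x h2
  · intro ε hε hεh
    by_cases h : ∃ ξ < μ, j ∈ (q ξ).supp ∧ ε ≤ ((q ξ).d j).h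
    · obtain ⟨ξ, hξ, h1, h2⟩ := h
      obtain ⟨a, ha, h3⟩ := (hok ξ hξ h1).sl ε hε h2
      refine ⟨a, ha, Or.inl ⟨ξ, hξ, h1, ?_⟩⟩
      rw [(le_def.1 (htq ξ hξ)).2.1 ε hε (h2.trans ((hq ξ hξ).1.h j h1))]
      exact h3
    · push Not at h
      obtain ⟨a, ha, h1⟩ := hsl j hj hex ε hε hεh h
      refine ⟨a, ha, ?_⟩
      rcases h1 with h1 | h1
      · exact Or.inr h1
      · exact Or.inl h1

theorem AU_mem (hκ : κ.IsInaccessible) {g μ : Ordinal.{u}} {t : Raw.{u}} {q : Ordinal.{u} → Raw.{u}}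
    {Fs : Ordinal.{u} → Set So.{u}} {hs : Ordinal.{u} → Ordinal.{u}}
    (ht : t ∈ PP κ D g) (hμ0 : 0 < μ) (hμ : μ < κ.ord) (hq : ∀ ξ < μ, q ξ ∈ PV κ D)
    (hanti : ∀ ξ η, ξ ≤ η → η < μ → q η ≤ q ξ) (htq : ∀ ξ < μ, t ≤ (q ξ).res g)
    (hs1 : ∀ j, g ≤ j → ∀ ξ < μ, j ∈ (q ξ).supp → ((q ξ).d j).h ≤ hs j)
    (hs2 : ∀ j, g ≤ j → (∃ ξ < μ, j ∈ (q ξ).supp) → hs j ≤ t.ht)
    (hF : ∀ j, g ≤ j → (∃ ξ < μ, j ∈ (q ξ).supp) → ∃ γ < κ.ord, ∀ f ∈ Fs j,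
      In γ f ∧ (∃ a, f.len = a + 1) ∧ ∀ ξ < μ, j ∈ (q ξ).supp → ∀ x, (x, f) ∉ ((q ξ).d j).pi)
    (hsl : ∀ j, g ≤ j → (∃ ξ < μ, j ∈ (q ξ).supp) → ∀ ε, IsS ε → ε ≤ hs j →
      (∀ ξ < μ, j ∈ (q ξ).supp → ((q ξ).d j).h < ε) →
      ∃ a < ε, (t.b ε).res a ∈ Fs j ∨ ∃ ξ < μ, j ∈ (q ξ).supp ∧ (t.b ε).res a ∈ ((q ξ).d j).F) :
    AU g t μ q Fs hs ∈ PV κ D := by
  obtain ⟨htV, htg⟩ := mem_PP.1 ht
  have hB : Base κ t := htV.1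
  have hle := AU_le' (Fs := Fs) htq hs1
  have hcase : ∀ j ∈ (AU g t μ q Fs hs).supp, (j < g ∧ j ∈ t.supp) ∨
      (g ≤ j ∧ ∃ ξ < μ, j ∈ (q ξ).supp) := by
    intro j hj
    rcases AU_mem_supp.1 hj with h | h
    · exact Or.inl ⟨htg h, h⟩
    · exact Or.inr h
  refine ⟨⟨hB.ht, hB.b, hB.nb, ?_, ?_, ?_, ?_⟩, ?_⟩
  · intro j hj
    rw [AU_mem_supp, not_or] at hj
    rcases lt_or_ge j g with hjg | hjg
    · rw [AU_d_lt hjg]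
      exact hB.nd j hj.1
    · exact AU_d_ge' hjg fun h => hj.2 ⟨hjg, h⟩
  · refine Sm.mono (Sm.union hκ hB.sm (Sm.bUnion hκ (sm_Iio hμ)
      (fun ξ hξ => (hq ξ hξ).1.sm))) ?_
    intro j hj
    rcases AU_mem_supp.1 hj with h | ⟨_, ξ, hξ, h⟩
    · exact Or.inl h
    · exact Or.inr (Set.mem_biUnion hξ h)
  · intro j hj
    rcases hcase j hj with ⟨hjg, h⟩ | ⟨hjg, h⟩
    · rw [AU_d_lt hjg]
      exact hB.ok j h
    · rw [AU_d_ge hjg h]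
      exact AU_ok hκ hμ hq hanti htq hs1 hF hsl hjg h
  · intro j hj
    rcases hcase j hj with ⟨hjg, h⟩ | ⟨hjg, h⟩
    · rw [AU_d_lt hjg]
      exact hB.h j h
    · rw [AU_d_ge hjg h]
      exact hs2 j hjg h
  · intro j hj
    rcases hcase j hj with ⟨hjg, h⟩ | ⟨hjg, h⟩
    · rw [AU_d_lt hjg, AU_res_lt hjg]
      exact htV.2 j h
    · rw [AU_d_ge hjg h]
      constructor
      · obtain ⟨ξ, hξ, h1⟩ := h
        exact (rres_mono (hle ξ hξ) j).trans ((hq ξ hξ).2 j h1).1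
      · rintro x y ⟨ξ, hξ, h1, h2⟩
        exact FrT_mono (rres_mono (hle ξ hξ) j) (((hq ξ hξ).2 j h1).2 x y h2)

theorem AU_le {g μ : Ordinal.{u}} {t : Raw.{u}} {q : Ordinal.{u} → Raw.{u}}
    {Fs : Ordinal.{u} → Set So.{u}} {hs : Ordinal.{u} → Ordinal.{u}}
    (htq : ∀ ξ < μ, t ≤ (q ξ).res g)
    (hs1 : ∀ j, g ≤ j → ∀ ξ < μ, j ∈ (q ξ).supp → ((q ξ).d j).h ≤ hs j) :
    ∀ ξ < μ, AU g t μ q Fs hs ≤ q ξ :=
  AU_le' htq hs1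

theorem AU_res {g μ : Ordinal.{u}} {t : Raw.{u}} {q : Ordinal.{u} → Raw.{u}}
    {Fs : Ordinal.{u} → Set So.{u}} {hs : Ordinal.{u} → Ordinal.{u}} (ht : t ∈ PP κ D g) :
    (AU g t μ q Fs hs).res g = t := by
  obtain ⟨htV, htg⟩ := mem_PP.1 ht
  refine Raw.ext rfl rfl ?_ ?_
  · ext i
    rw [mem_res_supp, AU_mem_supp]
    constructor
    · rintro ⟨h1 | h1, h2⟩
      · exact h1
      · exact absurd h2 (not_lt.2 h1.1)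
    · intro h
      exact ⟨Or.inl h, htg h⟩
  · funext i
    rcases lt_or_ge i g with h1 | h1
    · rw [res_d_lt h1, AU_d_lt h1]
    · rw [res_d_ge h1, htV.1.nd i fun h => absurd (htg h) (not_lt.2 h1)]

theorem AU_le_left {g μ : Ordinal.{u}} {t : Raw.{u}} {q : Ordinal.{u} → Raw.{u}}
    {Fs : Ordinal.{u} → Set So.{u}} {hs : Ordinal.{u} → Ordinal.{u}} (ht : t ∈ PP κ D g) :
    AU g t μ q Fs hs ≤ t := by
  obtain ⟨-, htg⟩ := mem_PP.1 ht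
  refine le_def.2 ⟨le_rfl, fun _ _ _ => rfl, fun j hj => Or.inl hj, ?_⟩
  intro j hj
  rw [AU_d_lt (htg hj)]
  exact ⟨subset_rfl, subset_rfl, le_rfl⟩

/-- data of the union -/
theorem AU_d {g μ j : Ordinal.{u}} {t : Raw.{u}} {q : Ordinal.{u} → Raw.{u}}
    {Fs : Ordinal.{u} → Set So.{u}} {hs : Ordinal.{u} → Ordinal.{u}} (ht : t ∈ PP κ D g) (hj : g ≤ j)
    (h : j ∈ (AU g t μ q Fs hs).supp) : (∃ ξ < μ, j ∈ (q ξ).supp) ∧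
      ((AU g t μ q Fs hs).d j).pi = {z | ∃ ξ < μ, j ∈ (q ξ).supp ∧ z ∈ ((q ξ).d j).pi} ∧
      ((AU g t μ q Fs hs).d j).F = {f | ∃ ξ < μ, j ∈ (q ξ).supp ∧ f ∈ ((q ξ).d j).F} ∪ Fs j ∧
      ((AU g t μ q Fs hs).d j).h = hs j := by
  obtain ⟨-, htg⟩ := mem_PP.1 ht
  have hex : ∃ ξ < μ, j ∈ (q ξ).supp := by
    rcases AU_mem_supp.1 h with h1 | h1
    · exact absurd (htg h1) (not_lt.2 hj)
    · exact h1.2
  rw [AU_d_ge hj hex]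
  exact ⟨hex, rfl, rfl, rfl⟩

/-- supports of unions -/
theorem AU_supp {J : Set Ordinal.{u}} {g μ : Ordinal.{u}} {t : Raw.{u}} {q : Ordinal.{u} → Raw.{u}}
    {Fs : Ordinal.{u} → Set So.{u}} {hs : Ordinal.{u} → Ordinal.{u}} (ht : t.supp ⊆ J)
    (h : ∀ ξ < μ, (q ξ).supp ⊆ J) : (AU g t μ q Fs hs).supp ⊆ J := by
  intro j hj
  rcases AU_mem_supp.1 hj with h1 | ⟨_, ξ, hξ, h1⟩
  · exact ht h1
  · exact h ξ hξ h1

end Pool.Agent.H40.IS
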