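/-
K8 (KFl).  Flat extensions; adding elements to F.  Imports KUb only.  About 200 lines.
PROOFS.
flat_ext: AU with g = 0, t = bare H b', μ = 1, q _ = p, hs _ = H,
  Fs j = {f | ∃ ε, IsS ε ∧ (p.d j).h < ε ∧ ε ≤ H ∧ f = (b' ε).res ((p.d j).h + 1)}.  hF: lengths are (p.d j).h + 1 (ε is a limit and
  h < ε so h + 1 < ε), so they are not in ran pi (lengths ≤ h); bounded: a small set of bounded sequences (bdd_sup; image of Iic H).
  hsl: a = h + 1 < ε.  (p.res 0: support empty; bare H b' ≤ p.res 0 by hb and hH.)  Support 0 ≤ j for all j.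
flat_ext': b' ε = p.b ε for ε ≤ p.ht and the constant 0 sequence of length ε for ε > p.ht (const_ok).
addF: q = ⟨p.ht, p.b, p.supp, fun j => if j ∈ p.supp then ⟨(p.d j).pi, (p.d j).F ∪ Fs j, (p.d j).h⟩ else p.d j⟩; q.res j ≤ p.res j.
  dis: for y ∈ Fs j by hF.  bdd: max of the two bounds.
IsS_limit: cof ε = ℵ₁ ≠ 0, 1, so ε is a limit.
-/
import Pool.Agent.H40.IS.KUb

namespace Pool.Agent.H40.IS
open Cardinal Ordinal Set
universe u
variable {κ : Cardinal.{u}} {D : Ordinal.{u} → Tri.{u}} {J : Set Ordinal.{u}}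

theorem IsS_limit {ε : Ordinal.{u}} (h : IsS ε) : Order.IsSuccLimit ε := by
  refine Ordinal.one_lt_cof_iff.1 ?_
  have h' : ε.cof = ℵ₁ := h
  rw [h']
  exact Cardinal.one_lt_aleph0.trans Cardinal.aleph0_lt_aleph_one

theorem IsS_add_one {ε a : Ordinal.{u}} (h : IsS ε) (ha : a < ε) : a + 1 < ε := by
  exact (IsS_limit h).add_one_lt ha

private theorem kfl_bare_b {H ε : Ordinal.{u}} {b : Ordinal.{u} → So.{u}} (h : IsS ε)
    (h2 : ε ≤ H) : (bare H b).b ε = b ε := by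
  unfold bare
  exact if_pos ⟨h, h2⟩

private theorem kfl_bare_le {H : Ordinal.{u}} {b' : Ordinal.{u} → So.{u}} {p : Raw.{u}}
    (hH : p.ht ≤ H) (hb : ∀ ε, IsS ε → ε ≤ p.ht → b' ε = p.b ε) : bare H b' ≤ p.res 0 := by
  refine le_def.2 ⟨hH, ?_, ?_, ?_⟩
  · intro ε h1 h2
    rw [kfl_bare_b h1 (le_trans h2 hH)]
    exact hb ε h1 h2
  · intro i hi
    exact absurd (mem_res_supp.1 hi).2 (not_lt.2 zero_le)
  · intro i hi
    exact absurd (mem_res_supp.1 hi).2 (not_lt.2 zero_le)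

private theorem kfl_one (hκ : κ.IsInaccessible) : (1 : Ordinal.{u}) < κ.ord :=
  Ordinal.one_lt_omega0.trans (kord_omega hκ).1

private theorem kfl_bdd (hκ : κ.IsInaccessible) {H : Ordinal.{u}} (hH : H < κ.ord)
    {b' : Ordinal.{u} → So.{u}}
    (hb' : ∀ ε, IsS ε → ε ≤ H → (b' ε).len = ε ∧ Lt κ.ord (b' ε)) :
    ∃ γ < κ.ord, ∀ ε, IsS ε → ε ≤ H → In γ (b' ε) := by
  have h1 : Sm κ (b' '' {ε | IsS ε ∧ ε ≤ H}) := by
    refine Sm.image (Sm.mono (sm_Iio (kord_limit hκ hH)) ?_) b'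
    intro ε hε
    exact Order.lt_add_one_iff.2 hε.2
  obtain ⟨γ, hγ, h2⟩ := bdd_sup hκ h1 (by
    rintro x ⟨ε, hε, rfl⟩
    exact (hb' ε hε.1 hε.2).2)
  exact ⟨γ, hγ, fun ε h3 h4 => h2 _ ⟨ε, ⟨h3, h4⟩, rfl⟩⟩

theorem flat_ext (hκ : κ.IsInaccessible) {p : Raw.{u}} (hp : p ∈ PJ κ D J) {H : Ordinal.{u}}
    (hH : p.ht ≤ H) (hH' : H < κ.ord) {b' : Ordinal.{u} → So.{u}}
    (hb : ∀ ε, IsS ε → ε ≤ p.ht → b' ε = p.b ε)
    (hb' : ∀ ε, IsS ε → ε ≤ H → (b' ε).len = ε ∧ Lt κ.ord (b' ε)) :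
    ∃ q ∈ PJ κ D J, q ≤ p ∧ q.ht = H ∧ Flat q ∧ (∀ ε, IsS ε → ε ≤ H → q.b ε = b' ε) ∧
      q.supp = p.supp ∧ ∀ j ∈ p.supp, (q.d j).pi = (p.d j).pi := by
  have hB : Base κ p := hp.1.1
  obtain ⟨γ, hγ, hγ2⟩ := kfl_bdd hκ hH' hb'
  let Fs : Ordinal.{u} → Set So.{u} := fun j =>
    {f | ∃ ε, IsS ε ∧ (p.d j).h < ε ∧ ε ≤ H ∧ f = (b' ε).res ((p.d j).h + 1)}
  let q : Ordinal.{u} → Raw.{u} := fun _ => p
  let hs : Ordinal.{u} → Ordinal.{u} := fun _ => H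
  have ht : bare H b' ∈ PP κ D 0 := bare_mem hκ hH' hb' 0
  have hle : ∀ ξ < (1 : Ordinal.{u}), bare H b' ≤ (q ξ).res 0 := fun _ _ => kfl_bare_le hH hb
  have hs1 : ∀ j, (0 : Ordinal.{u}) ≤ j → ∀ ξ < (1 : Ordinal.{u}), j ∈ (q ξ).supp →
      ((q ξ).d j).h ≤ hs j := fun j _ _ _ hj => (hB.h j hj).trans hH
  have hlen : ∀ j ε, IsS ε → (p.d j).h < ε → ε ≤ H →
      ((b' ε).res ((p.d j).h + 1)).len = (p.d j).h + 1 := by
    intro j ε h1 h2 h3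
    rw [res_len, (hb' ε h1 h3).1]
    exact min_eq_right (IsS_add_one h1 h2).le
  have hmem : AU 0 (bare H b') 1 q Fs hs ∈ PV κ D := by
    refine AU_mem hκ ht zero_lt_one (kfl_one hκ) (fun _ _ => hp.1) (fun _ _ _ _ => le_rfl) hle hs1
      (fun _ _ _ => le_rfl) ?_ ?_
    · rintro j - ⟨_, _, hj⟩
      refine ⟨γ, hγ, ?_⟩
      rintro f ⟨ε, h1, h2, h3, rfl⟩
      refine ⟨In_res (hγ2 ε h1 h3) _, ⟨_, hlen j ε h1 h2 h3⟩, ?_⟩
      intro ξ _ _ x hx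
      have h4 := ((hB.ok j hj).len _ _ hx).2
      rw [hlen j ε h1 h2 h3] at h4
      exact absurd h4 (not_le.2 (lt_add_one _))
    · rintro j - ⟨ξ, hξ, hj⟩ ε h1 h2 h3
      have h4 : (p.d j).h < ε := h3 ξ hξ hj
      refine ⟨(p.d j).h + 1, IsS_add_one h1 h4, Or.inl ⟨ε, h1, h4, h2, ?_⟩⟩
      rw [kfl_bare_b h1 h2]
  have hsupp : (AU 0 (bare H b') 1 q Fs hs).supp = p.supp := by
    ext j
    constructor
    · rintro (h | ⟨_, _, _, h⟩)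
      · exact absurd h (notMem_empty _)
      · exact h
    · intro h
      exact Or.inr ⟨zero_le, 0, zero_lt_one, h⟩
  refine ⟨AU 0 (bare H b') 1 q Fs hs, ⟨hmem, by rw [hsupp]; exact hp.2⟩,
    AU_le hle hs1 0 zero_lt_one, rfl, ?_, ?_, hsupp, ?_⟩
  · intro j hj
    exact (AU_d ht zero_le hj).2.2.2
  · intro ε h1 h2
    exact kfl_bare_b h1 h2
  · intro j hj
    rw [(AU_d ht zero_le (by rw [hsupp]; exact hj)).2.1]
    ext z
    constructor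
    · rintro ⟨_, _, _, h⟩
      exact h
    · intro h
      exact ⟨0, zero_lt_one, hj, h⟩

theorem flat_ext' (hκ : κ.IsInaccessible) {p : Raw.{u}} (hp : p ∈ PJ κ D J) {H : Ordinal.{u}}
    (hH : p.ht ≤ H) (hH' : H < κ.ord) :
    ∃ q ∈ PJ κ D J, q ≤ p ∧ q.ht = H ∧ Flat q ∧ q.supp = p.supp ∧
      ∀ j ∈ p.supp, (q.d j).pi = (p.d j).pi := by
  classical
  have hB : Base κ p := hp.1.1
  obtain ⟨q, h1, h2, h3, h4, -, h5, h6⟩ := flat_ext hκ hp hH hH'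
    (b' := fun ε => if ε ≤ p.ht then p.b ε else mk ε (fun _ => 0))
    (fun ε _ h => if_pos h) (by
      intro ε h1 h2
      by_cases h : ε ≤ p.ht
      · have h3 : (if ε ≤ p.ht then p.b ε else mk ε (fun _ => 0)) = p.b ε := if_pos h
        rw [h3]
        exact hB.b ε h1 h
      · have h3 : (if ε ≤ p.ht then p.b ε else mk ε (fun _ => 0)) =
            mk ε (fun _ => 0) := if_neg h
        rw [h3]
        exact const_ok hκ (lt_of_le_of_lt h2 hH') (kord_pos hκ))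
  exact ⟨q, h1, h2, h3, h4, h5, h6⟩

theorem addF (hκ : κ.IsInaccessible) {p : Raw.{u}} (hp : p ∈ PJ κ D J)
    {Fs : Ordinal.{u} → Set So.{u}}
    (hF : ∀ j ∈ p.supp, ∃ γ < κ.ord, ∀ f ∈ Fs j, In γ f ∧ (∃ a, f.len = a + 1) ∧
      ∀ x, (x, f) ∉ (p.d j).pi) :
    ∃ q ∈ PJ κ D J, q ≤ p ∧ q.ht = p.ht ∧ q.b = p.b ∧ q.supp = p.supp ∧
      ∀ j ∈ p.supp, q.d j = ⟨(p.d j).pi, (p.d j).F ∪ Fs j, (p.d j).h⟩ := by
  classical
  have hB : Base κ p := hp.1.1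
  let q : Raw.{u} := ⟨p.ht, p.b, p.supp, fun j => if j ∈ p.supp then
    ⟨(p.d j).pi, (p.d j).F ∪ Fs j, (p.d j).h⟩ else p.d j⟩
  have hd : ∀ j ∈ p.supp, q.d j = ⟨(p.d j).pi, (p.d j).F ∪ Fs j, (p.d j).h⟩ :=
    fun j hj => if_pos hj
  have hd' : ∀ j, j ∉ p.supp → q.d j = p.d j := fun j hj => if_neg hj
  have hle : q ≤ p := by
    refine le_def.2 ⟨le_rfl, fun _ _ _ => rfl, Subset.rfl, ?_⟩
    intro j hj
    rw [hd j hj]
    exact ⟨Subset.rfl, subset_union_left, le_rfl⟩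
  refine ⟨q, ⟨⟨⟨hB.ht, hB.b, hB.nb, ?_, hB.sm, ?_, ?_⟩, ?_⟩, hp.2⟩, hle, rfl, rfl, rfl, hd⟩
  · intro j hj
    rw [hd' j hj]
    exact hB.nd j hj
  · intro j hj
    rw [hd j hj]
    have h := hB.ok j hj
    obtain ⟨γ0, hγ0, hF0⟩ := hF j hj
    refine ⟨h.inj, h.len, h.cl, ?_, ?_, ?_, ?_⟩
    · obtain ⟨γ1, hγ1, h1, h2⟩ := h.bdd
      refine ⟨max γ0 γ1, max_lt hγ0 hγ1, ?_, ?_⟩
      · intro x y hxy
        exact ⟨In_mono (le_max_right _ _) (h1 x y hxy).1, In_mono (le_max_right _ _) (h1 x y hxy).2⟩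
      · rintro f (hf | hf)
        · exact In_mono (le_max_right _ _) (h2 f hf)
        · exact In_mono (le_max_left _ _) (hF0 f hf).1
    · rintro f (hf | hf)
      · exact h.suc f hf
      · exact (hF0 f hf).2.1
    · rintro x y hxy (hf | hf)
      · exact h.dis x y hxy hf
      · exact (hF0 y hf).2.2 x hxy
    · intro ε h1 h2
      obtain ⟨a, ha, h3⟩ := h.sl ε h1 h2
      exact ⟨a, ha, Or.inl h3⟩
  · intro j hj
    rw [hd j hj]
    exact hB.h j hj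
  · intro j hj
    rw [hd j hj]
    have h := hp.1.2 j hj
    refine ⟨(rres_mono hle j).trans h.1, ?_⟩
    intro x y hxy
    exact FrT_mono (rres_mono hle j) (h.2 x y hxy)

end Pool.Agent.H40.IS
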