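/-
K7 (KCtb).  Countable descending sequences have a greatest lower bound.  Imports KFl only (for IsS_limit and KUb).  About 150 lines.
PROOF.  AU with g = 0, μ = ω, index function q' ξ = q n for ξ = n < ω (ordinals < ω are naturals: lt_omega0), H = sup of the (q n).ht
(< κ.ord), t = bare H b with b ε = (q n).b ε for some n with ε ≤ (q n).ht (if it exists), Fs = ∅, hs j = sup of the ((q n).d j).h over n
with j ∈ (q n).supp (bounded by H).  Key: if ε is in S and ε ≤ sup of a countable set of ordinals, then ε ≤ one of them: otherwise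
cof ε ≤ ℵ₀ (sup attained or ε = sup of a countable set of smaller ordinals), but cof ε = ℵ₁ (Ordinal.iSup_lt_omega_one style or
Ordinal.iSup_lt_of_lt_cof).  So all seals are there, and b on S ∩ (H+1) is determined.
The last part: t ≤ (q n).res g for all n: t.ht ≥ H; b: by the key; data at j < g, j ∈ supp: unions and suprema.
-/
import Pool.Agent.H40.IS.KFl

namespace Pool.Agent.H40.IS
open Cardinal Ordinal Set
universe u
variable {κ : Cardinal.{u}} {D : Ordinal.{u} → Tri.{u}} {J : Set Ordinal.{u}}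

/-- an element of `S` below a countable supremum is below a member -/
theorem IsS_le_sup {ε : Ordinal.{u}} (h : IsS ε) (f : ℕ → Ordinal.{u}) (hf : ∀ a < ε, ∃ n, a < f n) :
    ∃ n, ε ≤ f n := by
  by_contra hc
  push Not at hc
  have h1 : ⨆ n, f n < ε := by
    refine Ordinal.lift_iSup_lt_of_lt_cof ?_ hc
    have h2 : ε.cof = ℵ₁ := h
    rw [Ordinal.lift_uzero, h2, Cardinal.mk_nat, Cardinal.lift_aleph0]
    exact Cardinal.aleph0_lt_aleph_one
  obtain ⟨n, hn⟩ := hf _ h1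
  exact absurd (Ordinal.le_iSup f n) (not_le.2 hn)

/-- the index `n` at the ordinal `n` -/
private noncomputable def nx (q : ℕ → Raw.{u}) (ξ : Ordinal.{u}) : Raw.{u} :=
  q (Cardinal.toNat ξ.card)

private theorem nx_nat (q : ℕ → Raw.{u}) (n : ℕ) : nx q (n : Ordinal.{u}) = q n := by
  unfold nx
  rw [Ordinal.card_nat, Cardinal.toNat_natCast]

private theorem nx_lt {q : ℕ → Raw.{u}} {ξ : Ordinal.{u}} (h : ξ < ω) :
    ∃ n : ℕ, ξ = n ∧ nx q ξ = q n := by
  obtain ⟨n, rfl⟩ := Ordinal.lt_omega0.1 h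
  exact ⟨n, rfl, nx_nat q n⟩

open Classical in
/-- the common `b` -/
private noncomputable def cb (q : ℕ → Raw.{u}) (ε : Ordinal.{u}) : So.{u} :=
  if h : ∃ n, ε ≤ (q n).ht then (q h.choose).b ε else default

private theorem cb_eq {q : ℕ → Raw.{u}} (hanti : Antitone q) {ε : Ordinal.{u}} (hε : IsS ε) {n : ℕ}
    (h : ε ≤ (q n).ht) : cb q ε = (q n).b ε := by
  have hex : ∃ n, ε ≤ (q n).ht := ⟨n, h⟩
  have e : cb q ε = (q hex.choose).b ε := by
    unfold cb
    exact dif_pos hex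
  have h1 : ε ≤ (q hex.choose).ht := hex.choose_spec
  rw [e]
  rcases le_total n hex.choose with h2 | h2
  · exact (hanti h2).2.1 ε hε h
  · exact ((hanti h2).2.1 ε hε h1).symm

open Classical in
/-- the heights at the coordinate `j` -/
private noncomputable def hj (q : ℕ → Raw.{u}) (j : Ordinal.{u}) (n : ℕ) : Ordinal.{u} :=
  if j ∈ (q n).supp then ((q n).d j).h else 0

private theorem hj_mem {q : ℕ → Raw.{u}} {j : Ordinal.{u}} {n : ℕ} (h : j ∈ (q n).supp) :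
    hj q j n = ((q n).d j).h := if_pos h

private theorem hj_nmem {q : ℕ → Raw.{u}} {j : Ordinal.{u}} {n : ℕ} (h : j ∉ (q n).supp) :
    hj q j n = 0 := if_neg h

theorem ctb_glb (hκ : κ.IsInaccessible) {q : ℕ → Raw.{u}} (hq : ∀ n, q n ∈ PJ κ D J)
    (hanti : Antitone q) :
    ∃ r ∈ PJ κ D J, (∀ n, r ≤ q n) ∧ ∀ g, ∀ t : Raw.{u}, (∀ n, t ≤ (q n).res g) → t ≤ r.res g := by
  have hω : (ω : Ordinal.{u}) < κ.ord := (kord_omega hκ).1
  -- the height
  obtain ⟨H, hH⟩ : ∃ H : Ordinal.{u}, H = ⨆ n, (q n).ht := ⟨_, rfl⟩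
  have hHle : ∀ n, (q n).ht ≤ H := fun n => by
    rw [hH]
    exact Ordinal.le_iSup (fun n => (q n).ht) n
  have hHlt : H < κ.ord := by
    obtain ⟨γ, hγ, h1⟩ := (sm_Iio hω).bdd hκ (fun ξ => (nx q ξ).ht) (fun ξ _ => (hq _).1.1.ht)
    refine lt_of_le_of_lt ?_ hγ
    rw [hH]
    refine Ordinal.iSup_le fun n => ?_
    have h2 := h1 (n : Ordinal.{u}) (Ordinal.natCast_lt_omega0 n)
    simp only [nx_nat] at h2
    exact h2.le
  -- below the height
  have hex : ∀ ε, IsS ε → ε ≤ H → ∃ n, ε ≤ (q n).ht := by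
    intro ε hε h1
    refine IsS_le_sup hε _ fun a ha => ?_
    have h2 : a < ⨆ n, (q n).ht := by
      rw [← hH]
      exact ha.trans_le h1
    exact Ordinal.lt_iSup_iff.1 h2
  have hb : ∀ ε, IsS ε → ε ≤ H → (cb q ε).len = ε ∧ Lt κ.ord (cb q ε) := by
    intro ε hε h1
    obtain ⟨n, hn⟩ := hex ε hε h1
    rw [cb_eq hanti hε hn]
    exact (hq n).1.1.b ε hε hn
  have ht : bare H (cb q) ∈ PP κ D 0 := bare_mem hκ hHlt hb 0
  have htb : ∀ ε, IsS ε → ∀ n, ε ≤ (q n).ht → (bare H (cb q)).b ε = (q n).b ε := by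
    intro ε hε n hn
    have e : (bare H (cb q)).b ε = cb q ε := by
      unfold bare
      exact if_pos ⟨hε, hn.trans (hHle n)⟩
    rw [e, cb_eq hanti hε hn]
  have hq' : ∀ ξ < (ω : Ordinal.{u}), nx q ξ ∈ PV κ D := fun ξ _ => (hq _).1
  have hanti' : ∀ ξ η : Ordinal.{u}, ξ ≤ η → η < ω → nx q η ≤ nx q ξ := by
    intro ξ η h1 h2
    obtain ⟨n, rfl, e1⟩ := nx_lt (q := q) h2
    obtain ⟨m, rfl, e2⟩ := nx_lt (q := q) (h1.trans_lt h2)
    rw [e1, e2]
    exact hanti (by exact_mod_cast h1)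
  have htq : ∀ ξ < (ω : Ordinal.{u}), bare H (cb q) ≤ (nx q ξ).res 0 := by
    intro ξ hξ
    obtain ⟨n, -, e1⟩ := nx_lt (q := q) hξ
    rw [e1]
    refine le_def.2 ⟨hHle n, fun ε hε h1 => htb ε hε n h1, fun j hj => ?_, fun j hj => ?_⟩
    · exact absurd (mem_res_supp.1 hj).2 not_lt_zero
    · exact absurd (mem_res_supp.1 hj).2 not_lt_zero
  have hs1 : ∀ j, (0 : Ordinal.{u}) ≤ j → ∀ ξ < (ω : Ordinal.{u}), j ∈ (nx q ξ).supp →
      ((nx q ξ).d j).h ≤ ⨆ n, hj q j n := by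
    intro j _ ξ hξ h1
    obtain ⟨n, -, e1⟩ := nx_lt (q := q) hξ
    rw [e1] at h1 ⊢
    rw [← hj_mem h1]
    exact Ordinal.le_iSup (hj q j) n
  have hs2 : ∀ j, (0 : Ordinal.{u}) ≤ j → (∃ ξ < (ω : Ordinal.{u}), j ∈ (nx q ξ).supp) →
      ⨆ n, hj q j n ≤ (bare H (cb q)).ht := by
    intro j _ _
    refine Ordinal.iSup_le fun n => ?_
    by_cases h1 : j ∈ (q n).supp
    · rw [hj_mem h1]
      exact ((hq n).1.1.h j h1).trans (hHle n)
    · rw [hj_nmem h1]
      exact zero_le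
  have hsl : ∀ j, (0 : Ordinal.{u}) ≤ j → (∃ ξ < (ω : Ordinal.{u}), j ∈ (nx q ξ).supp) →
      ∀ ε, IsS ε → ε ≤ (⨆ n, hj q j n) →
      (∀ ξ < (ω : Ordinal.{u}), j ∈ (nx q ξ).supp → ((nx q ξ).d j).h < ε) →
      ∃ a < ε, ((bare H (cb q)).b ε).res a ∈ (∅ : Set So.{u}) ∨
        ∃ ξ < (ω : Ordinal.{u}), j ∈ (nx q ξ).supp ∧
          ((bare H (cb q)).b ε).res a ∈ ((nx q ξ).d j).F := by
    intro j _ h0 ε hε h1 h2
    exfalso
    obtain ⟨n, hn⟩ := IsS_le_sup hε (hj q j) fun a ha => Ordinal.lt_iSup_iff.1 (ha.trans_le h1)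
    by_cases h3 : j ∈ (q n).supp
    · rw [hj_mem h3] at hn
      have h4 := h2 (n : Ordinal.{u}) (Ordinal.natCast_lt_omega0 n)
      rw [nx_nat] at h4
      exact absurd hn (not_le.2 (h4 h3))
    · rw [hj_nmem h3] at hn
      obtain ⟨ξ, hξ, h4⟩ := h0
      exact absurd ((h2 ξ hξ h4).trans_le hn) not_lt_zero
  have hmem := AU_mem (Fs := fun _ => (∅ : Set So.{u})) hκ ht omega0_pos hω hq' hanti' htq hs1 hs2
    (fun _ _ _ => ⟨0, kord_pos hκ, fun _ h => absurd h (notMem_empty _)⟩) hsl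
  have hle := AU_le (Fs := fun _ => (∅ : Set So.{u})) htq hs1
  have hsupp : ∀ {j : Ordinal.{u}}, j ∈ (AU 0 (bare H (cb q)) ω (nx q) (fun _ => (∅ : Set So.{u}))
      (fun j => ⨆ n, hj q j n)).supp → ∃ n, j ∈ (q n).supp := by
    intro j h1
    rcases h1 with h1 | ⟨-, ξ, hξ, h1⟩
    · exact absurd h1 (notMem_empty _)
    · obtain ⟨n, -, e1⟩ := nx_lt (q := q) hξ
      rw [e1] at h1
      exact ⟨n, h1⟩
  refine ⟨AU 0 (bare H (cb q)) ω (nx q) (fun _ => (∅ : Set So.{u})) (fun j => ⨆ n, hj q j n),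
    ⟨hmem, ?_⟩, ?_, ?_⟩
  · intro j h1
    obtain ⟨n, h2⟩ := hsupp h1
    exact (hq n).2 h2
  · intro n
    have h1 := hle (n : Ordinal.{u}) (Ordinal.natCast_lt_omega0 n)
    rw [nx_nat] at h1
    exact h1
  · intro g t h1
    refine le_def.2 ⟨?_, ?_, ?_, ?_⟩
    · change H ≤ t.ht
      rw [hH]
      exact Ordinal.iSup_le fun n => (h1 n).1
    · intro ε hε h2
      change ε ≤ H at h2
      obtain ⟨n, hn⟩ := hex ε hε h2
      change t.b ε = (bare H (cb q)).b ε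
      rw [htb ε hε n hn]
      exact (h1 n).2.1 ε hε hn
    · intro j h2
      obtain ⟨h3, h4⟩ := mem_res_supp.1 h2
      obtain ⟨n, h5⟩ := hsupp h3
      exact (h1 n).2.2.1 (mem_res_supp.2 ⟨h5, h4⟩)
    · intro j h2
      obtain ⟨h3, h4⟩ := mem_res_supp.1 h2
      have key : ∀ n, j ∈ (q n).supp → ((q n).d j).pi ⊆ (t.d j).pi ∧
          ((q n).d j).F ⊆ (t.d j).F ∧ ((q n).d j).h ≤ (t.d j).h := by
        intro n h5
        have h6 := (h1 n).2.2.2 j (mem_res_supp.2 ⟨h5, h4⟩)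
        rw [res_d_lt h4] at h6
        exact h6
      obtain ⟨-, e2, e3, e4⟩ := AU_d ht zero_le h3
      rw [res_d_lt h4]
      refine ⟨?_, ?_, ?_⟩
      · rw [e2]
        rintro z ⟨ξ, hξ, h5, h6⟩
        obtain ⟨n, -, e5⟩ := nx_lt (q := q) hξ
        rw [e5] at h5 h6
        exact (key n h5).1 h6
      · rw [e3]
        rintro z (⟨ξ, hξ, h5, h6⟩ | h5)
        · obtain ⟨n, -, e5⟩ := nx_lt (q := q) hξ
          rw [e5] at h5 h6
          exact (key n h5).2.1 h6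
        · exact absurd h5 (notMem_empty _)
      · rw [e4]
        refine Ordinal.iSup_le fun n => ?_
        by_cases h5 : j ∈ (q n).supp
        · rw [hj_mem h5]
          exact (key n h5).2.2
        · rw [hj_nmem h5]
          exact zero_le

end Pool.Agent.H40.IS
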