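/-
K9 (KFs).  Lower bounds of descending chains of flat conditions.  Imports KFl only.  About 200 lines.
PROOFS.
flat_lb: H = sup of (q ξ).ht, ξ < μ (< κ.ord by regularity: Sm.bdd on Iio μ gives a bound, H = sInf of the bounds).
 Case attained: (q ξ0).ht = H for some ξ0 < μ.  Then for j in the union of supports, j ∈ supp (q η) for some η ≥ ξ0, (q η).ht = H,
  ((q η).d j).h = H by flatness.  AU with g = 0, t = bare H (q ξ0).b, Fs = ∅, hs = H: hsl is void since some h is H.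
 Case not attained: H > (q ξ).ht for all ξ.  b' ε = (q ξ).b ε for a ξ with ε ≤ (q ξ).ht (if ε < H; independent of ξ), and
  b' H = mk H (fun _ => ν), ν < κ.ord a bound for all pi-data of all q ξ, ξ < μ, j ∈ supp (common bound: Sm.bUnion, bdd_sup / Sm.bdd
  over the small set of pairs (ξ, j); DatOK.bdd).  AU with t = bare H b', hs = H, Fs j = {f | IsS H ∧ f = (b' H).res 1}: it has value ν at
  0 and length 1 (H > 0), so it is not in ran pi.  hsl: ε ≤ H in S with all h_ξ < ε for j: since h_ξ = (q ξ).ht for large ξ is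
  cofinal in H, ε = H; a = 1 < H.
flat_lb_b: same with b' H = s, Fs = ∅ and hsl given by hse.  The heights are cofinal in H by h2.
-/
import Pool.Agent.H40.IS.KFl

namespace Pool.Agent.H40.IS
open Cardinal Ordinal Set
universe u
variable {κ : Cardinal.{u}} {D : Ordinal.{u} → Tri.{u}} {J : Set Ordinal.{u}}

private theorem kfs_bare_b {H ε : Ordinal.{u}} {b : Ordinal.{u} → So.{u}} (h : IsS ε)
    (h2 : ε ≤ H) : (bare H b).b ε = b ε := by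
  unfold bare
  exact if_pos ⟨h, h2⟩

private theorem kfs_bare_le {H : Ordinal.{u}} {b' : Ordinal.{u} → So.{u}} {p : Raw.{u}}
    (hH : p.ht ≤ H) (hb : ∀ ε, IsS ε → ε ≤ p.ht → b' ε = p.b ε) : bare H b' ≤ p.res 0 := by
  refine le_def.2 ⟨hH, ?_, ?_, ?_⟩
  · intro ε h1 h2
    rw [kfs_bare_b h1 (le_trans h2 hH)]
    exact hb ε h1 h2
  · intro i hi
    exact absurd (mem_res_supp.1 hi).2 (not_lt.2 zero_le)
  · intro i hi
    exact absurd (mem_res_supp.1 hi).2 (not_lt.2 zero_le)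

/-- the general step: all new values of `h` are `H` -/
private theorem kfs_gen (hκ : κ.IsInaccessible) {μ : Ordinal.{u}} (hμ0 : 0 < μ) (hμ : μ < κ.ord)
    {q : Ordinal.{u} → Raw.{u}} (hq : ∀ ξ < μ, q ξ ∈ PJ κ D J)
    (hanti : ∀ ξ η, ξ ≤ η → η < μ → q η ≤ q ξ) {H : Ordinal.{u}} (hH : H < κ.ord)
    (h1 : ∀ ξ < μ, (q ξ).ht ≤ H) {b' : Ordinal.{u} → So.{u}} {Fs : Ordinal.{u} → Set So.{u}}
    (hb1 : ∀ ξ < μ, ∀ ε, IsS ε → ε ≤ (q ξ).ht → b' ε = (q ξ).b ε)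
    (hb2 : ∀ ε, IsS ε → ε ≤ H → (b' ε).len = ε ∧ Lt κ.ord (b' ε))
    (hF : ∀ j, (∃ ξ < μ, j ∈ (q ξ).supp) → ∃ γ < κ.ord, ∀ f ∈ Fs j,
      In γ f ∧ (∃ a, f.len = a + 1) ∧ ∀ ξ < μ, j ∈ (q ξ).supp → ∀ x, (x, f) ∉ ((q ξ).d j).pi)
    (hsl : ∀ j, (∃ ξ < μ, j ∈ (q ξ).supp) → ∀ ε, IsS ε → ε ≤ H →
      (∀ ξ < μ, j ∈ (q ξ).supp → ((q ξ).d j).h < ε) →
      ∃ a < ε, (b' ε).res a ∈ Fs j ∨ ∃ ξ < μ, j ∈ (q ξ).supp ∧ (b' ε).res a ∈ ((q ξ).d j).F) :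
    ∃ r ∈ PJ κ D J, Flat r ∧ r.ht = H ∧ (∀ ε, IsS ε → ε ≤ H → r.b ε = b' ε) ∧
      ∀ ξ < μ, r ≤ q ξ := by
  have ht : bare H b' ∈ PP κ D 0 := bare_mem hκ hH hb2 0
  have hle : ∀ ξ < μ, bare H b' ≤ (q ξ).res 0 := fun ξ hξ => kfs_bare_le (h1 ξ hξ) (hb1 ξ hξ)
  have hs1 : ∀ j, (0 : Ordinal.{u}) ≤ j → ∀ ξ < μ, j ∈ (q ξ).supp →
      ((q ξ).d j).h ≤ (fun _ : Ordinal.{u} => H) j :=
    fun j _ ξ hξ hj => ((hq ξ hξ).1.1.h j hj).trans (h1 ξ hξ)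
  have hmem : AU 0 (bare H b') μ q Fs (fun _ => H) ∈ PV κ D := by
    refine AU_mem hκ ht hμ0 hμ (fun ξ hξ => (hq ξ hξ).1) hanti hle hs1
      (fun _ _ _ => le_rfl) (fun j _ => hF j) ?_
    intro j _ hex ε hε hεH hlt
    rw [kfs_bare_b hε hεH]
    exact hsl j hex ε hε hεH hlt
  refine ⟨AU 0 (bare H b') μ q Fs (fun _ => H),
    ⟨hmem, AU_supp (empty_subset _) (fun ξ hξ => (hq ξ hξ).2)⟩, ?_, rfl, ?_, AU_le hle hs1⟩
  · intro j hj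
    exact (AU_d ht zero_le hj).2.2.2
  · intro ε h3 h4
    exact kfs_bare_b h3 h4

private theorem kfs_agree {μ : Ordinal.{u}} {q : Ordinal.{u} → Raw.{u}}
    (hanti : ∀ ξ η, ξ ≤ η → η < μ → q η ≤ q ξ) {ξ η ε : Ordinal.{u}} (hξ : ξ < μ) (hη : η < μ)
    (hε : IsS ε) (h1 : ε ≤ (q ξ).ht) (h2 : ε ≤ (q η).ht) : (q ξ).b ε = (q η).b ε := by
  rcases le_total ξ η with h | h
  · exact ((le_def.1 (hanti ξ η h hη)).2.1 ε hε h1).symm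
  · exact (le_def.1 (hanti η ξ h hξ)).2.1 ε hε h2

/-- the case of cofinal heights -/
private theorem kfs_core (hκ : κ.IsInaccessible) {μ : Ordinal.{u}} (hμ0 : 0 < μ) (hμ : μ < κ.ord)
    {q : Ordinal.{u} → Raw.{u}} (hq : ∀ ξ < μ, q ξ ∈ PJ κ D J) (hfl : ∀ ξ < μ, Flat (q ξ))
    (hanti : ∀ ξ η, ξ ≤ η → η < μ → q η ≤ q ξ) {H : Ordinal.{u}} (hH : H < κ.ord)
    (h1 : ∀ ξ < μ, (q ξ).ht < H) (h2 : ∀ α < H, ∃ ξ < μ, α < (q ξ).ht) {s : So.{u}}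
    (hs : s.len = H) (hs' : Lt κ.ord s) {Fs : Ordinal.{u} → Set So.{u}}
    (hF : ∀ j, (∃ ξ < μ, j ∈ (q ξ).supp) → ∃ γ < κ.ord, ∀ f ∈ Fs j,
      In γ f ∧ (∃ a, f.len = a + 1) ∧ ∀ ξ < μ, j ∈ (q ξ).supp → ∀ x, (x, f) ∉ ((q ξ).d j).pi)
    (hse : IsS H → ∀ ξ < μ, ∀ j ∈ (q ξ).supp, ∃ a < H, s.res a ∈ Fs j ∨
      ∃ η < μ, j ∈ (q η).supp ∧ s.res a ∈ ((q η).d j).F) :
    ∃ r ∈ PJ κ D J, Flat r ∧ r.ht = H ∧ (IsS H → r.b H = s) ∧ ∀ ξ < μ, r ≤ q ξ := by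
  classical
  let b' : Ordinal.{u} → So.{u} := fun ε =>
    if h : ∃ ξ < μ, ε ≤ (q ξ).ht then (q h.choose).b ε else s
  have hb1 : ∀ ξ < μ, ∀ ε, IsS ε → ε ≤ (q ξ).ht → b' ε = (q ξ).b ε := by
    intro ξ hξ ε hε hle
    have h : ∃ ξ < μ, ε ≤ (q ξ).ht := ⟨ξ, hξ, hle⟩
    have h3 : b' ε = (q h.choose).b ε := dif_pos h
    rw [h3]
    exact kfs_agree hanti h.choose_spec.1 hξ hε h.choose_spec.2 hle
  have hbH : b' H = s := by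
    refine dif_neg ?_
    rintro ⟨ξ, hξ, h⟩
    exact absurd (h1 ξ hξ) (not_lt.2 h)
  have hb2 : ∀ ε, IsS ε → ε ≤ H → (b' ε).len = ε ∧ Lt κ.ord (b' ε) := by
    intro ε hε hle
    rcases eq_or_lt_of_le hle with h | h
    · rw [h, hbH]
      exact ⟨hs, hs'⟩
    · obtain ⟨ξ, hξ, h3⟩ := h2 ε h
      rw [hb1 ξ hξ ε hε h3.le]
      exact (hq ξ hξ).1.1.b ε hε h3.le
  obtain ⟨r, hr, hr1, hr2, hr3, hr4⟩ := kfs_gen hκ hμ0 hμ hq hanti hH (fun ξ hξ => (h1 ξ hξ).le)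
    hb1 hb2 hF (by
      rintro j ⟨ξ, hξ, hj⟩ ε hε hle hlt
      have hεH : ε = H := by
        rcases eq_or_lt_of_le hle with h | h
        · exact h
        · exfalso
          obtain ⟨ξ1, hξ1, h3⟩ := h2 ε h
          have hη : max ξ ξ1 < μ := max_lt hξ hξ1
          have h4 : j ∈ (q (max ξ ξ1)).supp := (le_def.1 (hanti ξ _ (le_max_left _ _) hη)).2.2.1 hj
          have h5 := hlt _ hη h4
          rw [hfl _ hη j h4] at h5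
          have h6 := (le_def.1 (hanti ξ1 _ (le_max_right _ _) hη)).1
          exact absurd (h3.trans_le h6) (not_lt.2 h5.le)
      subst hεH
      rw [hbH]
      exact hse hε ξ hξ j hj)
  exact ⟨r, hr, hr1, hr2, fun h => by rw [hr3 H h le_rfl, hbH], hr4⟩

/-- a common bound for all the data -/
private theorem kfs_bound (hκ : κ.IsInaccessible) {μ : Ordinal.{u}} (hμ : μ < κ.ord)
    {q : Ordinal.{u} → Raw.{u}} (hq : ∀ ξ < μ, q ξ ∈ PJ κ D J) :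
    ∃ ν < κ.ord, ∀ ξ < μ, ∀ j ∈ (q ξ).supp, ∀ x y, (x, y) ∈ ((q ξ).d j).pi → In ν y := by
  have h1 : ∀ ξ : Ordinal.{u}, ∃ ν < κ.ord, ξ < μ → ∀ j ∈ (q ξ).supp, ∀ x y,
      (x, y) ∈ ((q ξ).d j).pi → In ν y := by
    intro ξ
    by_cases h : ξ < μ
    · have h2 : ∀ j : Ordinal.{u}, ∃ ν < κ.ord, j ∈ (q ξ).supp → ∀ x y,
          (x, y) ∈ ((q ξ).d j).pi → In ν y := by
        intro j
        by_cases hj : j ∈ (q ξ).supp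
        · obtain ⟨γ, hγ, h3, -⟩ := ((hq ξ h).1.1.ok j hj).bdd
          exact ⟨γ, hγ, fun _ x y hxy => (h3 x y hxy).2⟩
        · exact ⟨0, kord_pos hκ, fun h => absurd h hj⟩
      choose f hf hf2 using h2
      obtain ⟨ν, hν, h3⟩ := Sm.bdd hκ (hq ξ h).1.1.sm f (fun j _ => hf j)
      exact ⟨ν, hν, fun _ j hj x y hxy => In_mono (h3 j hj).le (hf2 j hj x y hxy)⟩
    · exact ⟨0, kord_pos hκ, fun h2 => absurd h2 h⟩
  choose f hf hf2 using h1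
  obtain ⟨ν, hν, h3⟩ := Sm.bdd hκ (sm_Iio hμ) f (fun j _ => hf j)
  exact ⟨ν, hν, fun ξ hξ j hj x y hxy => In_mono (h3 ξ hξ).le (hf2 ξ hξ j hj x y hxy)⟩

theorem flat_lb (hκ : κ.IsInaccessible) {μ : Ordinal.{u}} (hμ0 : 0 < μ) (hμ : μ < κ.ord)
    {q : Ordinal.{u} → Raw.{u}} (hq : ∀ ξ < μ, q ξ ∈ PJ κ D J) (hfl : ∀ ξ < μ, Flat (q ξ))
    (hanti : ∀ ξ η, ξ ≤ η → η < μ → q η ≤ q ξ) :
    ∃ r ∈ PJ κ D J, Flat r ∧ ∀ ξ < μ, r ≤ q ξ := by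
  obtain ⟨γ, hγ, hγ2⟩ := Sm.bdd hκ (sm_Iio hμ) (fun ξ => (q ξ).ht)
    (fun ξ hξ => (hq ξ hξ).1.1.ht)
  have hne : ({x | ∀ ξ < μ, (q ξ).ht ≤ x} : Set Ordinal.{u}).Nonempty :=
    ⟨γ, fun ξ hξ => (hγ2 ξ hξ).le⟩
  obtain ⟨H, hH1, hH2⟩ : ∃ H : Ordinal.{u}, (∀ ξ < μ, (q ξ).ht ≤ H) ∧
      ∀ x, (∀ ξ < μ, (q ξ).ht ≤ x) → H ≤ x :=
    ⟨sInf {x | ∀ ξ < μ, (q ξ).ht ≤ x}, csInf_mem hne, fun x hx => csInf_le' hx⟩
  have hHκ : H < κ.ord := lt_of_le_of_lt (hH2 γ (fun ξ hξ => (hγ2 ξ hξ).le)) hγ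
  have hcof : ∀ α < H, ∃ ξ < μ, α < (q ξ).ht := by
    intro α hα
    by_contra hc
    push Not at hc
    exact absurd hα (not_lt.2 (hH2 α hc))
  by_cases hatt : ∃ ξ0 < μ, (q ξ0).ht = H
  · obtain ⟨ξ0, hξ0, hat⟩ := hatt
    obtain ⟨r, hr, hr1, -, -, hr4⟩ := kfs_gen hκ hμ0 hμ hq hanti hHκ hH1 (b' := (q ξ0).b)
      (Fs := fun _ => ∅)
      (fun ξ hξ ε hε hle => kfs_agree hanti hξ0 hξ hε (by rw [hat]; exact hle.trans (hH1 ξ hξ)) hle)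
      (fun ε hε hle => (hq ξ0 hξ0).1.1.b ε hε (by rw [hat]; exact hle))
      (fun j _ => ⟨0, kord_pos hκ, fun f hf => absurd hf (notMem_empty _)⟩) (by
        rintro j ⟨ξ, hξ, hj⟩ ε hε hle hlt
        exfalso
        have hη : max ξ ξ0 < μ := max_lt hξ hξ0
        have h4 : j ∈ (q (max ξ ξ0)).supp := (le_def.1 (hanti ξ _ (le_max_left _ _) hη)).2.2.1 hj
        have h5 := hlt _ hη h4
        rw [hfl _ hη j h4] at h5
        have h6 := (le_def.1 (hanti ξ0 _ (le_max_right _ _) hη)).1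
        rw [hat] at h6
        exact absurd (h5.trans_le hle) (not_lt.2 h6))
    exact ⟨r, hr, hr1, hr4⟩
  · have h1 : ∀ ξ < μ, (q ξ).ht < H := by
      intro ξ hξ
      exact lt_of_le_of_ne (hH1 ξ hξ) (fun h => hatt ⟨ξ, hξ, h⟩)
    have h0 : 0 < H := lt_of_le_of_lt zero_le (h1 0 hμ0)
    obtain ⟨ν, hν, hν2⟩ := kfs_bound hκ hμ hq
    have hc := const_ok hκ hHκ hν
    have hone : (1 : Ordinal.{u}) ≤ H := Order.one_le_iff_pos.2 h0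
    have hres : (mk H (fun _ => ν) : So.{u}).res 1 = mk 1 (fun _ => ν) := res_mk hone
    obtain ⟨γ', hγ', hin⟩ := hc.2
    obtain ⟨r, hr, hr1, -, -, hr4⟩ := kfs_core hκ hμ0 hμ hq hfl hanti hHκ h1 hcof
      (s := mk H (fun _ => ν)) hc.1 hc.2
      (Fs := fun _ => {f | IsS H ∧ f = (mk H (fun _ => ν) : So.{u}).res 1}) (by
        rintro j -
        refine ⟨γ', hγ', ?_⟩
        rintro f ⟨-, rfl⟩
        refine ⟨In_res hin _, ⟨0, ?_⟩, ?_⟩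
        · rw [hres, mk_len, zero_add]
        · intro ξ hξ hj x hx
          have h3 := hν2 ξ hξ j hj x _ hx
          rw [hres] at h3
          refine not_In (i := 0) ?_ h3
          rw [mk_val zero_lt_one]
          exact le_rfl) (by
        intro hS ξ hξ j hj
        refine ⟨1, ?_, Or.inl ⟨hS, rfl⟩⟩
        have h3 := IsS_add_one hS h0
        rwa [zero_add] at h3)
    exact ⟨r, hr, hr1, hr4⟩

theorem flat_lb_b (hκ : κ.IsInaccessible) {μ : Ordinal.{u}} (hμ0 : 0 < μ) (hμ : μ < κ.ord)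
    {q : Ordinal.{u} → Raw.{u}} (hq : ∀ ξ < μ, q ξ ∈ PJ κ D J) (hfl : ∀ ξ < μ, Flat (q ξ))
    (hanti : ∀ ξ η, ξ ≤ η → η < μ → q η ≤ q ξ) {H : Ordinal.{u}} (hH : H < κ.ord)
    (h1 : ∀ ξ < μ, (q ξ).ht < H) (h2 : ∀ α < H, ∃ ξ < μ, α < (q ξ).ht) {s : So.{u}}
    (hs : s.len = H) (hs' : Lt κ.ord s)
    (hse : ∀ ξ < μ, ∀ j ∈ (q ξ).supp, ∃ η < μ, j ∈ (q η).supp ∧ ∃ a < H, s.res a ∈ ((q η).d j).F) :
    ∃ r ∈ PJ κ D J, r.ht = H ∧ (IsS H → r.b H = s) ∧ ∀ ξ < μ, r ≤ q ξ := by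
  obtain ⟨r, hr, -, hr2, hr3, hr4⟩ := kfs_core hκ hμ0 hμ hq hfl hanti hH h1 h2 hs hs'
    (Fs := fun _ => ∅) (fun j _ => ⟨0, kord_pos hκ, fun f hf => absurd hf (notMem_empty _)⟩) (by
      intro _ ξ hξ j hj
      obtain ⟨η, hη, h3, a, ha, h4⟩ := hse ξ hξ j hj
      exact ⟨a, ha, Or.inr ⟨η, hη, h3, h4⟩⟩)
  exact ⟨r, hr, hr2, hr3, hr4⟩

end Pool.Agent.H40.IS
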