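/-
K10 (KDist).  Distributivity.  Imports KFs and Chn only.  About 80 lines.
PROOF.  Given μ < κ.ord, open dense sets D' x (x < μ) and t.  Apply chain' to P = ↥(PJ κ D J) with Fl p = Flat p.1, R ξ p q = q ∈ D' ξ,
length μ, p0 = a flat extension of t (flat_ext' with H = t.ht).  succ: p has an extension p' ∈ D' ξ; a flat extension of p' is still in
D' ξ (open).  lim: flat_lb (z ≤ μ < κ.ord).  The last element q μ is ≤ q (ξ+1) ∈ D' ξ for all ξ < μ.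
-/
import Pool.Agent.H40.IS.KFs
import Pool.Agent.H40.IS.Chn

namespace Pool.Agent.H40.IS
open Cardinal Ordinal Set
universe u
variable {κ : Cardinal.{u}}

theorem distJ (hκ : κ.IsInaccessible) (D : Ordinal.{u} → Tri.{u}) (J : Set Ordinal.{u}) :
    Dist κ ↥(PJ κ D J) := by
  intro μ hμ D' hD' t
  have key : ∀ p : ↥(PJ κ D J), ∃ q : ↥(PJ κ D J), q ≤ p ∧ Flat q.1 := by
    intro p
    obtain ⟨q, hq, hqp, -, hfl, -, -⟩ := flat_ext' (D := D) (J := J) hκ p.2 (H := p.1.ht) le_rfl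
      p.2.1.1.ht
    exact ⟨⟨q, hq⟩, hqp, hfl⟩
  obtain ⟨p0, hp0t, hp0⟩ := key t
  obtain ⟨q, hq0, -, hanti, hR⟩ := chain' (P := ↥(PJ κ D J)) (fun p => Flat p.1)
    (fun ξ _ q => q ∈ D' ξ) μ p0 hp0
    (by
      intro ξ hξ p _
      obtain ⟨p', hp', hpD⟩ := (hD' ξ hξ).2 p
      obtain ⟨q, hqp, hqf⟩ := key p'
      exact ⟨q, hqp.trans hp', hqf, (hD' ξ hξ).1 hqp hpD⟩)
    (by
      intro z hz hzl q hfl hanti
      have hz0 : 0 < z := by
        rcases eq_or_ne z 0 with h | h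
        · exact absurd (h ▸ isMin_bot) hzl.1
        · exact pos_iff_ne_zero.2 h
      obtain ⟨r, hr, hrf, hrq⟩ := flat_lb (D := D) (J := J) hκ hz0 (hz.trans_lt hμ)
        (q := fun ξ => (q ξ).1) (fun ξ _ => (q ξ).2) hfl (fun ξ η h1 h2 => hanti ξ η h1 h2)
      exact ⟨⟨r, hr⟩, hrf, hrq⟩)
  refine ⟨q μ, ?_, ?_⟩
  · have h1 : q μ ≤ q 0 := hanti 0 μ (by simp) le_rfl
    rw [hq0] at h1
    exact h1.trans hp0t
  · intro ξ hξ
    have h1 : ξ + 1 ≤ μ := Order.add_one_le_of_lt hξ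
    exact (hD' ξ hξ).1 (hanti (ξ + 1) μ h1 le_rfl) (hR ξ hξ)

end Pool.Agent.H40.IS
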