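/-
S2 (KLm).  The limit task is solvable if the sequence b at the limit point has a successor restriction outside the ranges.
Imports KUb, KPr, KFl only.  About 120 lines.
PROOF of Lm_exists.  AU g t z (fun ξ => (p ξ).1) Fs hs with hs _ = ε,
 Fs j = {f | IsS ε ∧ ∃ a, a + 1 < ε ∧ f = (t.1.b ε).res (a + 1) ∧ ∀ ξ < z, j ∈ (p ξ).1.supp → ∀ x, (x, f) ∉ ((p ξ).1.d j).pi}.
 hF: bounded by the bound of t.1.b ε (Base of t; ε ≤ t.1.ht); length a + 1 since (t.1.b ε).len = ε.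
 hs2: hε.  hsl: ε' ≤ ε in S with all h < ε': if ε' < ε then h2 gives some h > ε': contradiction; so ε' = ε: hseal.
 AU_mem, AU_le, AU_res, AU_d.  It is ≤ p ξ, its projection is t.
-/
import Pool.Agent.H40.IS.KFl
import Pool.Agent.H40.IS.KPr

namespace Pool.Agent.H40.IS
open Cardinal Ordinal Set
universe u
variable {κ : Cardinal.{u}} {D : Ordinal.{u} → Tri.{u}}

/-- the limit relation -/
def Lm (g z : Ordinal.{u}) (p : Ordinal.{u} → PT κ D) (p' : PT κ D) : Prop :=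
  (∀ ξ < z, p' ≤ p ξ) ∧ ∀ j, g ≤ j → j ∈ p'.1.supp → (∃ ξ < z, j ∈ (p ξ).1.supp) ∧
    ∀ x y, (x, y) ∈ (p'.1.d j).pi → ∃ ξ < z, j ∈ (p ξ).1.supp ∧ (x, y) ∈ ((p ξ).1.d j).pi

theorem Lm_congr {g z : Ordinal.{u}} {p q : Ordinal.{u} → PT κ D} {p' : PT κ D}
    (h : ∀ ξ < z, p ξ = q ξ) (hp : Lm g z p p') : Lm g z q p' := by
  obtain ⟨h1, h2⟩ := hp
  refine ⟨fun ξ hξ => ?_, fun j hj hjs => ?_⟩
  · rw [← h ξ hξ]
    exact h1 ξ hξ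
  · obtain ⟨⟨ξ, hξ, h3⟩, h4⟩ := h2 j hj hjs
    refine ⟨⟨ξ, hξ, ?_⟩, fun x y hxy => ?_⟩
    · rw [← h ξ hξ]
      exact h3
    · obtain ⟨η, hη, h5, h6⟩ := h4 x y hxy
      refine ⟨η, hη, ?_, ?_⟩
      · rw [← h η hη]
        exact h5
      · rw [← h η hη]
        exact h6

theorem Lm_exists (hκ : κ.IsInaccessible) {g : Ordinal.{u}} {t : QT κ D g} {z : Ordinal.{u}}
    (hz0 : 0 < z) (hz : z < κ.ord) {p : Ordinal.{u} → PT κ D}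
    (hanti : ∀ ξ η, ξ ≤ η → η < z → p η ≤ p ξ) (htp : ∀ ξ < z, t ≤ prj hκ D g (p ξ))
    {ε : Ordinal.{u}} (hε : ε ≤ t.1.ht)
    (h1 : ∀ ξ < z, ∀ j, g ≤ j → j ∈ (p ξ).1.supp → ((p ξ).1.d j).h ≤ ε)
    (h2 : ∀ α < ε, ∀ ξ < z, ∀ j, g ≤ j → j ∈ (p ξ).1.supp →
      ∃ η < z, j ∈ (p η).1.supp ∧ α < ((p η).1.d j).h)
    (hseal : IsS ε → ∀ j, g ≤ j → (∃ ξ < z, j ∈ (p ξ).1.supp) → ∃ a, a + 1 < ε ∧
      ∀ ξ < z, j ∈ (p ξ).1.supp → ∀ x, (x, (t.1.b ε).res (a + 1)) ∉ ((p ξ).1.d j).pi) :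
    ∃ p' : PT κ D, prj hκ D g p' = t ∧ Lm g z p p' := by
  have ht : t.1 ∈ PP κ D g := by
    rw [PP_eq_PJ]
    exact t.2
  have hB : Base κ t.1 := t.2.1.1
  let q : Ordinal.{u} → Raw.{u} := fun ξ => (p ξ).1
  let hs : Ordinal.{u} → Ordinal.{u} := fun _ => ε
  let Fs : Ordinal.{u} → Set So.{u} := fun j =>
    {f | IsS ε ∧ ∃ a, a + 1 < ε ∧ f = (t.1.b ε).res (a + 1) ∧
      ∀ ξ < z, j ∈ (p ξ).1.supp → ∀ x, (x, f) ∉ ((p ξ).1.d j).pi}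
  have htq : ∀ ξ < z, t.1 ≤ (q ξ).res g := fun ξ hξ => htp ξ hξ
  have hs1 : ∀ j, g ≤ j → ∀ ξ < z, j ∈ (q ξ).supp → ((q ξ).d j).h ≤ hs j :=
    fun j hj ξ hξ h => h1 ξ hξ j hj h
  have hF : ∀ j, g ≤ j → (∃ ξ < z, j ∈ (q ξ).supp) → ∃ γ < κ.ord, ∀ f ∈ Fs j,
      In γ f ∧ (∃ a, f.len = a + 1) ∧
        ∀ ξ < z, j ∈ (q ξ).supp → ∀ x, (x, f) ∉ ((q ξ).d j).pi := by
    intro j _ _
    by_cases hS : IsS ε
    · obtain ⟨hlen, γ, hγ, hγ2⟩ := hB.b ε hS hε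
      refine ⟨γ, hγ, ?_⟩
      rintro f ⟨_, a, ha, rfl, h3⟩
      refine ⟨In_res hγ2 _, ⟨a, ?_⟩, fun ξ hξ hj x => h3 ξ hξ hj x⟩
      rw [res_len, hlen]
      exact min_eq_right ha.le
    · refine ⟨0, kord_pos hκ, ?_⟩
      rintro f ⟨hS', _⟩
      exact absurd hS' hS
  have hsl : ∀ j, g ≤ j → (∃ ξ < z, j ∈ (q ξ).supp) → ∀ ε', IsS ε' → ε' ≤ hs j →
      (∀ ξ < z, j ∈ (q ξ).supp → ((q ξ).d j).h < ε') →
      ∃ a < ε', (t.1.b ε').res a ∈ Fs j ∨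
        ∃ ξ < z, j ∈ (q ξ).supp ∧ (t.1.b ε').res a ∈ ((q ξ).d j).F := by
    intro j hj hex ε' hS' hle hlt
    have hee : ε' = ε := by
      by_contra hne
      have hlt' : ε' < ε := lt_of_le_of_ne hle hne
      obtain ⟨ξ, hξ, hjs⟩ := hex
      obtain ⟨η, hη, h3, h4⟩ := h2 ε' hlt' ξ hξ j hj hjs
      exact absurd (hlt η hη h3) (not_lt.2 h4.le)
    rw [hee] at hS' ⊢
    obtain ⟨a, ha, h3⟩ := hseal hS' j hj hex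
    exact ⟨a + 1, ha, Or.inl ⟨hS', a, ha, rfl, h3⟩⟩
  have hmem : AU g t.1 z q Fs hs ∈ PV κ D :=
    AU_mem hκ ht hz0 hz (fun ξ _ => (p ξ).2.1) (fun ξ η h h' => hanti ξ η h h') htq hs1
      (fun _ _ _ => hε) hF hsl
  refine ⟨⟨AU g t.1 z q Fs hs, hmem, subset_univ _⟩, Subtype.ext (AU_res ht), ?_, ?_⟩
  · intro ξ hξ
    exact AU_le htq hs1 ξ hξ
  · intro j hj hjs
    obtain ⟨hex, hpi, _, _⟩ := AU_d ht hj hjs
    refine ⟨hex, fun x y hxy => ?_⟩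
    change (x, y) ∈ ((AU g t.1 z q Fs hs).d j).pi at hxy
    rw [hpi] at hxy
    exact hxy

end Pool.Agent.H40.IS
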