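/-
S1 (KSt).  The successor task is solvable.  Imports KFl, KPr, Bas only.  About 120 lines.
St g C β X p p': p' ≤ p; for every j ∈ supp p with g ≤ j: β < h of p' at j, and every x ∈ X of successor length which is not in the range
of pi_j of p is in F_j of p'; p' is in C e for some e with β < e ≤ height of p'.
PROOF of St_dense.  addF with Fs j = {x ∈ X | g ≤ j, successor length, not in ran (p.1.d j).pi}: p1 ≤ p; at j < g nothing changes
 (Fs j = ∅, F ∪ ∅ = F), so p1.res g = p.res g and t ≤ prj p1.  p2 = amj t p1 ≤ p1, p2 ≤ q0.  hC.unb (with α = β; p2 ≤ q0): p3 ≤ p2,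
 e > β, e < κ.ord, p3 ∈ C e.  flat_ext' with H = max p3.ht (max e (β + 1)): p4 ≤ p3 flat; p4 ∈ C e ((hC.reg e).1).  t' = prj p4 ≤ prj p2 = t.
-/
import Pool.Agent.H40.IS.KFl
import Pool.Agent.H40.IS.KPr
import Pool.Agent.H40.IS.Bas

namespace Pool.Agent.H40.IS
open Cardinal Ordinal Set
universe u
variable {κ : Cardinal.{u}} {D : Ordinal.{u} → Tri.{u}}

/-- the step relation -/
def St (g : Ordinal.{u}) (C : Ordinal.{u} → Set (PT κ D)) (β : Ordinal.{u}) (X : Set So.{u})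
    (p p' : PT κ D) : Prop :=
  p' ≤ p ∧ (∀ j ∈ p.1.supp, g ≤ j → β < (p'.1.d j).h ∧ ∀ x ∈ X, (∃ a, x.len = a + 1) →
    (∀ y, (y, x) ∉ (p.1.d j).pi) → x ∈ (p'.1.d j).F) ∧ ∃ e, β < e ∧ e ≤ p'.1.ht ∧ p' ∈ C e

theorem St_dense (hκ : κ.IsInaccessible) {g : Ordinal.{u}} {q0 : PT κ D}
    {C : Ordinal.{u} → Set (PT κ D)} (hC : ClubName κ q0 C) {t : QT κ D g} {p : PT κ D} (hp : p ≤ q0)
    (ht : t ≤ prj hκ D g p) {β γ : Ordinal.{u}} (hβ : β < κ.ord) (hγ : γ < κ.ord) {X : Set So.{u}}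
    (hX : ∀ x ∈ X, In γ x) :
    ∃ t' ≤ t, ∃ p' : PT κ D, t' ≤ prj hκ D g p' ∧ St g C β X p p' := by
  obtain ⟨p1, hp1, hle1, hht1, hb1, hs1, hd1⟩ := addF hκ p.2
    (Fs := fun j => {x | x ∈ X ∧ g ≤ j ∧ (∃ a, x.len = a + 1) ∧ ∀ y, (y, x) ∉ (p.1.d j).pi})
    (fun j _ => ⟨γ, hγ, fun f hf => ⟨hX f hf.1, hf.2.2.1, hf.2.2.2⟩⟩)
  have hres : p1.res g = p.1.res g := by
    have hd : ∀ i, i < g → p1.d i = p.1.d i := by
      intro i hi
      by_cases hj : i ∈ p.1.supp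
      · rw [hd1 i hj]
        have h2 : {x | x ∈ X ∧ g ≤ i ∧ (∃ a, x.len = a + 1) ∧ ∀ y, (y, x) ∉ (p.1.d i).pi} =
            (∅ : Set So.{u}) := by
          ext x
          constructor
          · rintro ⟨-, h3, -⟩
            exact absurd hi (not_lt.2 h3)
          · intro h3
            exact absurd h3 (notMem_empty x)
        rw [h2, union_empty]
      · rw [p.2.1.1.nd i hj, hp1.1.1.nd i (fun h => hj (hs1 ▸ h))]
    apply Raw.ext
    · exact hht1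
    · exact hb1
    · change p1.supp ∩ Iio g = p.1.supp ∩ Iio g
      rw [hs1]
    · funext i
      rcases lt_or_ge i g with hi | hi
      · rw [res_d_lt hi, res_d_lt hi, hd i hi]
      · rw [res_d_ge hi, res_d_ge hi]
  have ht1 : t ≤ prj hκ D g ⟨p1, hp1⟩ := by
    change t.1 ≤ p1.res g
    rw [hres]
    exact ht
  have hle2 : amj hκ D g t ⟨p1, hp1⟩ ≤ (⟨p1, hp1⟩ : PT κ D) := amj_le hκ ht1
  have hle1' : (⟨p1, hp1⟩ : PT κ D) ≤ p := hle1
  obtain ⟨p3, hle3, e, hβe, hek, hpe⟩ := hC.unb β hβ _ (hle2.trans (hle1'.trans hp))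
  have hp3 : p3.1.ht < κ.ord := p3.2.1.1.ht
  obtain ⟨q, hq, hle4, hqht, hflat, hqs, -⟩ := flat_ext' hκ p3.2
    (H := max p3.1.ht (max e (β + 1))) (le_max_left _ _)
    (max_lt hp3 (max_lt hek (kord_limit hκ hβ)))
  have hle4' : (⟨q, hq⟩ : PT κ D) ≤ p3 := hle4
  have hle42 : (⟨q, hq⟩ : PT κ D) ≤ amj hκ D g t ⟨p1, hp1⟩ := hle4'.trans hle3
  have hle41 : q ≤ p1 := hle42.trans hle2
  refine ⟨prj hκ D g ⟨q, hq⟩, ?_, ⟨q, hq⟩, le_rfl, ?_, ?_, e, hβe, ?_, (hC.reg e).1 hle4' hpe⟩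
  · refine (prj_mono hκ hle42).trans ?_
    rw [prj_amj hκ ht1]
  · exact (hle42.trans hle2).trans hle1'
  · intro j hj hgj
    have hj1 : j ∈ p1.supp := by
      rw [hs1]
      exact hj
    have hjq : j ∈ q.supp := hle41.2.2.1 hj1
    refine ⟨?_, fun x hx ha hy => ?_⟩
    · change β < (q.d j).h
      rw [hflat j hjq, hqht]
      exact (lt_add_one β).trans_le ((le_max_right _ _).trans (le_max_right _ _))
    · change x ∈ (q.d j).F
      apply (hle41.2.2.2 j hj1).2.1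
      rw [hd1 j hj]
      exact Or.inr ⟨hx, hgj, ha, hy⟩
  · change e ≤ q.ht
    rw [hqht]
    exact (le_max_left _ _).trans (le_max_right _ _)

end Pool.Agent.H40.IS
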