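/-
SP-d (OSq).  Ordinal combinatorics: a continuous cofinal sequence of closure points with large cofinality at successors.
Imports KSm only.  About 150 lines.  κ is the least inaccessible.
PROOF.  cof_lt: let μ = δ.cof.ord.  δ is closed under c ↦ (2^|c|).ord, so δ = (δ.card).ord and δ.card is a strong limit cardinal (hsl;
ω < δ); if δ.cof = δ.card it would be regular, uncountable, strong limit, i.e. inaccessible and < κ.  So δ.cof < δ.card, μ < δ.
club_seq: μ = δ.cof.ord is a limit ordinal < δ; f : Iio μ → δ cofinal.  Define dl by recursion: dl 0 = w μ,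
dl (ξ+1) = w (max (max (dl ξ) (f ξ)) μ), dl z = sup_{ξ<z} dl ξ.  dl ξ < δ for ξ < μ because cof δ = μ (sup of fewer than cof δ ordinals
< δ is < δ).  dl μ = δ (cofinal).  Strictly increasing: c < w c.  dl ξ ∈ Dt: at limits by hDt.  (dl (ξ+1)).cof > card of the argument
≥ μ.card.
-/
import Pool.Agent.H40.IS.KSm

namespace Pool.Agent.H40.IS
open Cardinal Ordinal Set
universe u
variable {κ : Cardinal.{u}}

/-- `κ` is the least inaccessible cardinal -/
def Lst (κ : Cardinal.{u}) : Prop := κ.IsInaccessible ∧ ∀ c < κ, ¬ c.IsInaccessible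

private theorem osq_card {δ : Ordinal.{u}}
    (hsl : ∀ c < δ, ((2 : Cardinal.{u}) ^ c.card).ord < δ) : δ.card.ord = δ := by
  refine le_antisymm (ord_card_le δ) ?_
  by_contra hcon
  have h1 : δ.card.ord < δ := not_le.mp hcon
  have h2 := hsl _ h1
  rw [card_ord] at h2
  have h3 := Ordinal.card_le_card h2.le
  rw [card_ord] at h3
  exact absurd (cantor δ.card) (not_lt.mpr h3)

private theorem osq_aleph {δ : Ordinal.{u}} (hω : ω < δ)
    (hsl : ∀ c < δ, ((2 : Cardinal.{u}) ^ c.card).ord < δ) : ℵ₀ < δ.card := by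
  have h2 := hsl _ hω
  rw [card_omega0] at h2
  have h3 := Ordinal.card_le_card h2.le
  rw [card_ord] at h3
  exact (cantor ℵ₀).trans_le h3

theorem cof_lt (hκ : Lst κ) {δ : Ordinal.{u}} (hδ : δ < κ.ord) (hω : ω < δ)
    (hsl : ∀ c < δ, ((2 : Cardinal.{u}) ^ c.card).ord < δ) : δ.cof.ord < δ := by
  have h1 := osq_card hsl
  by_contra hcon
  have h2 : δ ≤ δ.cof.ord := not_lt.mp hcon
  have h3 : δ.card ≤ δ.card.ord.cof := by
    rw [h1]
    rw [← h1] at h2
    rw [h1] at h2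
    have h4 := Ordinal.card_le_card h2
    rwa [card_ord] at h4
  have h5 : δ.card < κ := lt_ord.mp hδ
  refine hκ.2 _ h5 ⟨osq_aleph hω hsl, h3, ?_⟩
  intro x hx
  have h6 : x.ord < δ := by
    rw [← h1]
    exact ord_lt_ord.mpr hx
  have h7 := hsl _ h6
  rw [card_ord, ← h1] at h7
  exact ord_lt_ord.mp h7

/-- a cofinal map -/
private theorem osq_cofinal (δ : Ordinal.{u}) : ∃ f : Ordinal.{u} → Ordinal.{u},
    (∀ ξ < δ.cof.ord, f ξ < δ) ∧ ∀ c < δ, ∃ ξ < δ.cof.ord, c ≤ f ξ := by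
  classical
  obtain ⟨S, hS1, hS2⟩ := Order.exists_cof_eq (α := δ.ToType)
  have h1 : #S = #(δ.cof.ord.ToType) := by
    rw [hS2, cof_toType, mk_toType, card_ord]
  obtain ⟨e⟩ := Cardinal.eq.mp h1
  refine ⟨fun ξ => if h : ξ < δ.cof.ord then
    Ordinal.typein (α := δ.ToType) (· < ·) (e.symm (Ordinal.enum (α := δ.cof.ord.ToType) (· < ·)
      ⟨ξ, by rw [type_toType]; exact h⟩)).1 else 0, ?_, ?_⟩
  · intro ξ hξ
    simp only [dif_pos hξ]
    exact typein_lt_self _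
  · intro c hc
    have hc' : c < Ordinal.type (α := δ.ToType) (· < ·) := by
      rw [type_toType]
      exact hc
    obtain ⟨b, hb, hcb⟩ := hS1 (Ordinal.enum (α := δ.ToType) (· < ·) ⟨c, hc'⟩)
    have hξ : Ordinal.typein (α := δ.cof.ord.ToType) (· < ·) (e ⟨b, hb⟩) < δ.cof.ord :=
      typein_lt_self _
    refine ⟨_, hξ, ?_⟩
    simp only [dif_pos hξ, enum_typein, Equiv.symm_apply_apply]
    rw [← not_lt, ← typein_le_typein, typein_enum] at hcb
    exact hcb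

theorem club_seq (hκ : Lst κ) {δ : Ordinal.{u}} (hδ : δ < κ.ord) (hω : ω < δ)
    (hsl : ∀ c < δ, ((2 : Cardinal.{u}) ^ c.card).ord < δ) (Dt : Set Ordinal.{u})
    (hDt : ∀ d ≤ δ, 0 < d → (∀ c < d, ∃ d' ∈ Dt, c < d' ∧ d' ≤ d) → d ∈ Dt)
    (w : Ordinal.{u} → Ordinal.{u})
    (hw : ∀ c < δ, w c < δ ∧ c < w c ∧ c.card < (w c).cof ∧ w c ∈ Dt) :
    ∃ (μ : Ordinal.{u}) (dl : Ordinal.{u} → Ordinal.{u}), Order.IsSuccLimit μ ∧ μ < dl 0 ∧ dl μ = δ ∧
      (∀ ξ η, ξ < η → η ≤ μ → dl ξ < dl η) ∧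
      (∀ z ≤ μ, Order.IsSuccLimit z → ∀ c < dl z, ∃ ξ < z, c < dl ξ) ∧
      (∀ ξ ≤ μ, dl ξ ∈ Dt) ∧ ∀ ξ < μ, μ.card < (dl (ξ + 1)).cof := by
  have hμδ := cof_lt hκ hδ hω hsl
  have hδlim : Order.IsSuccLimit δ := by
    rw [← osq_card hsl]
    exact isSuccLimit_ord (osq_aleph hω hsl).le
  have hcof : ℵ₀ ≤ δ.cof := aleph0_le_cof.mpr hδlim
  have hμlim : Order.IsSuccLimit δ.cof.ord := isSuccLimit_ord hcof
  obtain ⟨f, hf1, hf2⟩ := osq_cofinal δ
  set μ := δ.cof.ord with hμ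
  let dl : Ordinal.{u} → Ordinal.{u} := fun o => Ordinal.limitRecOn (motive := fun _ => Ordinal.{u})
    o (w μ) (fun ξ ih => w (max (max ih (f ξ)) μ)) (fun z _ ih => ⨆ ξ : Iio z, ih ξ.1 ξ.2)
  have d0 : dl 0 = w μ := Ordinal.limitRecOn_zero _ _ _
  have d1 : ∀ ξ, dl (ξ + 1) = w (max (max (dl ξ) (f ξ)) μ) := fun ξ =>
    Ordinal.limitRecOn_add_one _ _ _ _
  have d2 : ∀ z, Order.IsSuccLimit z → dl z = ⨆ ξ : Iio z, dl ξ.1 := fun z hz =>
    Ordinal.limitRecOn_limit _ _ _ _ hz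
  have hle : ∀ z, Order.IsSuccLimit z → ∀ ξ < z, dl ξ ≤ dl z := by
    intro z hz ξ hξ
    rw [d2 z hz]
    exact Ordinal.le_iSup (fun ξ : Iio z => dl ξ.1) ⟨ξ, hξ⟩
  have hlt : ∀ z, Order.IsSuccLimit z → ∀ c < dl z, ∃ ξ < z, c < dl ξ := by
    intro z hz c hc
    rw [d2 z hz, Ordinal.lt_iSup_iff] at hc
    obtain ⟨ξ, hξ⟩ := hc
    exact ⟨ξ.1, ξ.2, hξ⟩
  have main : ∀ ξ, ξ < μ → dl ξ < δ ∧ μ ≤ dl ξ ∧ ∀ η < ξ, dl η < dl ξ := by
    intro ξ
    induction ξ using Ordinal.limitRecOn with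
    | zero =>
      intro _
      rw [d0]
      exact ⟨(hw μ hμδ).1, (hw μ hμδ).2.1.le, fun η hη => absurd hη (not_lt.mpr (zero_le))⟩
    | add_one ξ ih =>
      intro hξ
      have hξ' : ξ < μ := (Order.lt_add_one_iff.mpr le_rfl).trans hξ
      obtain ⟨i1, i2, i3⟩ := ih hξ'
      have hc : max (max (dl ξ) (f ξ)) μ < δ := max_lt (max_lt i1 (hf1 ξ hξ')) hμδ
      have h1 : dl ξ < dl (ξ + 1) := by
        rw [d1]
        exact ((le_max_left _ _).trans (le_max_left _ _)).trans_lt (hw _ hc).2.1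
      refine ⟨?_, ?_, ?_⟩
      · rw [d1]
        exact (hw _ hc).1
      · exact i2.trans h1.le
      · intro η hη
        rcases (Order.lt_add_one_iff.mp hη).lt_or_eq with h2 | h2
        · exact (i3 η h2).trans h1
        · rw [h2]
          exact h1
    | limit z hz ih =>
      intro hzμ
      refine ⟨?_, ?_, ?_⟩
      · rw [d2 z hz]
        refine Ordinal.lift_iSup_lt_of_lt_cof ?_ fun ξ => (ih ξ.1 ξ.2 (ξ.2.trans hzμ)).1
        have h1 : z.card < δ.cof := lt_ord.mp hzμ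
        rw [← lift_cof, Cardinal.mk_Iio_ordinal, Cardinal.lift_lift]
        exact Cardinal.lift_lt.mpr h1
      · exact (ih 0 hz.bot_lt (hz.bot_lt.trans hzμ)).2.1.trans (hle z hz 0 hz.bot_lt)
      · intro η hη
        have hη1 : η + 1 < z := hz.add_one_lt hη
        exact ((ih (η + 1) hη1 (hη1.trans hzμ)).2.2 η (Order.lt_add_one_iff.mpr le_rfl)).trans_le
          (hle z hz _ hη1)
  have hdμ : dl μ = δ := by
    refine le_antisymm ?_ ?_
    · rw [d2 μ hμlim]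
      exact Ordinal.iSup_le fun ξ => (main ξ.1 ξ.2).1.le
    · by_contra hcon
      obtain ⟨ξ, hξ, hξ2⟩ := hf2 _ (not_le.mp hcon)
      have hξ1 : ξ + 1 < μ := hμlim.add_one_lt hξ
      have hc : max (max (dl ξ) (f ξ)) μ < δ := max_lt (max_lt (main ξ hξ).1 (hf1 ξ hξ)) hμδ
      have h1 : f ξ < dl (ξ + 1) := by
        rw [d1]
        exact ((le_max_right _ _).trans (le_max_left _ _)).trans_lt (hw _ hc).2.1
      exact absurd (hξ2.trans_lt h1) (not_lt.mpr (hle μ hμlim _ hξ1))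
  refine ⟨μ, dl, hμlim, ?_, hdμ, ?_, ?_, ?_, ?_⟩
  · rw [d0]
    exact (hw μ hμδ).2.1
  · intro ξ η h1 h2
    rcases h2.lt_or_eq with h3 | h3
    · exact (main η h3).2.2 ξ h1
    · subst h3
      rw [hdμ]
      exact (main ξ h1).1
  · intro z _ hz c hc
    exact hlt z hz c hc
  · intro ξ
    induction ξ using Ordinal.limitRecOn with
    | zero =>
      intro _
      rw [d0]
      exact (hw μ hμδ).2.2.2
    | add_one ξ _ =>
      intro hξ
      have hξ' : ξ < μ := (Order.lt_add_one_iff.mpr le_rfl).trans_le hξ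
      rw [d1]
      exact (hw _ (max_lt (max_lt (main ξ hξ').1 (hf1 ξ hξ')) hμδ)).2.2.2
    | limit z hz ih =>
      intro hzμ
      refine hDt _ ?_ ?_ ?_
      · rcases hzμ.lt_or_eq with h1 | h1
        · exact (main z h1).1.le
        · rw [h1, hdμ]
      · exact (zero_le).trans_lt (((main (0 + 1) (hμlim.add_one_lt hμlim.bot_lt)).2.2 0
            (Order.lt_add_one_iff.mpr le_rfl)).trans_le (hle z hz _ (hz.add_one_lt hz.bot_lt)))
      · intro c hc
        obtain ⟨ξ, h1, h2⟩ := hlt z hz c hc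
        exact ⟨dl ξ, ih ξ h1 (h1.le.trans hzμ), h2, hle z hz ξ h1⟩
  · intro ξ hξ
    have hc : max (max (dl ξ) (f ξ)) μ < δ := max_lt (max_lt (main ξ hξ).1 (hf1 ξ hξ)) hμδ
    rw [d1]
    exact (Ordinal.card_le_card (le_max_right _ _)).trans_lt (hw _ hc).2.2.1

end Pool.Agent.H40.IS
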