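/-
S7a (KR1).  The sets X ξ and the sealing lemma at limits.  Imports KSt, KLm, OSq only.  About 200 lines.
`Orc` (oracle) is the situation below a closure point: μ = cofinality, dl = continuous cofinal sequence of closure points, e = enumeration of
conditions, and solutions of tasks are found below the closure points.
xz ξ z = the first successor restriction of b_{dl z} which is not bounded below dl ξ; XX ξ = those which are bounded below dl (ξ+1).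
PROOFS.
XX_bdd: XX ξ is contained in the image of Iic μ under z ↦ xz ξ z; each member is In γ_z with γ_z < dl (ξ+1); the supremum of the
 γ_z (z ≤ μ) is < dl (ξ+1) because μ.card < cof (dl (ξ+1)) (μ infinite, so Iic μ has card μ.card) (Ordinal.iSup_lt_of_lt_cof / lift version).
seal_lim: let ξ0 < z with j ∈ supp (p ξ0), B = t.1.b (dl z); B.len = dl z (Base of t.1, dl z ≤ dl μ ≤ t.1.ht).  a0 = least a with
 ¬ Lt (dl ξ0) (B.res (a+1)); it exists and a0 ≤ dl ξ0 since B.res (dl ξ0 + 1) has length dl ξ0 + 1 (dl ξ0 + 1 ≤ dl (ξ0+1) ≤ dl z).  So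
 a0 + 1 < dl z (dl ξ0 + 1 ≤ dl (ξ0 + 1) < dl z).  Put x = B.res (a0 + 1); claim: x is in no ran pi_j of p ξ, ξ < z.
 Case A: ¬ Lt (dl z) x: all ranges are Lt (dl ξ), so Lt (dl z) (Lt_mono).
 Case B: Lt (dl z) x.  Let η' be the least η' ≤ z with Lt (dl η') x: it is < z and not a limit (Lt_limit with cont), and > ξ0 (Lt_mono);
 so η' = η + 1 with ξ0 ≤ η < z, ¬ Lt (dl η) x, Lt (dl (η+1)) x.  The least a with ¬ Lt (dl η) (B.res (a+1)) is a0: ≤ a0 clear, ≥ a0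
 since ¬ Lt (dl η) implies ¬ Lt (dl ξ0).  So x = xz η z ∈ XX η.  j ∈ supp (p η); x is not in ran pi_j of p η (range Lt (dl η)); by St,
 x ∈ F_j of p (η+1).  For ξ ≤ η + 1: pi_ξ ⊆ pi_{η+1}, contradiction with dis of p (η+1); for ξ > η + 1: x ∈ F_j of p ξ, dis of p ξ.
-/
import Pool.Agent.H40.IS.KSt
import Pool.Agent.H40.IS.KLm
import Pool.Agent.H40.IS.OSq

namespace Pool.Agent.H40.IS
open Cardinal Ordinal Set
universe u
variable {κ : Cardinal.{u}} {D : Ordinal.{u} → Tri.{u}}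

/-- the situation below a closure point -/
structure Orc (hκ : κ.IsInaccessible) (D : Ordinal.{u} → Tri.{u}) (g : Ordinal.{u})
    (C : Ordinal.{u} → Set (PT κ D)) (t : QT κ D g) (e : Ordinal.{u} → PT κ D) (μ : Ordinal.{u})
    (dl : Ordinal.{u} → Ordinal.{u}) : Prop where
  lim : Order.IsSuccLimit μ
  mu0 : μ < dl 0
  ht : dl μ ≤ t.1.ht
  inc : ∀ ξ η, ξ < η → η ≤ μ → dl ξ < dl η
  cont : ∀ z ≤ μ, Order.IsSuccLimit z → ∀ c < dl z, ∃ ξ < z, c < dl ξ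
  cof : ∀ ξ < μ, μ.card < (dl (ξ + 1)).cof
  bd : ∀ ξ ≤ μ, ∀ i < dl ξ, ∃ ρ < dl ξ, (e i).1.ht ≤ ρ ∧
    ∀ j, g ≤ j → j ∈ (e i).1.supp → ∀ x y, (x, y) ∈ ((e i).1.d j).pi → In ρ y
  e0 : t ≤ prj hκ D g (e 0)
  st : ∀ ξ ≤ μ, ∀ i β γ, i < γ → β < γ → γ < dl ξ → ∀ X : Set So.{u}, (∀ x ∈ X, In γ x) →
    t ≤ prj hκ D g (e i) → e i ≤ e 0 →
    ∃ v < dl ξ, t ≤ prj hκ D g (e v) ∧ St g C β X (e i) (e v)
  lm : ∀ ξ ≤ μ, ∀ γ < dl ξ, ∀ z : So.{u}, In γ z → 0 < z.len →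
    (∃ p', prj hκ D g p' = t ∧ Lm g z.len (fun a => e (z.val a)) p') →
    ∃ v < dl ξ, t ≤ prj hκ D g (e v) ∧ Lm g z.len (fun a => e (z.val a)) (e v)

/-- the first successor restriction of `b (dl z)` not bounded below `dl ξ` -/
noncomputable def xz {g : Ordinal.{u}} (t : QT κ D g) (dl : Ordinal.{u} → Ordinal.{u})
    (ξ z : Ordinal.{u}) : So.{u} :=
  (t.1.b (dl z)).res (sInf {a | ¬ Lt (dl ξ) ((t.1.b (dl z)).res (a + 1))} + 1)

/-- the sequences to be forbidden at step `ξ` -/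
def XX {g : Ordinal.{u}} (t : QT κ D g) (dl : Ordinal.{u} → Ordinal.{u}) (μ ξ : Ordinal.{u}) :
    Set So.{u} :=
  {x | Lt (dl (ξ + 1)) x ∧ ∃ z, ξ < z ∧ z ≤ μ ∧ IsS (dl z) ∧ x = xz t dl ξ z}

theorem Orc.le {hκ : κ.IsInaccessible} {g : Ordinal.{u}} {C : Ordinal.{u} → Set (PT κ D)}
    {t : QT κ D g} {e : Ordinal.{u} → PT κ D} {μ : Ordinal.{u}} {dl : Ordinal.{u} → Ordinal.{u}}
    (h : Orc hκ D g C t e μ dl) {ξ η : Ordinal.{u}} (h1 : ξ ≤ η) (h2 : η ≤ μ) : dl ξ ≤ dl η := by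
  rcases h1.lt_or_eq with h3 | h3
  · exact (h.inc ξ η h3 h2).le
  · rw [h3]

theorem XX_bdd {hκ : κ.IsInaccessible} {g : Ordinal.{u}} {C : Ordinal.{u} → Set (PT κ D)}
    {t : QT κ D g} {e : Ordinal.{u} → PT κ D} {μ : Ordinal.{u}} {dl : Ordinal.{u} → Ordinal.{u}}
    (h : Orc hκ D g C t e μ dl) {ξ : Ordinal.{u}} (hξ : ξ < μ) :
    ∃ γ < dl (ξ + 1), ∀ x ∈ XX t dl μ ξ, In γ x := by
  classical
  have hpos : 0 < dl (ξ + 1) := by
    have h1 : dl ξ < dl (ξ + 1) := h.inc ξ (ξ + 1) (lt_add_one ξ) (Order.add_one_le_of_lt hξ)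
    exact lt_of_le_of_lt (zero_le) h1
  have hex : ∀ z : Ordinal.{u}, ∃ γ < dl (ξ + 1), Lt (dl (ξ + 1)) (xz t dl ξ z) →
      In γ (xz t dl ξ z) := by
    intro z
    by_cases hz : Lt (dl (ξ + 1)) (xz t dl ξ z)
    · obtain ⟨γ, h1, h2⟩ := hz
      exact ⟨γ, h1, fun _ => h2⟩
    · exact ⟨0, hpos, fun h1 => absurd h1 hz⟩
  choose f hf1 hf2 using hex
  have hcard : ℵ₀ ≤ μ.card := (aleph0_le_cof.mpr h.lim).trans (cof_le_card μ)
  have hcof := h.cof ξ hξ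
  have hc1 : (μ + 1).card < (dl (ξ + 1)).cof := by
    rw [card_add, card_one]
    exact Cardinal.add_lt_of_lt (hcard.trans hcof.le) hcof
      (Cardinal.one_lt_aleph0.trans_le (hcard.trans hcof.le))
  refine ⟨⨆ z : Iio (μ + 1), f z.1, ?_, ?_⟩
  · refine Ordinal.lift_iSup_lt_of_lt_cof ?_ fun z => hf1 z.1
    rw [← lift_cof, Cardinal.mk_Iio_ordinal, Cardinal.lift_lift]
    exact Cardinal.lift_lt.mpr hc1
  · rintro x ⟨hx, z, hξz, hzμ, -, rfl⟩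
    have h1 : f z ≤ ⨆ z : Iio (μ + 1), f z.1 :=
      Ordinal.le_iSup (fun z : Iio (μ + 1) => f z.1) ⟨z, Order.lt_add_one_iff.mpr hzμ⟩
    exact In_mono h1 (hf2 z hx)

theorem seal_lim {hκ : κ.IsInaccessible} {g : Ordinal.{u}} {C : Ordinal.{u} → Set (PT κ D)}
    {t : QT κ D g} {e : Ordinal.{u} → PT κ D} {μ : Ordinal.{u}} {dl : Ordinal.{u} → Ordinal.{u}}
    (h : Orc hκ D g C t e μ dl) {z : Ordinal.{u}} (hz : z ≤ μ) (hzl : Order.IsSuccLimit z)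
    (hS : IsS (dl z)) {p : Ordinal.{u} → PT κ D} (hanti : ∀ ξ η, ξ ≤ η → η < z → p η ≤ p ξ)
    (hran : ∀ ξ < z, ∀ j, g ≤ j → j ∈ (p ξ).1.supp → ∀ x y, (x, y) ∈ ((p ξ).1.d j).pi → Lt (dl ξ) y)
    (hst : ∀ ξ < z, St g C (dl ξ) (XX t dl μ ξ) (p ξ) (p (ξ + 1)))
    {j : Ordinal.{u}} (hj : g ≤ j) (hjs : ∃ ξ < z, j ∈ (p ξ).1.supp) :
    ∃ a, a + 1 < dl z ∧ ∀ ξ < z, j ∈ (p ξ).1.supp →
      ∀ x, (x, (t.1.b (dl z)).res (a + 1)) ∉ ((p ξ).1.d j).pi := by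
  obtain ⟨ξ0, hξ0, hj0⟩ := hjs
  have hht : dl z ≤ t.1.ht := (h.le hz le_rfl).trans h.ht
  have hBlen : (t.1.b (dl z)).len = dl z := (t.2.1.1.b (dl z) hS hht).1
  set B := t.1.b (dl z) with hB
  have hd0 : dl ξ0 < dl z := h.inc ξ0 z hξ0 hz
  have hmem0 : dl ξ0 ∈ {a | ¬ Lt (dl ξ0) (B.res (a + 1))} := by
    rintro ⟨γ, hγ, hin⟩
    have h1 : (B.res (dl ξ0 + 1)).len < γ := hin.1
    rw [res_len, hBlen, min_eq_right (IsS_add_one hS hd0).le] at h1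
    exact absurd ((lt_add_one (dl ξ0)).trans (h1.trans hγ)) (lt_irrefl _)
  obtain ⟨a0, ha0⟩ : ∃ a0, a0 = sInf {a | ¬ Lt (dl ξ0) (B.res (a + 1))} := ⟨_, rfl⟩
  have ha0mem : ¬ Lt (dl ξ0) (B.res (a0 + 1)) := by
    rw [ha0]
    exact csInf_mem (s := {a | ¬ Lt (dl ξ0) (B.res (a + 1))}) ⟨_, hmem0⟩
  have ha0min : ∀ a, ¬ Lt (dl ξ0) (B.res (a + 1)) → a0 ≤ a := by
    intro a ha
    rw [ha0]
    exact csInf_le' ha
  have ha0le : a0 ≤ dl ξ0 := ha0min _ hmem0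
  have ha0z : a0 + 1 < dl z := IsS_add_one hS (ha0le.trans_lt hd0)
  have hxlen : (B.res (a0 + 1)).len = a0 + 1 := by
    rw [res_len, hBlen, min_eq_right ha0z.le]
  refine ⟨a0, ha0z, ?_⟩
  by_cases hLt : Lt (dl z) (B.res (a0 + 1))
  swap
  · intro ξ hξ hjξ x hx
    exact hLt (Lt_mono (h.le hξ.le hz) (hran ξ hξ j hj hjξ x _ hx))
  · -- the least `η'` with `Lt (dl η') x`
    obtain ⟨η', hη'⟩ : ∃ η', η' = sInf {η' | η' ≤ z ∧ Lt (dl η') (B.res (a0 + 1))} := ⟨_, rfl⟩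
    have hmem : η' ≤ z ∧ Lt (dl η') (B.res (a0 + 1)) := by
      rw [hη']
      exact csInf_mem (s := {η' | η' ≤ z ∧ Lt (dl η') (B.res (a0 + 1))}) ⟨z, le_rfl, hLt⟩
    have hmin : ∀ η, η ≤ z → Lt (dl η) (B.res (a0 + 1)) → η' ≤ η := by
      intro η h1 h2
      rw [hη']
      exact csInf_le' ⟨h1, h2⟩
    have hξη' : ξ0 < η' := by
      by_contra hcon
      exact ha0mem (Lt_mono (h.le (not_lt.1 hcon) (hξ0.le.trans hz)) hmem.2)
    have hnl : ∀ y, y ≤ z → Order.IsSuccLimit y → Lt (dl y) (B.res (a0 + 1)) → η' < y := by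
      intro y hyz hy hL
      obtain ⟨d, ⟨ξ, hξ, rfl⟩, hd⟩ := Lt_limit hL (T := dl '' Iio y) (by
        intro c hc
        obtain ⟨ξ, h1, h2⟩ := h.cont y (hyz.trans hz) hy c hc
        exact ⟨dl ξ, ⟨ξ, h1, rfl⟩, h2⟩)
      exact (hmin ξ (le_of_lt (lt_of_lt_of_le hξ hyz)) hd).trans_lt hξ
    have hη'z : η' < z := hnl z le_rfl hzl hLt
    obtain ⟨η, rfl⟩ : ∃ η, η' = η + 1 := by
      rcases Ordinal.zero_or_succ_or_isSuccLimit η' with h1 | ⟨η, h1⟩ | h1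
      · rw [h1] at hξη'
        exact absurd hξη' (not_lt.2 (zero_le))
      · exact ⟨η, h1.symm⟩
      · exact absurd (hnl η' hη'z.le h1 hmem.2) (lt_irrefl _)
    have hξ0η : ξ0 ≤ η := Order.lt_add_one_iff.1 hξη'
    have hηz : η < z := (lt_add_one η).trans hη'z
    have hηn : ¬ Lt (dl η) (B.res (a0 + 1)) := by
      intro hL
      exact absurd (hmin η hηz.le hL) (not_le.2 (lt_add_one η))
    have hinf : sInf {a | ¬ Lt (dl η) (B.res (a + 1))} = a0 := by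
      refine le_antisymm (csInf_le' hηn) (le_csInf ⟨a0, hηn⟩ ?_)
      intro a ha
      refine ha0min a fun hL => ha (Lt_mono (h.le hξ0η (hηz.le.trans hz)) hL)
    have hxz : xz t dl η z = B.res (a0 + 1) := by
      unfold xz
      rw [← hB, hinf]
    have hXX : B.res (a0 + 1) ∈ XX t dl μ η := ⟨hmem.2, z, hηz, hz, hS, hxz.symm⟩
    have hjη : j ∈ (p η).1.supp := (hanti ξ0 η hξ0η hηz).2.2.1 hj0
    have hnot : ∀ y, (y, B.res (a0 + 1)) ∉ ((p η).1.d j).pi := by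
      intro y hy
      exact hηn (hran η hηz j hj hjη y _ hy)
    have hF : B.res (a0 + 1) ∈ ((p (η + 1)).1.d j).F :=
      ((hst η hηz).2.1 j hjη hj).2 _ hXX ⟨a0, hxlen⟩ hnot
    have hjη1 : j ∈ (p (η + 1)).1.supp := (hst η hηz).1.2.2.1 hjη
    intro ξ hξ hjξ x hx
    rcases le_total ξ (η + 1) with h1 | h1
    · have h2 : (p (η + 1)).1 ≤ (p ξ).1 := hanti ξ (η + 1) h1 hη'z
      exact ((p (η + 1)).2.1.1.ok j hjη1).dis _ _ ((h2.2.2.2 j hjξ).1 hx) hF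
    · have h2 : (p ξ).1 ≤ (p (η + 1)).1 := hanti (η + 1) ξ h1 hξ
      exact ((p ξ).2.1.1.ok j hjξ).dis _ _ hx ((h2.2.2.2 j hjη1).2.1 hF)

end Pool.Agent.H40.IS
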