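/-
S7b (KR2).  The descending sequence of length μ.  Imports KR1, ChG only.  About 180 lines.
PROOFS.
lim_step: Lm_exists with ε = dl z (≤ dl μ ≤ t.1.ht).  h1: ξ < z, j ∈ supp (p ξ): h ≤ (p ξ).ht ≤ (p (ξ+1)).ht < dl (ξ+1) < dl z (Base.h; z limit).
 h2: α < dl z: α < dl ξ' for some ξ' < z; with m = max ξ ξ', j ∈ supp (p m) and by St (step m) α < dl m < h of p (m+1) at j.
 hseal: seal_lim.  z < κ.ord: z ≤ μ < dl 0 ≤ dl μ ≤ t.1.ht < κ.ord.
Orc.main: chainG on PT κ D with length μ, p0 = e 0, R ξ p q = St g C (dl ξ) (XX t dl μ ξ) p q, L = True,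
 Fl ξ p = (ξ < μ → ∃ v < dl (ξ + 1), p = e v) ∧ t ≤ prj p ∧ p ≤ e 0 ∧ (∀ j ≥ g in supp p, range Lt (dl ξ)) ∧ (∀ ζ, ξ = ζ + 1 → p.1.ht < dl ξ) ∧
   (ξ = μ → prj p = t).   (μ is a limit, so the last clause is only used at the end.)
 h0: 0 < dl 1, bd at ξ = 0 (0 < dl 0).
 succ (ξ < μ): p = e v, v < dl (ξ+1).  dl (ξ+1) is a limit ordinal (infinite cofinality), so there is γ < dl (ξ+1) above v, dl ξ and the bound
  of XX ξ (XX_bdd, In_mono).  st at ξ + 1 ≤ μ: v' < dl (ξ+1), q = e v'.  bd at ξ+1 gives ρ < dl (ξ+1): height and ranges.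
  (ξ + 1 < μ → v' < dl (ξ+1) < dl (ξ+2).)
 lim (z ≤ μ): lim_step gives p' with prj p' = t and Lm.  If z = μ take it.  If z < μ: q ξ = e (v ξ), v ξ < dl (ξ+1) ≤ dl z; the sequence
  zs = mk z v is In (dl z + 1) (z ≤ μ < dl 0), dl z + 1 < dl (z+1) (limit ordinal); lm at z + 1 with p' (Lm_congr): r = e v, v < dl (z+1).
  Ranges: by Lm they are in ranges of q ξ, ξ < z: Lt (dl ξ), so Lt (dl z).
 Conclusion: p ξ for ξ < μ, p' = p μ; the ordinal c from St: dl ξ < c ≤ (p (ξ+1)).ht < dl (ξ+1).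
-/
import Pool.Agent.H40.IS.KR1
import Pool.Agent.H40.IS.ChG

namespace Pool.Agent.H40.IS
open Cardinal Ordinal Set
universe u
variable {κ : Cardinal.{u}} {D : Ordinal.{u} → Tri.{u}}

private theorem kr2_le {hκ : κ.IsInaccessible} {g : Ordinal.{u}} {C : Ordinal.{u} → Set (PT κ D)}
    {t : QT κ D g} {e : Ordinal.{u} → PT κ D} {μ : Ordinal.{u}} {dl : Ordinal.{u} → Ordinal.{u}}
    (h : Orc hκ D g C t e μ dl) {ξ η : Ordinal.{u}} (h1 : ξ ≤ η) (h2 : η ≤ μ) : dl ξ ≤ dl η := by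
  rcases h1.lt_or_eq with h3 | h3
  · exact (h.inc ξ η h3 h2).le
  · rw [h3]

theorem lim_step {hκ : κ.IsInaccessible} {g : Ordinal.{u}} {C : Ordinal.{u} → Set (PT κ D)}
    {t : QT κ D g} {e : Ordinal.{u} → PT κ D} {μ : Ordinal.{u}} {dl : Ordinal.{u} → Ordinal.{u}}
    (h : Orc hκ D g C t e μ dl) {z : Ordinal.{u}} (hz : z ≤ μ) (hzl : Order.IsSuccLimit z)
    {p : Ordinal.{u} → PT κ D} (hanti : ∀ ξ η, ξ ≤ η → η < z → p η ≤ p ξ)
    (htp : ∀ ξ < z, t ≤ prj hκ D g (p ξ)) (hht : ∀ ξ < z, (p (ξ + 1)).1.ht < dl (ξ + 1))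
    (hran : ∀ ξ < z, ∀ j, g ≤ j → j ∈ (p ξ).1.supp → ∀ x y, (x, y) ∈ ((p ξ).1.d j).pi → Lt (dl ξ) y)
    (hst : ∀ ξ < z, St g C (dl ξ) (XX t dl μ ξ) (p ξ) (p (ξ + 1))) :
    ∃ p' : PT κ D, prj hκ D g p' = t ∧ Lm g z p p' := by
  have hz0 : 0 < z := hzl.bot_lt
  have hε : dl z ≤ t.1.ht := (kr2_le h hz le_rfl).trans h.ht
  have hzκ : z < κ.ord := by
    have h1 : dl 0 ≤ dl μ := kr2_le h (zero_le) le_rfl
    exact hz.trans_lt (h.mu0.trans_le (h1.trans h.ht)) |>.trans t.2.1.1.ht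
  refine Lm_exists hκ hz0 hzκ hanti htp hε ?_ ?_ ?_
  · intro ξ hξ j _ hj
    have h1 : ξ + 1 < z := hzl.add_one_lt hξ
    have h2 : (p ξ).1.ht ≤ (p (ξ + 1)).1.ht := (hanti ξ (ξ + 1) le_self_add h1).1
    have h3 : ((p ξ).1.d j).h ≤ (p ξ).1.ht := (p ξ).2.1.1.h j hj
    exact ((h3.trans h2).trans_lt (hht ξ hξ)).le.trans (kr2_le h h1.le hz)
  · intro α hα ξ hξ j hg hj
    obtain ⟨ξ', h1, h2⟩ := h.cont z hz hzl α hα
    have hm : max ξ ξ' < z := max_lt hξ h1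
    have hjm : j ∈ (p (max ξ ξ')).1.supp := (hanti ξ _ (le_max_left _ _) hm).2.2.1 hj
    have hm1 : max ξ ξ' + 1 < z := hzl.add_one_lt hm
    refine ⟨max ξ ξ' + 1, hm1, (hanti _ _ le_self_add hm1).2.2.1 hjm, ?_⟩
    have h3 := ((hst _ hm).2.1 j hjm hg).1
    exact (h2.trans_le (kr2_le h (le_max_right _ _) (hm.le.trans hz))).trans h3
  · intro hS j hg hj
    exact seal_lim h hz hzl hS hanti hran hst hg hj

private theorem kr2_limit {hκ : κ.IsInaccessible} {g : Ordinal.{u}} {C : Ordinal.{u} → Set (PT κ D)}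
    {t : QT κ D g} {e : Ordinal.{u} → PT κ D} {μ : Ordinal.{u}} {dl : Ordinal.{u} → Ordinal.{u}}
    (h : Orc hκ D g C t e μ dl) {ξ : Ordinal.{u}} (hξ : ξ < μ) :
    Order.IsSuccLimit (dl (ξ + 1)) := by
  refine Ordinal.one_lt_cof_iff.mp (Cardinal.one_lt_aleph0.trans_le (le_trans ?_ (h.cof ξ hξ).le))
  have h1 : ω ≤ μ := Ordinal.omega0_le_of_isSuccLimit h.lim
  have h2 := Ordinal.card_le_card h1
  rwa [card_omega0] at h2

/-- the invariant of the construction -/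
private def KFl (hκ : κ.IsInaccessible) (g : Ordinal.{u}) (t : QT κ D g)
    (e : Ordinal.{u} → PT κ D) (μ : Ordinal.{u}) (dl : Ordinal.{u} → Ordinal.{u})
    (ξ : Ordinal.{u}) (p : PT κ D) : Prop :=
  (ξ < μ → ∃ v < dl (ξ + 1), p = e v) ∧ t ≤ prj hκ D g p ∧ p ≤ e 0 ∧
    (∀ j, g ≤ j → j ∈ p.1.supp → ∀ x y, (x, y) ∈ (p.1.d j).pi → Lt (dl ξ) y) ∧
    (∀ ζ, ξ = ζ + 1 → p.1.ht < dl ξ) ∧ (ξ = μ → prj hκ D g p = t)

private theorem kr2_not_succ {z : Ordinal.{u}} (hzl : Order.IsSuccLimit z) (ζ : Ordinal.{u}) :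
    z ≠ ζ + 1 := by
  intro h
  have h1 : ζ < z := by
    rw [h]
    exact lt_add_one ζ
  have h2 := hzl.add_one_lt h1
  rw [← h] at h2
  exact lt_irrefl _ h2

theorem Orc.main {hκ : κ.IsInaccessible} {g : Ordinal.{u}} {C : Ordinal.{u} → Set (PT κ D)}
    {t : QT κ D g} {e : Ordinal.{u} → PT κ D} {μ : Ordinal.{u}} {dl : Ordinal.{u} → Ordinal.{u}}
    (h : Orc hκ D g C t e μ dl) :
    ∃ p : Ordinal.{u} → PT κ D, p 0 = e 0 ∧ (∀ ξ η, ξ ≤ η → η < μ → p η ≤ p ξ) ∧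
      (∀ ξ < μ, ∃ c, dl ξ < c ∧ c < dl (ξ + 1) ∧ p (ξ + 1) ∈ C c) ∧
      ∃ p' : PT κ D, prj hκ D g p' = t ∧ ∀ ξ < μ, p' ≤ p ξ := by
  classical
  have hμ0 : 0 < μ := h.lim.bot_lt
  obtain ⟨q, q0, qF, qa, qR, -⟩ := chainG (KFl hκ g t e μ dl)
    (fun ξ p q => St g C (dl ξ) (XX t dl μ ξ) p q) (fun _ _ _ => True) μ (e 0)
    (by
      have h00 : (0 : Ordinal.{u}) < dl 0 := (zero_le).trans_lt h.mu0
      refine ⟨fun _ => ⟨0, ?_, rfl⟩, h.e0, le_rfl, ?_, ?_, ?_⟩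
      · exact h00.trans (h.inc 0 (0 + 1) (lt_add_one 0) (h.lim.add_one_lt hμ0).le)
      · obtain ⟨ρ, h1, -, h3⟩ := h.bd 0 (zero_le) 0 h00
        intro j hg hj x y hxy
        exact Lt_of_In h1 (h3 j hg hj x y hxy)
      · intro ζ hζ
        exact absurd hζ.symm (ne_of_gt (Order.lt_add_one_iff.mpr (zero_le)))
      · intro h1
        exact absurd h1 hμ0.ne)
    (fun _ _ _ _ _ _ => trivial)
    (by
      intro ξ hξ p hp
      obtain ⟨h1, h2, h3, h4, h5, h6⟩ := hp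
      obtain ⟨v, hv, rfl⟩ := h1 hξ
      obtain ⟨γ0, hγ0, hX⟩ := XX_bdd h hξ
      have hξ1 : ξ + 1 < μ := h.lim.add_one_lt hξ
      have hm : max (max v (dl ξ)) γ0 < dl (ξ + 1) :=
        max_lt (max_lt hv (h.inc ξ (ξ + 1) (lt_add_one ξ) hξ1.le)) hγ0
      have hm1 := (kr2_limit h hξ).add_one_lt hm
      obtain ⟨v', hv', k1, k2⟩ := h.st (ξ + 1) hξ1.le v (dl ξ) (max (max v (dl ξ)) γ0 + 1)
        (((le_max_left _ _).trans (le_max_left _ _)).trans_lt (lt_add_one _))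
        (((le_max_right _ _).trans (le_max_left _ _)).trans_lt (lt_add_one _)) hm1
        (XX t dl μ ξ) (fun x hx => In_mono ((le_max_right _ _).trans (lt_add_one _).le) (hX x hx))
        h2 h3
      obtain ⟨ρ, b1, b2, b3⟩ := h.bd (ξ + 1) hξ1.le v' hv'
      refine ⟨e v', k2.1, ⟨fun hlt => ⟨v', ?_, rfl⟩, k1, k2.1.trans h3, ?_, ?_, ?_⟩, k2⟩
      · exact hv'.trans (h.inc (ξ + 1) (ξ + 1 + 1) (lt_add_one _) (h.lim.add_one_lt hlt).le)
      · intro j hg hj x y hxy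
        exact Lt_of_In b1 (b3 j hg hj x y hxy)
      · intro _ _
        exact b2.trans_lt b1
      · intro heq
        exact absurd heq hξ1.ne)
    (by
      intro z hz hzl q hF hanti hR _
      have hz0 : 0 < z := hzl.bot_lt
      obtain ⟨p', hp1, hp2⟩ := lim_step h hz hzl (p := q) hanti (fun ξ hξ => (hF ξ hξ).2.1)
        (fun ξ hξ => (hF (ξ + 1) (hzl.add_one_lt hξ)).2.2.2.2.1 ξ rfl)
        (fun ξ hξ => (hF ξ hξ).2.2.2.1) hR
      have hrange : ∀ r : PT κ D, Lm g z q r →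
          ∀ j, g ≤ j → j ∈ r.1.supp → ∀ x y, (x, y) ∈ (r.1.d j).pi → Lt (dl z) y := by
        intro r hr j hg hj x y hxy
        obtain ⟨ξ, hξ, hjξ, hxy'⟩ := (hr.2 j hg hj).2 x y hxy
        exact Lt_mono (kr2_le h hξ.le hz) ((hF ξ hξ).2.2.2.1 j hg hjξ x y hxy')
      have hle0 : ∀ r : PT κ D, Lm g z q r → r ≤ e 0 := fun r hr =>
        (hr.1 0 hz0).trans (hF 0 hz0).2.2.1
      rcases hz.lt_or_eq with hlt | heq
      · have hv : ∀ ξ, ∃ v, ξ < z → v < dl (ξ + 1) ∧ q ξ = e v := by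
          intro ξ
          by_cases hξ : ξ < z
          · obtain ⟨v, hv1, hv2⟩ := (hF ξ hξ).1 (hξ.trans hlt)
            exact ⟨v, fun _ => ⟨hv1, hv2⟩⟩
          · exact ⟨0, fun h => absurd h hξ⟩
        choose v hv using hv
        have hzz : z < dl z := hz.trans_lt (h.mu0.trans (h.inc 0 z hz0 hz))
        have hIn : In (dl z) (IS.mk z v : So.{u}) := by
          refine ⟨hzz, fun i => ?_⟩
          by_cases hi : i < z
          · rw [mk_val hi]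
            exact (hv i hi).1.trans (h.inc (i + 1) z (hzl.add_one_lt hi) hz)
          · rw [(IS.mk z v : So.{u}).junk i (not_lt.mp hi), Rk.rk_z]
            exact (zero_le).trans_lt hzz
        have hz1 : z + 1 ≤ μ := (h.lim.add_one_lt hlt).le
        obtain ⟨w, hw, k1, k2⟩ := h.lm (z + 1) hz1 (dl z) (h.inc z (z + 1) (lt_add_one z) hz1)
          (IS.mk z v) hIn hz0 ⟨p', hp1, Lm_congr (fun ξ hξ => by
            show q ξ = e ((IS.mk z v : So.{u}).val ξ)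
            rw [mk_val (show ξ < z from hξ)]
            exact (hv ξ hξ).2) hp2⟩
        have k3 : Lm g z q (e w) := Lm_congr (fun ξ hξ => by
            show e ((IS.mk z v : So.{u}).val ξ) = q ξ
            rw [mk_val (show ξ < z from hξ)]
            exact (hv ξ hξ).2.symm) k2
        exact ⟨e w, ⟨fun _ => ⟨w, hw, rfl⟩, k1, hle0 _ k3, hrange _ k3,
          fun ζ hζ => absurd hζ (kr2_not_succ hzl ζ), fun h1 => absurd h1 hlt.ne⟩, k3.1, trivial⟩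
      · exact ⟨p', ⟨fun h1 => absurd h1 (not_lt.mpr heq.ge), hp1.ge, hle0 _ hp2, hrange _ hp2,
          fun ζ hζ => absurd hζ (kr2_not_succ hzl ζ), fun _ => hp1⟩, hp2.1, trivial⟩)
  refine ⟨q, q0, fun ξ η h1 h2 => qa ξ η h1 h2.le, ?_, q μ, (qF μ le_rfl).2.2.2.2.2 rfl,
    fun ξ hξ => qa ξ μ hξ.le le_rfl⟩
  intro ξ hξ
  obtain ⟨c, c1, c2, c3⟩ := (qR ξ hξ).2.2
  have hξ1 : ξ + 1 ≤ μ := (h.lim.add_one_lt hξ).le
  exact ⟨c, c1, c2.trans_lt ((qF (ξ + 1) hξ1).2.2.2.2.1 ξ rfl), c3⟩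

end Pool.Agent.H40.IS
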