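/-
K13 (KCc).  Chain condition: antichains have at most κ elements.  Imports KCnt only.  About 200 lines.
PROOFS.
glue_mem: r = ⟨p.ht, p.b, p.supp ∪ q.supp, fun j => if j ∈ p.supp then p.d j else q.d j⟩; r ≤ p, r ≤ q (on the common support the data
 agree); r.res j ≤ p.res j and ≤ q.res j (rres_mono), so the forcing requirements hold by FrT_mono; Base is clear (Sm.union).
cc: M pairwise incompatible.  For τ : Raw let a τ ∈ M be (choice) an element with a.ht = τ.ht, a.b = τ.b, τ.supp ⊆ a.supp and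
 a.d j = τ.d j for j ∈ τ.supp, if there is one.  Define J i (i ordinal) by recursion: J i = ⋃_{i' < i} (J i' ∪ ⋃ {supp (a τ) | Base κ τ,
 τ.supp ⊆ J i', a τ defined}).  Lk κ (J i) for i ≤ κ.ord by induction (lk_base, Lk.bUnion; supports are small, Sm.lk).  J* = J κ.ord.
 If T ⊆ J* is small then T ⊆ J i for some i < κ.ord (Sm.bdd), J is monotone.
 Claim: M ⊆ {a τ | Base κ τ, τ.supp ⊆ J*}, which has at most κ elements (lk_base, Lk.image).  Let p ∈ M and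
 τ = ⟨p.ht, p.b, p.supp ∩ J*, fun j => if j ∈ J* then p.d j else default⟩: Base κ τ; p itself shows that a τ is defined; supp (a τ) ⊆ J*
 (τ.supp ⊆ J i for some i < κ.ord, so supp (a τ) ⊆ J (i+1)).  If j ∈ supp (a τ) ∩ supp p then j ∈ J*, so (a τ).d j = τ.d j = p.d j.
 So a τ and p are compatible (glue_mem), a τ = p.
-/
import Pool.Agent.H40.IS.KCnt

namespace Pool.Agent.H40.IS
open Cardinal Ordinal Set
universe u
variable {κ : Cardinal.{u}} {D : Ordinal.{u} → Tri.{u}} {J : Set Ordinal.{u}}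

theorem glue_mem (hκ : κ.IsInaccessible) {p q : Raw.{u}} (hp : p ∈ PJ κ D J) (hq : q ∈ PJ κ D J)
    (hht : p.ht = q.ht) (hb : p.b = q.b) (hd : ∀ j ∈ p.supp, j ∈ q.supp → p.d j = q.d j) :
    ∃ r ∈ PJ κ D J, r ≤ p ∧ r ≤ q := by
  classical
  obtain ⟨r, hr⟩ : ∃ r : Raw.{u}, r = ⟨p.ht, p.b, p.supp ∪ q.supp,
    fun j => if j ∈ p.supp then p.d j else q.d j⟩ := ⟨_, rfl⟩
  have hrht : r.ht = p.ht := by rw [hr]
  have hrb : r.b = p.b := by rw [hr]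
  have hrs : r.supp = p.supp ∪ q.supp := by rw [hr]
  have hrd : ∀ j, r.d j = if j ∈ p.supp then p.d j else q.d j := by
    intro j
    rw [hr]
  have hdp : ∀ j ∈ p.supp, r.d j = p.d j := by
    intro j hj
    rw [hrd, if_pos hj]
  have hdq : ∀ j ∈ q.supp, r.d j = q.d j := by
    intro j hj
    rw [hrd]
    split_ifs with h1
    · exact hd j h1 hj
    · rfl
  have hrp : r ≤ p := by
    refine ⟨hrht.ge, fun ε _ _ => by rw [hrb], by rw [hrs]; exact subset_union_left, ?_⟩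
    intro j hj
    rw [hdp j hj]
    exact ⟨Subset.rfl, Subset.rfl, le_rfl⟩
  have hrq : r ≤ q := by
    refine ⟨by rw [hrht, hht], fun ε _ _ => by rw [hrb, hb], by rw [hrs]; exact subset_union_right, ?_⟩
    intro j hj
    rw [hdq j hj]
    exact ⟨Subset.rfl, Subset.rfl, le_rfl⟩
  refine ⟨r, ⟨⟨⟨?_, ?_, ?_, ?_, ?_, ?_, ?_⟩, ?_⟩, ?_⟩, hrp, hrq⟩
  · rw [hrht]
    exact hp.1.1.ht
  · intro ε h1 h2
    rw [hrb]
    rw [hrht] at h2
    exact hp.1.1.b ε h1 h2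
  · intro ε h1
    rw [hrb]
    rw [hrht] at h1
    exact hp.1.1.nb ε h1
  · intro j hj
    rw [hrs, mem_union, not_or] at hj
    rw [hrd, if_neg hj.1]
    exact hq.1.1.nd j hj.2
  · rw [hrs]
    exact Sm.union hκ hp.1.1.sm hq.1.1.sm
  · intro j hj
    rw [hrs] at hj
    rw [hrb]
    rcases hj with hj | hj
    · rw [hdp j hj]
      exact hp.1.1.ok j hj
    · rw [hdq j hj, hb]
      exact hq.1.1.ok j hj
  · intro j hj
    rw [hrs] at hj
    rw [hrht]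
    rcases hj with hj | hj
    · rw [hdp j hj]
      exact hp.1.1.h j hj
    · rw [hdq j hj, hht]
      exact hq.1.1.h j hj
  · intro j hj
    rw [hrs] at hj
    rcases hj with hj | hj
    · rw [hdp j hj]
      obtain ⟨h1, h2⟩ := hp.1.2 j hj
      exact ⟨(rres_mono hrp j).trans h1, fun x y hxy => FrT_mono (rres_mono hrp j) (h2 x y hxy)⟩
    · rw [hdq j hj]
      obtain ⟨h1, h2⟩ := hq.1.2 j hj
      exact ⟨(rres_mono hrq j).trans h1, fun x y hxy => FrT_mono (rres_mono hrq j) (h2 x y hxy)⟩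
  · rw [hrs]
    exact union_subset hp.2 hq.2

/-- iteration of the operator `X ↦ X ∪ G X` -/
noncomputable def Jf (G : Set Ordinal.{u} → Set Ordinal.{u}) (i : Ordinal.{u}) : Set Ordinal.{u} :=
  ⋃ (i' : Ordinal.{u}) (_h : i' ∈ Iio i), (Jf G i' ∪ G (Jf G i'))
termination_by i
decreasing_by all_goals exact _h

theorem Jf_eq (G : Set Ordinal.{u} → Set Ordinal.{u}) (i : Ordinal.{u}) :
    Jf G i = ⋃ i' ∈ Iio i, (Jf G i' ∪ G (Jf G i')) := by
  rw [Jf]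

theorem Jf_step (G : Set Ordinal.{u} → Set Ordinal.{u}) {i' i : Ordinal.{u}} (h : i' < i) :
    Jf G i' ∪ G (Jf G i') ⊆ Jf G i := by
  rw [Jf_eq G i]
  exact subset_biUnion_of_mem (u := fun i' => Jf G i' ∪ G (Jf G i')) h

theorem Jf_mono (G : Set Ordinal.{u} → Set Ordinal.{u}) {i' i : Ordinal.{u}} (h : i' ≤ i) :
    Jf G i' ⊆ Jf G i := by
  rcases h.lt_or_eq with h1 | h1
  · exact subset_union_left.trans (Jf_step G h1)
  · rw [h1]

theorem Jf_lk (hκ : κ.IsInaccessible) {G : Set Ordinal.{u} → Set Ordinal.{u}}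
    (hG : ∀ X, Lk κ X → Lk κ (G X)) (i : Ordinal.{u}) (hi : i ≤ κ.ord) : Lk κ (Jf G i) := by
  induction i using WellFoundedLT.induction with
  | ind i ih =>
    rw [Jf_eq]
    refine Lk.bUnion hκ (lk_ord.mono fun x hx => lt_of_lt_of_le hx hi) fun i' hi' => ?_
    have h1 := ih i' hi' (le_of_lt (lt_of_lt_of_le hi' hi))
    exact Lk.union hκ h1 (hG _ h1)

theorem Jf_small (hκ : κ.IsInaccessible) (G : Set Ordinal.{u} → Set Ordinal.{u})
    {T : Set Ordinal.{u}} (hT : Sm κ T) (h : T ⊆ Jf G κ.ord) : ∃ i < κ.ord, T ⊆ Jf G i := by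
  have h1 : ∀ t : Ordinal.{u}, ∃ i, t ∈ T → i < κ.ord ∧ t ∈ Jf G i := by
    intro t
    by_cases ht : t ∈ T
    · have h2 := h ht
      rw [Jf_eq] at h2
      obtain ⟨i', hi', h3⟩ := mem_iUnion₂.1 h2
      exact ⟨i' + 1, fun _ => ⟨kord_limit hκ hi', Jf_step G (lt_add_one i') h3⟩⟩
    · exact ⟨0, fun h2 => absurd h2 ht⟩
  choose f hf using h1
  obtain ⟨γ, hγ, h2⟩ := Sm.bdd hκ hT f (fun t ht => (hf t ht).1)
  exact ⟨γ, hγ, fun t ht => Jf_mono G (h2 t ht).le (hf t ht).2⟩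

theorem cc (hκ : κ.IsInaccessible) (D : Ordinal.{u} → Tri.{u}) (J : Set Ordinal.{u})
    (M : Set ↥(PJ κ D J)) (hM : ∀ a ∈ M, ∀ b ∈ M, ∀ t, t ≤ a → t ≤ b → a = b) : Lk κ M := by
  classical
  rcases M.eq_empty_or_nonempty with h0 | ⟨m0, hm0⟩
  · rw [h0]
    exact (Sm.empty hκ).lk
  -- the choice of `a τ`
  have hch : ∀ τ : Raw.{u}, ∃ a : ↥(PJ κ D J), (∃ a : ↥(PJ κ D J), a ∈ M ∧ a.1.ht = τ.ht ∧
      a.1.b = τ.b ∧ τ.supp ⊆ a.1.supp ∧ ∀ j ∈ τ.supp, a.1.d j = τ.d j) →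
      (a ∈ M ∧ a.1.ht = τ.ht ∧ a.1.b = τ.b ∧ τ.supp ⊆ a.1.supp ∧ ∀ j ∈ τ.supp, a.1.d j = τ.d j) := by
    intro τ
    by_cases h : ∃ a : ↥(PJ κ D J), a ∈ M ∧ a.1.ht = τ.ht ∧
      a.1.b = τ.b ∧ τ.supp ⊆ a.1.supp ∧ ∀ j ∈ τ.supp, a.1.d j = τ.d j
    · obtain ⟨a, ha⟩ := h
      exact ⟨a, fun _ => ha⟩
    · exact ⟨m0, fun h2 => absurd h2 h⟩
  choose a ha using hch
  obtain ⟨G, hGdef⟩ : ∃ G : Set Ordinal.{u} → Set Ordinal.{u}, G = fun X =>
    ⋃ τ ∈ {τ : Raw.{u} | Base κ τ ∧ τ.supp ⊆ X}, (a τ).1.supp := ⟨_, rfl⟩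
  have hG : ∀ X, Lk κ X → Lk κ (G X) := by
    intro X hX
    rw [hGdef]
    exact Lk.bUnion hκ (lk_base hκ hX) fun τ _ => (a τ).2.1.1.sm.lk
  have hGsub : ∀ X : Set Ordinal.{u}, ∀ τ : Raw.{u}, Base κ τ → τ.supp ⊆ X → (a τ).1.supp ⊆ G X := by
    intro X τ h1 h2
    rw [hGdef]
    exact subset_biUnion_of_mem (u := fun τ : Raw.{u} => (a τ).1.supp)
      (show τ ∈ {τ : Raw.{u} | Base κ τ ∧ τ.supp ⊆ X} from ⟨h1, h2⟩)
  have hJ := Jf_lk hκ hG κ.ord le_rfl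
  refine ((lk_base hκ hJ).image a).mono ?_
  intro p hp
  obtain ⟨τ, hτ⟩ : ∃ τ : Raw.{u}, τ = ⟨p.1.ht, p.1.b, p.1.supp ∩ Jf G κ.ord,
    fun j => if j ∈ Jf G κ.ord then p.1.d j else default⟩ := ⟨_, rfl⟩
  have hτht : τ.ht = p.1.ht := by rw [hτ]
  have hτb : τ.b = p.1.b := by rw [hτ]
  have hτs : τ.supp = p.1.supp ∩ Jf G κ.ord := by rw [hτ]
  have hτd : ∀ j, τ.d j = if j ∈ Jf G κ.ord then p.1.d j else default := by
    intro j
    rw [hτ]
  have hτd' : ∀ j ∈ τ.supp, τ.d j = p.1.d j := by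
    intro j hj
    rw [hτs] at hj
    rw [hτd, if_pos hj.2]
  have hbase : Base κ τ := by
    have hB := p.2.1.1
    refine ⟨?_, ?_, ?_, ?_, ?_, ?_, ?_⟩
    · rw [hτht]
      exact hB.ht
    · intro ε h1 h2
      rw [hτht] at h2
      rw [hτb]
      exact hB.b ε h1 h2
    · intro ε h1
      rw [hτht] at h1
      rw [hτb]
      exact hB.nb ε h1
    · intro j hj
      rw [hτd]
      split_ifs with h1
      · exact hB.nd j fun h2 => hj (by rw [hτs]; exact ⟨h2, h1⟩)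
      · rfl
    · rw [hτs]
      exact hB.sm.mono inter_subset_left
    · intro j hj
      rw [hτd' j hj, hτb]
      rw [hτs] at hj
      exact hB.ok j hj.1
    · intro j hj
      rw [hτd' j hj, hτht]
      rw [hτs] at hj
      exact hB.h j hj.1
  have hsJ : τ.supp ⊆ Jf G κ.ord := by
    rw [hτs]
    exact inter_subset_right
  obtain ⟨hAM, hAht, hAb, hAs, hAd⟩ := ha τ ⟨p, hp, hτht.symm, hτb.symm, by
    rw [hτs]
    exact inter_subset_left, fun j hj => (hτd' j hj).symm⟩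
  obtain ⟨i, hi, hsi⟩ := Jf_small hκ G hbase.sm hsJ
  have hAJ : (a τ).1.supp ⊆ Jf G κ.ord :=
    (hGsub _ τ hbase hsi).trans (subset_union_right.trans (Jf_step G hi))
  obtain ⟨r, hr, hr1, hr2⟩ := glue_mem hκ (a τ).2 p.2 (hAht.trans hτht) (hAb.trans hτb) (by
    intro j hj1 hj2
    have hj3 : j ∈ τ.supp := by
      rw [hτs]
      exact ⟨hj2, hAJ hj1⟩
    rw [hAd j hj3, hτd' j hj3])
  exact ⟨τ, ⟨hbase, hsJ⟩, hM (a τ) hAM p hp ⟨r, hr⟩ hr1 hr2⟩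

end Pool.Agent.H40.IS
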