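/-
S8a (SPa).  The enumeration e and the names N of indices of solutions.  Imports KSt, KLm, Clo, Cod, KCc only.  About 120 lines.
PROOF.  (cd, Gc) from exists_codes.  W c e t p' := match cd c with
 | Sum.inl z => (∀ a < z.len, z.val a < c) ∧ t ≤ prj p' ∧ Lm g z.len (fun a => e (z.val a)) p'
 | Sum.inr x => x.1 < c ∧ t ≤ prj p' ∧ St g C x.2.1 x.2.2 (e x.1) p'.
hlow, hloc clear (Lm_congr).  cloff with Q = QT κ D g, cc from KCc.cc.
step: i, β < γ < κ.ord, X bounded by γ: TB γ (inr (i, β, X)), so a code c with γ < c < Gc γ.  Let t ∈ (N c).val v with t ≤ prj (e i), e i ≤ q0.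
 By St_dense some t' ≤ t, p' solve W c e t' p' (i < γ < c), so the second alternative of cloff fails.
limit: In γ z: TB γ (inl z), code c > γ > all values; the given p' solves W c e t p' at t itself.
-/
import Pool.Agent.H40.IS.KSt
import Pool.Agent.H40.IS.KLm
import Pool.Agent.H40.IS.Clo
import Pool.Agent.H40.IS.Cod
import Pool.Agent.H40.IS.KCc

namespace Pool.Agent.H40.IS
open Cardinal Ordinal Set
universe u
variable {κ : Cardinal.{u}} {D : Ordinal.{u} → Tri.{u}}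

/-- the relation `p'` solves the task `τ` at `t` -/
private def spWT (hκ : κ.IsInaccessible) (D : Ordinal.{u} → Tri.{u}) (g : Ordinal.{u})
    (C : Ordinal.{u} → Set (PT κ D)) (c : Ordinal.{u}) (τ : Tk.{u}) (e : Ordinal.{u} → PT κ D)
    (t : QT κ D g) (p' : PT κ D) : Prop :=
  match τ with
  | Sum.inl z => (∀ a < z.len, z.val a < c) ∧ t ≤ prj hκ D g p' ∧
      Lm g z.len (fun a => e (z.val a)) p'
  | Sum.inr x => x.1 < c ∧ t ≤ prj hκ D g p' ∧ St g C x.2.1 x.2.2 (e x.1) p'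

theorem sp_a (hκ : κ.IsInaccessible) {g : Ordinal.{u}} (s : QT κ D g) {q0 : PT κ D}
    {C : Ordinal.{u} → Set (PT κ D)} (hC : ClubName κ q0 C) :
    ∃ (e : Ordinal.{u} → PT κ D) (N : Ordinal.{u} → Nm (QT κ D g) s Ordinal.{u})
      (Gc : Ordinal.{u} → Ordinal.{u}), e 0 = q0 ∧ (∀ c v, ∀ t ∈ (N c).val v, v < κ.ord) ∧
      (∀ c < κ.ord, Gc c < κ.ord) ∧
      (∀ γ < κ.ord, ∀ i < γ, ∀ β < γ, ∀ X : Set So.{u}, (∀ x ∈ X, In γ x) → ∃ c < Gc γ,
        ∀ v, ∀ t ∈ (N c).val v, t ≤ prj hκ D g (e i) → e i ≤ q0 →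
          t ≤ prj hκ D g (e v) ∧ St g C β X (e i) (e v)) ∧
      (∀ γ < κ.ord, ∀ z : So.{u}, In γ z → 0 < z.len → ∃ c < Gc γ, ∀ v, ∀ t ∈ (N c).val v,
        (∃ p', t ≤ prj hκ D g p' ∧ Lm g z.len (fun a => e (z.val a)) p') →
          t ≤ prj hκ D g (e v) ∧ Lm g z.len (fun a => e (z.val a)) (e v)) := by
  obtain ⟨cd, G, hG, hcd⟩ := exists_codes.{u} hκ
  obtain ⟨e, he0, N, hN1, hN2⟩ := cloff hκ (Q := QT κ D g) (P := PT κ D) (cc hκ D _) s q0
    (fun c e t p' => spWT hκ D g C c (cd c) e t p') (by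
      intro c e t t' p htt h
      rcases hc : cd c with z | x
      · simp only [hc] at h ⊢
        exact ⟨h.1, htt.trans h.2.1, h.2.2⟩
      · simp only [hc] at h ⊢
        exact ⟨h.1, htt.trans h.2.1, h.2.2⟩) (by
      intro c e e' hee t p h
      rcases hc : cd c with z | x
      · simp only [hc] at h ⊢
        exact ⟨h.1, h.2.1, Lm_congr (fun ξ hξ => hee _ (h.1 ξ hξ)) h.2.2⟩
      · simp only [hc] at h ⊢
        refine ⟨h.1, h.2.1, ?_⟩
        rw [← hee _ h.1]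
        exact h.2.2)
  refine ⟨e, N, G, he0, hN1, hG, ?_, ?_⟩
  · intro γ hγ i hi β hβ X hX
    obtain ⟨c, hγc, hcG, hc⟩ := hcd γ hγ (Sum.inr (i, β, X)) ⟨hi, hβ, hX⟩
    refine ⟨c, hcG, fun v t ht hte hei => ?_⟩
    rcases hN2 c (hcG.trans (hG γ hγ)) v t ht with h | h
    · simp only [hc] at h
      exact ⟨h.2.1, h.2.2⟩
    · exfalso
      obtain ⟨t', ht', p', h1, h2⟩ := St_dense hκ hC hei hte (hβ.trans hγ) hγ hX
      refine h t' ht' p' ?_
      simp only [hc]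
      exact ⟨hi.trans hγc, h1, h2⟩
  · intro γ hγ z hz hz0
    obtain ⟨c, hγc, hcG, hc⟩ := hcd γ hγ (Sum.inl z) hz
    refine ⟨c, hcG, fun v t ht hp => ?_⟩
    obtain ⟨p', h1, h2⟩ := hp
    rcases hN2 c (hcG.trans (hG γ hγ)) v t ht with h | h
    · simp only [hc] at h
      exact ⟨h.2.1, h.2.2⟩
    · exfalso
      refine h t le_rfl p' ?_
      simp only [hc]
      exact ⟨fun a _ => lt_trans (hz.2 a) hγc, h1, h2⟩

end Pool.Agent.H40.IS
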