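/-
S8b (SPb).  Property (SP).  Imports SPa, KR2, Cln, OSq, KDist only.  About 200 lines.
PROOF.  q0 = amj s q.  (e, N, Gc) from sp_a.
 For c < κ.ord let Rb c < κ.ord be a bound with (e c).1.ht ≤ Rb c and In (Rb c) y for all (x,y) in all pi_j of e c (DatOK.bdd for each
 j ∈ supp, Sm.bdd), and Gg c = max of Gc c, Rb c, (2^c.card).ord, ω, c + 1 (< κ.ord).
 N' c = name_max (N c) (N c) (Gg c): values < κ.ord for c < κ.ord.  N2 = closure_names for N' (hQ = distJ).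
 F c = name_max (N' c) (N2 c) 0 for c < κ.ord, F c = N c otherwise.  Values < κ.ord.
 Let δ < κ.ord be a limit, t ≤ s, FCl F δ t.  (1) t1 ≤ t of height ≥ δ (flat_ext' in PJ κ D (Iio g)).  (2) decide_all three times
 (N', N2, F below δ): t2 ≤ t1 with functions v', w, vF: t2 ∈ (N' c).val (v' c), (N2 c).val (w c), (F c).val (vF c) for c < δ.
 FCl F δ t at t2 and uniq: vF c < δ for c < δ, and vF c = max (v' c) (w c), so v' c < δ, w c < δ.  Also v' c ≥ Gg c and v' c ≥ the value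
 of N c decided by t2.
 Dt = {d | 0 < d ∧ d ≤ δ ∧ ∀ c < d, v' c < d}; w c ∈ Dt (FCl N' (w c) t2), c < w c, c.card < (w c).cof.  ω < δ and hsl from Gg ≤ v'.
 club_seq: μ, dl.  Orc hκ D g C t2 e μ dl: ht: dl μ = δ ≤ t2.ht.  bd: ρ = Rb i ≤ v' i < dl ξ.  e0: t2 ≤ s = prj (amj s q).
 st: γ < dl ξ: code c < Gc γ ≤ v' γ < dl ξ (so c < δ); the value v of N c decided by t2 is ≤ v' c < dl ξ.  lm: same (prj p' = t2 gives ≤).
 Orc.main: p, p'.  t' = t2, q' = p' ≤ p 0 = q0 ≤ q.  prj p' = t2.  amj t2 p' ≤ p' ≤ p (ξ+1), so it is in C c for cofinally many c < δ;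
 hC.closed (r = amj t2 p' ≤ q0): in C δ.
-/
import Pool.Agent.H40.IS.SPa
import Pool.Agent.H40.IS.KR2
import Pool.Agent.H40.IS.Cln
import Pool.Agent.H40.IS.OSq
import Pool.Agent.H40.IS.KDist

namespace Pool.Agent.H40.IS
open Cardinal Ordinal Set
universe u
variable {κ : Cardinal.{u}} {D : Ordinal.{u} → Tri.{u}}

/-- bound for the data of a condition -/
theorem cond_bd (hκ : κ.IsInaccessible) (p : PT κ D) : ∃ ρ < κ.ord, p.1.ht ≤ ρ ∧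
    ∀ j ∈ p.1.supp, ∀ x y, (x, y) ∈ (p.1.d j).pi → In ρ y := by
  classical
  have h1 : ∀ j, ∃ γ < κ.ord, j ∈ p.1.supp → ∀ x y, (x, y) ∈ (p.1.d j).pi → In γ y := by
    intro j
    by_cases hj : j ∈ p.1.supp
    · obtain ⟨γ, hγ, h2, -⟩ := (p.2.1.1.ok j hj).bdd
      exact ⟨γ, hγ, fun _ x y hxy => (h2 x y hxy).2⟩
    · exact ⟨0, kord_pos hκ, fun h => absurd h hj⟩
  choose f hf1 hf2 using h1
  obtain ⟨γ, hγ, h3⟩ := p.2.1.1.sm.bdd hκ f (fun j _ => hf1 j)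
  exact ⟨max p.1.ht γ, max_lt p.2.1.1.ht hγ, le_max_left _ _, fun j hj x y hxy =>
    In_mono ((h3 j hj).le.trans (le_max_right _ _)) (hf2 j hj x y hxy)⟩

theorem sp (hκ : Lst κ) (D : Ordinal.{u} → Tri.{u}) (g : Ordinal.{u}) (s : QT κ D g) (q : PT κ D)
    (C : Ordinal.{u} → Set (PT κ D)) (hs : s ≤ prj hκ.1 D g q) (hC : ClubName κ (amj hκ.1 D g s q) C) :
    ∃ F : Ordinal.{u} → Nm (QT κ D g) s Ordinal.{u},
      (∀ c, ∀ v, ∀ t ∈ (F c).val v, v < κ.ord) ∧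
      ∀ δ < κ.ord, Order.IsSuccLimit δ → ∀ t ≤ s, FCl F δ t →
        ∃ t' ≤ t, ∃ q' ≤ q, t' ≤ prj hκ.1 D g q' ∧ amj hκ.1 D g t' q' ∈ C δ := by
  classical
  have hQ : Dist κ (QT κ D g) := distJ hκ.1 D (Iio g)
  obtain ⟨e, N, Gc, he0, hN, hGc, hst, hlm⟩ := sp_a hκ.1 s hC
  have hRb := fun i => cond_bd hκ.1 (e i)
  choose Rb hRb1 hRb2 hRb3 using hRb
  -- the lower bounds
  obtain ⟨Gg, hGgκ, g1, g2, g3, g4⟩ : ∃ Gg : Ordinal.{u} → Ordinal.{u},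
      (∀ c < κ.ord, Gg c < κ.ord) ∧ (∀ c, Gc c ≤ Gg c) ∧ (∀ c, Rb c ≤ Gg c) ∧
      (∀ c, ((2 : Cardinal.{u}) ^ c.card).ord ≤ Gg c) ∧ (∀ c, ω ≤ Gg c) := by
    refine ⟨fun c => max (max (Gc c) (Rb c)) (max ((2 : Cardinal.{u}) ^ c.card).ord ω), ?_, ?_, ?_,
      ?_, ?_⟩
    · intro c hc
      refine max_lt (max_lt (hGc c hc) (hRb1 c)) (max_lt ?_ (kord_omega hκ.1).1)
      exact ord_lt_ord.2 (hκ.1.isStrongPrelimit (lt_ord.1 hc))
    · intro c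
      exact (le_max_left _ _).trans (le_max_left _ _)
    · intro c
      exact (le_max_right _ _).trans (le_max_left _ _)
    · intro c
      exact (le_max_left _ _).trans (le_max_right _ _)
    · intro c
      exact (le_max_right _ _).trans (le_max_right _ _)
  have hN'ex := fun c => name_max (N c) (N c) (Gg c)
  choose N' hN' using hN'ex
  have hN'κ : ∀ c < κ.ord, ∀ v, ∀ t ∈ (N' c).val v, v < κ.ord := by
    intro c hc v t ht
    obtain ⟨a, b, ha, hb, rfl⟩ := (hN' c v t).1 ht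
    exact max_lt (max_lt (hN c a t ha) (hN c b t hb)) (hGgκ c hc)
  obtain ⟨N2, hN2⟩ := closure_names hκ.1 hQ s N' hN'κ
  have hFex : ∀ c, ∃ M : Nm (QT κ D g) s Ordinal.{u}, (∀ v, ∀ t ∈ M.val v, v < κ.ord) ∧
      (c < κ.ord → ∀ v t, t ∈ M.val v ↔ ∃ a b, t ∈ (N' c).val a ∧ t ∈ (N2 c).val b ∧
        v = max (max a b) 0) := by
    intro c
    by_cases hc : c < κ.ord
    · obtain ⟨M, hM⟩ := name_max (N' c) (N2 c) 0
      refine ⟨M, fun v t ht => ?_, fun _ => hM⟩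
      obtain ⟨a, b, ha, hb, rfl⟩ := (hM v t).1 ht
      exact max_lt (max_lt (hN'κ c hc a t ha) (hN2 c hc b t hb).1) (kord_pos hκ.1)
    · exact ⟨N c, hN c, fun h => absurd h hc⟩
  choose F hF1 hF2 using hFex
  refine ⟨F, hF1, ?_⟩
  intro δ hδ hδl t hts hcl
  -- extend to a condition of large height deciding everything
  obtain ⟨r1, hr1, hr1t, hr1h, -, -, -⟩ := flat_ext' (D := D) (J := Iio g) hκ.1 t.2
    (H := max t.1.ht δ) (le_max_left _ _) (max_lt t.2.1.1.ht hδ)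
  have ht1 : (⟨r1, hr1⟩ : QT κ D g) ≤ t := hr1t
  obtain ⟨t2, ht2, v', hv'⟩ := decide_all hQ N' hδ (ht1.trans hts)
  obtain ⟨T, hT2, w, hw⟩ := decide_all hQ N2 hδ ((ht2.trans ht1).trans hts)
  have hTt : T ≤ t := hT2.trans (ht2.trans ht1)
  have hTs : T ≤ s := hTt.trans hts
  have hTh : δ ≤ T.1.ht := by
    have h1 : T.1 ≤ r1 := hT2.trans ht2
    have h2 : r1.ht ≤ T.1.ht := h1.1
    rw [hr1h] at h2
    exact (le_max_right _ _).trans h2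
  have hv : ∀ c < δ, T ∈ (N' c).val (v' c) := fun c hc => (N' c).lower _ hT2 (hv' c hc)
  have hvw : ∀ c < δ, v' c < δ ∧ w c < δ := by
    intro c hc
    obtain ⟨t'', ht'', x, hx, hx2⟩ := hcl c hc T hTt
    obtain ⟨a, b, ha, hb, rfl⟩ := (hF2 c (hc.trans hδ) x t'').1 hx2
    have ea : a = v' c := (N' c).uniq ha ((N' c).lower _ ht'' (hv c hc))
    have eb : b = w c := (N2 c).uniq hb ((N2 c).lower _ ht'' (hw c hc))
    rw [← ea, ← eb]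
    exact ⟨((le_max_left _ _).trans (le_max_left _ _)).trans_lt hx,
      ((le_max_right _ _).trans (le_max_left _ _)).trans_lt hx⟩
  have hn : ∀ c < δ, Gg c ≤ v' c ∧ ∃ a, a ≤ v' c ∧ T ∈ (N c).val a := by
    intro c hc
    obtain ⟨a, b, ha, hb, hab⟩ := (hN' c (v' c) T).1 (hv c hc)
    rw [hab]
    exact ⟨le_max_right _ _, a, (le_max_left _ _).trans (le_max_left _ _), ha⟩
  have hδ0 : 0 < δ := hδl.bot_lt
  have hω : ω < δ := (g4 0).trans_lt ((hn 0 hδ0).1.trans_lt (hvw 0 hδ0).1)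
  have hsl : ∀ c < δ, ((2 : Cardinal.{u}) ^ c.card).ord < δ := fun c hc =>
    (g3 c).trans_lt ((hn c hc).1.trans_lt (hvw c hc).1)
  obtain ⟨μ, dl, hμl, hμ0, hdμ, hinc, hcont, hDl, hcof⟩ := club_seq hκ hδ hω hsl
    {d | 0 < d ∧ d ≤ δ ∧ ∀ c < d, v' c < d} (by
      intro d hd hd0 h
      refine ⟨hd0, hd, fun c hc => ?_⟩
      obtain ⟨d', h1, h2, h3⟩ := h c hc
      exact (h1.2.2 c h2).trans_le h3) w (by
      intro c hc
      obtain ⟨h1, h2, h3, h4⟩ := hN2 c (hc.trans hδ) (w c) T (hw c hc)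
      refine ⟨(hvw c hc).2, h2, h3, (zero_le).trans_lt h2, (hvw c hc).2.le, ?_⟩
      intro x hx
      obtain ⟨t'', ht'', y, hy, hy2⟩ := h4 x hx T le_rfl
      have hxδ : x < δ := hx.trans (hvw c hc).2
      rw [(N' x).uniq ((N' x).lower _ ht'' (hv x hxδ)) hy2]
      exact hy)
  have key : ∀ ξ ≤ μ, ∀ c < dl ξ, c < δ ∧ Gg c < dl ξ ∧ ∃ a < dl ξ, T ∈ (N c).val a := by
    intro ξ hξ c hc
    have h1 := hDl ξ hξ
    have hcδ : c < δ := hc.trans_le h1.2.1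
    obtain ⟨h2, a, h3, h4⟩ := hn c hcδ
    exact ⟨hcδ, h2.trans_lt (h1.2.2 c hc), a, h3.trans_lt (h1.2.2 c hc), h4⟩
  have hO : Orc hκ.1 D g C T e μ dl := by
    refine ⟨hμl, hμ0, ?_, hinc, hcont, hcof, ?_, ?_, ?_, ?_⟩
    · rw [hdμ]
      exact hTh
    · intro ξ hξ i hi
      exact ⟨Rb i, (g2 i).trans_lt (key ξ hξ i hi).2.1, hRb2 i, fun j _ hj => hRb3 i j hj⟩
    · rw [he0, prj_amj hκ.1 hs]
      exact hTs
    · intro ξ hξ i β γ hi hβ hγ X hX h1 h2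
      obtain ⟨hγδ, hGγ, -⟩ := key ξ hξ γ hγ
      obtain ⟨c, hc, hc2⟩ := hst γ (hγδ.trans hδ) i hi β hβ X hX
      obtain ⟨-, -, a, ha, ha2⟩ := key ξ hξ c (hc.trans ((g1 γ).trans_lt hGγ))
      rw [he0] at h2
      exact ⟨a, ha, hc2 a T ha2 h1 h2⟩
    · intro ξ hξ γ hγ z hz hz0 h1
      obtain ⟨hγδ, hGγ, -⟩ := key ξ hξ γ hγ
      obtain ⟨c, hc, hc2⟩ := hlm γ (hγδ.trans hδ) z hz hz0
      obtain ⟨-, -, a, ha, ha2⟩ := key ξ hξ c (hc.trans ((g1 γ).trans_lt hGγ))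
      obtain ⟨p', h2, h3⟩ := h1
      exact ⟨a, ha, hc2 a T ha2 ⟨p', h2.ge, h3⟩⟩
  obtain ⟨p, hp0, hpa, hpC, p', hp', hpp⟩ := hO.main
  have hp'0 : p' ≤ amj hκ.1 D g s q := by
    have h1 := hpp 0 hμl.bot_lt
    rw [hp0, he0] at h1
    exact h1
  have hT' : T ≤ prj hκ.1 D g p' := hp'.ge
  refine ⟨T, hTt, p', hp'0.trans (amj_le hκ.1 hs), hT', ?_⟩
  refine hC.closed δ hδ hδl _ ((amj_le hκ.1 hT').trans hp'0) ?_
  intro α hα r' hr'
  rw [← hdμ] at hα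
  obtain ⟨ξ, hξ, hξ2⟩ := hcont μ le_rfl hμl α hα
  obtain ⟨c, hc1, hc2, hc3⟩ := hpC ξ hξ
  have hξ1 : ξ + 1 < μ := hμl.add_one_lt hξ
  refine ⟨r', le_rfl, c, hξ2.trans hc1, ?_, ?_⟩
  · rw [← hdμ]
    exact hc2.trans (hinc _ _ hξ1 le_rfl)
  · exact (hC.reg c).1 ((hr'.trans (amj_le hκ.1 hT')).trans (hpp _ hξ1)) hc3

end Pool.Agent.H40.IS
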