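/-
K15 (KFP).  The pair (stage g, all conditions) satisfies FP.  Imports SPb, KCtb only.  About 40 lines.
-/
import Pool.Agent.H40.IS.SPb
import Pool.Agent.H40.IS.KCtb

namespace Pool.Agent.H40.IS
open Cardinal Ordinal Set
universe u
variable {κ : Cardinal.{u}}

theorem ctbP (hκ : κ.IsInaccessible) (D : Ordinal.{u} → Tri.{u}) (g : Ordinal.{u}) (q : ℕ → PT κ D)
    (hq : Antitone q) : ∃ r, (∀ n, r ≤ q n) ∧ ∀ t : QT κ D g, (∀ n, t ≤ prj hκ D g (q n)) →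
      t ≤ prj hκ D g r := by
  obtain ⟨r, hr, h1, h2⟩ := ctb_glb hκ (q := fun n => (q n).1) (fun n => (q n).2)
    (fun a b hab => hq hab)
  exact ⟨⟨r, hr⟩, fun n => h1 n, fun t ht => h2 g t.1 (fun n => ht n)⟩

theorem ctbQT (hκ : κ.IsInaccessible) (D : Ordinal.{u} → Tri.{u}) (g : Ordinal.{u}) (q : ℕ → QT κ D g)
    (hq : Antitone q) : ∃ r, ∀ n, r ≤ q n := by
  obtain ⟨r, hr, h1, -⟩ := ctb_glb hκ (q := fun n => (q n).1) (fun n => (q n).2)
    (fun a b hab => hq hab)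
  exact ⟨⟨r, hr⟩, fun n => h1 n⟩

/-- the abstract situation holds -/
noncomputable def fp (hκ : Lst κ) (D : Ordinal.{u} → Tri.{u}) (g : Ordinal.{u}) :
    FP κ (QT κ D g) (PT κ D) where
  pr := prj hκ.1 D g
  am := amj hκ.1 D g
  pr_mono := prj_mono hκ.1
  am_le := amj_le hκ.1
  pr_am := fun h => (prj_amj hκ.1 h).le
  le_pr_am := fun h => (prj_amj hκ.1 h).ge
  le_am := fun h hr h2 => le_amj hκ.1 h hr h2
  distQ := distJ hκ.1 D _
  distP := distJ hκ.1 D _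
  ctbQ := ctbQT hκ.1 D g
  ctb := ctbP hκ.1 D g
  sp := sp hκ D g

end Pool.Agent.H40.IS
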