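/-
K20 (TDef).  Definitions for the branchless tree and the book-keeping; small lemmas.  Imports KPr, KDist, Bas.  About 120 lines.
PROOFS.
Ts_reg: lower clear.  If densely below p there are elements of Ts s, let q ≤ p, ε ∈ S, ε ≤ s.len, ε ≤ q.ht; take t ≤ q in Ts s:
 t.b ε = q.b ε, ε ≤ t.ht, so s.res ε ≠ t.b ε.
Ts_res: (s.res a).res ε = s.res ε for ε ≤ (s.res a).len.
decideZ: Dist.below (distJ) with D i = {t | ∃ v < κ.ord, t ∈ Z i v} below p: t' ≤ t with values v i < κ.ord for i < l; s = mk l v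
 (Lt_kappa).
-/
import Pool.Agent.H40.IS.KPr
import Pool.Agent.H40.IS.KDist
import Pool.Agent.H40.IS.Bas

namespace Pool.Agent.H40.IS
open Cardinal Ordinal Set
universe u
variable {κ : Cardinal.{u}} {D : Ordinal.{u} → Tri.{u}}

/-- conditions forcing `s ∈ T*` -/
def Ts (κ : Cardinal.{u}) (D : Ordinal.{u} → Tri.{u}) (s : So.{u}) : Set (PT κ D) :=
  {p | ∀ q ≤ p, ∀ ε, IsS ε → ε ≤ s.len → ε ≤ q.1.ht → s.res ε ≠ q.1.b ε}

/-- `p` forces that `Z` is a function from `κ` to `κ` -/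
structure FnName (κ : Cardinal.{u}) {P : Type (u + 1)} [Preorder P] (p : P)
    (Z : Ordinal.{u} → Ordinal.{u} → Set P) : Prop where
  lower : ∀ i v, IsLowerSet (Z i v)
  uniq : ∀ t ≤ p, ∀ i v v', t ∈ Z i v → t ∈ Z i v' → v = v'
  tot : ∀ i < κ.ord, ∀ t ≤ p, ∃ t' ≤ t, ∃ v < κ.ord, t' ∈ Z i v

/-- a name given by sets of raw conditions of stage `j`, as a name over all conditions -/
def pul (κ : Cardinal.{u}) (D : Ordinal.{u} → Tri.{u}) (j : Ordinal.{u})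
    (A : ℕ → Ordinal.{u} → Ordinal.{u} → Set Raw.{u}) : ℕ → Ordinal.{u} → Ordinal.{u} → Set (PT κ D) :=
  fun n x y => {p | p.1.res j ∈ A n x y}

/-- the iterated triples are names of non isomorphic structures (in the final model) -/
def Good (κ : Cardinal.{u}) (D : Ordinal.{u} → Tri.{u}) : Prop :=
  ∀ j, ∀ p : PT κ D, p.1 ≤ (D j).c → ∀ H, ¬ IsoName κ p (pul κ D j (D j).A) (pul κ D j (D j).B) H

theorem FnName.mono {P : Type (u + 1)} [Preorder P] {p q : P}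
    {Z : Ordinal.{u} → Ordinal.{u} → Set P} (h : FnName κ p Z) (hq : q ≤ p) : FnName κ q Z := by
  exact ⟨h.lower, fun t ht => h.uniq t (ht.trans hq), fun i hi t ht => h.tot i hi t (ht.trans hq)⟩

theorem Ts_reg (s : So.{u}) : Reg (Ts κ D s) := by
  refine ⟨fun p q hq hp r hr ε h1 h2 h3 => hp r (hr.trans hq) ε h1 h2 h3, ?_⟩
  intro t ht q hq ε h1 h2 h3 h4
  obtain ⟨t', ht', hmem⟩ := ht q hq
  have h5 : t'.1 ≤ q.1 := ht'
  refine hmem t' le_rfl ε h1 h2 (h3.trans h5.1) ?_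
  rw [h4]
  exact (h5.2.1 ε h1 h3).symm

theorem Ts_res {s : So.{u}} {p : PT κ D} (h : p ∈ Ts κ D s) (a : Ordinal.{u}) : p ∈ Ts κ D (s.res a) := by
  intro q hq ε h1 h2 h3
  rw [res_len, le_min_iff] at h2
  rw [res_res_of_le s h2.2]
  exact h q hq ε h1 h2.1 h3

theorem decideZ (hκ : κ.IsInaccessible) {p : PT κ D} {Z : Ordinal.{u} → Ordinal.{u} → Set (PT κ D)}
    (hZ : FnName κ p Z) {l : Ordinal.{u}} (hl : l < κ.ord) {t : PT κ D} (ht : t ≤ p) :
    ∃ t' ≤ t, ∃ s : So.{u}, s.len = l ∧ Lt κ.ord s ∧ ∀ i < l, t' ∈ Z i (s.val i) := by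
  classical
  obtain ⟨t', ht', hD⟩ := (distJ hκ D univ).below hl p (fun i => {r | ∃ v < κ.ord, r ∈ Z i v}) (by
    intro i hi
    refine ⟨?_, ?_⟩
    · rintro a b hba ⟨v, hv, hav⟩
      exact ⟨v, hv, hZ.lower i v hba hav⟩
    · intro r hr
      obtain ⟨r', hr', v, hv, hmem⟩ := hZ.tot i (hi.trans hl) r hr
      exact ⟨r', hr', v, hv, hmem⟩) t ht
  have hch : ∀ i : Ordinal.{u}, ∃ v : Ordinal.{u}, i < l → v < κ.ord ∧ t' ∈ Z i v := by
    intro i
    by_cases hi : i < l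
    · obtain ⟨v, hv, hm⟩ := hD i hi
      exact ⟨v, fun _ => ⟨hv, hm⟩⟩
    · exact ⟨0, fun h => absurd h hi⟩
  choose v hv using hch
  refine ⟨t', ht', mk l v, mk_len l v, Lt_kappa hκ hl ?_, ?_⟩
  · intro i
    rcases lt_or_ge i l with h1 | h1
    · rw [mk_val h1]
      exact (hv i h1).1
    · rw [(mk l v).junk i h1]
      have h0 : Rk.rk (Rk.z : Ordinal.{u}) = 0 := Rk.rk_z
      rw [h0]
      exact kord_pos hκ
  · intro i hi
    rw [mk_val hi]
    exact (hv i hi).2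

end Pool.Agent.H40.IS
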