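/-
K21b (GD).  The iteration is good.  Imports DD, TDef, KFP, Fin only.  About 100 lines.
PROOF.  Let j, p with p.1 ≤ (D j).c and IsoName κ p (pul j (D j).A) (pul j (D j).B) H.  (g,k) = dec j, T = en g k, D j = lft g T, (D j).c = T.c.
 If T = jk κ: κ.ord ≤ p.ht < κ.ord, contradiction.  Otherwise VS κ (PJ κ D (Iio g)) T.
 For r : PT κ D: r ∈ pul j (D j).A n x y iff (r.res j).res g ∈ T.A n x y iff r.res g ∈ T.A n x y (rres_rres_le, g ≤ j), i.e.
 pul j (D j).A = pull (fp hκ D g) A' with A' n x y = {t : QT κ D g | t.1 ∈ T.A n x y}; same for B.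
 Let s = prj p (≤ ⟨T.c, _⟩: p.res g ≤ T.c.res g = T.c by rres_mono, rres_self).  StrName κ s A' and B' (monotone in s).
 IsoName κ (amj s p) ...: monotone (amj s p ≤ p).  iso_down (Fin.lean) gives H' with IsoName κ s A' B' H': contradicts VS.
-/
import Pool.Agent.H40.IS.DD
import Pool.Agent.H40.IS.TDef
import Pool.Agent.H40.IS.KFP
import Pool.Agent.H40.IS.Fin

namespace Pool.Agent.H40.IS
open Cardinal Ordinal Set
universe u
variable {κ : Cardinal.{u}}

theorem StrName_mono {Q : Type (u + 1)} [Preorder Q] {s t : Q}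
    {A : ℕ → Ordinal.{u} → Ordinal.{u} → Set Q} (h : StrName κ s A) (ht : t ≤ s) : StrName κ t A :=
  ⟨h.reg, fun n x y r hr => h.dom n x y r (hr.trans ht),
    fun n x hx r hr => h.refl n x hx r (hr.trans ht),
    fun n x y r hr => h.symm n x y r (hr.trans ht),
    fun n x y z r hr => h.trans n x y z r (hr.trans ht),
    fun n x y r hr => h.refine' n x y r (hr.trans ht)⟩

theorem IsoName_mono {Q : Type (u + 1)} [Preorder Q] {s t : Q}
    {A B : ℕ → Ordinal.{u} → Ordinal.{u} → Set Q} {H : Ordinal.{u} → Ordinal.{u} → Set Q}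
    (h : IsoName κ s A B H) (ht : t ≤ s) : IsoName κ t A B H :=
  ⟨h.lower, fun r hr => h.dom r (hr.trans ht), fun r hr => h.fn r (hr.trans ht),
    fun r hr => h.inj r (hr.trans ht), fun r hr => h.tot r (hr.trans ht),
    fun r hr => h.onto r (hr.trans ht), fun r hr => h.pres r (hr.trans ht)⟩

theorem good_D (hκ : Lst κ) {dec : Ordinal.{u} → Ordinal.{u} × Ordinal.{u}}
    (hdec : ∀ j, (dec j).1 ≤ j) {D : Ordinal.{u} → Tri.{u}} {en : Ordinal.{u} → Ordinal.{u} → Tri.{u}}
    (hD : ∀ j, D j = lft (dec j).1 (en (dec j).1 (dec j).2))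
    (hen : ∀ g k, VS κ (PJ κ D (Iio g)) (en g k) ∨ en g k = jk κ) : Good κ D := by
  intro j p hp H hiso
  have hDj := hD j
  have hgj := hdec j
  generalize hg : (dec j).1 = g at hDj hgj
  generalize hk : (dec j).2 = k at hDj
  rcases hen g k with hV | hV
  · obtain ⟨hc, hSA, hSB, -, -, hno⟩ := hV
    have hcD : (D j).c = (en g k).c := by
      rw [hDj]
      rfl
    rw [hcD] at hp
    have hs : prj hκ.1 D g p ≤ ⟨(en g k).c, hc⟩ := by
      have h1 : p.1.res g ≤ (en g k).c.res g := rres_mono hp g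
      rw [rres_self hc.1.1 hc.2] at h1
      exact h1
    have hle : (fp hκ D g).am (prj hκ.1 D g p) p ≤ p := amj_le hκ.1 le_rfl
    have hiso1 := IsoName_mono hiso hle
    have hA : pul κ D j (D j).A =
        pull (fp hκ D g) (fun n x y => {t : QT κ D g | t.1 ∈ (en g k).A n x y}) := by
      funext n x y
      ext r
      have h1 : r ∈ pul κ D j (D j).A n x y ↔ (r.1.res j).res g ∈ (en g k).A n x y := by
        rw [hDj]
        rfl
      have h2 : r ∈ pull (fp hκ D g) (fun n x y => {t : QT κ D g | t.1 ∈ (en g k).A n x y}) n x y ↔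
          r.1.res g ∈ (en g k).A n x y := Iff.rfl
      rw [h1, h2, rres_rres_le r.1 hgj]
    have hB : pul κ D j (D j).B =
        pull (fp hκ D g) (fun n x y => {t : QT κ D g | t.1 ∈ (en g k).B n x y}) := by
      funext n x y
      ext r
      have h1 : r ∈ pul κ D j (D j).B n x y ↔ (r.1.res j).res g ∈ (en g k).B n x y := by
        rw [hDj]
        rfl
      have h2 : r ∈ pull (fp hκ D g) (fun n x y => {t : QT κ D g | t.1 ∈ (en g k).B n x y}) n x y ↔
          r.1.res g ∈ (en g k).B n x y := Iff.rfl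
      rw [h1, h2, rres_rres_le r.1 hgj]
    rw [hA, hB] at hiso1
    obtain ⟨H', hH'⟩ := iso_down hκ.1.isRegular hκ.1.aleph0_lt (fp hκ D g) (le_refl _)
      (StrName_mono hSA hs) (StrName_mono hSB hs) hiso1
    exact hno _ hs H' hH'
  · have hcD : (D j).c = (jk κ).c := by
      rw [hDj, hV]
      rfl
    rw [hcD] at hp
    have h1 : κ.ord ≤ p.1.ht := hp.1
    exact absurd p.2.1.1.ht (not_lt.2 h1)

end Pool.Agent.H40.IS
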