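/-
K14 (KBd).  Regular sets of conditions are determined by a bounded set of coordinates.  Imports KCc, KPr, Bas only.  About 150 lines.
PROOF of reg_bdd.  O = {p | p ∈ A ∨ ∀ r ≤ p, r ∉ A} is open and dense.  exists_antichain gives M ⊆ O pairwise incompatible such that
every p ∈ O has p' ≤ p below an element of M.  Lk κ M by cc, so the supports of the elements of M are bounded by some g: bounded_supp
for each m ∈ M, M is small (Lk.small), so sup exists (Ordinal.bddAbove_of_small / bddAbove_range of a small family).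
Claim: p ∈ A implies inc (prj p) ∈ A.  By regularity of A let t ≤ inc (prj p) (so t.1.res g ≤ p.1.res g); find t'' ≤ t in A.
 O is dense: t1 ≤ t in O, t2 ≤ t1, t2 ≤ m ∈ M.  If m ∈ A then t2 ∈ A.  Otherwise no r ≤ m is in A.  Let r = amj (prj t2) p ≤ p: r ∈ A.
 r ≤ inc (prj t2) ≤ m since m = m.res g (m.supp ⊆ Iio g, rres_self) and t2 ≤ m.  Contradiction.
For p, q with the same res g: p ∈ A → inc (prj p) = inc (prj q) ∈ A → q ≤ inc (prj q) is in A.  For g' ≥ g: equal res g' implies equal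
res g (rres_rres_le).
reg_bdd_family: g n x y for n : ℕ, x, y < κ.ord: a small family of ordinals; take an upper bound, also ≥ β.
-/
import Pool.Agent.H40.IS.KCc
import Pool.Agent.H40.IS.KPr
import Pool.Agent.H40.IS.Bas

namespace Pool.Agent.H40.IS
open Cardinal Ordinal Set
universe u
variable {κ : Cardinal.{u}}

/-- one half of the claim: membership in `A` passes to the projection -/
private theorem kbd_claim (hκ : κ.IsInaccessible) (D : Ordinal.{u} → Tri.{u}) (A : Set (PT κ D))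
    (hA : Reg A) (M : Set (PT κ D))
    (hMO : M ⊆ {p : PT κ D | p ∈ A ∨ ∀ r ≤ p, r ∉ A})
    (hMd : ∀ t ∈ {p : PT κ D | p ∈ A ∨ ∀ r ≤ p, r ∉ A}, ∃ t' ≤ t, ∃ a ∈ M, t' ≤ a)
    (g : Ordinal.{u}) (hg : ∀ m ∈ M, m.1.supp ⊆ Iio g) (p : PT κ D) (hp : p ∈ A) :
    inc κ D g (prj hκ D g p) ∈ A := by
  refine hA.2 _ ?_
  intro t ht
  have h1 : ∃ t1 ≤ t, t1 ∈ {p : PT κ D | p ∈ A ∨ ∀ r ≤ p, r ∉ A} := by
    by_cases hc : ∃ r ≤ t, r ∈ A
    · obtain ⟨r, hr, hrA⟩ := hc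
      exact ⟨r, hr, Or.inl hrA⟩
    · refine ⟨t, le_rfl, Or.inr ?_⟩
      intro r hr hrA
      exact hc ⟨r, hr, hrA⟩
  obtain ⟨t1, ht1, hO⟩ := h1
  obtain ⟨t2, ht2, m, hm, htm⟩ := hMd t1 hO
  refine ⟨t2, ht2.trans ht1, ?_⟩
  rcases hMO hm with hmA | hmA
  · exact hA.1 htm hmA
  · exfalso
    have h2 : prj hκ D g t2 ≤ prj hκ D g p := by
      have h3 := prj_mono (g := g) hκ ((ht2.trans ht1).trans ht)
      rwa [prj_inc] at h3
    have h4 : amj hκ D g (prj hκ D g t2) p ≤ p := amj_le hκ h2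
    have h5 : amj hκ D g (prj hκ D g t2) p ∈ A := hA.1 h4 hp
    refine hmA _ ?_ h5
    refine (le_inc_prj (g := g) hκ _).trans ?_
    rw [prj_amj hκ h2]
    have h6 : m.1.res g = m.1 := rres_self m.2.1.1 (hg m hm)
    have h7 : t2.1.res g ≤ m.1.res g := rres_mono htm g
    rw [h6] at h7
    exact h7

theorem reg_bdd (hκ : κ.IsInaccessible) (D : Ordinal.{u} → Tri.{u}) (A : Set (PT κ D)) (hA : Reg A) :
    ∃ g : Ordinal.{u}, ∀ g' ≥ g, ∀ p q : PT κ D, p.1.res g' = q.1.res g' → (p ∈ A ↔ q ∈ A) := by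
  obtain ⟨M, hMO, hMi, hMd⟩ := exists_antichain {p : PT κ D | p ∈ A ∨ ∀ r ≤ p, r ∉ A}
  have hlow : IsLowerSet {p : PT κ D | p ∈ A ∨ ∀ r ≤ p, r ∉ A} := by
    intro a b hb ha
    rcases ha with ha | ha
    · exact Or.inl (hA.1 hb ha)
    · exact Or.inr (fun r hr => ha r (hr.trans hb))
  have hMk : Lk κ M := cc hκ D univ M hMi
  have hb : ∀ m : PT κ D, ∃ g : Ordinal.{u}, m.1.supp ⊆ Iio g := fun m => bounded_supp m.2.1
  choose γ hγ using hb
  have hs : Small.{u} (γ '' M) := (hMk.image γ).small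
  obtain ⟨G, hG⟩ := Ordinal.bddAbove_of_small (s := γ '' M)
  refine ⟨G, ?_⟩
  intro g' hg' p q hpq
  have hM' : ∀ m ∈ M, m.1.supp ⊆ Iio g' := by
    intro m hm x hx
    have h1 : γ m ≤ G := hG (mem_image_of_mem γ hm)
    exact lt_of_lt_of_le (hγ m hx) (h1.trans hg')
  have key : ∀ p q : PT κ D, p.1.res g' = q.1.res g' → p ∈ A → q ∈ A := by
    intro p q hpq hp
    have h1 := kbd_claim hκ D A hA M hMO (hMd hlow) g' hM' p hp
    have h2 : prj hκ D g' p = prj hκ D g' q := Subtype.ext hpq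
    rw [h2] at h1
    exact hA.1 (le_inc_prj hκ q) h1
  exact ⟨key p q hpq, key q p hpq.symm⟩

theorem reg_bdd_family (hκ : κ.IsInaccessible) (D : Ordinal.{u} → Tri.{u})
    (A : ℕ → Ordinal.{u} → Ordinal.{u} → Set (PT κ D)) (hA : ∀ n x y, Reg (A n x y))
    (β : Ordinal.{u}) :
    ∃ g ≥ β, ∀ n, ∀ x < κ.ord, ∀ y < κ.ord, ∀ p q : PT κ D, p.1.res g = q.1.res g →
      (p ∈ A n x y ↔ q ∈ A n x y) := by
  have h1 : ∀ n x y, ∃ g : Ordinal.{u}, ∀ g' ≥ g, ∀ p q : PT κ D, p.1.res g' = q.1.res g' →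
      (p ∈ A n x y ↔ q ∈ A n x y) := fun n x y => reg_bdd hκ D (A n x y) (hA n x y)
  choose G hG using h1
  have hs : Small.{u} (range (fun z : ℕ × (Iio κ.ord × Iio κ.ord) =>
      G z.1 (z.2.1 : Ordinal.{u}) (z.2.2 : Ordinal.{u}))) := by
    have h2 : Small.{u} (ℕ × (Iio κ.ord × Iio κ.ord)) := by infer_instance
    exact small_range _
  obtain ⟨B, hB⟩ := Ordinal.bddAbove_of_small (s := range (fun z : ℕ × (Iio κ.ord × Iio κ.ord) =>
      G z.1 (z.2.1 : Ordinal.{u}) (z.2.2 : Ordinal.{u})))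
  refine ⟨max B β, le_max_right _ _, ?_⟩
  intro n x hx y hy p q hpq
  refine hG n x y (max B β) ?_ p q hpq
  exact (hB ⟨(n, (⟨x, hx⟩, ⟨y, hy⟩)), rfl⟩).trans (le_max_left _ _)

end Pool.Agent.H40.IS
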