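/-
MP_4c8320_lc, part F (concrete part): definitions of the iteration.
helper40.
-/
import Pool.Agent.H40.IS.Abs

namespace Pool.Agent.H40.IS

open Cardinal Ordinal Set

universe u

/-- types of values with a rank -/
class Rk (V : Type (u + 1)) where
  z : V
  rk : V → Ordinal.{u}
  rk_z : rk z = 0

noncomputable instance : Rk Ordinal.{u} := ⟨0, id, rfl⟩
noncomputable instance : Rk (Ordinal.{u} × Ordinal.{u}) := ⟨(0, 0), fun x => max x.1 x.2, by simp⟩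

/-- sequences of ordinal length -/
@[ext] structure Sq (V : Type (u + 1)) [Rk V] where
  len : Ordinal.{u}
  val : Ordinal.{u} → V
  junk : ∀ i, len ≤ i → val i = Rk.z

section Sq
variable {V : Type (u + 1)} [Rk V]

noncomputable instance : Inhabited (Sq V) := ⟨⟨0, fun _ => Rk.z, fun _ _ => rfl⟩⟩

open Classical in
/-- the sequence of length `l` given by `f` -/
noncomputable def mk (l : Ordinal.{u}) (f : Ordinal.{u} → V) : Sq V :=
  ⟨l, fun i => if i < l then f i else Rk.z, fun i hi => by simp [not_lt.2 hi]⟩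

open Classical in
/-- restriction -/
noncomputable def Sq.res (x : Sq V) (a : Ordinal.{u}) : Sq V :=
  ⟨min x.len a, fun i => if i < a then x.val i else Rk.z, fun i hi => by
    by_cases h : i < a
    · simp only [h, if_true]
      exact x.junk i (by
        rcases min_le_iff.1 hi with h1 | h1
        · exact h1
        · exact absurd h (not_lt.2 h1))
    · simp [h]⟩

/-- length and values are `< γ` -/
def In (γ : Ordinal.{u}) (x : Sq V) : Prop := x.len < γ ∧ ∀ i, Rk.rk (x.val i) < γ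

/-- bounded below `δ` -/
def Lt (δ : Ordinal.{u}) (x : Sq V) : Prop := ∃ γ < δ, In γ x

end Sq

/-- small: fewer than `κ` elements -/
def Sm (κ : Cardinal.{u}) {α : Type (u + 1)} (T : Set α) : Prop := #T < Cardinal.lift.{u + 1} κ

/-- at most `κ` elements -/
def Lk (κ : Cardinal.{u}) {α : Type (u + 1)} (T : Set α) : Prop := #T ≤ Cardinal.lift.{u + 1} κ

/-- cofinality `ω₁` -/
def IsS (ε : Ordinal.{u}) : Prop := ε.cof = ℵ₁

/-- nodes of the trees `T(A,B)` -/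
abbrev Nd : Type (u + 1) := Sq (Ordinal.{u} × Ordinal.{u})
/-- sequences of ordinals -/
abbrev So : Type (u + 1) := Sq Ordinal.{u}

/-- the data of a condition at one coordinate -/
@[ext] structure Dat : Type (u + 1) where
  pi : Set (Nd.{u} × So.{u})
  F : Set So.{u}
  h : Ordinal.{u}

noncomputable instance : Inhabited Dat.{u} := ⟨⟨∅, ∅, 0⟩⟩

/-- raw conditions -/
@[ext] structure Raw : Type (u + 1) where
  ht : Ordinal.{u}
  b : Ordinal.{u} → So.{u}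
  supp : Set Ordinal.{u}
  d : Ordinal.{u} → Dat.{u}

noncomputable instance : Inhabited Raw.{u} := ⟨⟨0, fun _ => default, ∅, fun _ => default⟩⟩

/-- `q` extends `p` -/
noncomputable instance : Preorder Raw.{u} where
  le q p := p.ht ≤ q.ht ∧ (∀ ε, IsS ε → ε ≤ p.ht → q.b ε = p.b ε) ∧ p.supp ⊆ q.supp ∧
    ∀ j ∈ p.supp, (p.d j).pi ⊆ (q.d j).pi ∧ (p.d j).F ⊆ (q.d j).F ∧ (p.d j).h ≤ (q.d j).h
  le_refl p := ⟨le_rfl, fun _ _ _ => rfl, Subset.rfl, fun _ _ => ⟨Subset.rfl, Subset.rfl, le_rfl⟩⟩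
  le_trans r q p h1 h2 := ⟨h2.1.trans h1.1,
    fun ε h3 h4 => (h1.2.1 ε h3 (h4.trans h2.1)).trans (h2.2.1 ε h3 h4),
    h2.2.2.1.trans h1.2.2.1, fun j hj =>
      ⟨(h2.2.2.2 j hj).1.trans (h1.2.2.2 j (h2.2.2.1 hj)).1,
       (h2.2.2.2 j hj).2.1.trans (h1.2.2.2 j (h2.2.2.1 hj)).2.1,
       (h2.2.2.2 j hj).2.2.trans (h1.2.2.2 j (h2.2.2.1 hj)).2.2⟩⟩

theorem le_def {q p : Raw.{u}} : q ≤ p ↔ p.ht ≤ q.ht ∧ (∀ ε, IsS ε → ε ≤ p.ht → q.b ε = p.b ε) ∧
    p.supp ⊆ q.supp ∧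
    ∀ j ∈ p.supp, (p.d j).pi ⊆ (q.d j).pi ∧ (p.d j).F ⊆ (q.d j).F ∧ (p.d j).h ≤ (q.d j).h := Iff.rfl

open Classical in
/-- restriction of a condition to the coordinates `< j` -/
noncomputable def Raw.res (p : Raw.{u}) (j : Ordinal.{u}) : Raw.{u} :=
  ⟨p.ht, p.b, p.supp ∩ Iio j, fun i => if i < j then p.d i else default⟩

open Classical in
/-- amalgamation: `s` below `g`, `p` from `g` on -/
noncomputable def am (g : Ordinal.{u}) (s p : Raw.{u}) : Raw.{u} :=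
  ⟨s.ht, s.b, s.supp ∪ (p.supp ∩ Ici g), fun j => if j < g then s.d j else p.d j⟩

/-- coordinate data is correct -/
structure DatOK (κ : Cardinal.{u}) (b : Ordinal.{u} → So.{u}) (d : Dat.{u}) : Prop where
  inj : ∀ x y x' y', (x, y) ∈ d.pi → (x', y') ∈ d.pi → (x = x' ↔ y = y')
  len : ∀ x y, (x, y) ∈ d.pi → x.len = y.len ∧ y.len ≤ d.h
  cl : ∀ x y a, (x, y) ∈ d.pi → (x.res a, y.res a) ∈ d.pi
  bdd : ∃ γ < κ.ord, (∀ x y, (x, y) ∈ d.pi → In γ x ∧ In γ y) ∧ ∀ f ∈ d.F, In γ f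
  suc : ∀ f ∈ d.F, ∃ a, f.len = a + 1
  dis : ∀ x y, (x, y) ∈ d.pi → y ∉ d.F
  sl : ∀ ε, IsS ε → ε ≤ d.h → ∃ a < ε, (b ε).res a ∈ d.F

/-- the part of being a condition that does not mention forcing -/
structure Base (κ : Cardinal.{u}) (p : Raw.{u}) : Prop where
  ht : p.ht < κ.ord
  b : ∀ ε, IsS ε → ε ≤ p.ht → (p.b ε).len = ε ∧ Lt κ.ord (p.b ε)
  nb : ∀ ε, ¬ (IsS ε ∧ ε ≤ p.ht) → p.b ε = default
  nd : ∀ j, j ∉ p.supp → p.d j = default
  sm : Sm κ p.supp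
  ok : ∀ j ∈ p.supp, DatOK κ p.b (p.d j)
  h : ∀ j ∈ p.supp, (p.d j).h ≤ p.ht

/-- the relation coded by a node: `x i = (h i, g i)` gives the pairs `(i, h i)` and `(g i, i)` -/
def Pr (x : Nd.{u}) (v w : Ordinal.{u}) : Prop :=
  ∃ i < x.len, (v = i ∧ w = (x.val i).1) ∨ (w = i ∧ v = (x.val i).2)

/-- `p` forces (over `S`) that `x` is a node of `T(A,B)` -/
def FrT (S : Set Raw.{u}) (A B : ℕ → Ordinal.{u} → Ordinal.{u} → Set Raw.{u}) (x : Nd.{u})
    (p : Raw.{u}) : Prop :=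
  (∀ v w v' w', Pr x v w → Pr x v' w' → (v = v' ↔ w = w')) ∧
  ∀ n v w v' w', Pr x v w → Pr x v' w' → ∀ q ∈ S, q ≤ p → (q ∈ A n v v' ↔ q ∈ B n w w')

/-- the data of one step of the iteration -/
structure Tri : Type (u + 1) where
  c : Raw.{u}
  A : ℕ → Ordinal.{u} → Ordinal.{u} → Set Raw.{u}
  B : ℕ → Ordinal.{u} → Ordinal.{u} → Set Raw.{u}

/-- the iteration along `i` -/
noncomputable def PP (κ : Cardinal.{u}) (D : Ordinal.{u} → Tri.{u}) (i : Ordinal.{u}) :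
    Set Raw.{u} :=
  {p | Base κ p ∧ p.supp ⊆ Iio i ∧ ∀ j ∈ p.supp, ∀ _hj : j < i, p.res j ≤ (D j).c ∧
    ∀ x y, (x, y) ∈ (p.d j).pi → FrT (PP κ D j) (D j).A (D j).B x (p.res j)}
termination_by i
decreasing_by exact _hj

/-- all conditions -/
def PV (κ : Cardinal.{u}) (D : Ordinal.{u} → Tri.{u}) : Set Raw.{u} :=
  {p | Base κ p ∧ ∀ j ∈ p.supp, p.res j ≤ (D j).c ∧
    ∀ x y, (x, y) ∈ (p.d j).pi → FrT (PP κ D j) (D j).A (D j).B x (p.res j)}

/-- all conditions with support in `J` -/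
def PJ (κ : Cardinal.{u}) (D : Ordinal.{u} → Tri.{u}) (J : Set Ordinal.{u}) : Set Raw.{u} :=
  {p | p ∈ PV κ D ∧ p.supp ⊆ J}

/-- all `h j` are equal to the height -/
def Flat (p : Raw.{u}) : Prop := ∀ j ∈ p.supp, (p.d j).h = p.ht

theorem PP_def (κ : Cardinal.{u}) (D : Ordinal.{u} → Tri.{u}) (i : Ordinal.{u}) :
    PP κ D i = {p | Base κ p ∧ p.supp ⊆ Iio i ∧ ∀ j ∈ p.supp, ∀ _hj : j < i, p.res j ≤ (D j).c ∧
      ∀ x y, (x, y) ∈ (p.d j).pi → FrT (PP κ D j) (D j).A (D j).B x (p.res j)} := by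
  rw [PP]

end Pool.Agent.H40.IS
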