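/-
K11, K12 (KNode).  Adding a coordinate; adding a node to pi.  Imports KFl only.  About 250 lines.
PROOFS.
add_supp: if j ∉ p.supp then q = ⟨p.ht, p.b, insert j p.supp, p.d⟩ (p.d j = default by nd; datOK_default); q.res j ≤ p.res j (even equal);
  for i ∈ p.supp: q.res i ≤ p.res i, FrT_mono.
add_node: first (flat_ext') we may assume x.len ≤ (p.d j).h (H = max p.ht x.len; then h = ht; FrT_mono).  Let d = p.d j,
  A0 = {a ≤ x.len | ∃ y, (x.res a, y) ∈ d.pi} (a lower set by cl, res_res), y_a the image of x.res a for a ∈ A0 (unique by inj, and coherent: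
  y_a.res a' = y_a' for a' ≤ a by cl and inj).  Let a0 be the least ordinal ≤ x.len with (∀ a ∈ A0, a ≤ a0) (a0 = 0 if A0 is empty).
  Let ν < κ.ord be a bound for d (bdd: all of pi and F is In ν).
  y = mk x.len (fun i => if i < a0 then (y_{i+1}).val i else ν) (for i < a0 there is a ∈ A0 with i < a, so i+1 ∈ A0).
  Then for a ∈ A0: y.res a = y_a.  New pi = d.pi ∪ {(x.res a, y.res a) | a ≤ x.len}; F, h unchanged.
  inj between old (x'',y'') and new (x.res a, y.res a), a ≤ x.len: if a ∈ A0 the new pair is old.  If a ∉ A0 then x.res a ∉ dom, and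
  y.res a ∉ ran: if a > a0 the value at a0 is ν, not In ν; if a = a0: if a0 = 0 then A0 is empty, so pi is empty (cl with a = 0: any
  element of pi gives (x''.res 0, y''.res 0), and x''.res 0 = x.res 0, so 0 ∈ A0); a0 is not a successor a'+1 (then a' < a0 gives
  some a ∈ A0 with a > a', so a0 ∈ A0); if a0 is a limit and (x'', y.res a0) ∈ pi then for a < a0 x''.res a and x.res a both have
  image y_a, so x''.res a = x.res a for all a < a0, hence x'' = x.res a0 (eq_of_res_limit), contradiction.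
  Among new pairs: lengths a, a' decide.  dis: y.res a ∈ F: if a ∈ A0 old; if a > a0 not In ν; if a = a0 ∉ A0: a0 is 0 or a limit, but
  elements of F have successor length.  cl: res_res.  bdd: max of ν + 1 and a bound for x (values of y are < ν or = ν), len < κ.ord.
  FrT for x.res a: FrT_res.  The new condition: same ht, b, supp, with the data at j changed; for i ≤ j the restriction to i is
  unchanged, for i > j it is ≤ (FrT_mono).
-/
import Pool.Agent.H40.IS.KFl

namespace Pool.Agent.H40.IS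
open Cardinal Ordinal Set
universe u
variable {κ : Cardinal.{u}} {D : Ordinal.{u} → Tri.{u}} {J : Set Ordinal.{u}}

theorem add_supp (hκ : κ.IsInaccessible) {p : Raw.{u}} (hp : p ∈ PJ κ D J) {j : Ordinal.{u}}
    (hj : j ∈ J) (hc : p.res j ≤ (D j).c) :
    ∃ q ∈ PJ κ D J, q ≤ p ∧ j ∈ q.supp := by
  classical
  by_cases hjs : j ∈ p.supp
  · exact ⟨p, hp, le_rfl, hjs⟩
  · have hdj : p.d j = default := hp.1.1.nd j hjs
    set q : Raw.{u} := ⟨p.ht, p.b, insert j p.supp, p.d⟩ with hq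
    have hqp : q ≤ p :=
      ⟨le_rfl, fun _ _ _ => rfl, subset_insert _ _, fun _ _ => ⟨Subset.rfl, Subset.rfl, le_rfl⟩⟩
    refine ⟨q, ⟨⟨⟨hp.1.1.ht, hp.1.1.b, hp.1.1.nb, fun i hi => ?_, ?_, fun i hi => ?_,
      fun i hi => ?_⟩, fun i hi => ?_⟩, insert_subset hj hp.2⟩, hqp, mem_insert _ _⟩
    · exact hp.1.1.nd i fun h => hi (mem_insert_of_mem _ h)
    · have h1 : insert j p.supp = {j} ∪ p.supp := insert_eq _ _
      change Sm κ (insert j p.supp)
      rw [h1]
      exact Sm.union hκ (Sm.singleton hκ j) hp.1.1.sm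
    · rcases mem_insert_iff.1 hi with rfl | h
      · change DatOK κ p.b (p.d i)
        rw [hdj]
        exact datOK_default hκ _
      · exact hp.1.1.ok i h
    · rcases mem_insert_iff.1 hi with rfl | h
      · change (p.d i).h ≤ p.ht
        rw [hdj]
        exact zero_le
      · exact hp.1.1.h i h
    · have h1 : q.res i ≤ p.res i := rres_mono hqp i
      rcases mem_insert_iff.1 hi with rfl | h
      · refine ⟨h1.trans hc, fun x y hxy => ?_⟩
        exfalso
        change (x, y) ∈ (p.d i).pi at hxy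
        rw [hdj] at hxy
        exact absurd hxy (notMem_empty _)
      · exact ⟨h1.trans (hp.1.2 i h).1, fun x y hxy => FrT_mono h1 ((hp.1.2 i h).2 x y hxy)⟩

/-- the extended data at one coordinate -/
private theorem knode_dat (hκ : κ.IsInaccessible) {b : Ordinal.{u} → So.{u}} {d : Dat.{u}}
    (hd : DatOK κ b d) {x : Nd.{u}} {γ : Ordinal.{u}} (hγ : γ < κ.ord) (hx : In γ x)
    (hlen : x.len ≤ d.h) :
    ∃ y : So.{u}, y.len = x.len ∧
      DatOK κ b ⟨d.pi ∪ {z | ∃ a ≤ x.len, z = (x.res a, y.res a)}, d.F, d.h⟩ := by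
  classical
  obtain ⟨ν, hν, hb1, hb2⟩ := hd.bdd
  set A0 : Set Ordinal.{u} := {a | a ≤ x.len ∧ ∃ y, (x.res a, y) ∈ d.pi} with hA0
  have hY0 : ∀ a : Ordinal.{u}, ∃ y : So.{u}, a ∈ A0 → (x.res a, y) ∈ d.pi := by
    intro a
    by_cases ha : a ∈ A0
    · obtain ⟨y, hy⟩ := ha.2
      exact ⟨y, fun _ => hy⟩
    · exact ⟨default, fun h => absurd h ha⟩
  choose Y hY using hY0
  have hlow : ∀ a ∈ A0, ∀ a' ≤ a, a' ∈ A0 ∧ (Y a).res a' = Y a' := by
    intro a ha a' ha'
    have h1 := hd.cl _ _ a' (hY a ha)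
    rw [res_res_of_le x ha'] at h1
    have h2 : a' ∈ A0 := ⟨ha'.trans ha.1, _, h1⟩
    exact ⟨h2, (hd.inj _ _ _ _ h1 (hY a' h2)).1 rfl⟩
  have hYlen : ∀ a ∈ A0, (Y a).len = a := by
    intro a ha
    rw [← (hd.len _ _ (hY a ha)).1, res_len, min_eq_right ha.1]
  set a0 : Ordinal.{u} := sInf {c | ∀ a ∈ A0, a ≤ c} with ha0
  have hne : {c : Ordinal.{u} | ∀ a ∈ A0, a ≤ c}.Nonempty := ⟨x.len, fun a ha => ha.1⟩
  have hub : ∀ a ∈ A0, a ≤ a0 := csInf_mem hne
  have hlt : ∀ c < a0, ∃ a ∈ A0, c < a := by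
    intro c hc
    by_contra h
    push Not at h
    exact absurd (csInf_le' (s := {c : Ordinal.{u} | ∀ a ∈ A0, a ≤ c}) h) (not_le.2 hc)
  have hsuc : ∀ i < a0, i + 1 ∈ A0 := by
    intro i hi
    obtain ⟨a, ha, hia⟩ := hlt i hi
    exact (hlow a ha (i + 1) (Order.add_one_le_iff.2 hia)).1
  have ha0x : a0 ≤ x.len := csInf_le' (s := {c : Ordinal.{u} | ∀ a ∈ A0, a ≤ c}) fun a ha => ha.1
  set y : So.{u} := mk x.len (fun i => if i < a0 then (Y (i + 1)).val i else ν) with hy
  have hylen : y.len = x.len := mk_len _ _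
  have hy1 : ∀ i < a0, y.val i = (Y (i + 1)).val i := by
    intro i hi
    rw [hy, mk_val (hi.trans_le ha0x), if_pos hi]
  have hy2 : ∀ i < x.len, a0 ≤ i → y.val i = ν := by
    intro i hi hi'
    rw [hy, mk_val hi, if_neg (not_lt.2 hi')]
  have hC1 : ∀ a ∈ A0, y.res a = Y a := by
    intro a ha
    refine Sq.ext' ?_ fun i hi => ?_
    · rw [res_len, hylen, hYlen a ha, min_eq_right ha.1]
    · rw [res_len, hylen, min_eq_right ha.1] at hi
      have h1 : i + 1 ≤ a := Order.add_one_le_iff.2 hi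
      obtain ⟨h2, h3⟩ := hlow a ha (i + 1) h1
      rw [res_val hi, hy1 i (hi.trans_le (hub a ha)), ← h3, res_val (lt_add_one i)]
  have hreslen : ∀ a ≤ x.len, (x.res a).len = a ∧ (y.res a).len = a := by
    intro a ha
    rw [res_len, res_len, hylen, min_eq_right ha]
    exact ⟨rfl, rfl⟩
  have hbig : ∀ a ≤ x.len, a0 < a → ¬ In ν (y.res a) := by
    intro a ha h
    refine not_In (i := a0) ?_
    rw [res_val h, hy2 a0 (h.trans_le ha) le_rfl]
    exact le_rfl
  have heq : ∀ a ≤ x.len, a ∉ A0 → ¬ a0 < a → a = a0 := by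
    intro a ha h1 h2
    refine le_antisymm (not_lt.1 h2) (not_lt.1 fun h3 => h1 ?_)
    obtain ⟨a1, ha1, h4⟩ := hlt a h3
    exact (hlow a1 ha1 a h4.le).1
  have hC3F : ∀ a ≤ x.len, a ∉ A0 → y.res a ∉ d.F := by
    intro a ha h1 h2
    by_cases h3 : a0 < a
    · exact hbig a ha h3 (hb2 _ h2)
    · have h4 := heq a ha h1 h3
      obtain ⟨c, hc⟩ := hd.suc _ h2
      rw [(hreslen a ha).2] at hc
      apply h1
      rw [hc]
      apply hsuc
      rw [← h4, hc]
      exact lt_add_one c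
  have hC3 : ∀ a ≤ x.len, a ∉ A0 → ∀ x'', (x'', y.res a) ∉ d.pi := by
    intro a ha h1 x'' h2
    by_cases h3 : a0 < a
    · exact hbig a ha h3 (hb1 _ _ h2).2
    · have h4 := heq a ha h1 h3
      have h5 : x''.len = a := by rw [(hd.len _ _ h2).1, (hreslen a ha).2]
      have h6 : x'' = x.res a := by
        refine Sq.ext' ?_ fun i hi => ?_
        · rw [h5, (hreslen a ha).1]
        · rw [h5] at hi
          have h7 : i + 1 ∈ A0 := hsuc i (hi.trans_le h4.le)
          have h8 := hd.cl _ _ (i + 1) h2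
          rw [res_res_of_le y (Order.add_one_le_iff.2 hi), hC1 _ h7] at h8
          have h9 := (hd.inj _ _ _ _ h8 (hY _ h7)).2 rfl
          rw [res_val hi, ← res_val (x := x'') (lt_add_one i), h9, res_val (lt_add_one i)]
      exact h1 ⟨ha, _, by rw [← h6]; exact h2⟩
  have hmem : ∀ z : Nd.{u} × So.{u}, z ∈ d.pi ∪ {z | ∃ a ≤ x.len, z = (x.res a, y.res a)} →
      z ∈ d.pi ∨ ∃ a ≤ x.len, a ∉ A0 ∧ z = (x.res a, y.res a) := by
    rintro z (h | ⟨a, ha, h⟩)
    · exact Or.inl h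
    · by_cases h1 : a ∈ A0
      · left
        rw [h, hC1 a h1]
        exact hY a h1
      · exact Or.inr ⟨a, ha, h1, h⟩
  refine ⟨y, hylen, ?_, ?_, ?_, ?_, hd.suc, ?_, hd.sl⟩
  · intro x1 y1 x2 y2 h1 h2
    rcases hmem _ h1 with h1 | ⟨a, ha, hn, h1⟩
    · rcases hmem _ h2 with h2 | ⟨a', ha', hn', h2⟩
      · exact hd.inj _ _ _ _ h1 h2
      · simp only [Prod.mk.injEq] at h2
        obtain ⟨rfl, rfl⟩ := h2
        constructor
        · intro h
          exact absurd ⟨ha', _, by rw [← h]; exact h1⟩ hn'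
        · intro h
          exact absurd (by rw [← h]; exact h1) (hC3 a' ha' hn' x1)
    · simp only [Prod.mk.injEq] at h1
      obtain ⟨rfl, rfl⟩ := h1
      rcases hmem _ h2 with h2 | ⟨a', ha', hn', h2⟩
      · constructor
        · intro h
          exact absurd ⟨ha, _, by rw [h]; exact h2⟩ hn
        · intro h
          exact absurd (by rw [h]; exact h2) (hC3 a ha hn x2)
      · simp only [Prod.mk.injEq] at h2
        obtain ⟨rfl, rfl⟩ := h2
        constructor
        · intro h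
          have h3 := congrArg Sq.len h
          rw [(hreslen a ha).1, (hreslen a' ha').1] at h3
          rw [h3]
        · intro h
          have h3 := congrArg Sq.len h
          rw [(hreslen a ha).2, (hreslen a' ha').2] at h3
          rw [h3]
  · rintro x1 y1 (h1 | ⟨a, ha, h1⟩)
    · exact hd.len _ _ h1
    · simp only [Prod.mk.injEq] at h1
      obtain ⟨rfl, rfl⟩ := h1
      rw [(hreslen a ha).1, (hreslen a ha).2]
      exact ⟨rfl, ha.trans hlen⟩
  · rintro x1 y1 c (h1 | ⟨a, ha, h1⟩)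
    · exact Or.inl (hd.cl _ _ c h1)
    · simp only [Prod.mk.injEq] at h1
      obtain ⟨rfl, rfl⟩ := h1
      right
      refine ⟨min a c, (min_le_left _ _).trans ha, ?_⟩
      rw [res_res, res_res]
  · refine ⟨max (ν + 1) γ, max_lt (kord_limit hκ hν) hγ, ?_, fun f hf =>
      In_mono ((lt_add_one ν).le.trans (le_max_left _ _)) (hb2 f hf)⟩
    have hyIn : In (max (ν + 1) γ) y := by
      refine ⟨?_, fun i => ?_⟩
      · rw [hylen]
        exact hx.1.trans_le (le_max_right _ _)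
      · rcases lt_or_ge i x.len with hi | hi
        · rcases lt_or_ge i a0 with h1 | h1
          · rw [hy1 i h1]
            exact ((hb1 _ _ (hY _ (hsuc i h1))).2.2 i).trans
              ((lt_add_one ν).trans_le (le_max_left _ _))
          · rw [hy2 i hi h1]
            exact (lt_add_one ν).trans_le (le_max_left _ _)
        · rw [y.junk i (by rw [hylen]; exact hi), Rk.rk_z]
          exact lt_of_le_of_lt bot_le ((lt_add_one ν).trans_le (le_max_left _ _))
    rintro x1 y1 (h1 | ⟨a, ha, h1⟩)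
    · have h2 := hb1 _ _ h1
      have h3 : ν ≤ max (ν + 1) γ := (lt_add_one ν).le.trans (le_max_left _ _)
      exact ⟨In_mono h3 h2.1, In_mono h3 h2.2⟩
    · simp only [Prod.mk.injEq] at h1
      obtain ⟨rfl, rfl⟩ := h1
      exact ⟨In_res (In_mono (le_max_right _ _) hx) a, In_res hyIn a⟩
  · intro x1 y1 h1
    rcases hmem _ h1 with h1 | ⟨a, ha, hn, h1⟩
    · exact hd.dis _ _ h1
    · simp only [Prod.mk.injEq] at h1
      obtain ⟨rfl, rfl⟩ := h1
      exact hC3F a ha hn

private theorem knode_core (hκ : κ.IsInaccessible) {p : Raw.{u}} (hp : p ∈ PJ κ D J)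
    {j : Ordinal.{u}} (hj : j ∈ p.supp) {x : Nd.{u}} {γ : Ordinal.{u}} (hγ : γ < κ.ord)
    (hx : In γ x) (hlen : x.len ≤ (p.d j).h)
    (hT : FrT (PP κ D j) (D j).A (D j).B x (p.res j)) :
    ∃ q ∈ PJ κ D J, q ≤ p ∧ ∃ y, (x, y) ∈ (q.d j).pi := by
  classical
  obtain ⟨y, hylen, hd'⟩ := knode_dat hκ (hp.1.1.ok j hj) hγ hx hlen
  set d' : Dat.{u} := ⟨(p.d j).pi ∪ {z | ∃ a ≤ x.len, z = (x.res a, y.res a)}, (p.d j).F,
    (p.d j).h⟩ with hdd
  set q : Raw.{u} := ⟨p.ht, p.b, p.supp, fun i => if i = j then d' else p.d i⟩ with hq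
  have hqj : q.d j = d' := if_pos rfl
  have hqi : ∀ i, i ≠ j → q.d i = p.d i := fun i hi => if_neg hi
  have hqp : q ≤ p := by
    refine ⟨le_rfl, fun _ _ _ => rfl, Subset.rfl, fun i _ => ?_⟩
    by_cases h : i = j
    · subst h
      rw [hqj]
      exact ⟨subset_union_left, Subset.rfl, le_rfl⟩
    · rw [hqi i h]
      exact ⟨Subset.rfl, Subset.rfl, le_rfl⟩
  refine ⟨q, ⟨⟨⟨hp.1.1.ht, hp.1.1.b, hp.1.1.nb, fun i hi => ?_, hp.1.1.sm, fun i hi => ?_,
    fun i hi => ?_⟩, fun i hi => ?_⟩, hp.2⟩, hqp, y, ?_⟩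
  · have h : i ≠ j := by
      rintro rfl
      exact hi hj
    rw [hqi i h]
    exact hp.1.1.nd i hi
  · by_cases h : i = j
    · subst h
      rw [hqj]
      exact hd'
    · rw [hqi i h]
      exact hp.1.1.ok i hi
  · by_cases h : i = j
    · subst h
      rw [hqj]
      exact hp.1.1.h i hi
    · rw [hqi i h]
      exact hp.1.1.h i hi
  · have h1 : q.res i ≤ p.res i := rres_mono hqp i
    refine ⟨h1.trans (hp.1.2 i hi).1, ?_⟩
    by_cases h : i = j
    · subst h
      rw [hqj]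
      rintro x1 y1 (h2 | ⟨a, ha, h2⟩)
      · exact FrT_mono h1 ((hp.1.2 i hi).2 _ _ h2)
      · simp only [Prod.mk.injEq] at h2
        obtain ⟨rfl, rfl⟩ := h2
        exact FrT_res (FrT_mono h1 hT) a
    · rw [hqi i h]
      exact fun x1 y1 h2 => FrT_mono h1 ((hp.1.2 i hi).2 _ _ h2)
  · rw [hqj]
    right
    refine ⟨x.len, le_rfl, ?_⟩
    rw [res_of_le le_rfl, res_of_le hylen.le]

theorem add_node (hκ : κ.IsInaccessible) {p : Raw.{u}} (hp : p ∈ PJ κ D J) {j : Ordinal.{u}}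
    (hj : j ∈ p.supp) {x : Nd.{u}} (hx : Lt κ.ord x)
    (hT : FrT (PP κ D j) (D j).A (D j).B x (p.res j)) :
    ∃ q ∈ PJ κ D J, q ≤ p ∧ ∃ y, (x, y) ∈ (q.d j).pi := by
  obtain ⟨γ, hγ, hxγ⟩ := hx
  have hxl : x.len < κ.ord := hxγ.1.trans hγ
  obtain ⟨p1, hp1, h1, h2, h3, h4, h5⟩ := flat_ext' hκ hp (H := max p.ht x.len) (le_max_left _ _)
    (max_lt hp.1.1.ht hxl)
  have hj1 : j ∈ p1.supp := by rw [h4]; exact hj
  have hlen : x.len ≤ (p1.d j).h := by
    rw [h3 j hj1, h2]
    exact le_max_right _ _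
  obtain ⟨q, hq, hqp, y, hy⟩ := knode_core hκ hp1 hj1 hγ hxγ hlen (FrT_mono (rres_mono h1 j) hT)
  exact ⟨q, hq, hqp.trans h1, y, hy⟩

end Pool.Agent.H40.IS
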