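/-
K4 (KOrd).  Order lemmas for raw conditions: restriction `Raw.res` and amalgamation `am`.  Imports KSq only (for KDef).  About 200 lines.
PROOFS: all by unfolding (le_def, Raw.res, am); note (p.res j).d i = p.d i for i < j and = default otherwise; supp is cut to Iio j.
`hs : s.supp ⊆ Iio g` and `Base κ s` (fields nd, nb) are used to get equalities: for i ≥ g, i ∉ s.supp, so s.d i = default.
-/
import Pool.Agent.H40.IS.KSq

namespace Pool.Agent.H40.IS
open Cardinal Ordinal Set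
universe u
variable {κ : Cardinal.{u}} {g i j : Ordinal.{u}} {p q r s : Raw.{u}}

theorem res_d_lt (h : i < j) : (p.res j).d i = p.d i := by
  simp only [Raw.res, if_pos h]

theorem res_d_ge (h : j ≤ i) : (p.res j).d i = default := by
  simp only [Raw.res, if_neg (not_lt.2 h)]

theorem mem_res_supp : i ∈ (p.res j).supp ↔ i ∈ p.supp ∧ i < j := by
  exact Iff.rfl

theorem rres_mono (h : q ≤ p) (j : Ordinal.{u}) : q.res j ≤ p.res j := by
  refine ⟨h.1, h.2.1, fun i hi => ⟨h.2.2.1 hi.1, hi.2⟩, fun i hi => ?_⟩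
  rw [res_d_lt hi.2, res_d_lt hi.2]
  exact h.2.2.2 i hi.1

theorem le_rres (p : Raw.{u}) (j : Ordinal.{u}) : p ≤ p.res j := by
  refine ⟨le_rfl, fun _ _ _ => rfl, fun i hi => hi.1, fun i hi => ?_⟩
  rw [res_d_lt hi.2]
  exact ⟨Subset.rfl, Subset.rfl, le_rfl⟩

theorem rres_rres_le (p : Raw.{u}) (h : i ≤ j) : (p.res j).res i = p.res i := by
  refine Raw.ext rfl rfl ?_ ?_
  · ext k
    simp only [mem_res_supp]
    exact ⟨fun hk => ⟨hk.1.1, hk.2⟩, fun hk => ⟨⟨hk.1, hk.2.trans_le h⟩, hk.2⟩⟩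
  · funext k
    rcases lt_or_ge k i with hk | hk
    · rw [res_d_lt hk, res_d_lt (hk.trans_le h), res_d_lt hk]
    · rw [res_d_ge hk, res_d_ge hk]

theorem rres_rres_ge (p : Raw.{u}) (h : j ≤ i) : (p.res j).res i = p.res j := by
  refine Raw.ext rfl rfl ?_ ?_
  · ext k
    simp only [mem_res_supp]
    exact ⟨fun hk => hk.1, fun hk => ⟨hk, hk.2.trans_le h⟩⟩
  · funext k
    rcases lt_or_ge k i with hk | hk
    · rw [res_d_lt hk]
    · rw [res_d_ge hk, res_d_ge (h.trans hk)]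

theorem rres_le_rres (p : Raw.{u}) (h : i ≤ j) : p.res j ≤ p.res i := by
  rw [← rres_rres_le p h]
  exact le_rres _ _

theorem rres_self (hp : Base κ p) (h : p.supp ⊆ Iio j) : p.res j = p := by
  refine Raw.ext rfl rfl ?_ ?_
  · ext k
    exact ⟨fun hk => hk.1, fun hk => ⟨hk, h hk⟩⟩
  · funext k
    rcases lt_or_ge k j with hk | hk
    · rw [res_d_lt hk]
    · rw [res_d_ge hk]
      exact (hp.nd k fun h1 => absurd (h h1) (not_lt.2 hk)).symm

theorem am_d_lt (h : i < g) : (am g s p).d i = s.d i := by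
  simp only [am, if_pos h]

theorem am_d_ge (h : g ≤ i) : (am g s p).d i = p.d i := by
  simp only [am, if_neg (not_lt.2 h)]

theorem mem_am_supp : i ∈ (am g s p).supp ↔ i ∈ s.supp ∨ (i ∈ p.supp ∧ g ≤ i) := by
  exact Iff.rfl

theorem am_le_right (h : s ≤ p.res g) : am g s p ≤ p := by
  refine ⟨h.1, h.2.1, fun j hj => ?_, fun j hj => ?_⟩
  · rcases lt_or_ge j g with h1 | h1
    · exact Or.inl (h.2.2.1 ⟨hj, h1⟩)
    · exact Or.inr ⟨hj, h1⟩
  · rcases lt_or_ge j g with h1 | h1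
    · rw [am_d_lt h1]
      have h2 := h.2.2.2 j ⟨hj, h1⟩
      rw [res_d_lt h1] at h2
      exact h2
    · rw [am_d_ge h1]
      exact ⟨Subset.rfl, Subset.rfl, le_rfl⟩

theorem am_le_left (hs : s.supp ⊆ Iio g) : am g s p ≤ s := by
  refine ⟨le_rfl, fun _ _ _ => rfl, fun j hj => Or.inl hj, fun j hj => ?_⟩
  rw [am_d_lt (hs hj)]
  exact ⟨Subset.rfl, Subset.rfl, le_rfl⟩

theorem am_rres (hs : s.supp ⊆ Iio g) (hb : Base κ s) : (am g s p).res g = s := by
  refine Raw.ext rfl rfl ?_ ?_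
  · ext k
    rw [mem_res_supp, mem_am_supp]
    constructor
    · rintro ⟨h1 | ⟨_, h1⟩, h2⟩
      · exact h1
      · exact absurd h2 (not_lt.2 h1)
    · exact fun h1 => ⟨Or.inl h1, hs h1⟩
  · funext k
    rcases lt_or_ge k g with hk | hk
    · rw [res_d_lt hk, am_d_lt hk]
    · rw [res_d_ge hk]
      exact (hb.nd k fun h1 => absurd (hs h1) (not_lt.2 hk)).symm

theorem am_rres_le (hs : s.supp ⊆ Iio g) (h : j ≤ g) : (am g s p).res j = s.res j := by
  refine Raw.ext rfl rfl ?_ ?_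
  · ext k
    rw [mem_res_supp, mem_am_supp, mem_res_supp]
    constructor
    · rintro ⟨h1 | ⟨_, h1⟩, h2⟩
      · exact ⟨h1, h2⟩
      · exact absurd (h2.trans_le h) (not_lt.2 h1)
    · exact fun h1 => ⟨Or.inl h1.1, h1.2⟩
  · funext k
    rcases lt_or_ge k j with hk | hk
    · rw [res_d_lt hk, am_d_lt (hk.trans_le h), res_d_lt hk]
    · rw [res_d_ge hk, res_d_ge hk]

theorem am_rres_ge (h : g ≤ j) (hs : s.supp ⊆ Iio g) : (am g s p).res j = am g s (p.res j) := by
  refine Raw.ext rfl rfl ?_ ?_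
  · ext k
    rw [mem_res_supp, mem_am_supp, mem_am_supp, mem_res_supp]
    constructor
    · rintro ⟨h1 | ⟨h0, h1⟩, h2⟩
      · exact Or.inl h1
      · exact Or.inr ⟨⟨h0, h2⟩, h1⟩
    · rintro (h1 | ⟨⟨h0, h2⟩, h1⟩)
      · exact ⟨Or.inl h1, lt_of_lt_of_le (hs h1) h⟩
      · exact ⟨Or.inr ⟨h0, h1⟩, h2⟩
  · funext k
    rcases lt_or_ge k j with hk | hk
    · rw [res_d_lt hk]
      rcases lt_or_ge k g with h1 | h1
      · rw [am_d_lt h1, am_d_lt h1]
      · rw [am_d_ge h1, am_d_ge h1, res_d_lt hk]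
    · rw [res_d_ge hk, am_d_ge (h.trans hk), res_d_ge hk]

theorem le_am (h : r ≤ p) (h2 : r.res g ≤ s) (hs : s.supp ⊆ Iio g) : r ≤ am g s p := by
  refine ⟨h2.1, h2.2.1, fun j hj => ?_, fun j hj => ?_⟩
  · rcases hj with hj | hj
    · exact (h2.2.2.1 hj).1
    · exact h.2.2.1 hj.1
  · rcases lt_or_ge j g with h1 | h1
    · have h3 : j ∈ s.supp := by
        rcases hj with hj | hj
        · exact hj
        · exact absurd h1 (not_lt.2 hj.2)
      have h4 := h2.2.2.2 j h3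
      rw [res_d_lt h1] at h4
      rw [am_d_lt h1]
      exact h4
    · have h3 : j ∈ p.supp := by
        rcases hj with hj | hj
        · exact absurd (hs hj) (not_lt.2 h1)
        · exact hj.1
      rw [am_d_ge h1]
      exact h.2.2.2 j h3

theorem am_self (p : Raw.{u}) (g : Ordinal.{u}) : am g (p.res g) p = p := by
  refine Raw.ext rfl rfl ?_ ?_
  · ext k
    rw [mem_am_supp, mem_res_supp]
    constructor
    · rintro (h1 | h1)
      · exact h1.1
      · exact h1.1
    · intro h1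
      rcases lt_or_ge k g with hk | hk
      · exact Or.inl ⟨h1, hk⟩
      · exact Or.inr ⟨h1, hk⟩
  · funext k
    rcases lt_or_ge k g with hk | hk
    · rw [am_d_lt hk, res_d_lt hk]
    · rw [am_d_ge hk]

theorem am_mono_left (h : s ≤ r) (hr : r.supp ⊆ Iio g) (hp : s ≤ p.res g) : am g s p ≤ am g r p := by
  refine ⟨h.1, h.2.1, fun j hj => ?_, fun j hj => ?_⟩
  · rcases hj with hj | hj
    · exact Or.inl (h.2.2.1 hj)
    · exact Or.inr hj
  · rcases lt_or_ge j g with h1 | h1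
    · have h3 : j ∈ r.supp := by
        rcases hj with hj | hj
        · exact hj
        · exact absurd h1 (not_lt.2 hj.2)
      rw [am_d_lt h1, am_d_lt h1]
      exact h.2.2.2 j h3
    · rw [am_d_ge h1, am_d_ge h1]
      exact ⟨Subset.rfl, Subset.rfl, le_rfl⟩

end Pool.Agent.H40.IS
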