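/-
AB8 (Lev).  Levels: least representatives, positions, the bijection of the children.  Needs Bas (and Abs).  About 260 lines.
`sh A 0` = everything equivalent, `sh A (n+1) = A n`.  `Mn A n a u`: u is the least element of the n-class of a.
`Po n u v q'`: q' ≤ q and t ∧ q' forces H(u) to be in the n-class of v.  `Xs A n u m`: m is the least element of its (n+1)-class and lies in the n-class of u.
`fl n u v m m'`: forced: H(m) is in the (n+1)-class of m', m ∈ Xs A n u, m' ∈ Xs B n v.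
PROOFS.  sh facts: n = 0 trivial, n + 1 from StrName.  Mn.ex: Dist.below for w < a + 1 and the open sets {t | t ∈ sh A n a w ∨ ∀ t' ≤ t, t' ∉ sh A n a w}
(dense); t' decides all w ≤ a, t' ∈ sh A n a a; u := least w with t' ∈ sh A n a w.  Mn.uniq: if u < u' then t ∈ sh A n a u contradicts Mn a u'.
Mn.congr: t ∈ sh a a', t ∈ Mn a u: sh a' u by symm, trans; if t' ≤ t is in sh a' w with w < u then t' ∈ sh a w.  Mn.self: a := u (t ∈ sh a u).
pres_sh: n = 0: x, x' < κ.ord by hH.dom, so both sides hold; n + 1: hH.pres.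
BIJ.  le: from Po.  lX, lY, lower: clear.  dom: r ≤ am t q' gives pr r ≤ t ≤ s, and pr r ∈ sh A (n+1) m m = A n m m gives m < κ.ord by StrName.dom.
All conditions r ≤ am t q' are ≤ am s q (am_mono; q' ≤ q, t ≤ s).
fn: r ∈ fl m m', fl m m'': r1 ≤ r, w, r1 ∈ H m w, pr r1 ∈ sh B (n+1) w m'; then r2 ≤ r1, w', r2 ∈ H m w', pr r2 ∈ sh B (n+1) w' m''; w = w' (hH.fn); so pr r2 ∈ sh B (n+1) m' m'' and
both are least representatives: Mn.congr, Mn.uniq give m' = m''.  inj: the same with pres_sh: H m w, H m1 w1, w ~ w1 (both ~ m'), so m ~ m1 at level n+1, both least: m = m1.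
tot: r ≤ am t q', pr r ∈ Xs A n u m.  hH.tot: r1 ≤ r, w, r1 ∈ H m w.  Mn.ex for B, n+1, w: t1 ≤ pr r1, t1 ∈ Mn B (n+1) w m'.  r2 = am t1 r1 ≤ r1, pr r2 ≤ t1.  hH.tot for u: r3 ≤ r2, r3 ∈ H u w0; Po:
pr r3 ∈ sh B n w0 v; pres_sh n (u ~ m at level n): pr r3 ∈ sh B n w0 w; and sh B (n+1) w m' implies sh B n w m'; so pr r3 ∈ sh B n v m' and Mn.self: pr r3 ∈ Xs B n v m'.
So r3 ∈ fl m m'.  onto: r ≤ am t q', m' < κ.ord, pr r ∈ Xs B n v m'.  hH.onto: r1, x, r1 ∈ H x m'.  Mn.ex for A, n+1, x: t1 ≤ pr r1, t1 ∈ Mn A (n+1) x m; r2 = am t1 r1; r3 ≤ r2: r3 ∈ H m w, r4 ≤ r3: r4 ∈ H u w0.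
x ~ m at level n+1, so w ~ m' at level n+1 (pres_sh); w0 ~ v (Po) and v ~ m' at level n (Xs B), so w0 ~ w at level n and u ~ m at level n.  So r4 ∈ fl m m'.
-/
import Pool.Agent.H40.IS.Bas

namespace Pool.Agent.H40.IS
open Cardinal Ordinal Set
universe u v w

variable {κ : Cardinal.{u}} {Q P : Type v} [Preorder Q] [Preorder P]

/-- shifted structure: the relation of level 0 is everything -/
def sh (κ : Cardinal.{u}) (A : ℕ → Ordinal.{u} → Ordinal.{u} → Set Q) : ℕ → Ordinal.{u} → Ordinal.{u} → Set Q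
  | 0 => fun x y => {_t | x < κ.ord ∧ y < κ.ord}
  | n + 1 => A n

/-- `u` is the least element of the class of `a` -/
def Mn (κ : Cardinal.{u}) (A : ℕ → Ordinal.{u} → Ordinal.{u} → Set Q) (n : ℕ) (a u : Ordinal.{u}) : Set Q :=
  {t | t ∈ sh κ A n a u ∧ ∀ w < u, ∀ t' ≤ t, t' ∉ sh κ A n a w}

/-- least elements of the `(n+1)`-classes inside the `n`-class of `u` -/
def Xs (κ : Cardinal.{u}) (A : ℕ → Ordinal.{u} → Ordinal.{u} → Set Q) (n : ℕ) (u m : Ordinal.{u}) : Set Q :=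
  {t | t ∈ Mn κ A (n + 1) m m ∧ t ∈ sh κ A n u m}

/-- position: `t ∧ q'` forces that `H` maps `u` into the `n`-class of `v` -/
def Po (F : FP κ Q P) (s : Q) (q : P) (B : ℕ → Ordinal.{u} → Ordinal.{u} → Set Q)
    (H : Ordinal.{u} → Ordinal.{u} → Set P) (n : ℕ) (u v : Ordinal.{u}) (q' : P) : Set Q :=
  {t | t ≤ s ∧ u < κ.ord ∧ v < κ.ord ∧ q' ≤ q ∧ t ≤ F.pr q' ∧
    ∀ r ≤ F.am t q', ∀ w, r ∈ H u w → F.pr r ∈ sh κ B n w v}

def fl (F : FP κ Q P) (A B : ℕ → Ordinal.{u} → Ordinal.{u} → Set Q)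
    (H : Ordinal.{u} → Ordinal.{u} → Set P) (n : ℕ) (u v m m' : Ordinal.{u}) : Set P :=
  {r | F.pr r ∈ Xs κ A n u m ∧ F.pr r ∈ Xs κ B n v m' ∧
    ∀ r' ≤ r, ∃ r'' ≤ r', ∃ w, r'' ∈ H m w ∧ F.pr r'' ∈ sh κ B (n + 1) w m'}

section
variable {s : Q} {A : ℕ → Ordinal.{u} → Ordinal.{u} → Set Q}

theorem StrName.sh_reg (h : StrName κ s A) (n : ℕ) (x y : Ordinal.{u}) : Reg (sh κ A n x y) := by
  cases n with
  | zero =>
    refine ⟨fun a b _ ha => ha, fun t ht => ?_⟩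
    obtain ⟨t'', _, h2⟩ := ht t le_rfl
    exact h2
  | succ n => exact h.reg n x y

theorem StrName.sh_dom (h : StrName κ s A) {n : ℕ} {x y : Ordinal.{u}} {t : Q} (ht : t ≤ s)
    (hx : t ∈ sh κ A n x y) : x < κ.ord ∧ y < κ.ord := by
  cases n with
  | zero => exact hx
  | succ n => exact h.dom n x y t ht hx

theorem StrName.sh_refl (h : StrName κ s A) (n : ℕ) {x : Ordinal.{u}} (hx : x < κ.ord) {t : Q} (ht : t ≤ s) :
    t ∈ sh κ A n x x := by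
  cases n with
  | zero => exact ⟨hx, hx⟩
  | succ n => exact h.refl n x hx t ht

theorem StrName.sh_symm (h : StrName κ s A) {n : ℕ} {x y : Ordinal.{u}} {t : Q} (ht : t ≤ s)
    (hx : t ∈ sh κ A n x y) : t ∈ sh κ A n y x := by
  cases n with
  | zero => exact ⟨hx.2, hx.1⟩
  | succ n => exact h.symm n x y t ht hx

theorem StrName.sh_trans (h : StrName κ s A) {n : ℕ} {x y z : Ordinal.{u}} {t : Q} (ht : t ≤ s)
    (hx : t ∈ sh κ A n x y) (hy : t ∈ sh κ A n y z) : t ∈ sh κ A n x z := by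
  cases n with
  | zero => exact ⟨hx.1, hy.2⟩
  | succ n => exact h.trans n x y z t ht hx hy

theorem StrName.sh_refine (h : StrName κ s A) {n : ℕ} {x y : Ordinal.{u}} {t : Q} (ht : t ≤ s)
    (hx : t ∈ sh κ A (n + 1) x y) : t ∈ sh κ A n x y := by
  cases n with
  | zero => exact h.dom 0 x y t ht hx
  | succ n => exact h.refine' n x y t ht hx

theorem StrName.Mn_lower (h : StrName κ s A) (n : ℕ) (a u : Ordinal.{u}) : IsLowerSet (Mn κ A n a u) := by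
  intro t t' htt ht
  exact ⟨(h.sh_reg n a u).1 htt ht.1, fun w hw t'' ht'' => ht.2 w hw t'' (ht''.trans htt)⟩

theorem StrName.Mn_ex (hd : Dist κ Q) (hω : ℵ₀ ≤ κ) (h : StrName κ s A) (n : ℕ) {a : Ordinal.{u}} (ha : a < κ.ord)
    {t : Q} (ht : t ≤ s) : ∃ t' ≤ t, ∃ u, t' ∈ Mn κ A n a u := by
  classical
  have ha1 : Order.succ a < κ.ord := (Cardinal.isSuccLimit_ord hω).succ_lt ha
  obtain ⟨t', ht', hD⟩ := hd.below ha1 s
    (fun w => {t | t ∈ sh κ A n a w ∨ ∀ t' ≤ t, t' ∉ sh κ A n a w}) (fun w _ => by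
      refine ⟨?_, ?_⟩
      · intro x y hyx hx
        rcases hx with hx | hx
        · exact Or.inl ((h.sh_reg n a w).1 hyx hx)
        · exact Or.inr fun t'' ht'' => hx t'' (ht''.trans hyx)
      · intro x _
        by_cases hc : ∃ t' ≤ x, t' ∈ sh κ A n a w
        · obtain ⟨t', h1, h2⟩ := hc
          exact ⟨t', h1, Or.inl h2⟩
        · push Not at hc
          exact ⟨x, le_rfl, Or.inr hc⟩) t ht
  have hself : t' ∈ sh κ A n a a := h.sh_refl n ha (ht'.trans ht)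
  have hne : {w : Ordinal.{u} | t' ∈ sh κ A n a w}.Nonempty := ⟨a, hself⟩
  refine ⟨t', ht', sInf {w : Ordinal.{u} | t' ∈ sh κ A n a w}, csInf_mem hne, ?_⟩
  intro w hw t'' ht'' hmem
  have hwa : w < Order.succ a := Order.lt_succ_iff.mpr
    (hw.le.trans (csInf_le' (show a ∈ {w : Ordinal.{u} | t' ∈ sh κ A n a w} from hself)))
  rcases hD w hwa with h1 | h1
  · exact absurd (csInf_le' (show w ∈ {w : Ordinal.{u} | t' ∈ sh κ A n a w} from h1)) (not_le.mpr hw)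
  · exact h1 t'' ht'' hmem

theorem StrName.Mn_uniq (h : StrName κ s A) {n : ℕ} {a u u' : Ordinal.{u}} {t : Q}
    (h1 : t ∈ Mn κ A n a u) (h2 : t ∈ Mn κ A n a u') : u = u' := by
  rcases lt_trichotomy u u' with hlt | heq | hlt
  · exact absurd h1.1 (h2.2 u hlt t le_rfl)
  · exact heq
  · exact absurd h2.1 (h1.2 u' hlt t le_rfl)

theorem StrName.Mn_congr (h : StrName κ s A) {n : ℕ} {a a' u : Ordinal.{u}} {t : Q} (ht : t ≤ s)
    (h1 : t ∈ sh κ A n a a') (h2 : t ∈ Mn κ A n a u) : t ∈ Mn κ A n a' u := by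
  refine ⟨h.sh_trans ht (h.sh_symm ht h1) h2.1, fun w hw t' ht' hmem => ?_⟩
  exact h2.2 w hw t' ht' (h.sh_trans (ht'.trans ht) ((h.sh_reg n a a').1 ht' h1) hmem)

theorem StrName.Mn_self (h : StrName κ s A) {n : ℕ} {a u : Ordinal.{u}} {t : Q} (ht : t ≤ s)
    (h2 : t ∈ Mn κ A n a u) : t ∈ Mn κ A n u u :=
  h.Mn_congr ht h2.1 h2

theorem StrName.Xs_lower (h : StrName κ s A) (n : ℕ) (u m : Ordinal.{u}) : IsLowerSet (Xs κ A n u m) := by
  intro t t' htt ht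
  exact ⟨h.Mn_lower (n + 1) m m htt ht.1, (h.sh_reg n u m).1 htt ht.2⟩

end

theorem pres_sh (F : FP κ Q P) {s : Q} {q : P} {A B : ℕ → Ordinal.{u} → Ordinal.{u} → Set Q}
    {H : Ordinal.{u} → Ordinal.{u} → Set P} (hH : IsoName κ (F.am s q) (pull F A) (pull F B) H)
    {r : P} (hr : r ≤ F.am s q) {x y x' y' : Ordinal.{u}} (h1 : r ∈ H x y) (h2 : r ∈ H x' y') (n : ℕ) :
    F.pr r ∈ sh κ A n x x' ↔ F.pr r ∈ sh κ B n y y' := by
  cases n with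
  | zero =>
    obtain ⟨a1, a2⟩ := hH.dom r hr x y h1
    obtain ⟨b1, b2⟩ := hH.dom r hr x' y' h2
    exact ⟨fun _ => ⟨a2, b2⟩, fun _ => ⟨a1, b1⟩⟩
  | succ n => exact hH.pres r hr x y x' y' h1 h2 n

theorem bij_level (hω : ℵ₀ ≤ κ) (F : FP κ Q P) {s : Q} {q : P} {A B : ℕ → Ordinal.{u} → Ordinal.{u} → Set Q}
    {H : Ordinal.{u} → Ordinal.{u} → Set P} (hs : s ≤ F.pr q) (hA : StrName κ s A) (hB : StrName κ s B)
    (hH : IsoName κ (F.am s q) (pull F A) (pull F B) H) (n : ℕ) {u v : Ordinal.{u}} {q' : P} {t : Q}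
    (ht : t ∈ Po F s q B H n u v q') :
    Bij F t q' (Xs κ A n u) (Xs κ B n v) (fl F A B H n u v) := by
  obtain ⟨hts, hu, _hv, hqq, htp, hpo⟩ := ht
  have hle : F.am t q' ≤ F.am s q := F.am_mono hs hts hqq htp
  have hprt : ∀ {r : P}, r ≤ F.am t q' → F.pr r ≤ t := fun hr => (F.of_le_am htp hr).2
  have hprs : ∀ {r : P}, r ≤ F.am t q' → F.pr r ≤ s := fun hr => (hprt hr).trans hts
  have hsub : ∀ {r : P}, r ≤ F.am t q' → r ≤ F.am s q := fun hr => hr.trans hle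
  -- refine the projection below a condition
  have hext : ∀ {r : P} {t1 : Q}, t1 ≤ F.pr r → F.am t1 r ≤ r ∧ F.pr (F.am t1 r) ≤ t1 :=
    fun h => ⟨F.am_le h, F.pr_am h⟩
  refine ⟨htp, hA.Xs_lower n u, hB.Xs_lower n v, ?_, ?_, ?_, ?_, ?_, ?_⟩
  · intro m m' r r' hrr hr
    exact ⟨hA.Xs_lower n u m (F.pr_mono hrr) hr.1, hB.Xs_lower n v m' (F.pr_mono hrr) hr.2.1,
      fun r'' hr'' => hr.2.2 r'' (hr''.trans hrr)⟩
  · intro r hr m m' hm
    exact ⟨(hA.sh_dom (hprs hr) hm.1.1.1).1, (hB.sh_dom (hprs hr) hm.2.1.1.1).1, hm.1, hm.2.1⟩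
  · intro r hr m m' m'' h1 h2
    obtain ⟨r1, hr1, w, hw, hw2⟩ := h1.2.2 r le_rfl
    obtain ⟨r2, hr2, w', hw', hw2'⟩ := h2.2.2 r1 hr1
    have hr2' : r2 ≤ F.am t q' := hr2.trans (hr1.trans hr)
    have hwH : r2 ∈ H m w := hH.lower m w hr2 hw
    have hww : w = w' := hH.fn r2 (hsub hr2') m w w' hwH hw'
    subst hww
    have e1 : F.pr r2 ∈ sh κ B (n + 1) w m' := (hB.sh_reg (n + 1) w m').1 (F.pr_mono hr2) hw2
    have e2 : F.pr r2 ∈ sh κ B (n + 1) m' m'' :=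
      hB.sh_trans (hprs hr2') (hB.sh_symm (hprs hr2') e1) hw2'
    have l1 : F.pr r2 ∈ Mn κ B (n + 1) m' m' :=
      hB.Mn_lower (n + 1) m' m' (F.pr_mono (hr2.trans hr1)) h1.2.1.1
    have l2 : F.pr r2 ∈ Mn κ B (n + 1) m'' m'' :=
      hB.Mn_lower (n + 1) m'' m'' (F.pr_mono (hr2.trans hr1)) h2.2.1.1
    exact hB.Mn_uniq (hB.Mn_congr (hprs hr2') e2 l1) l2
  · intro r hr m m1 m' h1 h2
    obtain ⟨r1, hr1, w, hw, hw2⟩ := h1.2.2 r le_rfl
    obtain ⟨r2, hr2, w', hw', hw2'⟩ := h2.2.2 r1 hr1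
    have hr2' : r2 ≤ F.am t q' := hr2.trans (hr1.trans hr)
    have hwH : r2 ∈ H m w := hH.lower m w hr2 hw
    have e1 : F.pr r2 ∈ sh κ B (n + 1) w m' := (hB.sh_reg (n + 1) w m').1 (F.pr_mono hr2) hw2
    have e2 : F.pr r2 ∈ sh κ B (n + 1) w w' :=
      hB.sh_trans (hprs hr2') e1 (hB.sh_symm (hprs hr2') hw2')
    have e3 : F.pr r2 ∈ sh κ A (n + 1) m m1 := (pres_sh F hH (hsub hr2') hwH hw' (n + 1)).2 e2
    have l1 : F.pr r2 ∈ Mn κ A (n + 1) m m :=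
      hA.Mn_lower (n + 1) m m (F.pr_mono (hr2.trans hr1)) h1.1.1
    have l2 : F.pr r2 ∈ Mn κ A (n + 1) m1 m1 :=
      hA.Mn_lower (n + 1) m1 m1 (F.pr_mono (hr2.trans hr1)) h2.1.1
    exact hA.Mn_uniq (hA.Mn_congr (hprs hr2') e3 l1) l2
  · intro r hr m hm hX
    obtain ⟨r1, hr1, w, hw⟩ := hH.tot r (hsub hr) m hm
    have hr1' : r1 ≤ F.am t q' := hr1.trans hr
    have hwlt : w < κ.ord := (hH.dom r1 (hsub hr1') m w hw).2
    obtain ⟨t1, ht1, m', hm'⟩ := StrName.Mn_ex F.distQ hω hB (n + 1) hwlt (hprs hr1')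
    obtain ⟨k1, k2⟩ := hext ht1
    have hr2' : F.am t1 r1 ≤ F.am t q' := k1.trans hr1'
    obtain ⟨r3, hr3, w0, hw0⟩ := hH.tot (F.am t1 r1) (hsub hr2') u hu
    have hr3' : r3 ≤ F.am t q' := hr3.trans hr2'
    have hr31 : r3 ≤ r1 := hr3.trans k1
    have p3 : F.pr r3 ≤ t1 := (F.pr_mono hr3).trans k2
    have hX3 : F.pr r3 ∈ Xs κ A n u m := hA.Xs_lower n u m (F.pr_mono (hr31.trans hr1)) hX
    have hmw : r3 ∈ H m w := hH.lower m w hr31 hw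
    have g1 : F.pr r3 ∈ sh κ B n w0 v := hpo r3 hr3' w0 hw0
    have g2 : F.pr r3 ∈ sh κ B n w0 w := (pres_sh F hH (hsub hr3') hw0 hmw n).1 hX3.2
    have g3 : F.pr r3 ∈ Mn κ B (n + 1) w m' := hB.Mn_lower (n + 1) w m' p3 hm'
    have g4 : F.pr r3 ∈ sh κ B n w m' := hB.sh_refine (hprs hr3') g3.1
    have g5 : F.pr r3 ∈ sh κ B n v m' :=
      hB.sh_trans (hprs hr3') (hB.sh_symm (hprs hr3') g1) (hB.sh_trans (hprs hr3') g2 g4)
    refine ⟨r3, hr31.trans hr1, m', hX3, ⟨hB.Mn_self (hprs hr3') g3, g5⟩, ?_⟩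
    intro r' hr'
    exact ⟨r', le_rfl, w, hH.lower m w hr' hmw,
      (hB.sh_reg (n + 1) w m').1 (F.pr_mono hr') g3.1⟩
  · intro r hr m' hm' hY
    obtain ⟨r1, hr1, x, hx⟩ := hH.onto r (hsub hr) m' hm'
    have hr1' : r1 ≤ F.am t q' := hr1.trans hr
    have hxlt : x < κ.ord := (hH.dom r1 (hsub hr1') x m' hx).1
    obtain ⟨t1, ht1, m, hm⟩ := StrName.Mn_ex F.distQ hω hA (n + 1) hxlt (hprs hr1')
    obtain ⟨k1, k2⟩ := hext ht1
    have hr2' : F.am t1 r1 ≤ F.am t q' := k1.trans hr1'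
    have p2 : F.pr (F.am t1 r1) ∈ Mn κ A (n + 1) x m := hA.Mn_lower (n + 1) x m k2 hm
    have hmlt : m < κ.ord := (hA.sh_dom (hprs hr2') p2.1).2
    obtain ⟨r3, hr3, w, hw⟩ := hH.tot (F.am t1 r1) (hsub hr2') m hmlt
    have hr3' : r3 ≤ F.am t q' := hr3.trans hr2'
    obtain ⟨r4, hr4, w0, hw0⟩ := hH.tot r3 (hsub hr3') u hu
    have hr4' : r4 ≤ F.am t q' := hr4.trans hr3'
    have hr42 : r4 ≤ F.am t1 r1 := hr4.trans hr3
    have hr41 : r4 ≤ r1 := hr42.trans k1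
    have g0 : F.pr r4 ∈ Mn κ A (n + 1) x m := hA.Mn_lower (n + 1) x m (F.pr_mono hr42) p2
    have hxm : r4 ∈ H x m' := hH.lower x m' hr41 hx
    have hmw : r4 ∈ H m w := hH.lower m w hr4 hw
    have g1 : F.pr r4 ∈ sh κ B (n + 1) m' w := (pres_sh F hH (hsub hr4') hxm hmw (n + 1)).1 g0.1
    have g2 : F.pr r4 ∈ sh κ B n w0 v := hpo r4 hr4' w0 hw0
    have hY4 : F.pr r4 ∈ Xs κ B n v m' := hB.Xs_lower n v m' (F.pr_mono (hr41.trans hr1)) hY
    have g3 : F.pr r4 ∈ sh κ B n w0 w :=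
      hB.sh_trans (hprs hr4') g2 (hB.sh_trans (hprs hr4') hY4.2 (hB.sh_refine (hprs hr4') g1))
    have g4 : F.pr r4 ∈ sh κ A n u m := (pres_sh F hH (hsub hr4') hw0 hmw n).2 g3
    refine ⟨r4, hr41.trans hr1, m, ⟨hA.Mn_self (hprs hr4') g0, g4⟩, hY4, ?_⟩
    intro r' hr'
    exact ⟨r', le_rfl, w, hH.lower m w hr' hmw,
      (hB.sh_reg (n + 1) w m').1 (F.pr_mono hr') (hB.sh_symm (hprs hr4') g1)⟩

end Pool.Agent.H40.IS
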