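/-
M4a.  A pair of names of structures is handled at some stage.  Imports GD, KBd only.  About 200 lines.
PROOF.  Let p, A, B be as stated, and suppose that no q ≤ p has an isomorphism name.  reg_bdd_family for A and for B (apply it twice, or to
 the combined family; determined by g and g ≤ g' imply determined by g': equal res g' implies equal res g) with β such that p.supp ⊆ Iio β
 (bounded_supp): g with p.supp ⊆ Iio g and A n x y, B n x y (x, y < κ.ord) determined by res g.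
 T = ⟨p.1, A°, B°⟩ with A° n x y = {q : Raw | ∃ h : q ∈ PJ κ D (Iio g), x < κ.ord ∧ y < κ.ord ∧ inc ⟨q, h⟩ ∈ A n x y}, same for B.
 VS κ (PJ κ D (Iio g)) T: p.1 ∈ PJ κ D (Iio g).
  StrName on QT: reg: for x, y < κ.ord: if densely below t ∈ QT the set is hit then inc t ∈ A n x y by regularity of A: for r ≤ inc t
  (in PT) prj r ≤ t, so there is t'' ≤ prj r with inc t'' ∈ A; amj t'' r ≤ r is ≤ inc t'' (le_inc_prj, prj_amj), so in A.  Lower: inc is monotone.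
  For x or y ≥ κ.ord the set is empty, and ∅ is Reg.  Other clauses: restrict those of A to inc t.
  No isomorphism: if q ∈ QT, q ≤ p.1, IsoName κ q A° B° H', put H x y = {r : PT | prj r ∈ H' x y}: IsoName κ (inc q) A B H:
  tot/onto: for t ≤ inc q get t' ≤ prj t, and amj t' t ≤ t has projection t' (prj_amj).  pres: t ∈ A n x x' iff inc (prj t) ∈ A n x x'
  (determined by res g), x, x' < κ.ord by dom.  inc q ≤ p: contradiction.
 So en g k = T for some k, dec j = (g, k) for some j, D j = lft g T.  (D j).c = p.1.  For r ∈ PT, x, y < κ.ord: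
 r.1.res j ∈ (D j).A n x y iff r.1.res g ∈ A° n x y iff r ∈ A n x y.  More generally for q ∈ PP κ D j (not needed: PP κ D j ⊆ PJ κ D univ).
-/
import Pool.Agent.H40.IS.GD
import Pool.Agent.H40.IS.KBd

namespace Pool.Agent.H40.IS
open Cardinal Ordinal Set
universe u
variable {κ : Cardinal.{u}}

private theorem m4_str (hκ : κ.IsInaccessible) {D : Ordinal.{u} → Tri.{u}} {g : Ordinal.{u}}
    {p : PT κ D} {A : ℕ → Ordinal.{u} → Ordinal.{u} → Set (PT κ D)} (hA : StrName κ p A)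
    (hc : p.1 ∈ PJ κ D (Iio g)) :
    StrName κ (⟨p.1, hc⟩ : QT κ D g)
      (fun n x y => {t : QT κ D g | x < κ.ord ∧ y < κ.ord ∧ inc κ D g t ∈ A n x y}) where
  reg n x y := by
    refine ⟨fun a b hb ha => ⟨ha.1, ha.2.1, (hA.reg n x y).1 (show inc κ D g b ≤ inc κ D g a from hb)
      ha.2.2⟩, fun t ht => ?_⟩
    obtain ⟨t0, -, h1, h2, -⟩ := ht t le_rfl
    refine ⟨h1, h2, (hA.reg n x y).2 _ fun r hr => ?_⟩
    have h3 : prj hκ D g r ≤ t := by
      have h4 := prj_mono (g := g) hκ hr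
      rwa [prj_inc] at h4
    obtain ⟨t', ht', -, -, h5⟩ := ht _ h3
    refine ⟨amj hκ D g t' r, amj_le hκ ht', ?_⟩
    have h6 := le_inc_prj (g := g) hκ (amj hκ D g t' r)
    rw [prj_amj hκ ht'] at h6
    exact (hA.reg n x y).1 h6 h5
  dom n x y t _ h := ⟨h.1, h.2.1⟩
  refl n x hx t ht := ⟨hx, hx, hA.refl n x hx (inc κ D g t) ht⟩
  symm n x y t ht h := ⟨h.2.1, h.1, hA.symm n x y (inc κ D g t) ht h.2.2⟩
  trans n x y z t ht h h' := ⟨h.1, h'.2.1, hA.trans n x y z (inc κ D g t) ht h.2.2 h'.2.2⟩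
  refine' n x y t ht h := ⟨h.1, h.2.1, hA.refine' n x y (inc κ D g t) ht h.2.2⟩

private theorem m4_iso (hκ : κ.IsInaccessible) {D : Ordinal.{u} → Tri.{u}} {g : Ordinal.{u}}
    {A B : ℕ → Ordinal.{u} → Ordinal.{u} → Set (PT κ D)}
    (hA : ∀ n, ∀ x < κ.ord, ∀ y < κ.ord, ∀ r : PT κ D,
      (inc κ D g (prj hκ D g r) ∈ A n x y ↔ r ∈ A n x y))
    (hB : ∀ n, ∀ x < κ.ord, ∀ y < κ.ord, ∀ r : PT κ D,
      (inc κ D g (prj hκ D g r) ∈ B n x y ↔ r ∈ B n x y))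
    {q : QT κ D g} {H : Ordinal.{u} → Ordinal.{u} → Set (QT κ D g)}
    (hH : IsoName κ q
      (fun n x y => {t : QT κ D g | x < κ.ord ∧ y < κ.ord ∧ inc κ D g t ∈ A n x y})
      (fun n x y => {t : QT κ D g | x < κ.ord ∧ y < κ.ord ∧ inc κ D g t ∈ B n x y}) H) :
    IsoName κ (inc κ D g q) A B (fun x y => {r | prj hκ D g r ∈ H x y}) := by
  have hle : ∀ t : PT κ D, t ≤ inc κ D g q → prj hκ D g t ≤ q := by
    intro t ht
    have h4 := prj_mono (g := g) hκ ht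
    rwa [prj_inc] at h4
  constructor
  · intro x y a b hb ha
    exact hH.lower x y (prj_mono hκ hb) ha
  · intro t ht x y h
    exact hH.dom _ (hle t ht) x y h
  · intro t ht x y y' h h'
    exact hH.fn _ (hle t ht) x y y' h h'
  · intro t ht x x' y h h'
    exact hH.inj _ (hle t ht) x x' y h h'
  · intro t ht x hx
    obtain ⟨t', ht', y, hy⟩ := hH.tot _ (hle t ht) x hx
    refine ⟨amj hκ D g t' t, amj_le hκ ht', y, ?_⟩
    change prj hκ D g (amj hκ D g t' t) ∈ H x y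
    rw [prj_amj hκ ht']
    exact hy
  · intro t ht y hy
    obtain ⟨t', ht', x, hx⟩ := hH.onto _ (hle t ht) y hy
    refine ⟨amj hκ D g t' t, amj_le hκ ht', x, ?_⟩
    change prj hκ D g (amj hκ D g t' t) ∈ H x y
    rw [prj_amj hκ ht']
    exact hx
  · intro t ht x y x' y' h h' n
    have h1 := hH.dom _ (hle t ht) x y h
    have h2 := hH.dom _ (hle t ht) x' y' h'
    have h3 := hH.pres _ (hle t ht) x y x' y' h h' n
    rw [← hA n x h1.1 x' h2.1 t, ← hB n y h1.2 y' h2.2 t]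
    constructor
    · intro h4
      exact (h3.1 ⟨h1.1, h2.1, h4⟩).2.2
    · intro h4
      exact (h3.2 ⟨h1.2, h2.2, h4⟩).2.2

/-- the name as a family of sets of raw conditions -/
private def m4N (κ : Cardinal.{u}) (D : Ordinal.{u} → Tri.{u}) (g : Ordinal.{u})
    (A : ℕ → Ordinal.{u} → Ordinal.{u} → Set (PT κ D)) :
    ℕ → Ordinal.{u} → Ordinal.{u} → Set Raw.{u} := fun n x y =>
  {q | ∃ h : q ∈ PJ κ D (Iio g), x < κ.ord ∧ y < κ.ord ∧ inc κ D g ⟨q, h⟩ ∈ A n x y}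

private theorem m4N_eq {D : Ordinal.{u} → Tri.{u}} {g : Ordinal.{u}}
    (A : ℕ → Ordinal.{u} → Ordinal.{u} → Set (PT κ D)) :
    (fun n x y => {t : QT κ D g | t.1 ∈ m4N κ D g A n x y}) =
      fun n x y => {t : QT κ D g | x < κ.ord ∧ y < κ.ord ∧ inc κ D g t ∈ A n x y} := by
  funext n x y
  ext t
  exact ⟨fun ⟨_, h⟩ => h, fun h => ⟨t.2, h⟩⟩

private theorem m4N_iff (hκ : κ.IsInaccessible) {D : Ordinal.{u} → Tri.{u}} {g j : Ordinal.{u}}
    (hgj : g ≤ j) {A : ℕ → Ordinal.{u} → Ordinal.{u} → Set (PT κ D)}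
    (hA : ∀ n, ∀ x < κ.ord, ∀ y < κ.ord, ∀ r : PT κ D,
      (inc κ D g (prj hκ D g r) ∈ A n x y ↔ r ∈ A n x y))
    {n : ℕ} {x y : Ordinal.{u}} (hx : x < κ.ord) (hy : y < κ.ord) (r : PT κ D) :
    (r.1.res j).res g ∈ m4N κ D g A n x y ↔ r ∈ A n x y := by
  rw [rres_rres_le r.1 hgj, ← hA n x hx y hy r]
  exact ⟨fun ⟨_, h⟩ => h.2.2, fun h => ⟨prj_ok hκ D g r, hx, hy, h⟩⟩

theorem handled (hκ : Lst κ) {dec : Ordinal.{u} → Ordinal.{u} × Ordinal.{u}}
    (hdec : ∀ j, (dec j).1 ≤ j) (hdec2 : ∀ g k, ∃ j, dec j = (g, k))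
    {D : Ordinal.{u} → Tri.{u}} {en : Ordinal.{u} → Ordinal.{u} → Tri.{u}}
    (hD : ∀ j, D j = lft (dec j).1 (en (dec j).1 (dec j).2))
    (hen : ∀ g T, VS κ (PJ κ D (Iio g)) T → ∃ k, en g k = T)
    {p : PT κ D} {A B : ℕ → Ordinal.{u} → Ordinal.{u} → Set (PT κ D)}
    (hA : StrName κ p A) (hB : StrName κ p B) (hno : ∀ q ≤ p, ∀ H, ¬ IsoName κ q A B H) :
    ∃ j : Ordinal.{u}, p.1.supp ⊆ Iio j ∧ (D j).c = p.1 ∧
      ∀ n, ∀ x < κ.ord, ∀ y < κ.ord, ∀ r : PT κ D,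
        (r.1.res j ∈ (D j).A n x y ↔ r ∈ A n x y) ∧ (r.1.res j ∈ (D j).B n x y ↔ r ∈ B n x y) := by
  have hκ1 := hκ.1
  obtain ⟨β, hβ⟩ := bounded_supp p.2.1
  obtain ⟨g1, hg1, hA1⟩ := reg_bdd_family hκ1 D A hA.reg β
  obtain ⟨g, hg, hB1⟩ := reg_bdd_family hκ1 D B hB.reg g1
  have hsup : p.1.supp ⊆ Iio g := fun i hi => lt_of_lt_of_le (hβ hi) (hg1.trans hg)
  have hc : p.1 ∈ PJ κ D (Iio g) := ⟨p.2.1, hsup⟩
  have hres : ∀ r : PT κ D, (inc κ D g (prj hκ1 D g r)).1.res g = r.1.res g :=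
    fun r => rres_rres_le r.1 le_rfl
  have hA2 : ∀ n, ∀ x < κ.ord, ∀ y < κ.ord, ∀ r : PT κ D,
      (inc κ D g (prj hκ1 D g r) ∈ A n x y ↔ r ∈ A n x y) := by
    intro n x hx y hy r
    refine hA1 n x hx y hy _ _ ?_
    rw [← rres_rres_le (inc κ D g (prj hκ1 D g r)).1 hg, hres, rres_rres_le r.1 hg]
  have hB2 : ∀ n, ∀ x < κ.ord, ∀ y < κ.ord, ∀ r : PT κ D,
      (inc κ D g (prj hκ1 D g r) ∈ B n x y ↔ r ∈ B n x y) :=
    fun n x hx y hy r => hB1 n x hx y hy _ _ (hres r)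
  have hVS : VS κ (PJ κ D (Iio g)) ⟨p.1, m4N κ D g A, m4N κ D g B⟩ := by
    refine ⟨hc, ?_, ?_, ?_, ?_, ?_⟩
    · change StrName κ (⟨p.1, hc⟩ : QT κ D g)
        (fun n x y => {t : QT κ D g | t.1 ∈ m4N κ D g A n x y})
      rw [m4N_eq]
      exact m4_str hκ1 hA hc
    · change StrName κ (⟨p.1, hc⟩ : QT κ D g)
        (fun n x y => {t : QT κ D g | t.1 ∈ m4N κ D g B n x y})
      rw [m4N_eq]
      exact m4_str hκ1 hB hc
    · intro n x y
      exact ⟨fun q hq => hq.1, fun q hq => hq.1⟩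
    · intro n x y hxy
      constructor
      · rw [Set.eq_empty_iff_forall_notMem]
        rintro q ⟨_, h⟩
        exact hxy ⟨h.1, h.2.1⟩
      · rw [Set.eq_empty_iff_forall_notMem]
        rintro q ⟨_, h⟩
        exact hxy ⟨h.1, h.2.1⟩
    · intro q hq H hH
      change IsoName κ (q : QT κ D g)
        (fun n x y => {t : QT κ D g | t.1 ∈ m4N κ D g A n x y})
        (fun n x y => {t : QT κ D g | t.1 ∈ m4N κ D g B n x y}) H at hH
      rw [m4N_eq, m4N_eq] at hH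
      exact hno (inc κ D g q) hq _ (m4_iso hκ1 hA2 hB2 hH)
  obtain ⟨k, hk⟩ := hen g _ hVS
  obtain ⟨j, hj⟩ := hdec2 g k
  have hgj : g ≤ j := by
    have := hdec j
    rw [hj] at this
    exact this
  have hDj : D j = lft g ⟨p.1, m4N κ D g A, m4N κ D g B⟩ := by
    rw [hD j, hj, ← hk]
  refine ⟨j, fun i hi => lt_of_lt_of_le (hsup hi) hgj, by rw [hDj]; rfl, ?_⟩
  intro n x hx y hy r
  rw [hDj]
  exact ⟨m4N_iff hκ1 hgj hA2 hx hy r, m4N_iff hκ1 hgj hB2 hx hy r⟩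

end Pool.Agent.H40.IS
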