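/-
M3a (MA).  The part of pi_j below the branch Z is bounded.  Imports TDef only.  About 200 lines.
PROOF.  Suppose not: (*) for all q ≤ p and ρ < κ.ord there are r ≤ q and (x,y) ∈ (r.1.d j).pi with r ∈ Z i (y.val i) for all i < y.len
and ρ < y.len.  Put H u v = {r | ∃ x y, (x,y) ∈ (r.1.d j).pi ∧ (∀ i < y.len, r ∈ Z i (y.val i)) ∧ Pr x u v}.
Claim: IsoName κ p (pul j (D j).A) (pul j (D j).B) H, contradicting Good (p.1 ≤ p.1.res j ≤ (D j).c since j ∈ supp p: le_rres, p ∈ PV).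
 lower: (x,y) ∈ (r.d j).pi implies j ∈ r.supp (Base.nd), so it stays in pi below r.
 common: if t ≤ p and (x,y), (x',y') ∈ (t.d j).pi are both below Z at t, y.len ≤ y'.len, then y'.res y.len = y (uniq), so
  (x'.res y.len, y) ∈ pi (cl), x'.res y.len = x (inj); so Pr x u v implies Pr x' u v (Pr_res).
 dom: Pr_lt with the bound of DatOK.  fn, inj: by `common` both pairs are in one x', and FrT's first part (t ∈ PV at j).
 tot: x0 < κ.ord: by (*) get r ≤ t and x0 < y.len = x.len: Pr x x0 (x.val x0).1.  onto: Pr x (x.val y0).2 y0.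
 pres: `common`, then FrT's second part at q = t.res j ∈ PP κ D j (res_mem_PP), q ≤ t.res j.
-/
import Pool.Agent.H40.IS.TDef

namespace Pool.Agent.H40.IS
open Cardinal Ordinal Set
universe u
variable {κ : Cardinal.{u}} {D : Ordinal.{u} → Tri.{u}}

private theorem ma_supp {r : PT κ D} {j : Ordinal.{u}} {x : Nd.{u}} {y : So.{u}}
    (h : (x, y) ∈ (r.1.d j).pi) : j ∈ r.1.supp := by
  by_contra hj
  rw [r.2.1.1.nd j hj] at h
  exact absurd h (notMem_empty _)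

private theorem ma_common {p : PT κ D} {Z : Ordinal.{u} → Ordinal.{u} → Set (PT κ D)}
    (hZ : FnName κ p Z) {j : Ordinal.{u}} {t : PT κ D} (ht : t ≤ p) {x x' : Nd.{u}} {y y' : So.{u}}
    (h : (x, y) ∈ (t.1.d j).pi) (h' : (x', y') ∈ (t.1.d j).pi)
    (hb : ∀ i < y.len, t ∈ Z i (y.val i)) (hb' : ∀ i < y'.len, t ∈ Z i (y'.val i)) :
    ∃ X Y, (X, Y) ∈ (t.1.d j).pi ∧ (∀ v w, Pr x v w → Pr X v w) ∧ (∀ v w, Pr x' v w → Pr X v w) := by
  have key : ∀ {a a' : Nd.{u}} {c c' : So.{u}}, (a, c) ∈ (t.1.d j).pi → (a', c') ∈ (t.1.d j).pi →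
      (∀ i < c.len, t ∈ Z i (c.val i)) → (∀ i < c'.len, t ∈ Z i (c'.val i)) → c.len ≤ c'.len →
      ∀ v w, Pr a v w → Pr a' v w := by
    intro a a' c c' k k' kb kb' hlen v w hvw
    have hOK := t.2.1.1.ok j (ma_supp k)
    have h1 : c'.res c.len = c := by
      refine Sq.ext' ?_ fun i hi => ?_
      · rw [res_len, min_eq_right hlen]
      · rw [res_len, min_eq_right hlen] at hi
        rw [res_val hi]
        exact hZ.uniq t ht i _ _ (kb' i (hi.trans_le hlen)) (kb i hi)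
    have h2 := hOK.cl a' c' c.len k'
    rw [h1] at h2
    have h3 : a'.res c.len = a := (hOK.inj _ _ _ _ h2 k).2 rfl
    rw [← h3] at hvw
    exact Pr_res hvw
  rcases le_total y.len y'.len with hl | hl
  · exact ⟨x', y', h', key h h' hb hb' hl, fun _ _ hh => hh⟩
  · exact ⟨x, y, h, fun _ _ hh => hh, key h' h hb' hb hl⟩

theorem bounded_below_branch (hκ : κ.IsInaccessible) (hG : Good κ D) {p : PT κ D}
    {Z : Ordinal.{u} → Ordinal.{u} → Set (PT κ D)} (hZ : FnName κ p Z) {j : Ordinal.{u}}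
    (hj : j ∈ p.1.supp) :
    ∃ q ≤ p, ∃ ρ < κ.ord, ∀ r ≤ q, ∀ x y, (x, y) ∈ (r.1.d j).pi →
      (∀ i < y.len, r ∈ Z i (y.val i)) → y.len ≤ ρ := by
  by_contra hno
  have hno' : ∀ q ≤ p, ∀ ρ < κ.ord, ∃ r ≤ q, ∃ x y, (x, y) ∈ (r.1.d j).pi ∧
      (∀ i < y.len, r ∈ Z i (y.val i)) ∧ ρ < y.len := by
    intro q hq ρ hρ
    by_contra h
    refine hno ⟨q, hq, ρ, hρ, fun r hr x y hxy hb => ?_⟩
    by_contra hl
    exact h ⟨r, hr, x, y, hxy, hb, not_le.1 hl⟩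
  have hFr : ∀ {t : PT κ D} {x : Nd.{u}} {y : So.{u}}, (x, y) ∈ (t.1.d j).pi →
      FrT (PP κ D j) (D j).A (D j).B x (t.1.res j) := fun {t} {x} {y} h =>
    (t.2.1.2 j (ma_supp h)).2 x y h
  have hc : p.1 ≤ (D j).c := (le_rres p.1 j).trans (p.2.1.2 j hj).1
  refine hG j p hc (fun v w => {r | ∃ x y, (x, y) ∈ (r.1.d j).pi ∧
    (∀ i < y.len, r ∈ Z i (y.val i)) ∧ Pr x v w}) ?_
  refine ⟨?_, ?_, ?_, ?_, ?_, ?_, ?_⟩
  · rintro v w r r' hr ⟨x, y, hxy, hb, hvw⟩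
    have hr2 : r'.1 ≤ r.1 := hr
    exact ⟨x, y, (hr2.2.2.2 j (ma_supp hxy)).1 hxy, fun i hi => hZ.lower _ _ hr (hb i hi), hvw⟩
  · rintro t ht v w ⟨x, y, hxy, hb, hvw⟩
    obtain ⟨γ, hγ, h1, -⟩ := (t.2.1.1.ok j (ma_supp hxy)).bdd
    have h2 := Pr_lt (h1 x y hxy).1 hvw
    exact ⟨h2.1.trans hγ, h2.2.trans hγ⟩
  · rintro t ht v w w' ⟨x, y, hxy, hb, hvw⟩ ⟨x', y', hxy', hb', hvw'⟩
    obtain ⟨X, Y, hXY, h1, h2⟩ := ma_common hZ ht hxy hxy' hb hb'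
    exact ((hFr hXY).1 v w v w' (h1 _ _ hvw) (h2 _ _ hvw')).1 rfl
  · rintro t ht v v' w ⟨x, y, hxy, hb, hvw⟩ ⟨x', y', hxy', hb', hvw'⟩
    obtain ⟨X, Y, hXY, h1, h2⟩ := ma_common hZ ht hxy hxy' hb hb'
    exact ((hFr hXY).1 v w v' w (h1 _ _ hvw) (h2 _ _ hvw')).2 rfl
  · intro t ht v hv
    obtain ⟨r, hr, x, y, hxy, hb, hl⟩ := hno' t ht v hv
    have hlen := (r.2.1.1.ok j (ma_supp hxy)).len x y hxy
    exact ⟨r, hr, (x.val v).1, x, y, hxy, hb, v, hl.trans_eq hlen.1.symm, Or.inl ⟨rfl, rfl⟩⟩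
  · intro t ht w hw
    obtain ⟨r, hr, x, y, hxy, hb, hl⟩ := hno' t ht w hw
    have hlen := (r.2.1.1.ok j (ma_supp hxy)).len x y hxy
    exact ⟨r, hr, (x.val w).2, x, y, hxy, hb, w, hl.trans_eq hlen.1.symm, Or.inr ⟨rfl, rfl⟩⟩
  · rintro t ht v w v' w' ⟨x, y, hxy, hb, hvw⟩ ⟨x', y', hxy', hb', hvw'⟩ n
    obtain ⟨X, Y, hXY, h1, h2⟩ := ma_common hZ ht hxy hxy' hb hb'
    exact (hFr hXY).2 n v w v' w' (h1 _ _ hvw) (h2 _ _ hvw') (t.1.res j)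
      (res_mem_PP hκ t.2.1 j) le_rfl

end Pool.Agent.H40.IS
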