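/-
M3b (MB).  An initial segment of the branch can be put into F_j; for all j in the support at once.  Imports MA, KFl only.  About 150 lines.
PROOFS.
MB1: bounded_below_branch: q1 ≤ p, ρ; decideZ with l = ρ + 1: q2 ≤ q1, s of length ρ + 1, Lt κ.ord.  s is not in ran (q2.d j).pi (its
 length would be ≤ ρ).  addF with Fs j = {s}, Fs i = ∅ for i ≠ j.  (j ∈ q2.supp since q2 ≤ p.)
MB2: if q.supp is empty: only decide and raise the height.  In general Sm.enum of q.1.supp: f, μ.  Sets D' ξ = {t | ∃ s, Lt κ.ord s ∧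
 (∀ i < s.len, t ∈ Z i (s.val i)) ∧ s ∈ (t.1.d (f ξ)).F}: lower (s ∈ (t.d j).F gives j ∈ t.supp by nd), dense below q by MB1 (applied to
 t ≤ q, FnName.mono, f ξ ∈ t.supp).  Dist.below (distJ): r1 ≤ q in all D' ξ, ξ < μ.  decideZ with l = q.ht: r2 ≤ r1.
 Choose s_j for j ∈ q.supp; height H < κ.ord above r2.ht, q.ht + 1 and all s_j.len + 1 (Sm.bdd); flat_ext' to height H: r.
-/
import Pool.Agent.H40.IS.MA
import Pool.Agent.H40.IS.KFl

namespace Pool.Agent.H40.IS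
open Cardinal Ordinal Set
universe u
variable {κ : Cardinal.{u}} {D : Ordinal.{u} → Tri.{u}}

theorem MB1 (hκ : κ.IsInaccessible) (hG : Good κ D) {p : PT κ D}
    {Z : Ordinal.{u} → Ordinal.{u} → Set (PT κ D)} (hZ : FnName κ p Z) {j : Ordinal.{u}}
    (hj : j ∈ p.1.supp) :
    ∃ q ≤ p, ∃ s : So.{u}, Lt κ.ord s ∧ (∀ i < s.len, q ∈ Z i (s.val i)) ∧ s ∈ (q.1.d j).F := by
  classical
  obtain ⟨q1, hq1, ρ, hρ, hb⟩ := bounded_below_branch hκ hG hZ hj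
  obtain ⟨q2, hq2, s, hs1, hs2, hs3⟩ := decideZ hκ hZ (kord_limit hκ hρ) hq1
  have hq2p : q2 ≤ p := hq2.trans hq1
  have hj2 : j ∈ q2.1.supp := (le_def.1 hq2p).2.2.1 hj
  have hran : ∀ x, (x, s) ∉ (q2.1.d j).pi := by
    intro x hx
    have h1 := hb q2 hq2 x s hx (fun i hi => hs3 i (by rwa [hs1] at hi))
    rw [hs1] at h1
    exact absurd h1 (not_le.2 (lt_add_one _))
  obtain ⟨q3, h3, h4, h5, h6, h7, h8⟩ := addF (J := univ) hκ q2.2
    (Fs := fun i => if i = j then {s} else ∅) (by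
      intro i hi
      by_cases hij : i = j
      · subst hij
        obtain ⟨γ, hγ, hγ2⟩ := hs2
        refine ⟨γ, hγ, ?_⟩
        intro f hf
        rw [if_pos rfl] at hf
        rw [mem_singleton_iff.1 hf]
        exact ⟨hγ2, ⟨ρ, hs1⟩, hran⟩
      · refine ⟨0, kord_pos hκ, ?_⟩
        intro f hf
        rw [if_neg hij] at hf
        exact absurd hf (notMem_empty f))
  refine ⟨⟨q3, h3⟩, ?_, s, hs2, ?_, ?_⟩
  · exact le_trans (show (⟨q3, h3⟩ : PT κ D) ≤ q2 from h4) hq2p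
  · intro i hi
    rw [hs1] at hi
    exact hZ.lower i (s.val i) (show (⟨q3, h3⟩ : PT κ D) ≤ q2 from h4) (hs3 i hi)
  · rw [h8 j hj2]
    exact Or.inr (by rw [if_pos rfl]; exact mem_singleton s)

theorem MB2 (hκ : κ.IsInaccessible) (hG : Good κ D) {q : PT κ D}
    {Z : Ordinal.{u} → Ordinal.{u} → Set (PT κ D)} (hZ : FnName κ q Z) :
    ∃ r ≤ q, Flat r.1 ∧ q.1.ht < r.1.ht ∧
      (∃ s : So.{u}, s.len = q.1.ht ∧ Lt κ.ord s ∧ ∀ i < q.1.ht, r ∈ Z i (s.val i)) ∧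
      ∀ j ∈ q.1.supp, ∃ s : So.{u}, s.len < r.1.ht ∧ (∀ i < s.len, r ∈ Z i (s.val i)) ∧
        s ∈ (r.1.d j).F := by
  classical
  have hB : Base κ q.1 := q.2.1.1
  have hA : ∃ r1 ≤ q, ∀ j ∈ q.1.supp, ∃ s : So.{u}, Lt κ.ord s ∧
      (∀ i < s.len, r1 ∈ Z i (s.val i)) ∧ s ∈ (r1.1.d j).F := by
    rcases q.1.supp.eq_empty_or_nonempty with h0 | h0
    · refine ⟨q, le_rfl, ?_⟩
      intro j hj
      rw [h0] at hj
      exact absurd hj (notMem_empty j)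
    · obtain ⟨μ, hμ, -, f, hf1, hf2⟩ := Sm.enum hκ hB.sm h0
      obtain ⟨r1, hr1, hr2⟩ := Dist.below (distJ hκ D univ) hμ q
        (fun ξ => {t : PT κ D | ∃ s : So.{u}, Lt κ.ord s ∧ (∀ i < s.len, t ∈ Z i (s.val i)) ∧
          s ∈ (t.1.d (f ξ)).F}) (by
          intro ξ hξ
          refine ⟨?_, ?_⟩
          · rintro t t' htt ⟨s, h1, h2, h3⟩
            refine ⟨s, h1, fun i hi => hZ.lower i (s.val i) htt (h2 i hi), ?_⟩
            have hfs : f ξ ∈ t.1.supp := by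
              by_contra hcon
              have hBt : Base κ t.1 := t.2.1.1
              rw [hBt.nd _ hcon] at h3
              exact absurd h3 (notMem_empty s)
            exact ((le_def.1 (show t'.1 ≤ t.1 from htt)).2.2.2 (f ξ) hfs).2.1 h3
          · intro t ht
            have hfs : f ξ ∈ t.1.supp := (le_def.1 (show t.1 ≤ q.1 from ht)).2.2.1 (hf1 ξ hξ)
            obtain ⟨q', hq', s, h1, h2, h3⟩ := MB1 hκ hG (hZ.mono ht) hfs
            exact ⟨q', hq', s, h1, h2, h3⟩) q le_rfl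
      refine ⟨r1, hr1, ?_⟩
      intro j hj
      obtain ⟨ξ, hξ, rfl⟩ := hf2 j hj
      exact hr2 ξ hξ
  obtain ⟨r1, hr1, hr1s⟩ := hA
  obtain ⟨r2, hr2, s0, hs1, hs2, hs3⟩ := decideZ hκ hZ hB.ht hr1
  have hg : ∀ j : Ordinal.{u}, ∃ s : So.{u}, j ∈ q.1.supp → Lt κ.ord s ∧
      (∀ i < s.len, r1 ∈ Z i (s.val i)) ∧ s ∈ (r1.1.d j).F := by
    intro j
    by_cases hj : j ∈ q.1.supp
    · obtain ⟨s, hs⟩ := hr1s j hj
      exact ⟨s, fun _ => hs⟩
    · exact ⟨default, fun h => absurd h hj⟩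
  choose g hg using hg
  obtain ⟨γ, hγ, hγ2⟩ := Sm.bdd hκ hB.sm (fun j => (g j).len) (by
    intro j hj
    obtain ⟨δ, hδ, hδ2⟩ := (hg j hj).1
    exact hδ2.1.trans hδ)
  have hBr2 : Base κ r2.1 := r2.2.1.1
  have hH' : max (max r2.1.ht (q.1.ht + 1)) γ < κ.ord :=
    max_lt (max_lt hBr2.ht (kord_limit hκ hB.ht)) hγ
  obtain ⟨q3, h3, h4, h5, h6, h7, h8⟩ := flat_ext' (J := univ) hκ r2.2
    (H := max (max r2.1.ht (q.1.ht + 1)) γ) ((le_max_left _ _).trans (le_max_left _ _)) hH'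
  have hle2 : (⟨q3, h3⟩ : PT κ D) ≤ r2 := h4
  have hle1 : (⟨q3, h3⟩ : PT κ D) ≤ r1 := hle2.trans hr2
  refine ⟨⟨q3, h3⟩, hle1.trans hr1, h6, ?_, ⟨s0, hs1, hs2, ?_⟩, ?_⟩
  · change q.1.ht < q3.ht
    rw [h5]
    exact lt_of_lt_of_le (lt_add_one _) ((le_max_right _ _).trans (le_max_left _ _))
  · intro i hi
    exact hZ.lower i _ hle2 (hs3 i hi)
  · intro j hj
    obtain ⟨-, g2, g3⟩ := hg j hj
    refine ⟨g j, ?_, fun i hi => hZ.lower i _ hle1 (g2 i hi), ?_⟩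
    · change (g j).len < q3.ht
      rw [h5]
      exact lt_of_lt_of_le (hγ2 j hj) (le_max_right _ _)
    · have hj1 : j ∈ r1.1.supp := (le_def.1 (show r1.1 ≤ q.1 from hr1)).2.2.1 hj
      exact ((le_def.1 (show q3 ≤ r1.1 from hle1)).2.2.2 j hj1).2.1 g3

end Pool.Agent.H40.IS
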