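/-
M3 (MC).  T* has no branch of length κ.  Imports MB, KFs, Chn only.  About 200 lines.
PROOF.  chain' on PT κ D with μ = ω₁ (< κ.ord), Fl r = Flat r.1 ∧ r ≤ p, p0 = a flat extension of p, R ξ q r = the conclusion of MB2
 (q.ht < r.ht, decided sequence of length q.ht, elements of F_j for j ∈ q.supp); lim: flat_lb for z ≤ ω₁.
 Use q ξ for ξ < ω₁.  Heights strictly increase.  H = sup_{ξ<ω₁} (q ξ).ht < κ.ord, not attained, cof H = ℵ₁: H is the supremum of a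
 strictly increasing ω₁-sequence (cof_omega_one, Ordinal.cof_eq_of... / IsNormal; or: cof H ≤ ℵ₁ by the cofinal family, and cof H > ℵ₀
 because a countable subset of H is below some (q ξ).ht, and cof H is regular infinite), so IsS H.
 s ξ = the sequence of length (q ξ).ht decided by q (ξ+1).  Coherent: for ξ ≤ η both are decided by a common q; by uniq
 (s η).res (s ξ).len = s ξ.  glue: s* with s*.len = H, s*.res (q ξ).ht = s ξ.  Lt κ.ord s* (Lt_kappa).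
 flat_lb_b with H, s*: hse: for ξ < ω₁, j ∈ supp (q ξ) take η = ξ + 1: some s' ∈ F_j of q (ξ+1) with s'.len < (q (ξ+1)).ht < H and
 q (ξ+1) ∈ Z i (s'.val i): by uniq (at a later q) s' = s*.res s'.len.
 r with r.ht = H, r.b H = s*, r ≤ q ξ.  r ∈ Z i (s*.val i) for i < H.  If r' ≤ r, then with ε = H: s*.res H = s* = r'.b H, so r' ∉ Ts s*.
-/
import Pool.Agent.H40.IS.MB
import Pool.Agent.H40.IS.KFs
import Pool.Agent.H40.IS.Chn

namespace Pool.Agent.H40.IS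
open Cardinal Ordinal Set
universe u
variable {κ : Cardinal.{u}} {D : Ordinal.{u} → Tri.{u}}

/-- the supremum of a strictly increasing `ω₁`-sequence has cofinality `ω₁` -/
theorem IsS_sup {f : Ordinal.{u} → Ordinal.{u}} {H : Ordinal.{u}}
    (hf : ∀ ξ η, ξ < η → η < ω₁ → f ξ < f η) (h1 : ∀ ξ < ω₁, f ξ < H)
    (h2 : ∀ α < H, ∃ ξ < ω₁, α < f ξ) : IsS H := by
  have hF : StrictMono (fun i : Iio (ω₁ : Ordinal.{u}) => f i) := by
    intro a b hab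
    exact hf a b hab b.2
  have hsup : (⨆ i : Iio (ω₁ : Ordinal.{u}), f i + 1) = H := by
    apply le_antisymm
    · refine Ordinal.iSup_le (fun i => ?_)
      exact Order.add_one_le_of_lt (h1 i i.2)
    · by_contra hcon
      obtain ⟨ξ, hξ, h3⟩ := h2 _ (not_le.1 hcon)
      have h4 : f ξ + 1 ≤ ⨆ i : Iio (ω₁ : Ordinal.{u}), f i + 1 :=
        Ordinal.le_iSup (fun i : Iio (ω₁ : Ordinal.{u}) => f i + 1) ⟨ξ, hξ⟩
      exact absurd (h3.trans (lt_add_one (f ξ))) (not_lt.2 h4)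
  have h5 := Ordinal.cof_iSup_Iio_add_one hF
  unfold IsS
  rw [← hsup, ← Cardinal.cof_omega_one]
  exact h5

theorem nobranch (hκ : κ.IsInaccessible) (hG : Good κ D) {p : PT κ D}
    {Z : Ordinal.{u} → Ordinal.{u} → Set (PT κ D)} (hZ : FnName κ p Z) :
    ∃ q ≤ p, ∃ s : So.{u}, Lt κ.ord s ∧ (∀ i < s.len, q ∈ Z i (s.val i)) ∧ ∀ r ≤ q, r ∉ Ts κ D s := by
  classical
  have hω : (ω₁ : Ordinal.{u}) < κ.ord := (kord_omega hκ).2
  have hω0 : (0 : Ordinal.{u}) < ω₁ := Ordinal.omega_pos 1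
  have hωl : ∀ ξ : Ordinal.{u}, ξ < ω₁ → ξ + 1 < ω₁ := fun ξ h =>
    IsS_add_one (show IsS (ω₁ : Ordinal.{u}) from Cardinal.cof_omega_one) h
  -- the first condition
  obtain ⟨q0, hq0, hq0p, -, hq0f, -, -⟩ := flat_ext' (D := D) (J := univ) hκ p.2 (H := p.1.ht)
    le_rfl p.2.1.1.ht
  obtain ⟨q, hqz, hfl, hanti, hR⟩ := chain' (P := PT κ D) (fun r => Flat r.1 ∧ r ≤ p)
    (fun _ q r => q.1.ht < r.1.ht ∧
      (∃ s : So.{u}, s.len = q.1.ht ∧ Lt κ.ord s ∧ ∀ i < q.1.ht, r ∈ Z i (s.val i)) ∧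
      ∀ j ∈ q.1.supp, ∃ s : So.{u}, s.len < r.1.ht ∧ (∀ i < s.len, r ∈ Z i (s.val i)) ∧
        s ∈ (r.1.d j).F) (ω₁ : Ordinal.{u}) ⟨q0, hq0⟩ ⟨hq0f, hq0p⟩
    (by
      rintro ξ - q ⟨-, hqp⟩
      obtain ⟨r, h1, h2, h3, h4, h5⟩ := MB2 hκ hG (hZ.mono hqp)
      exact ⟨r, h1, ⟨h2, h1.trans hqp⟩, h3, h4, h5⟩)
    (by
      intro z hz hzl q hfl hanti
      have hz0 : 0 < z := by
        rcases eq_or_ne z 0 with h | h
        · exact absurd (h ▸ isMin_bot) hzl.1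
        · exact pos_iff_ne_zero.2 h
      obtain ⟨r, hr, hrf, hrq⟩ := flat_lb (D := D) (J := univ) hκ hz0 (hz.trans_lt hω)
        (q := fun ξ => (q ξ).1) (fun ξ _ => (q ξ).2) (fun ξ hξ => (hfl ξ hξ).1)
        (fun ξ η h1 h2 => hanti ξ η h1 h2)
      have hr0 : (⟨r, hr⟩ : PT κ D) ≤ q 0 := hrq 0 hz0
      exact ⟨⟨r, hr⟩, ⟨hrf, hr0.trans (hfl 0 hz0).2⟩, hrq⟩)
  have hqp : ∀ ξ ≤ ω₁, q ξ ≤ p := fun ξ hξ => (hfl ξ hξ).2
  have hht : ∀ ξ η, ξ < η → η ≤ ω₁ → (q ξ).1.ht < (q η).1.ht := by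
    intro ξ η h1 h2
    have h3 : ξ + 1 ≤ η := Order.add_one_le_of_lt h1
    exact lt_of_lt_of_le (hR ξ (h1.trans_le h2)).1 (le_def.1 (hanti (ξ + 1) η h3 h2)).1
  obtain ⟨H, h1, h2, h3⟩ : ∃ H : Ordinal.{u}, (∀ ξ < ω₁, (q ξ).1.ht < H) ∧
      (∀ α < H, ∃ ξ < ω₁, α < (q ξ).1.ht) ∧ H < κ.ord := by
    have hne : ({x | ∀ ξ < (ω₁ : Ordinal.{u}), (q ξ).1.ht < x} : Set Ordinal.{u}).Nonempty :=
      ⟨(q ω₁).1.ht, fun ξ hξ => hht ξ ω₁ hξ le_rfl⟩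
    refine ⟨sInf {x | ∀ ξ < (ω₁ : Ordinal.{u}), (q ξ).1.ht < x}, csInf_mem hne, ?_, ?_⟩
    · intro α hα
      by_contra hc
      push Not at hc
      have h4 : α ∈ ({x | ∀ ξ < (ω₁ : Ordinal.{u}), (q ξ).1.ht < x} : Set Ordinal.{u}) := by
        intro ξ hξ
        exact (hht ξ (ξ + 1) (lt_add_one ξ) (hωl ξ hξ).le).trans_le (hc _ (hωl ξ hξ))
      exact absurd hα (not_lt.2 (csInf_le' h4))
    · exact lt_of_le_of_lt (csInf_le' (fun ξ hξ => hht ξ ω₁ hξ le_rfl)) (q ω₁).2.1.1.ht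
  have hS : IsS H := IsS_sup (f := fun ξ => (q ξ).1.ht)
    (fun ξ η h4 h5 => hht ξ η h4 h5.le) h1 h2
  -- the decided sequences
  have hch : ∀ ξ : Ordinal.{u}, ∃ s : So.{u}, ξ < ω₁ → s.len = (q ξ).1.ht ∧ Lt κ.ord s ∧
      ∀ i < (q ξ).1.ht, q (ξ + 1) ∈ Z i (s.val i) := by
    intro ξ
    by_cases hξ : ξ < ω₁
    · obtain ⟨s, hs⟩ := (hR ξ hξ).2.1
      exact ⟨s, fun _ => hs⟩
    · exact ⟨default, fun h => absurd h hξ⟩
  choose s hs using hch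
  have hcoh : ∀ ξ η, ξ ≤ η → η < ω₁ → (s η).res (s ξ).len = s ξ := by
    intro ξ η h4 h5
    have hξ : ξ < ω₁ := h4.trans_lt h5
    obtain ⟨a1, a2, a3⟩ := hs ξ hξ
    obtain ⟨b1, b2, b3⟩ := hs η h5
    have hle : (q ξ).1.ht ≤ (q η).1.ht := (le_def.1 (hanti ξ η h4 h5.le)).1
    have hlen : ((s η).res (s ξ).len).len = (s ξ).len := by
      rw [res_len]
      apply min_eq_right
      rw [a1, b1]
      exact hle
    refine Sq.ext' hlen ?_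
    intro i hi
    rw [hlen] at hi
    rw [res_val hi]
    have hi' : i < (q ξ).1.ht := by rwa [a1] at hi
    have h6 : q (η + 1) ≤ q (ξ + 1) :=
      hanti (ξ + 1) (η + 1) (by gcongr) (hωl η h5).le
    exact hZ.uniq (q (η + 1)) (hqp _ (hωl η h5).le) i _ _ (b3 i (hi'.trans_le hle))
      (hZ.lower i _ h6 (a3 i hi'))
  obtain ⟨Y, hY1, hY2⟩ := glue (μ := ω₁) (l := H) s
    (fun ξ hξ => by rw [(hs ξ hξ).1]; exact (h1 ξ hξ).le) hcoh
    (by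
      intro i hi
      obtain ⟨ξ, hξ, h4⟩ := h2 i hi
      exact ⟨ξ, hξ, by rw [(hs ξ hξ).1]; exact h4⟩)
  have hYv : ∀ ξ < ω₁, ∀ i < (q ξ).1.ht, Y.val i = (s ξ).val i := by
    intro ξ hξ i hi
    have hi' : i < (s ξ).len := by rw [(hs ξ hξ).1]; exact hi
    rw [← res_val (x := Y) hi', hY2 ξ hξ]
  have hYd : ∀ ξ < ω₁, ∀ i < (q ξ).1.ht, q (ξ + 1) ∈ Z i (Y.val i) := by
    intro ξ hξ i hi
    rw [hYv ξ hξ i hi]
    exact (hs ξ hξ).2.2 i hi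
  have hYl : Lt κ.ord Y := by
    refine Lt_kappa hκ (by rw [hY1]; exact h3) ?_
    intro i
    by_cases hi : i < H
    · obtain ⟨ξ, hξ, h4⟩ := h2 i hi
      rw [hYv ξ hξ i h4]
      exact (In_of_Lt (hs ξ hξ).2.1).2 i
    · rw [Y.junk i (by rw [hY1]; exact not_lt.1 hi), Rk.rk_z]
      exact kord_pos hκ
  obtain ⟨r, hr, hr1, hr2, hr3⟩ := flat_lb_b (D := D) (J := univ) hκ hω0 hω
    (q := fun ξ => (q ξ).1) (fun ξ _ => (q ξ).2) (fun ξ hξ => (hfl ξ hξ.le).1)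
    (fun ξ η h4 h5 => hanti ξ η h4 h5.le) h3 h1 h2 hY1 hYl
    (by
      intro ξ hξ j hj
      obtain ⟨s', c1, c2, c3⟩ := (hR ξ hξ).2.2 j hj
      have hξ1 : ξ + 1 < ω₁ := hωl ξ hξ
      refine ⟨ξ + 1, hξ1, (le_def.1 (hanti ξ (ξ + 1) (lt_add_one ξ).le hξ1.le)).2.2.1 hj,
        s'.len, c1.trans (h1 _ hξ1), ?_⟩
      have hYs : Y.res s'.len = s' := by
        have hlen : (Y.res s'.len).len = s'.len := by
          rw [res_len, hY1]
          exact min_eq_right (c1.trans (h1 _ hξ1)).le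
        refine Sq.ext' hlen ?_
        intro i hi
        rw [hlen] at hi
        rw [res_val hi]
        have hξ2 : ξ + 1 + 1 < ω₁ := hωl _ hξ1
        exact hZ.uniq (q (ξ + 1 + 1)) (hqp _ hξ2.le) i _ _ (hYd (ξ + 1) hξ1 i (hi.trans c1))
          (hZ.lower i _ (hanti (ξ + 1) (ξ + 1 + 1) (lt_add_one _).le hξ2.le) (c2 i hi))
      rw [hYs]
      exact c3)
  have hr0 : (⟨r, hr⟩ : PT κ D) ≤ q 0 := hr3 0 hω0
  refine ⟨⟨r, hr⟩, hr0.trans (hqp 0 hω0.le), Y, hYl, ?_, ?_⟩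
  · intro i hi
    rw [hY1] at hi
    obtain ⟨ξ, hξ, h4⟩ := h2 i hi
    exact hZ.lower i _ (show (⟨r, hr⟩ : PT κ D) ≤ q (ξ + 1) from hr3 _ (hωl ξ hξ)) (hYd ξ hξ i h4)
  · intro r' hr' hT
    have h4 : r.ht ≤ r'.1.ht := (le_def.1 (show r'.1 ≤ r from hr')).1
    have h5 := hT r' le_rfl H hS (by rw [hY1]) (by rw [← hr1]; exact h4)
    apply h5
    rw [res_of_le (by rw [hY1]), (le_def.1 (show r'.1 ≤ r from hr')).2.1 H hS (by rw [hr1]), hr2 hS]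

end Pool.Agent.H40.IS
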