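/-
FINAL THEOREM of part F (Main).  Imports M4a, MC, KNode only.  About 200 lines.
PROOFS.
emb_of_handled: with j from `handled`, Pi x s = {r | (x, s) ∈ (r.1.d j).pi}.
 lower: (x,s) ∈ (r.d j).pi gives j ∈ r.supp (Base.nd).
 tot: r ≤ p; r.res j ≤ p.res j = p.1 = (D j).c (rres_mono, rres_self as p.supp ⊆ Iio j): add_supp: r1 ≤ r with j ∈ supp.
  FrT (PP κ D j) (D j).A (D j).B x (r1.res j): first part from FrP.  Second: let q ∈ PP κ D j, q ≤ r1.res j; r2 = am j q r1 (amj; PP κ D j =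
  PJ κ D (Iio j)), r2 ≤ r1 ≤ r, r2.res j = q.  q ∈ (D j).A n v v' iff r2.res j ∈ (D j).A n v v' iff r2 ∈ A n v v' iff (FrP at r2) r2 ∈ B n w w' iff
  q ∈ (D j).B n w w' (v, v', w, w' < κ.ord by Pr_lt as x is bounded).  add_node: r3 ≤ r1 and s.
 mem: DatOK.len, bdd: s.len = x.len, Lt κ.ord s.  r ∈ Ts s: let q ≤ r, ε ∈ S, ε ≤ s.len, ε ≤ q.ht and s.res ε = q.b ε: (x,s) ∈ (q.d j).pi,
  ε ≤ s.len ≤ (q.d j).h, so (q.b ε).res a ∈ (q.d j).F for some a < ε (sl), but (s.res ε).res a = s.res a is in ran pi (cl): dis.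
 mono: (x,s), (y,t) ∈ (r.d j).pi, y.res x.len = x: (y.res x.len, t.res x.len) ∈ pi (cl), so t.res x.len = s (inj).
main: D, en from exists_D with dec from exists_dec; distJ; nobranch with good_D; for (4) by cases on whether some q ≤ p has an
 isomorphism name.
-/
import Pool.Agent.H40.IS.M4a
import Pool.Agent.H40.IS.MC
import Pool.Agent.H40.IS.KNode

namespace Pool.Agent.H40.IS
open Cardinal Ordinal Set
universe u
variable {κ : Cardinal.{u}}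

/-- `p` forces that `x` is a node of `T(A,B)` -/
def FrP {D : Ordinal.{u} → Tri.{u}} (A B : ℕ → Ordinal.{u} → Ordinal.{u} → Set (PT κ D)) (x : Nd.{u})
    (p : PT κ D) : Prop :=
  (∀ v w v' w', Pr x v w → Pr x v' w' → (v = v' ↔ w = w')) ∧
  ∀ n v w v' w', Pr x v w → Pr x v' w' → ∀ q ≤ p, (q ∈ A n v v' ↔ q ∈ B n w w')

/-- `p` forces that `Pi` is a length preserving and order preserving map from `T(A,B)` to `T*` -/
structure EmbName {D : Ordinal.{u} → Tri.{u}} (p : PT κ D)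
    (A B : ℕ → Ordinal.{u} → Ordinal.{u} → Set (PT κ D)) (Pi : Nd.{u} → So.{u} → Set (PT κ D)) :
    Prop where
  lower : ∀ x s, IsLowerSet (Pi x s)
  tot : ∀ x, Lt κ.ord x → ∀ r ≤ p, FrP A B x r → ∃ r' ≤ r, ∃ s, r' ∈ Pi x s
  mem : ∀ x s, ∀ r ≤ p, r ∈ Pi x s → s.len = x.len ∧ Lt κ.ord s ∧ r ∈ Ts κ D s
  mono : ∀ x y s t, x.len ≤ y.len → y.res x.len = x → ∀ r ≤ p, r ∈ Pi x s → r ∈ Pi y t →
    t.res s.len = s

private theorem main_supp {D : Ordinal.{u} → Tri.{u}} {r : PT κ D} {j : Ordinal.{u}} {x : Nd.{u}}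
    {s : So.{u}} (h : (x, s) ∈ (r.1.d j).pi) : j ∈ r.1.supp := by
  by_contra hj
  have h1 : (r.1.d j) = default := r.2.1.1.nd j hj
  rw [h1] at h
  exact absurd h (notMem_empty _)

private theorem main_lower {D : Ordinal.{u} → Tri.{u}} {r q : PT κ D} {j : Ordinal.{u}} {x : Nd.{u}}
    {s : So.{u}} (h : (x, s) ∈ (r.1.d j).pi) (hq : q ≤ r) : (x, s) ∈ (q.1.d j).pi := by
  have hq' : q.1 ≤ r.1 := hq
  exact (hq'.2.2.2 j (main_supp h)).1 h

theorem emb_of_handled (hκ : κ.IsInaccessible) {D : Ordinal.{u} → Tri.{u}} {p : PT κ D}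
    {A B : ℕ → Ordinal.{u} → Ordinal.{u} → Set (PT κ D)} {j : Ordinal.{u}}
    (hj : p.1.supp ⊆ Iio j) (hc : (D j).c = p.1)
    (h : ∀ n, ∀ x < κ.ord, ∀ y < κ.ord, ∀ r : PT κ D,
        (r.1.res j ∈ (D j).A n x y ↔ r ∈ A n x y) ∧ (r.1.res j ∈ (D j).B n x y ↔ r ∈ B n x y)) :
    ∃ Pi, EmbName p A B Pi := by
  refine ⟨fun x s => {r : PT κ D | (x, s) ∈ (r.1.d j).pi}, ?_, ?_, ?_, ?_⟩
  · -- lower
    intro x s a b hba ha
    exact main_lower ha hba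
  · -- tot
    intro x hx r hrp hF
    have hrc : r.1.res j ≤ (D j).c := by
      rw [hc, ← rres_self p.2.1.1 hj]
      exact rres_mono hrp j
    obtain ⟨q, hq, hqr, hjq⟩ := add_supp hκ r.2 (mem_univ j) hrc
    have hT : FrT (PP κ D j) (D j).A (D j).B x (q.res j) := by
      refine ⟨hF.1, fun n v w v' w' h1 h2 q' hq' hq'le => ?_⟩
      rw [PP_eq_PJ] at hq'
      obtain ⟨hv, hw⟩ := Pr_lt (In_of_Lt hx) h1
      obtain ⟨hv', hw'⟩ := Pr_lt (In_of_Lt hx) h2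
      have hs : (⟨q', hq'⟩ : QT κ D j) ≤ prj hκ D j ⟨q, hq⟩ := hq'le
      have e1 : (amj hκ D j ⟨q', hq'⟩ ⟨q, hq⟩).1.res j = q' := congrArg Subtype.val (prj_amj hκ hs)
      have e2 : amj hκ D j ⟨q', hq'⟩ ⟨q, hq⟩ ≤ r := (amj_le hκ hs).trans hqr
      have e3 := (h n v hv v' hv' (amj hκ D j ⟨q', hq'⟩ ⟨q, hq⟩)).1
      have e4 := (h n w hw w' hw' (amj hκ D j ⟨q', hq'⟩ ⟨q, hq⟩)).2
      rw [e1] at e3 e4
      exact e3.trans ((hF.2 n v w v' w' h1 h2 _ e2).trans e4.symm)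
    obtain ⟨q2, hq2, hq2q, y, hy⟩ := add_node hκ hq hjq hx hT
    exact ⟨⟨q2, hq2⟩, hq2q.trans hqr, y, hy⟩
  · -- mem
    intro x s r _ hr
    have hr' : (x, s) ∈ (r.1.d j).pi := hr
    have hok := r.2.1.1.ok j (main_supp hr')
    obtain ⟨hl1, hl2⟩ := hok.len x s hr'
    obtain ⟨γ, hγ, hγ1, _⟩ := hok.bdd
    refine ⟨hl1.symm, ⟨γ, hγ, (hγ1 x s hr').2⟩, ?_⟩
    intro q hq ε hε hεs _ heq
    have hq' := main_lower hr' hq
    have hok' := q.2.1.1.ok j (main_supp hq')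
    obtain ⟨a, ha, haF⟩ := hok'.sl ε hε (hεs.trans (hok'.len x s hq').2)
    rw [← heq, res_res_of_le s ha.le] at haF
    exact hok'.dis _ _ (hok'.cl x s a hq') haF
  · -- mono
    intro x y s t _ hyx r _ hs ht
    have hs' : (x, s) ∈ (r.1.d j).pi := hs
    have ht' : (y, t) ∈ (r.1.d j).pi := ht
    have hok := r.2.1.1.ok j (main_supp hs')
    have h1 := hok.cl y t x.len ht'
    rw [hyx] at h1
    have h2 := (hok.inj x s x (t.res x.len) hs' h1).1 rfl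
    rw [← (hok.len x s hs').1]
    exact h2.symm

/-- the result of part F: (1) distributivity, (2) T* is given by regular sets, (3) no branch, (4) isomorphism or embedding -/
theorem main (hκ : Lst κ) : ∃ D : Ordinal.{u} → Tri.{u},
    Nonempty (PT κ D) ∧ Dist κ (PT κ D) ∧ (∀ s, Reg (Ts κ D s)) ∧
    (∀ (p : PT κ D) (Z : Ordinal.{u} → Ordinal.{u} → Set (PT κ D)), FnName κ p Z →
      ∃ q ≤ p, ∃ s : So.{u}, Lt κ.ord s ∧ (∀ i < s.len, q ∈ Z i (s.val i)) ∧ ∀ r ≤ q, r ∉ Ts κ D s) ∧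
    ∀ (p : PT κ D) (A B : ℕ → Ordinal.{u} → Ordinal.{u} → Set (PT κ D)),
      StrName κ p A → StrName κ p B →
      (∃ q ≤ p, ∃ H, IsoName κ q A B H) ∨ ∃ Pi, EmbName p A B Pi := by
  obtain ⟨dec, hdec, hdec2⟩ := exists_dec.{u}
  obtain ⟨D, en, hD, hen⟩ := exists_D hκ.1 dec hdec
  refine ⟨D, ?_, distJ hκ.1 D univ, Ts_reg, ?_, ?_⟩
  · have h1 := bare_mem (D := D) hκ.1 (kord_pos hκ.1) (b := fun ε => mk ε (fun _ => 0))
      (fun ε _ hε => const_ok hκ.1 (lt_of_le_of_lt hε (kord_pos hκ.1)) (kord_pos hκ.1)) 0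
    rw [PP_eq_PJ] at h1
    exact ⟨⟨_, PJ_mono (subset_univ _) h1⟩⟩
  · intro p Z hZ
    exact nobranch hκ.1 (good_D hκ hdec hD (fun g k => (hen g).2 k)) hZ
  · intro p A B hA hB
    by_cases hno : ∃ q ≤ p, ∃ H, IsoName κ q A B H
    · exact Or.inl hno
    · right
      obtain ⟨j, h1, h2, h3⟩ := handled hκ hdec hdec2 hD (fun g T => (hen g).1 T) hA hB
        (fun q hq H hH => hno ⟨q, hq, H, hH⟩)
      exact emb_of_handled hκ.1 h1 h2 h3

end Pool.Agent.H40.IS
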